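import Mathlib

/-!
# The kernel bound for the cluster lemma (MP_1906c1_mp)

`hh` is the one coordinate factor of the kernel of `a(θ) e^{- i t (sy θ - E)}`, `a` the product of the
cut-offs `aa`. `wh T` is the Fourier transform of the trapezoid `w` which is `1` on `[-T, T]` and `0`
outside `[-2T, 2T]`; `x wh T x = (2 / T) ∫_T^{2T} sin (s x) ds` for all `x`.
-/

set_option autoImplicit false

open MeasureTheory

open scoped BigOperators

noncomputable section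

namespace Pool.Agent.LE.CL

/-- `∫ a(θ) e^{i (n θ - 2 t cos θ)} dθ`, `a(θ) = r² - (θ - th0)²` for `|θ - th0| ≤ r` -/
def hh (th0 r t : ℝ) (n : ℤ) : ℂ :=
  ∫ th in (th0 - r)..(th0 + r), ((r ^ 2 - (th - th0) ^ 2 : ℝ) : ℂ) *
    Complex.exp (Complex.I * ((n * th - 2 * t * Real.cos th : ℝ) : ℂ))

/-- the cut-off -/
def aa (th0 r x : ℝ) : ℝ := max (r ^ 2 - (x - th0) ^ 2) 0

/-- the Fourier transform of the trapezoid -/
def wh (T x : ℝ) : ℝ := 2 * (Real.cos (T * x) - Real.cos (2 * T * x)) / (T * x ^ 2)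

/-- KRB: the kernel bound and the main term.

Proof of the kernel bound. Let `sin θ` stay away from `- n / (2 t)` on a slightly larger interval:
then `|hh| ≤ C / T` (first derivative test), and the product is at most `C T^{-(d-1)/2 - 1}`, no
oscillation in `t` is needed. Otherwise let `sin θ* = - n / (2 t)`; the phase `φ(t) = n θ* - 2 t cos θ*`
has `φ' = - 2 cos θ*`, `φ'' = - (2 / t) sin² θ* / cos θ*`, and `A(t) = e^{- i φ(t)} hh` has
`|A| ≤ C T^{-1/2}` (second derivative test) and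
`A' = i ∫ a(θ) 2 (cos θ* - cos θ) e^{i G} = (1 / t) ∫ a(θ) tan ((θ + θ*) / 2) (e^{i G})'`, so
`|A'| ≤ C T^{-3/2}`. The second derivative test in `t` gives `T^{1/2} T^{-d/2}`.
The point: `e = |E| / 2`, all `cos θ_j = e / d` if `e ≥ 1/2`; otherwise `cos θ_d = - 1/2`,
`cos θ_j = (e + 1/2) / (d - 1)` for the others, so that `∑ sin² θ_j / cos θ_j` is bounded below.
Main term: with the Fejér kernel `f_T = (2 - 2 cos (T x)) / (T x²) ≥ 0`, `wh T = 2 f_{2T} - f_T`, and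
`c ≤ ∫ a f_T ≤ C`; so one of the scales `2^k T`, `k ≤ k₀`, is good. -/
def KrbStmt : Prop :=
  ∀ (d : ℕ) (δ : ℝ), 3 ≤ d → 0 < δ → ∃ r c C : ℝ, 0 < r ∧ r ≤ 1 / 2 ∧ 0 < c ∧ 1 ≤ C ∧
    ∀ E : ℝ, |E| ≤ 2 * d - δ → ∃ th0 : Fin d → ℝ,
      (∀ j, 2 * r ≤ th0 j ∧ th0 j ≤ Real.pi - 2 * r) ∧
      (∀ T : ℝ, 1 ≤ T → ∀ n : Fin d → ℤ,
        ‖∫ t in T..(2 * T), Complex.exp (Complex.I * ((t * E : ℝ) : ℂ)) *
          ∏ j, hh (th0 j) r t (n j)‖ ≤ C / Real.sqrt T ^ (d - 1)) ∧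
      ∀ T : ℝ, 1 ≤ T → ∃ T' : ℝ, T ≤ T' ∧ T' ≤ C * T ∧
        c ≤ ∫ θ : Fin d → ℝ, (∏ j, aa (th0 j) r (θ j)) *
          wh T' (∑ j, 2 * Real.cos (θ j) - E)

end Pool.Agent.LE.CL
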