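import Pool.Agent.LE.StmtsH

/-!
# The localized region and the zeros of the Lyapunov exponent: the zero-one law
-/

set_option autoImplicit false

open MeasureTheory ProbabilityTheory Function Filter

open scoped ENNReal BigOperators InnerProductSpace Topology

noncomputable section

namespace Pool.Agent.LE.CH

open Pool.Agent.Anderson Pool.Agent.Loc Pool.Agent.Mob Pool.Agent.Helper54.Bal

/-- ERG: the shifts of `ℤ^d` are ergodic for a product measure. Proof: `P = PP d ν`, `ε > 0`. By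
`exists_measure_symmDiff_lt_of_generateFrom_isSetRing` (Mathlib, `MeasuredSets.lean`) with the
measurable cylinders (`generateFrom_measurableCylinders`, `isSetAlgebra_measurableCylinders`) there is
a measurable `C` which depends only on the coordinates in a finite set `s` with
`P (A ∆ C) < ε`. Take `a` with `s` and `s + a` disjoint (`a = k e_1`, `k` large; `d ≥ 1`). Then
`tau a ⁻¹' C` depends on the coordinates in `s + a`, so `C` and `tau a ⁻¹' C` are independent
(`iIndepFun` of the coordinates, `iIndepFun_infinitePi`, `iIndepFun.indepFun_finset`), and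
`P (tau a ⁻¹' C) = P C` (`shiftInv_PP`). As `A = A ∩ tau a ⁻¹' A`, `|P A - (P C)²| ≤ 2 ε` and
`|P A - P C| ≤ ε`, so `|P A - (P A)²| ≤ 4 ε`. -/
def ErgStmt : Prop :=
  ∀ (d : ℕ) (ν : Measure ℝ) [IsProbabilityMeasure ν] (A : Set (Site d → ℝ)), 1 ≤ d →
    MeasurableSet A → (∀ a : Site d, tau a ⁻¹' A = A) → PP d ν A = 0 ∨ PP d ν A = 1

/-- CN2: the strong form of `CnvStmt` (replaces it). Proof: `P' = PP d (gl σ)`, `η_m = 1 / (m + 1)`,
`f V = limsup_m wt V B η_m (del 0)`, measurable (`MewStmt`), at most `1` (`WtlStmt`).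
(1) `∫⁻ f ∂P' ≥ limsup_m ∫⁻ wt V B η_m (del 0) ≥ c volume B > 0` (reverse Fatou,
`limsup_lintegral_le`; `AvlStmt`).
(2) `wt V B η (del a) = wt (tau a V) B η (del 0)` (`G_tau` in `Helper25_Mob/Shf.lean`: `G (tau a V) z
(del 0)` is the translate of `G V z (del a)`, `G_unique`). The set
`A = {V | ∀ a, f (tau a V) = 0}` is measurable and invariant, so `P' A ∈ {0, 1}` (`ErgStmt`). If
`P' A = 1` then `f = 0` almost surely, which contradicts (1). So `P' A = 0`.
(3) If `CplJ (W ω) a r` and there is no eigenvalue in `B` then `W ω ∈ A` (`LimStmt` for all `del x`).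
`P (W ⁻¹' A) = P' A = 0`. -/
def Cn2Stmt.{u} : Prop :=
  ∀ (d : ℕ) (σ a r : ℝ) (B : Set ℝ), 1 ≤ d → σ ≠ 0 → IsClosed B → 0 < r →
    B ⊆ Set.Icc (a - r / 2) (a + r / 2) → 0 < volume B →
    ∀ (Ω : Type u) [MeasurableSpace Ω] (P : Measure Ω) [IsProbabilityMeasure P]
      (W : Ω → Site d → ℝ), Measurable W → P.map W = PP d (gl σ) →
      ∀ᵐ ω ∂P, ¬ (CplJ (W ω) a r ∧ ∀ E ∈ B, ∀ φ : L2 d, IsEigen (W ω) E φ → φ = 0)

end Pool.Agent.LE.CH
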