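import Pool.Agent.LE.StmtsQF

/-!
# Diffusion down to the scale `η = |σ|^{2 d - ε}`, part 2: the functional

See `StmtsQF.lean`.
-/

set_option autoImplicit false

open MeasureTheory ProbabilityTheory Function Filter

open scoped ENNReal BigOperators Topology NNReal ComplexOrder Matrix

noncomputable section

namespace Pool.Agent.LE.QF

open Pool.Agent.Anderson hiding box mem_box card_box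
open Pool.Agent.Loc Pool.Agent.Mob Pool.Agent.Helper54.Bal
  Pool.Agent.Helper96.EXP Pool.Agent.BED
open Pool.Agent.LE.MN Pool.Agent.LE.CL Pool.Agent.LE.IR Pool.Agent.LE.QD

/-! ### D. The parts of the functional, in general -/

/-- PWU: high powers. Proof: `JalStmt`: `f = |F|²/δ²` has `LL f = (2 Re (conj v l) + ∑ |g c|²)/δ²`,
`∑ (∂_c f)² ≤ 4 f ∑ |g c|² / δ²`; so with `x = |v|/δ`: `LL f^n ≤ 2 n x^{2n-1} ℓ/δ + 2 n² x^{2n-2} γ/δ²`, and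
`x^{2n-1} ≤ 2 (x^{2n} + 4^{-n})`, `x^{2n-2} ≤ 4 (x^{2n} + 4^{-n})` (cases `x ≥ 1/2`, `x < 1/2`). -/
def PwuStmt : Prop :=
  ∀ (ι : Type) [Fintype ι] [DecidableEq ι] (q : ℝ × (ι → ℝ)) (κ : Type) [Fintype κ]
    (F : κ → ℝ × (ι → ℝ) → ℂ) (v l : κ → ℂ) (g : κ → ι → ℂ) (δ ℓ γ : ℝ) (n : ℕ), 0 < δ → 0 ≤ ℓ →
    0 ≤ γ → 1 ≤ n → (∀ k, HJ (F k) q (v k) (g k) (l k)) → (∀ k, ‖l k‖ ≤ ℓ) →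
    (∀ k, ∑ c, ‖g k c‖ ^ 2 ≤ γ) →
      ∃ (g' : ι → ℝ) (l' : ℝ), HJ (fun r => ∑ k, (‖F k r‖ ^ 2 / δ ^ 2) ^ n) q
        (∑ k, (‖v k‖ ^ 2 / δ ^ 2) ^ n) g' l' ∧
        l' ≤ (4 * n * ℓ / δ + 8 * n ^ 2 * γ / δ ^ 2) *
          (∑ k, (‖v k‖ ^ 2 / δ ^ 2) ^ n + Fintype.card κ * (1 / 4) ^ n)

/-- YTU: the part of `Y`. Proof: `YtjStmt`. `P = v v^*`. `Re tr (P^{n-1} (- (1/τ)(v - v v)) v^*) =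
- (1/τ) (tr P^n - Re tr (P^{n-1} v v v^*))`, and `P^{n-1} v v v^* = P^{n-1} v P`,
`|tr (P^{n-1} v P)| ≤ |v| tr P^n ≤ tr P^n`: the drift part is `≤ 0`.
`|tr (P^{n-1} e v^*)| = |tr (e v^* P^{n-1})| ≤ ε tr (P^{n - 1/2})` (singular values `s_i` of `v`:
`≤ ε ∑ s_i^{2n-1}`). With `x_i = s_i / ε₁` the inequalities of `PwuStmt`. -/
def YtuStmt : Prop :=
  ∀ (ι : Type) [Fintype ι] [DecidableEq ι]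
    (q : ℝ × (ι → ℝ)) (X : Type) [Fintype X] [DecidableEq X]
    (F : ℝ × (ι → ℝ) → Matrix X X ℂ) (v e : Matrix X X ℂ) (g : ι → Matrix X X ℂ)
    (τ ε ε₁ ν : ℝ) (n : ℕ), 0 < τ → 0 ≤ ε → 0 < ε₁ → 0 ≤ ν → 1 ≤ n →
    HM F q v g (-(((1 / τ : ℝ) : ℂ) • (v - v * v)) + e) →
    (∀ u : X → ℂ, n2 (v *ᵥ u) ≤ n2 u) → (∀ u : X → ℂ, n2 (e *ᵥ u) ≤ ε ^ 2 * n2 u) →
    (∀ u : X → ℂ, ∑ c, n2 (g c *ᵥ u) ≤ ν * n2 u) →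
    (∀ u : X → ℂ, ∑ c, n2 ((g c)ᴴ *ᵥ u) ≤ ν * n2 u) →
      ∃ (g' : ι → ℝ) (l' : ℝ),
        HJ (fun r => (Matrix.trace ((F r * (F r)ᴴ) ^ n)).re / ε₁ ^ (2 * n)) q
          ((Matrix.trace ((v * vᴴ) ^ n)).re / ε₁ ^ (2 * n)) g' l' ∧
        l' ≤ (4 * n * ε / ε₁ + 8 * n ^ 2 * ν / ε₁ ^ 2) *
          ((Matrix.trace ((v * vᴴ) ^ n)).re / ε₁ ^ (2 * n) + Fintype.card X * (1 / 4) ^ n)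

/-- LMU: the part of `Λ`. Proof: `f = Λ / Λs(t)`: `LL f ≤ ρ` (the term with `Λs'` is `≤ 0`),
`∑ (∂_c f)² ≤ f ρ`, `ρ = (c/κ) (1/L₀ + (f/L₀)^{1/2} + ϵ f)`. So `LL f^n ≤ n² f^{n-1} ρ`, and the
inequalities of `PwuStmt` with `x² = f`, `1/L₀ ≤ L₀^{-1/2}`. -/
def LmuStmt : Prop :=
  ∀ (ι : Type) [Fintype ι] [DecidableEq ι] (q : ℝ × (ι → ℝ)) (X : Type) [Fintype X]
    (F : X → ℝ × (ι → ℝ) → ℝ) (v l : X → ℝ) (g : X → ι → ℝ) (Ls : ℝ → ℝ) (c κ L L₀ ϵ : ℝ)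
    (n : ℕ), 0 ≤ c → 0 < κ → 0 < L → 1 ≤ L₀ → 0 ≤ ϵ → 1 ≤ n →
    (∀ a, HJ (F a) q (v a) (g a) (l a)) → ContDiffAt ℝ 2 Ls q.1 → Ls q.1 = L →
    0 ≤ deriv Ls q.1 → (∀ a, 0 ≤ v a) →
    (∀ a, l a ≤ c / κ * (L / L₀ + Real.sqrt (L * v a / L₀) + ϵ * v a)) →
    (∀ a, ∑ c, g a c ^ 2 ≤ v a * (c / κ * (L / L₀ + Real.sqrt (L * v a / L₀) + ϵ * v a))) →
      ∃ (g' : ι → ℝ) (l' : ℝ), HJ (fun r => ∑ a, (F a r / Ls r.1) ^ n) q (∑ a, (v a / L) ^ n) g' l' ∧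
        l' ≤ 6 * n ^ 2 * (c / κ) * (1 / Real.sqrt L₀ + ϵ) *
          (∑ a, (v a / L) ^ n + Fintype.card X * (1 / 4) ^ n)

/-- WTU: the part of `W`. Proof: `A = e₀ + τ S`, `B = v + P0 + ϖ`, `W = B⁻¹`, `R = A⁻¹ W`. Jets (`JmaStmt`):
`∂_t A⁻¹ = A⁻¹ S A⁻¹` (`τ' = - 1`), `∂_c W = - W g_c W`, `LL W = - W l W + ∑ W g_c W g_c W`. With
`Y = A^{-1/2} W A^{-1/2}`: `tr R^k = tr Y^k`, and the jet of `tr R^p` is `p tr (Y^{p-1} Y_l) +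
(p/2) ∑_c ∑_i tr (Y_c Y^i Y_c Y^{p-2-i})` with `Y_c = - A^{-1/2} W g_c W A^{-1/2}`,
`Y_l = S A⁻¹ Y + A^{-1/2} (LL W) A^{-1/2}`. By `WabStmt` `W ≤ A`, i.e. `Y ≤ 1`. `W` commutes with `P0`,
`v P0 = 0`: `W v W = W - P0/(1+ϖ)² - ϖ W²`, `W v² W ≤ 1 - P0`, `ϖ W² ≤ δ W` (`ϖ W ≤ ϖ A ≤ δ`). So
`- W l W ≤ - (1/τ) ((1 - δ) W v W - W v² W) ≤ (1/τ) (- (1 - 2 δ) W + 1)`. `g_c W g_c ≤ g_c A g_c`, so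
`∑ W g_c W g_c W ≤ ν W v W ≤ ν W`. `tr (Y^{p-1} S A⁻¹ Y) = (1/τ) tr ((1 - e₀ A⁻¹) Y^p)`. Together
`tr (Y^{p-1} Y_l) ≤ (2 δ/τ + ν) tr Y^p + (1/τ) tr (A⁻¹ (Y^{p-1} - e₀ Y^p))`, and `y^{p-1} - e₀ y^p ≤
e₀^{-(p-1)}`, `A⁻¹ ≤ 1/e₀`. Second order: `TriStmt`: at most `(p²/2) ∑_c tr (Y^{p-2} Y_c²)`,
`∑ Y_c² = A^{-1/2} W (∑ g_c W A⁻¹ W g_c) W A^{-1/2}`, `W A⁻¹ W ≤ W`, so `≤ ν Y`; at most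
`(p²/2) ν tr Y^{p-1}`, `y^{p-1} ≤ e₀ y^p + e₀^{-(p-1)}`. -/
def WtuStmt : Prop :=
  ∀ (X : Type) [Fintype X] [DecidableEq X]
    (q : ℝ × (X → ℝ)) (F : ℝ × (X → ℝ) → Matrix X X ℝ) (ta : ℝ → ℝ) (v l S : Matrix X X ℝ)
    (g : X → Matrix X X ℝ) (e₀ ϖ δ ν τ : ℝ) (p : ℕ), HM F q v g l → ContDiffAt ℝ 2 ta q.1 →
    ta q.1 = τ → deriv ta q.1 = -1 → 0 < τ → 2 ≤ p → 1 ≤ e₀ → 0 < ϖ → 0 ≤ δ → δ ≤ 1 → 0 ≤ ν →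
    (∀ a b, v a b = v b a) → (∀ f, 0 ≤ qf v f) → (∀ a, ∑ b, v a b = 0) →
    (∀ a b, l a b = l b a) → (∀ a, ∑ b, l a b = 0) →
    (∀ c a b, g c a b = g c b a) → (∀ c a, ∑ b, g c a b = 0) →
    (∀ a b, S a b = S b a) → (∀ f, 0 ≤ qf S f) → (∀ a, ∑ b, S a b = 0) →
    (∀ f : X → ℝ, ((1 - δ) * qf v f - ∑ a, (v *ᵥ f) a ^ 2) / τ ≤ qf l f) →
    (∀ f : X → ℝ, ∑ c, qf (e₀ • (1 : Matrix X X ℝ) + τ • S) (g c *ᵥ f) ≤ ν * qf v f) →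
    (∀ f : X → ℝ, ϖ * qf (e₀ • (1 : Matrix X X ℝ) + τ • S) f ≤ δ * ∑ a, f a ^ 2) →
    Matrix.trace (((e₀ • (1 : Matrix X X ℝ) + τ • S)⁻¹ *
      (v + P0 X + ϖ • (1 : Matrix X X ℝ))⁻¹) ^ p) ≤ 1 →
      ∃ (g' : X → ℝ) (l' : ℝ),
        HJ (fun r => Matrix.trace (((e₀ • (1 : Matrix X X ℝ) + ta r.1 • S)⁻¹ *
            (F r + P0 X + ϖ • (1 : Matrix X X ℝ))⁻¹) ^ p)) q
          (Matrix.trace (((e₀ • (1 : Matrix X X ℝ) + τ • S)⁻¹ *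
            (v + P0 X + ϖ • (1 : Matrix X X ℝ))⁻¹) ^ p)) g' l' ∧
        l' ≤ (p * (2 * δ / τ + ν) + p ^ 2 * ν * e₀) *
          Matrix.trace (((e₀ • (1 : Matrix X X ℝ) + τ • S)⁻¹ *
            (v + P0 X + ϖ • (1 : Matrix X X ℝ))⁻¹) ^ p) +
          Fintype.card X * (1 / e₀) ^ p * (p / τ + p ^ 2 * ν * e₀)

/-! ### E. The functional on the torus -/

/-- the state of the flow at a point with `U < 1` -/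
structure Goo {d M : ℕ} [NeZero M] (D : Dat d M) (q : ℝ × (Tor d M → ℝ)) (κ τ C₀ : ℝ) : Prop where
  hκ : κ = D.kp q.1 ∧ τ = D.ta q.1 ∧ D.η ≤ κ ∧ κ ≤ D.w ∧ 0 < τ ∧ τ ≤ C₀ * κ ∧ κ ≤ C₀ * τ
  hG : GdM (D.G q) (D.mu q) D.nr κ τ D.δ D.N C₀
  hu : IsUnit (1 - D.Y q).det
  hT : ∀ a, ∑ b, ‖D.Th q a b‖ ≤ C₀
  hφ : ∀ a, ‖D.ph q a‖ ≤ D.δ
  hμ : ∀ a, D.mu q a = D.ph q a - τ * (BB (D.G q) *ᵥ D.ph q) a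
  hL : ∀ a, D.La q a ≤ D.Ls q.1
  hB : ∀ u : Tor d M → ℂ, n2 (BB (D.G q) *ᵥ u) ≤ (D.ε₁ / τ) ^ 2 * n2 u
  hA : ∀ f, qf (D.A q.1)⁻¹ f ≤ qf (D.X q + P0 (Tor d M) + D.ϖ • (1 : Matrix (Tor d M) (Tor d M) ℝ)) f
  h5 : D.U5 q ≤ 1
  hK : ∀ f : Tor d M → ℝ, D.Pl *ᵥ f = 0 →
    τ * qf (KK (D.G q)) f ≤ (C₀ * D.δ + (D.e₀ - 1)) * ∑ b, f b ^ 2

/-- NNU: the parts are nonnegative. Proof: `U1`, `U2` clear; `U3`: the trace of a power of a positive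
semidefinite matrix; `U4`: `Ls > 0`; `U5`: `WabStmt` (`τ > 0`, `X = τ Dl K ≥ 0` because
`qf (Dl K) f = (1/2) ∑ K a b (f a - f b)²`). `kp t > 0` for `t < T + η / Im m`. -/
def NnuStmt : Prop :=
  ∀ (d M : ℕ) [NeZero M] (D : Dat d M) (c₁ C₁ c₀ : ℝ) (k₀ : ℕ) (q : ℝ × (Tor d M → ℝ)),
    0 < c₁ → Adm D c₁ C₁ c₀ k₀ → 0 < D.kp q.1 →
      0 ≤ D.U1 q ∧ 0 ≤ D.U2 q ∧ 0 ≤ D.U3 q ∧ 0 ≤ D.U4 q ∧ 0 ≤ D.U5 q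

/-- RSJ: the resolvent. Proof: (1) `hz V z` has the jet `(hz, E_c, m)` at `(t, V)` (the derivative of
`- zt` is `m`); `JmaStmt` (inverse): `∂_c G = - G E_c G`, `LL G = - m G G + ∑_c G E_c G E_c G = G μ G`.
(2) symmetry, (3) `G - G^* = 2 i κ G G^*`. (4) `τ' = - 1`, `κ' = - Im m`, bounds. -/
def RsjStmt : Prop :=
  ∀ (d M : ℕ) [NeZero M] (D : Dat d M) (c₁ C₁ c₀ : ℝ) (k₀ : ℕ)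
    (q : ℝ × (Tor d M → ℝ)), 0 < c₁ → Adm D c₁ C₁ c₀ k₀ → 0 < D.kp q.1 →
      JHyp q D.G D.ta (D.G q) D.m (D.ta q.1) ∧
      (∀ a b, ((D.kp q.1 : ℝ) : ℂ) * ∑ c, D.G q a c * (starRingEnd ℂ) (D.G q b c) =
        ((D.G q a b).im : ℂ)) ∧
      (∀ a b, D.G0 a b = D.G0 b a) ∧ D.kp q.1 = D.ta q.1 * D.m.im ∧
      (0 ≤ q.1 → q.1 ≤ D.T → D.η ≤ D.kp q.1 ∧ D.kp q.1 ≤ D.w) ∧
      ContDiffAt ℝ 2 D.Ls q.1 ∧ 0 ≤ deriv D.Ls q.1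

/-- GOD: a point with `U < 1` is good. Proof: every part is `< 1` (`NnuStmt`). `U1`: `|φ a| < δ`. `U2`:
`|Xh a b| < δ`. `U3`: `tr (Y Y^*)^j ≥ |Y|^{2j}`, so `|Y| < ε₁ < 1`, `1 - Y` is invertible, `μ = (1 - Y) φ`.
`U4`: `La < Ls`. `GdcStmt`, `ThbStmt` (rows of `Y`: `τ ∑ |G a b|² ≤ 1 + C₀ δ`; `(1 + s)^{k₀} ≤ 2` for small
`c₀`). `U5 ≤ 1`: `WabStmt`. `hK`: for `Pl f = 0`: `∑ f = 0`, `S f = S Pl f = 0`, so `qf A⁻¹ f =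
∑ f² / e₀`, and `qf X f = τ ∑ k_a f a² - τ qf K f ≤ (1 + C δ) ∑ f² - τ qf K f`; `1 - 1/e₀ ≤ e₀ - 1`,
`ϖ ≤ δ`. -/
def GodStmt : Prop :=
  ∀ (c₁ C₁ : ℝ) (k₀ : ℕ), 0 < c₁ → 1 ≤ C₁ → ∃ c₀ C₀ : ℝ, 0 < c₀ ∧ c₀ ≤ 1 / 2 ∧ 1 ≤ C₀ ∧
      ∀ (d M : ℕ) [NeZero M] (D : Dat d M) (q : ℝ × (Tor d M → ℝ)), Adm D c₁ C₁ c₀ k₀ → 0 ≤ q.1 →
        q.1 ≤ D.T → D.U q < 1 → Goo D q (D.kp q.1) (D.ta q.1) C₀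

/-- UPA: the parts of `φ` and `Xh`. Proof: `JtpStmt`, `PhbStmt`, `JtxStmt`, `XhbStmt` with `Λ = Ls`
(`δ² N + δ⁴/κ ≤ Ls`, as `L₀ ≥ 1`), `PwuStmt` with `ℓ = C (δ²/κ + (Ls/κ)^{1/2})`, `γ = C Ls`. `κ Ls ≤ ch`
(`η ≤ κ ≤ w`), so `(Ls/κ)^{1/2} ≤ ch^{1/2} / κ`, `Ls ≤ ch / κ`: the rate is at most
`(C/κ) (j (δ + ch^{1/2}/δ) + j² ch/δ²) ≤ C aN / κ`. -/
def UpaStmt : Prop :=
  ∀ (c₁ C₁ C₀ : ℝ) (k₀ : ℕ), 0 < c₁ → 1 ≤ C₁ → 1 ≤ C₀ → ∃ C : ℝ, 1 ≤ C ∧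
      ∀ (d M : ℕ) [NeZero M] (D : Dat d M) (c₀ κ τ : ℝ) (q : ℝ × (Tor d M → ℝ)),
        Adm D c₁ C₁ c₀ k₀ → 0 ≤ q.1 → q.1 ≤ D.T → Goo D q κ τ C₀ →
          ContDiffAt ℝ 2 D.U1 q ∧ ContDiffAt ℝ 2 D.U2 q ∧
          LL D.U1 q ≤ C * D.aN / κ * (D.U1 q + ((M : ℝ) ^ d) ^ 2 * (1 / 4) ^ D.j) ∧
          LL D.U2 q ≤ C * D.aN / κ * (D.U2 q + ((M : ℝ) ^ d) ^ 2 * (1 / 4) ^ D.j)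

/-- UPB: the part of `Y`. Proof: `JtbStmt` (`LL Y = - (1/τ)(Y - Y²) + τ E_B`), `NrbStmt`:
`|τ E_B| ≤ C δ / κ`, the noise `τ² C (N/κ² + δ²/κ³) ≤ C (N + δ²/κ) ≤ C (N w + δ²) / κ`; `YtuStmt`. -/
def UpbStmt : Prop :=
  ∀ (c₁ C₁ C₀ : ℝ) (k₀ : ℕ), 0 < c₁ → 1 ≤ C₁ → 1 ≤ C₀ → ∃ C : ℝ, 1 ≤ C ∧
      ∀ (d M : ℕ) [NeZero M] (D : Dat d M) (c₀ κ τ : ℝ) (q : ℝ × (Tor d M → ℝ)), c₀ ≤ 1 / 2 →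
        Adm D c₁ C₁ c₀ k₀ → 0 ≤ q.1 → q.1 ≤ D.T → Goo D q κ τ C₀ →
          ContDiffAt ℝ 2 D.U3 q ∧
          LL D.U3 q ≤ C * D.aN / κ * (D.U3 q + ((M : ℝ) ^ d) ^ 2 * (1 / 4) ^ D.j)

/-- UPC: the part of `Λ`. Proof: `JtlStmt`, `LmbStmt` with `ε₃ = C₀ δ + (e₀ - 1)`; `π₀/κ² ≤ Ls/L₀`,
`δ² (N + δ²/κ) ≤ Ls/L₀`, so `l ≤ (C/κ) (Ls/L₀ + 2 (Ls Λ/L₀)^{1/2} + (ε₃ + ε₁) Λ)`; `LmuStmt` with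
`ϵ = ε₃ + ε₁ ≤ C (ε₁ + (e₀ - 1))` (`δ ≤ ε₁`). -/
def UpcStmt : Prop :=
  ∀ (c₁ C₁ C₀ : ℝ) (k₀ : ℕ), 0 < c₁ → 1 ≤ C₁ → 1 ≤ C₀ → ∃ C : ℝ, 1 ≤ C ∧
      ∀ (d M : ℕ) [NeZero M] (D : Dat d M) (c₀ κ τ : ℝ) (q : ℝ × (Tor d M → ℝ)),
        Adm D c₁ C₁ c₀ k₀ → 0 ≤ q.1 → q.1 ≤ D.T → Goo D q κ τ C₀ →
          ContDiffAt ℝ 2 D.U4 q ∧
          LL D.U4 q ≤ C * D.aN / κ * (D.U4 q + ((M : ℝ) ^ d) ^ 2 * (1 / 4) ^ D.j)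

/-- UPD: the part of `W`. Proof: `JtbStmt`, `WfbStmt` (a): `δ' = C δ` (`≤ 1` for small `c₀`);
(b), (c) with `S a a ≤ π₀ / w`, `τ ≤ C w`: `ν = C (N + δ²/κ + π₀/κ²) ≤ (C/κ) (N w + δ² + π₀/η)`; `WtuStmt`
(`A` at the time `t` is at most `A` at the time `0`: `ϖ A ≤ δ`). The rate is at most
`(C/κ) (p δ + p² (N w + δ² + π₀/η)) ≤ C aN / κ`, the rest at most `(C/κ) (p + aN) M^d e₀^{-p}`. -/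
def UpdStmt : Prop :=
  ∀ (c₁ C₁ C₀ : ℝ) (k₀ : ℕ), 0 < c₁ → 1 ≤ C₁ → 1 ≤ C₀ → ∃ c₂ C : ℝ, 0 < c₂ ∧ 1 ≤ C ∧
      ∀ (d M : ℕ) [NeZero M] (D : Dat d M) (c₀ κ τ : ℝ) (q : ℝ × (Tor d M → ℝ)), c₀ ≤ c₂ →
        Adm D c₁ C₁ c₀ k₀ → 0 ≤ q.1 → q.1 ≤ D.T → Goo D q κ τ C₀ →
          ContDiffAt ℝ 2 D.U5 q ∧
          LL D.U5 q ≤ C * D.aN / κ * (D.U5 q + (M : ℝ) ^ d * (1 / D.e₀) ^ D.p) +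
            C * D.p / κ * ((M : ℝ) ^ d * (1 / D.e₀) ^ D.p)

/-- USM: smoothness. Proof: if `1 - Y q` is invertible then all parts are `C²` at `q` (`RsjStmt`,
`JalStmt`, `JmaStmt`; `W`: `X + P0 + ϖ > 0`; `A > 0`). If not then some `u ≠ 0` has `Y u = u`, so
`tr (Y Y^*)^j ≥ 1` at `q`, `U3 q ≥ ε₁^{-2j} ≥ 4`, and `U3` is continuous, the other parts are
nonnegative near `q` (`NnuStmt`, `kp > 0` near `q.1`). -/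
def UsmStmt : Prop :=
  ∀ (d M : ℕ) [NeZero M]
    (D : Dat d M) (c₁ C₁ c₀ : ℝ) (k₀ : ℕ) (q : ℝ × (Tor d M → ℝ)), 0 < c₁ → c₀ ≤ 1 / 2 →
    Adm D c₁ C₁ c₀ k₀ → 0 ≤ q.1 → q.1 ≤ D.T →
      (∀ᶠ r in 𝓝 q, 1 ≤ D.U r) ∨ ContDiffAt ℝ 2 D.U q

/-- UPR: the probability. Proof: `UflStmt` with `a(t) = C aN / κ`, `b(t) = C (aN + p) bN / κ`,
`κ = kp t` for `0 ≤ t ≤ T`, extended to a continuous function (`κ` replaced by `max κ η`): by `UsmStmt`,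
`NnuStmt`, `GodStmt`, `UpaStmt`, `UpbStmt`, `UpcStmt`, `UpdStmt` (`e₁ ≤ e₀`). `∫ dt / κ = log (w/η) / Im m`.
`U(0)`: `φ = 0`, `Xh = 0`
(`hfix`), `U3 ≤ M^d 4^{-j}` (`hY`), `U4 ≤ M^d 4^{-j}` (`hL`), `U5 ≤ M^d e₁^{-p}` (`hW`, `WabStmt`), so
`U(0) ≤ bN`. -/
def UprStmt : Prop :=
  ∀ (c₁ C₁ : ℝ) (k₀ : ℕ), 0 < c₁ → 1 ≤ C₁ → ∃ c₀ C : ℝ, 0 < c₀ ∧ c₀ ≤ 1 / 2 ∧ 1 ≤ C ∧
      ∀ (d M : ℕ) [NeZero M] (D : Dat d M) (v : ℝ≥0), Adm D c₁ C₁ c₀ k₀ → (v : ℝ) = D.T →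
        gau d M v {V | 1 ≤ D.U (D.T, V)} ≤
          ENNReal.ofReal (Real.exp (C * D.aN * (1 + Real.log (D.w / D.η))) *
            (C * (1 + D.aN + D.p) * (1 + Real.log (D.w / D.η)) * D.bN))

/-- OUT: the result at the final time. Proof: `GodStmt` at `(T, V)`: `kp T = η`, `zt T = E + i η`,
`τ = η / Im m`. Diagonal: `Im G(x, x) ≥ Im m - C δ`. Mass: `f` = the indicator of `C'`: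
`∑_{x, y ∈ C'} K x y = ∑_{x ∈ C'} k_x - qf (Dl K) f ≤ (1/τ) ((1 + C δ) |C'| - qf X f)`, `qf X f ≥
qf A⁻¹ f - |C'|²/M^d - ϖ |C'|`, and `A⁻¹ ≥ 1/e₀ - (τ/e₀²) S` (`(e₀ + x)⁻¹ ≥ 1/e₀ - x/e₀²`). -/
def OutStmt : Prop :=
  ∀ (c₁ C₁ : ℝ) (k₀ : ℕ), 0 < c₁ → 1 ≤ C₁ → ∃ c₀ C : ℝ, 0 < c₀ ∧ c₀ ≤ 1 / 2 ∧ 1 ≤ C ∧
      ∀ (d M : ℕ) [NeZero M] (D : Dat d M) (V : Tor d M → ℝ), Adm D c₁ C₁ c₀ k₀ →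
        D.U (D.T, V) < 1 →
          (∀ x, c₁ / 2 ≤ (rs V ⟨D.E, D.η⟩ x x).im) ∧
          ∀ C' : Finset (Tor d M), mss V ⟨D.E, D.η⟩ C' ≤
            C / D.η * (D.δ + (D.e₀ - 1) + C'.card / (M : ℝ) ^ d) * C'.card +
              ∑ x ∈ C', ∑ y ∈ C', D.S x y

end Pool.Agent.LE.QF
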