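import Pool.Agent.LE.DefsQX

/-!
# Diffusion down to the scale `η = exp (- |σ|^{-θ})`; `γ(σ, E) ≤ exp (- |σ|^{-θ})` in the bulk

The general rows of `StmtsQF.lean` and `StmtsQG.lean` (parts A - D) are used again. Here: the new bound
for `La`, the functional (the rows `NNU` - `OUT` have the same names and nearly the same proofs as in
`QF`: copy the file, change the namespace to `Pool.Agent.LE.QX.HXX`, open `Pool.Agent.LE.QF`), the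
numbers, the final theorems `QxfStmt`, `EigStmt`.
-/

set_option autoImplicit false

open MeasureTheory ProbabilityTheory Function Filter

open scoped ENNReal BigOperators Topology NNReal ComplexOrder Matrix

noncomputable section

namespace Pool.Agent.LE.QX

open Pool.Agent.Anderson hiding box mem_box card_box
open Pool.Agent.Loc Pool.Agent.Mob Pool.Agent.Helper54.Bal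
  Pool.Agent.Helper96.EXP Pool.Agent.BED
open Pool.Agent.LE.MN Pool.Agent.LE.CL Pool.Agent.LE.IR Pool.Agent.LE.QD Pool.Agent.LE.QF

/-- LMB: drift and gradient of `Λ(a)`. Proof: as `QF.LmbStmt`, with a simpler bound for `K³(a, a)`:
`x = K e_a`, `Λ = |x|²`, `∑ x ≤ 2/τ`; `K³(a, a) = qf K x ≤ (1/τ) (ε₃ Λ + τ qf S x + qf P0 x)`,
`qf S x ≤ (∑ x)² max S b b` (`|S b c| ≤ (S b b S c c)^{1/2}`), `qf P0 x = (∑ x)² / |X|`; so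
`K³(a, a) ≤ (ε₃/τ) Λ + (4/τ²) (max S b b + 1/(τ |X|)) ≤ (C/κ) (ε₃ Λ + π₀/κ)`. The other terms:
`|∑ conj (B a b) B a c B c b| ≤ (ε₁/τ) Λ`; `|(K E_K) a a| ≤ Λ^{1/2} (∑_b (E_K a b)²)^{1/2}`,
`∑_b (E_K a b)² ≤ 4 ∑_b K a b |(G μ G) a b|² ≤ C δ² κ^{-2} (N + δ²/κ)`. The gradient is at most
`16 Λ K³(a, a)`. -/
def LmbStmt : Prop :=
  ∀ C₀ : ℝ, 1 ≤ C₀ → ∃ C : ℝ, 1 ≤ C ∧ ∀ (X : Type) [Fintype X] [DecidableEq X]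
    (G : Matrix X X ℂ) (μ : X → ℂ) (𝒩 : X → Finset X) (S : Matrix X X ℝ)
    (κ τ δ N π₀ ε₁ ε₃ : ℝ) (a : X), GdM G μ 𝒩 κ τ δ N C₀ → 0 ≤ ε₁ → 0 ≤ ε₃ →
    (∀ a b, S a b = S b a) → (∀ f, 0 ≤ qf S f) →
    (∀ a, S a a + 1 / (κ * (Fintype.card X : ℝ)) ≤ π₀) →
    (∀ v : X → ℂ, n2 (BB G *ᵥ v) ≤ (ε₁ / τ) ^ 2 * n2 v) →
    (∀ f : X → ℝ, τ * qf (KK G) f ≤ ε₃ * ∑ b, f b ^ 2 + τ * qf S f + qf (P0 X) f) →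
      lLa G μ a ≤ C / κ * (π₀ / κ + (ε₃ + ε₁) * ∑ b, KK G a b ^ 2 +
        Real.sqrt ((∑ b, KK G a b ^ 2) * (δ ^ 2 * (N + δ ^ 2 / κ)))) ∧
      ∑ c, (2 * ∑ b, KK G a b * dK G c a b) ^ 2 ≤
        (∑ b, KK G a b ^ 2) * (C / κ * (π₀ / κ + ε₃ * ∑ b, KK G a b ^ 2))

/-! ### E. The functional on the torus -/

/-- the state of the flow at a point with `U < 1` -/
structure Goo {d M : ℕ} [NeZero M] (D : Dat d M) (q : ℝ × (Tor d M → ℝ)) (κ τ C₀ : ℝ) : Prop where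
  hκ : κ = D.kp q.1 ∧ τ = D.ta q.1 ∧ D.η ≤ κ ∧ κ ≤ D.w ∧ 0 < τ ∧ τ ≤ C₀ * κ ∧ κ ≤ C₀ * τ
  hG : GdM (D.G q) (D.mu q) D.nr κ τ D.δ D.N C₀
  hu : IsUnit (1 - D.Y q).det
  hT : ∀ a, ∑ b, ‖D.Th q a b‖ ≤ D.h
  hφ : ∀ a, ‖D.ph q a‖ ≤ D.δ
  hμ : ∀ a, D.mu q a = D.ph q a - τ * (BB (D.G q) *ᵥ D.ph q) a
  hL : ∀ a, D.La q a ≤ D.Ls q.1
  hB : ∀ u : Tor d M → ℂ, n2 (BB (D.G q) *ᵥ u) ≤ (D.ε₁ / τ) ^ 2 * n2 u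
  hA : ∀ f, qf (D.A q.1)⁻¹ f ≤ qf (D.X q + P0 (Tor d M) + D.ϖ • (1 : Matrix (Tor d M) (Tor d M) ℝ)) f
  h5 : D.U5 q ≤ 1
  hK : ∀ f : Tor d M → ℝ, τ * qf (KK (D.G q)) f ≤
    (C₀ * D.δ + (D.e₀ - 1)) * ∑ b, f b ^ 2 + τ * qf D.S f + qf (P0 (Tor d M)) f

/-- NNU: the parts are nonnegative. Proof: `U1`, `U2` clear; `U3`: the trace of a power of a positive
semidefinite matrix; `U4`: `Ls > 0`; `U5`: `WabStmt` (`τ > 0`, `X = τ Dl K ≥ 0` because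
`qf (Dl K) f = (1/2) ∑ K a b (f a - f b)²`). `kp t > 0` for `t < T + η / Im m`. -/
def NnuStmt : Prop :=
  ∀ (d M : ℕ) [NeZero M] (D : Dat d M) (c₁ C₁ c₀ : ℝ) (q : ℝ × (Tor d M → ℝ)),
    0 < c₁ → Adm D c₁ C₁ c₀ → 0 < D.kp q.1 →
      0 ≤ D.U1 q ∧ 0 ≤ D.U2 q ∧ 0 ≤ D.U3 q ∧ 0 ≤ D.U4 q ∧ 0 ≤ D.U5 q

/-- RSJ: the resolvent. Proof: (1) `hz V z` has the jet `(hz, E_c, m)` at `(t, V)` (the derivative of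
`- zt` is `m`); `JmaStmt` (inverse): `∂_c G = - G E_c G`, `LL G = - m G G + ∑_c G E_c G E_c G = G μ G`.
(2) symmetry, (3) `G - G^* = 2 i κ G G^*`. (4) `τ' = - 1`, `κ' = - Im m`, bounds. -/
def RsjStmt : Prop :=
  ∀ (d M : ℕ) [NeZero M] (D : Dat d M) (c₁ C₁ c₀ : ℝ)
    (q : ℝ × (Tor d M → ℝ)), 0 < c₁ → Adm D c₁ C₁ c₀ → 0 < D.kp q.1 →
      JHyp q D.G D.ta (D.G q) D.m (D.ta q.1) ∧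
      (∀ a b, ((D.kp q.1 : ℝ) : ℂ) * ∑ c, D.G q a c * (starRingEnd ℂ) (D.G q b c) =
        ((D.G q a b).im : ℂ)) ∧
      (∀ a b, D.G0 a b = D.G0 b a) ∧ D.kp q.1 = D.ta q.1 * D.m.im ∧
      (0 ≤ q.1 → q.1 ≤ D.T → D.η ≤ D.kp q.1 ∧ D.kp q.1 ≤ D.w) ∧
      ContDiffAt ℝ 2 D.Ls q.1 ∧ 0 ≤ deriv D.Ls q.1

/-- GOD: a point with `U < 1` is good. Proof: as `QF.GodStmt`: every part is `< 1` (`NnuStmt`). `U1`: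
`|φ a| < δ`. `U2`: `|Xh a b| < δ`. `U3`: `tr (Y Y^*)^j ≥ |Y|^{2j}`, so `|Y| < ε₁ < 1`, `1 - Y` is
invertible, `μ = (1 - Y) φ`. `U4`: `La < Ls`. `GdcStmt`, `ThbStmt` with `k₀ = k`, `s = C₀ δ` (rows of `Y`:
`τ ∑ |G a b|² ≤ 1 + C₀ δ`; `(1 + s)^k ≤ exp (C₀ k δ) ≤ 2` as `k δ ≤ c₀`). `U5 ≤ 1`: `WabStmt`. `hK`:
`qf A⁻¹ f ≤ qf X f + qf P0 f + ϖ ∑ f²`, `qf X f = τ ∑ k_a f a² - τ qf K f ≤ (1 + C δ) ∑ f² - τ qf K f`,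
and `A⁻¹ ≥ 1/e₀ - τ S` (`(e₀ + x)⁻¹ ≥ 1/e₀ - x/e₀²`, `e₀ ≥ 1`; or: `A⁻¹ - 1/e₀ + (τ/e₀²) S =
(τ²/e₀²) S A⁻¹ S ≥ 0`); `1 - 1/e₀ ≤ e₀ - 1`, `ϖ ≤ δ`. -/
def GodStmt : Prop :=
  ∀ (c₁ C₁ : ℝ), 0 < c₁ → 1 ≤ C₁ → ∃ c₀ C₀ : ℝ, 0 < c₀ ∧ c₀ ≤ 1 / 2 ∧ 1 ≤ C₀ ∧
      ∀ (d M : ℕ) [NeZero M] (D : Dat d M) (q : ℝ × (Tor d M → ℝ)), Adm D c₁ C₁ c₀ → 0 ≤ q.1 →
        q.1 ≤ D.T → D.U q < 1 → Goo D q (D.kp q.1) (D.ta q.1) C₀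

/-- UPA: the parts of `φ` and `Xh`. Proof: as `QF.UpaStmt`, with the factor `h`. `PhbStmt` for `± Θ / h`
(`QQ` is linear in `Θ`, `lph` is the sum of a linear and a quadratic term, so the two terms are bounded
by `h`, `h²` times the bound): `∑ |QQ|² ≤ C h² Λ`, `|lph| ≤ C h² (δ²/κ + (Λ/κ)^{1/2})`, `Λ = Ls`. `XhbStmt`
with `h⁴ Λ` in place of `Λ` (`h² δ²/κ ≤ (h⁴ Λ/κ)^{1/2}` because `δ⁴/κ ≤ Λ`). `PwuStmt` with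
`ℓ = C h² (δ²/κ + (Ls/κ)^{1/2})`, `γ = C h⁴ Ls`. `κ Ls ≤ ch` (`κ ≤ w`), so `(Ls/κ)^{1/2} ≤ ch^{1/2} / κ`,
`Ls ≤ ch / κ`: the rate is at most `(C/κ) (j h² (δ + ch^{1/2}/δ) + j² h⁴ ch/δ²) ≤ C aN / κ`. -/
def UpaStmt : Prop :=
  ∀ (c₁ C₁ C₀ : ℝ), 0 < c₁ → 1 ≤ C₁ → 1 ≤ C₀ → ∃ C : ℝ, 1 ≤ C ∧
      ∀ (d M : ℕ) [NeZero M] (D : Dat d M) (c₀ κ τ : ℝ) (q : ℝ × (Tor d M → ℝ)),
        Adm D c₁ C₁ c₀ → 0 ≤ q.1 → q.1 ≤ D.T → Goo D q κ τ C₀ →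
          ContDiffAt ℝ 2 D.U1 q ∧ ContDiffAt ℝ 2 D.U2 q ∧
          LL D.U1 q ≤ C * D.aN / κ * (D.U1 q + ((M : ℝ) ^ d) ^ 2 * (1 / 4) ^ D.j) ∧
          LL D.U2 q ≤ C * D.aN / κ * (D.U2 q + ((M : ℝ) ^ d) ^ 2 * (1 / 4) ^ D.j)

/-- UPB: the part of `Y`. Proof: `JtbStmt` (`LL Y = - (1/τ)(Y - Y²) + τ E_B`), `NrbStmt`:
`|τ E_B| ≤ C δ / κ`, the noise `τ² C (N/κ² + δ²/κ³) ≤ C (N + δ²/κ) ≤ C (N w + δ²) / κ`; `YtuStmt`. -/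
def UpbStmt : Prop :=
  ∀ (c₁ C₁ C₀ : ℝ), 0 < c₁ → 1 ≤ C₁ → 1 ≤ C₀ → ∃ C : ℝ, 1 ≤ C ∧
      ∀ (d M : ℕ) [NeZero M] (D : Dat d M) (c₀ κ τ : ℝ) (q : ℝ × (Tor d M → ℝ)), c₀ ≤ 1 / 2 →
        Adm D c₁ C₁ c₀ → 0 ≤ q.1 → q.1 ≤ D.T → Goo D q κ τ C₀ →
          ContDiffAt ℝ 2 D.U3 q ∧
          LL D.U3 q ≤ C * D.aN / κ * (D.U3 q + ((M : ℝ) ^ d) ^ 2 * (1 / 4) ^ D.j)

/-- UPC: the part of `Λ`. Proof: `JtlStmt`, `LmbStmt` with `ε₃ = C₀ δ + (e₀ - 1)` (`η ≤ κ`); `π₀/κ ≤ Ls/L₀`,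
`δ² (N + δ²/κ) ≤ Ls/L₀`, so `l ≤ (C/κ) (Ls/L₀ + (Ls Λ/L₀)^{1/2} + (ε₃ + ε₁) Λ)`; `LmuStmt` with
`ϵ = ε₃ + ε₁ ≤ C (ε₁ + (e₀ - 1))` (`δ ≤ ε₁`). -/
def UpcStmt : Prop :=
  ∀ (c₁ C₁ C₀ : ℝ), 0 < c₁ → 1 ≤ C₁ → 1 ≤ C₀ → ∃ C : ℝ, 1 ≤ C ∧
      ∀ (d M : ℕ) [NeZero M] (D : Dat d M) (c₀ κ τ : ℝ) (q : ℝ × (Tor d M → ℝ)),
        Adm D c₁ C₁ c₀ → 0 ≤ q.1 → q.1 ≤ D.T → Goo D q κ τ C₀ →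
          ContDiffAt ℝ 2 D.U4 q ∧
          LL D.U4 q ≤ C * D.aN / κ * (D.U4 q + ((M : ℝ) ^ d) ^ 2 * (1 / 4) ^ D.j)

/-- UPD: the part of `W`. Proof: `JtbStmt`, `WfbStmt` (a): `δ' = C δ` (`≤ 1` for small `c₀`);
(b), (c) with `S a a ≤ π₀`, `τ ≤ C κ`: `ν = C (N + δ²/κ + π₀/κ) ≤ (C/κ) (N w + δ² + π₀)`; `WtuStmt`
(`A` at the time `t` is at most `A` at the time `0`: `ϖ A ≤ δ`). The rate is at most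
`(C/κ) (p δ + p² (N w + δ² + π₀)) ≤ C aN / κ`, the rest at most `(C/κ) (p + aN) M^d e₀^{-p}`. -/
def UpdStmt : Prop :=
  ∀ (c₁ C₁ C₀ : ℝ), 0 < c₁ → 1 ≤ C₁ → 1 ≤ C₀ → ∃ c₂ C : ℝ, 0 < c₂ ∧ 1 ≤ C ∧
      ∀ (d M : ℕ) [NeZero M] (D : Dat d M) (c₀ κ τ : ℝ) (q : ℝ × (Tor d M → ℝ)), c₀ ≤ c₂ →
        Adm D c₁ C₁ c₀ → 0 ≤ q.1 → q.1 ≤ D.T → Goo D q κ τ C₀ →
          ContDiffAt ℝ 2 D.U5 q ∧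
          LL D.U5 q ≤ C * D.aN / κ * (D.U5 q + (M : ℝ) ^ d * (1 / D.e₀) ^ D.p) +
            C * D.p / κ * ((M : ℝ) ^ d * (1 / D.e₀) ^ D.p)

/-- USM: smoothness. Proof: if `1 - Y q` is invertible then all parts are `C²` at `q` (`RsjStmt`,
`JalStmt`, `JmaStmt`; `W`: `X + P0 + ϖ > 0`; `A > 0`). If not then some `u ≠ 0` has `Y u = u`, so
`tr (Y Y^*)^j ≥ 1` at `q`, `U3 q ≥ ε₁^{-2j} ≥ 4`, and `U3` is continuous, the other parts are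
nonnegative near `q` (`NnuStmt`, `kp > 0` near `q.1`). -/
def UsmStmt : Prop :=
  ∀ (d M : ℕ) [NeZero M]
    (D : Dat d M) (c₁ C₁ c₀ : ℝ) (q : ℝ × (Tor d M → ℝ)), 0 < c₁ → c₀ ≤ 1 / 2 →
    Adm D c₁ C₁ c₀ → 0 ≤ q.1 → q.1 ≤ D.T →
      (∀ᶠ r in 𝓝 q, 1 ≤ D.U r) ∨ ContDiffAt ℝ 2 D.U q

/-- UPR: the probability. Proof: `UflStmt` with `a(t) = C aN / κ`, `b(t) = C (aN + p) bN / κ`,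
`κ = kp t` for `0 ≤ t ≤ T`, extended to a continuous function (`κ` replaced by `max κ η`): by `UsmStmt`,
`NnuStmt`, `GodStmt`, `UpaStmt`, `UpbStmt`, `UpcStmt`, `UpdStmt` (`e₁ ≤ e₀`). `∫ dt / κ = log (w/η) / Im m`.
`U(0)`: `φ = 0`, `Xh = 0`
(`hfix`), `U3 ≤ M^d 4^{-j}` (`hY`), `U4 ≤ M^d 4^{-j}` (`hL`), `U5 ≤ M^d e₁^{-p}` (`hW`, `WabStmt`), so
`U(0) ≤ bN`. -/
def UprStmt : Prop :=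
  ∀ (c₁ C₁ : ℝ), 0 < c₁ → 1 ≤ C₁ → ∃ c₀ C : ℝ, 0 < c₀ ∧ c₀ ≤ 1 / 2 ∧ 1 ≤ C ∧
      ∀ (d M : ℕ) [NeZero M] (D : Dat d M) (v : ℝ≥0), Adm D c₁ C₁ c₀ → (v : ℝ) = D.T →
        gau d M v {V | 1 ≤ D.U (D.T, V)} ≤
          ENNReal.ofReal (Real.exp (C * D.aN * (1 + Real.log (D.w / D.η))) *
            (C * (1 + D.aN + D.p) * (1 + Real.log (D.w / D.η)) * D.bN))

/-- OUT: the result at the final time. Proof: `GodStmt` at `(T, V)`: `kp T = η`, `zt T = E + i η`,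
`τ = η / Im m`. Diagonal: `Im G(x, x) ≥ Im m - C δ`. Mass: `f` = the indicator of `C'`:
`∑_{x, y ∈ C'} K x y = ∑_{x ∈ C'} k_x - qf (Dl K) f ≤ (1/τ) ((1 + C δ) |C'| - qf X f)`, `qf X f ≥
qf A⁻¹ f - |C'|²/M^d - ϖ |C'|`, and `A⁻¹ ≥ 1/e₀ - (τ/e₀²) S` (`(e₀ + x)⁻¹ ≥ 1/e₀ - x/e₀²`). -/
def OutStmt : Prop :=
  ∀ (c₁ C₁ : ℝ), 0 < c₁ → 1 ≤ C₁ → ∃ c₀ C : ℝ, 0 < c₀ ∧ c₀ ≤ 1 / 2 ∧ 1 ≤ C ∧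
      ∀ (d M : ℕ) [NeZero M] (D : Dat d M) (V : Tor d M → ℝ), Adm D c₁ C₁ c₀ →
        D.U (D.T, V) < 1 →
          (∀ x, c₁ / 2 ≤ (rs V ⟨D.E, D.η⟩ x x).im) ∧
          ∀ C' : Finset (Tor d M), mss V ⟨D.E, D.η⟩ C' ≤
            C / D.η * (D.δ + (D.e₀ - 1) + C'.card / (M : ℝ) ^ d) * C'.card +
              ∑ x ∈ C', ∑ y ∈ C', D.S x y

/-! ### G. Numbers, the torus -/

/-- INI: the parameters. Proof: `s = |σ|`, `θ₀ = ε / (24 d)`, `θ = θ₀ / 8`, `T = σ²`, `m` from `MbrStmt`,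
`w = η + T Im m`, `c σ² ≤ w ≤ C σ²`; `ζ = zt 0`, `|Re ζ| ≤ 2 d - a/2` and `|Re ζ| ≥ |E| / 2` (`T |m| ≤
C σ² l ≤ s^{2-ε} / 2`, `l = log (1/s)`). `log M ≤ 3 s^{-θ}`. `k = ⌈s^{-2θ}⌉`, so `h ≤ 5 s^{-2θ}`. `δ = s^{5θ₀}`,
`ε₁ = s^{3θ₀}`, `e₀ = 1 + s^{3θ₀}`, `e₁ = 1 + s^{3θ₀}/2`, `L₀ = s^{-6θ₀}`, `j = ⌈s^{-θ₀}⌉`, `p = ⌈s^{-4θ₀}⌉`,
`J = ⌈M s^{2 - ε/(2d)}⌉` (so `J/M ≤ 2 s^{2-ε/(2d)} ≤ 1/8`), `S = mlt (sy0 cs w J)` (`InmStmt`), `cs` large,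
`π₀ = C s^{3}`: `S a a ≤ (C/w) ((J/M)^d + w² (J/M)^{d-2}) ≤ C s^{2d-2-ε/2}`, `1/(η M^d) ≤ s^4`.
`N = δ^{-4} C w^{-2/3} (1 + log M)^6` (`FrbStmt`; `nr` has at most `δ^{-4} ∑ |G₀|⁴` points), so
`N w ≤ C s^{2/3 - 21θ₀} ≤ s^{20θ₀}`; `La(0) = ∑ |G₀|⁴ ≤ N`, `Ls(0) ≥ L₀ N`. `ϖ = δ w / (C M²)`.
`M^d ε₁^{2k} ≤ exp (3 d s^{-θ} - 6 θ₀ l s^{-2θ}) ≤ 1/4`.
`hY`: `|Y(0)| ≤ τ sup |bh|`, `BqbStmt` with `r = s^{2-ε/(2d)}`: `C l ((w/r)^{1/2} + w/|Re ζ|) ≤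
C l (s^{ε/(4d)} + s^ε) ≤ s^{3θ₀}/2` (`3 θ₀ = ε/(8d)`). `hW`: `InwStmt`, `GalStmt`, and `KhbStmt` for `p ∉ low`
(`|sin (π p_i / M)| ≥ 2 J/M` for some `i`): `β = C l (w/r)^{1/2} ≤ s^{3θ₀}/8`.
`ch ≤ 3 s^{14θ₀}`; `aN ≤ C s^{θ₀/2} = C s^{4θ}`: `j h² δ`, `j h² ch^{1/2}/δ ≤ C s^{(-1-1/2+7-5)θ₀}`,
`j δ/ε₁ ≤ C s^{θ₀}`, `j² h⁴ ch/δ² ≤ C s^{(-2-1+14-10)θ₀}`, `j² (N w + δ²)/ε₁² ≤ C s^{2θ₀}`, `j² L₀^{-1/2}`,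
`j² ε₁`, `j² (e₀ - 1)`, `p δ ≤ C s^{θ₀}`, `p² (…) ≤ C s^{2θ₀}`. `log (w/η) ≤ s^{-θ}`.
`bN ≤ 4 exp (6 d s^{-θ} - s^{-8θ}/4) ≤ exp (- s^{-4θ})`.
The last part: `MssStmt` with `J₁ = ⌈M s^{-ε/4} (η w)^{1/2}⌉`, `J₁/M ≤ 2 s^{-ε/4} (η w)^{1/2}` (`1/M ≤ s⁴ η²`):
`η (1/w + w M²/J₁²) ≤ η/w + s^{ε/2}`, `η/w ≤ C s`; `|C'| (J₁/M)^d ≤ (C s^{3ε/4})^d ≤ 1`, so
`η |C'| ((J₁/M)^d/w + w (J₁/M)^{d-2}) ≤ η/w + η w (J₁/M)^{-2} ≤ C s + s^{ε/2}`. -/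
def IniStmt : Prop :=
  ∀ (d : ℕ) (a ε : ℝ), 3 ≤ d → 0 < a → 0 < ε → ε ≤ 1 → ∃ (θ c₁ C₁ : ℝ), 0 < θ ∧
    θ ≤ 1 / 100 ∧ 0 < c₁ ∧ 1 ≤ C₁ ∧ ∀ c₀ : ℝ, 0 < c₀ → ∃ c C : ℝ, 0 < c ∧ c ≤ 1 / 4 ∧ 1 ≤ C ∧
      ∀ (M : ℕ) [NeZero M] (σ E η : ℝ), σ ≠ 0 → |σ| ≤ c → |σ| ^ (2 - ε) ≤ |E| →
        |E| ≤ 2 * d - a → Real.exp (-(|σ| ^ (-θ))) ≤ η → η ≤ |σ| ^ 3 →
        1 ≤ |σ| ^ 4 * η ^ 2 * M → |σ| ^ 6 * η ^ 2 * M ≤ 1 →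
          ∃ D : Dat d M, Adm D c₁ C₁ c₀ ∧ D.E = E ∧ D.η = η ∧ D.T = σ ^ 2 ∧
            D.aN ≤ C * |σ| ^ (4 * θ) ∧ (D.p : ℝ) ≤ |σ| ^ (-1 : ℝ) ∧ D.δ ≤ |σ| ^ (4 * θ) ∧
            D.e₀ - 1 ≤ |σ| ^ (4 * θ) ∧ D.bN ≤ Real.exp (-(|σ| ^ (-(4 * θ)))) ∧
            ∀ C' : Finset (Tor d M), (C'.card : ℝ) ≤ (|σ| ^ (ε - 1) / Real.sqrt η) ^ d →
              ∑ x ∈ C', ∑ y ∈ C', D.S x y ≤ |σ| ^ (4 * θ) * C'.card / η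

/-- TOF: the torus. Proof: `IniStmt`, `UprStmt`, `OutStmt` (`c₀` = the minimum of the two). `1 + log (w/η) ≤
2 |σ|^{-θ}`, so `C aN (1 + log (w/η)) ≤ 1` for small `σ`; the probability is at most `C |σ|^{-2}
exp (- |σ|^{-4θ}) ≤ exp (- |σ|^{-2θ})`. `|C'| / M^d ≤ |σ|^{4θ}` (`η^{-1/2} ≤ η^{-2}`). -/
def TofStmt : Prop :=
  ∀ (d : ℕ) (a ε : ℝ), 3 ≤ d → 0 < a → 0 < ε → ε ≤ 1 → ∃ θ c : ℝ, 0 < θ ∧ θ ≤ 1 / 100 ∧ 0 < c ∧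
    c ≤ 1 / 4 ∧ ∀ (M : ℕ) [NeZero M] (v : ℝ≥0) (σ E η : ℝ), (v : ℝ) = σ ^ 2 → σ ≠ 0 → |σ| ≤ c →
      |σ| ^ (2 - ε) ≤ |E| → |E| ≤ 2 * d - a → Real.exp (-(|σ| ^ (-θ))) ≤ η → η ≤ |σ| ^ 3 →
      1 ≤ |σ| ^ 4 * η ^ 2 * M → |σ| ^ 6 * η ^ 2 * M ≤ 1 →
        gau d M v {V | ¬ ((∀ x, c ≤ (rs V ⟨E, η⟩ x x).im) ∧
          ∀ C' : Finset (Tor d M), (C'.card : ℝ) ≤ (|σ| ^ (ε - 1) / Real.sqrt η) ^ d →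
            mss V ⟨E, η⟩ C' ≤ |σ| ^ θ * C'.card / η)} ≤
          ENNReal.ofReal (Real.exp (-(|σ| ^ (-(2 * θ)))))

/-! ### H. The Lyapunov exponent -/

/-- CPZ: the probability of the large clusters. Proof: as `CpyStmt` (`Helper54_LQF/CPY.lean`), but without
`ClqStmt`: `GroStmt` and `ClsStmt` with the cubes of side `L = 1`, `n = 1`, `ρ = 0`, `J₁ = 0`
(`rch_zero`). `θ` = half of the `θ` of `TofStmt`, `η = exp (- |σ|^{-θ'})`. -/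
def CpzStmt : Prop :=
  ∀ (d : ℕ) (a ε : ℝ), 3 ≤ d → 0 < a → 0 < ε → ε ≤ 1 → ∃ θ c : ℝ, 0 < θ ∧ θ ≤ 1 / 100 ∧ 0 < c ∧
    c ≤ 1 / 4 ∧ ∀ σ E : ℝ, σ ≠ 0 → |σ| ≤ c → |σ| ^ (2 - ε) ≤ |E| → |E| ≤ 2 * d - a →
      ∃ (n ρ J : ℕ) (s q : ℝ), 1 ≤ s ∧ s ≤ |σ| ^ (-1 : ℝ) ∧ 1 ≤ ρ ∧
        Real.log ρ ≤ |σ| ^ (-1 : ℝ) ∧ 1 ≤ J ∧ (J : ℝ) ≤ |σ| ^ (-1 : ℝ) ∧
        1 ≤ n ∧ Real.exp (|σ| ^ (-θ)) ≤ n ∧ 0 ≤ q ∧ q * n ≤ 1 ∧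
        ∀ (N : ℕ) (b : Site d), box b ρ ⊆ box 0 N →
          PP d (gl σ) {V | ¬ n ≤ (rch V (box 0 N) E s b ρ J).card} ≤ ENNReal.ofReal q

/-- QXF: the final bound. Proof: `CpzStmt`, `CrgStmt`: `γ ≤ C J (s + l + log ρ) n^{-1/d} ≤
3 C |σ|^{-2} exp (- |σ|^{-θ} / d) ≤ exp (- |σ|^{-θ/2})`. -/
def QxfStmt : Prop :=
  ∀ (d : ℕ) (a ε : ℝ), 3 ≤ d → 0 < a → 0 < ε → ε ≤ 1 → ∃ θ c : ℝ, 0 < θ ∧ 0 < c ∧ c ≤ 1 / 4 ∧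
    ∀ σ E g : ℝ, σ ≠ 0 → |σ| ≤ c → |σ| ^ (2 - ε) ≤ |E| → |E| ≤ 2 * d - a → LyaAt d σ E g →
      g ≤ Real.exp (-(|σ| ^ (-θ)))

/-! ### I. The eigenfunctions and the quasimodes -/

/-- EGA: quasimodes on the torus. Proof: `u = G (H - z) u`, `|(H - z) u| ≤ 2 η S^{1/2}`; `P = 1_{C'}`:
`|P G v|² ≤ |P G G^* P| |v|²`, `G G^* = Im G / η` (`G - G^* = 2 i η G G^*`; `RalStmt`), the norm of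
`P Im G P` is at most its Hilbert-Schmidt norm `≤ (∑_{x, y ∈ C'} |G x y|²)^{1/2} = mss^{1/2}`. -/
def EgaStmt : Prop :=
  ∀ (d M : ℕ) [NeZero M] (V : Tor d M → ℝ) (E η B S : ℝ) (C' : Finset (Tor d M))
    (u : Tor d M → ℂ), 0 < η → mss V ⟨E, η⟩ C' ≤ B → n2 u ≤ S →
      n2 (hz V (E : ℂ) *ᵥ u) ≤ η ^ 2 * S →
        ∑ x ∈ C', ‖u x‖ ^ 2 ≤ 4 * η * Real.sqrt B * S

/-- the sum over the neighbours -/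
def nc {d : ℕ} (u : Site d → ℂ) (x : Site d) : ℂ :=
  ∑ i : Fin d, (u (x + Pi.single i 1) + u (x - Pi.single i 1))

/-- EGB: local quasimodes on the lattice. Proof: `χ(x) = min (1, max (0, 2 - |x|_∞ / L))`, `v(x) =
(χ u)(rep x)` on the torus. `(H - E₀) v = χ (H - E) u + [nc, χ] u + (E - E₀) χ u`, the commutator is
`∑_{y ~ x} (χ(y) - χ(x)) u(y)`, zero outside of `box 0 (2 L)`, its norm is at most `(2 d / L) S^{1/2} ≤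
(η/2) S^{1/2}`. `EgaStmt` for the image of `C` (at most `n` points). The neighbours on the torus are the
neighbours on the lattice for the points of `box 0 (2 L + 1)` (`2 (2 L + 1) + 1 < M`; see
`Helper72_LQD/CLS*.lean`, `Helper54_LQD/CPXb.lean` (`ti_rep`)). -/
def EgbStmt : Prop :=
  ∀ (d : ℕ), 1 ≤ d → ∀ (M : ℕ) [NeZero M] (L n : ℕ) (V : Site d → ℝ) (E E₀ η B S : ℝ)
    (u : Site d → ℂ) (C : Finset (Site d)), 0 < η → 1 ≤ L → 4 * L + 9 ≤ M → 4 * d ≤ η * L →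
    |E - E₀| ≤ η / 4 →
    (∀ C' : Finset (Tor d M), C'.card ≤ n →
      mss (fun x : Tor d M => V (0 + rep x)) ⟨E₀, η⟩ C' ≤ B) →
    ∑ x ∈ box 0 (2 * L + 1), ‖u x‖ ^ 2 ≤ S →
    ∑ x ∈ box 0 (2 * L), ‖nc u x + ((V x - E : ℝ) : ℂ) * u x‖ ^ 2 ≤ (η / 4) ^ 2 * S →
    C ⊆ box 0 L → C.card ≤ n → ∑ x ∈ C, ‖u x‖ ^ 2 ≤ 4 * η * Real.sqrt B * S

/-- EIG: all local quasimodes are extended. Proof: `TofStmt` with `η = 4 / t`, `M` = the smallest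
natural number with `1 ≤ |σ|⁴ η² M`, for the energies `E₀` of a grid of step `η/8` in the set
`|σ|^{2-ε} ≤ |E₀| ≤ 2 d - a` (at most `C / η` points; every `E` of the set is within `η/4` of one of them),
`IR.H54.law_le` (`Helper54_LIR/CPEb.lean`) with `b = 0`, the sum of the probabilities is at most
`(C / η) exp (- |σ|^{-2θ'}) ≤ exp (- |σ|^{-θ'})`. On the good event: `EgbStmt` with `L = ⌈d t⌉`,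
`n = ⌊t⌋ ≤ (|σ|^{ε-1} / √η)^d`, `B = |σ|^{θ'} n / η`: `4 η √B ≤ 8 |σ|^{θ'/2} ≤ |σ|^{θ'/4}`
(`2 L + 1 ≤ R + 1`). -/
def EigStmt : Prop :=
  ∀ (d : ℕ) (a ε : ℝ), 3 ≤ d → 0 < a → 0 < ε → ε ≤ 1 → ∃ θ c : ℝ, 0 < θ ∧ 0 < c ∧ c ≤ 1 / 4 ∧
    ∀ σ t : ℝ, σ ≠ 0 → |σ| ≤ c → |σ| ^ (-4 : ℝ) ≤ t → t ≤ Real.exp (|σ| ^ (-θ)) →
      PP d (gl σ) {V | ¬ ∀ (R : ℕ) (E S : ℝ) (u : Site d → ℂ) (C : Finset (Site d)),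
        3 * d * t ≤ R → |σ| ^ (2 - ε) ≤ |E| → |E| ≤ 2 * d - a →
        ∑ x ∈ box 0 (R + 1), ‖u x‖ ^ 2 ≤ S →
        ∑ x ∈ box 0 R, ‖nc u x + ((V x - E : ℝ) : ℂ) * u x‖ ^ 2 ≤ S / t ^ 2 →
        (∀ x ∈ C, ∀ i, |(x i : ℝ)| ≤ t) → (C.card : ℝ) ≤ t →
          ∑ x ∈ C, ‖u x‖ ^ 2 ≤ |σ| ^ θ * S} ≤ ENNReal.ofReal (Real.exp (-(|σ| ^ (-θ))))

end Pool.Agent.LE.QX
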