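import Pool.Agent.LE.StmtsI

/-!
# Beyond the mean free path: definitions

The resolvent on the torus `Tor d M`, the norms, the ladder kernel.
-/

set_option autoImplicit false

open MeasureTheory ProbabilityTheory

open scoped ENNReal BigOperators NNReal Matrix

noncomputable section

namespace Pool.Agent.LE.QD

open Pool.Agent.Anderson hiding box mem_box card_box
open Pool.Agent.Loc Pool.Agent.Mob Pool.Agent.Helper54.Bal
  Pool.Agent.Helper96.EXP Pool.Agent.BED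
open Pool.Agent.LE.MN Pool.Agent.LE.CL Pool.Agent.LE.IR

/-! ### the kernels of `e^{i t Δ}` in dimension one -/

/-- `(2 π)⁻¹ ∫ e^{i (n θ + 2 t cos θ)} dθ` -/
def jb (t : ℝ) (n : ℤ) : ℂ :=
  (∫ θ in (0 : ℝ)..(2 * Real.pi),
    Complex.exp (Complex.I * ((n * θ + 2 * t * Real.cos θ : ℝ) : ℂ))) / ((2 * Real.pi : ℝ) : ℂ)

/-- the same on the cyclic group -/
def jt (M : ℕ) [NeZero M] (t : ℝ) (n : ZMod M) : ℂ :=
  (∑ p : ZMod M, ZMod.stdAddChar (p * n) *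
    Complex.exp (Complex.I * ((2 * t * Real.cos (2 * Real.pi * (p.valMinAbs : ℝ) / M) : ℝ) : ℂ))) /
      (M : ℂ)

/-! ### norms -/

/-- the square of the norm of `ℓ²` -/
def n2 {X : Type} [Fintype X] (f : X → ℂ) : ℝ := ∑ x, ‖f x‖ ^ 2

/-- the square of the norm of `ℓ⁴` -/
def n4 {X : Type} [Fintype X] (f : X → ℂ) : ℝ := Real.sqrt (∑ x, ‖f x‖ ^ 4)

variable {d M : ℕ} [NeZero M]

/-- the symbol of `adj d M`: `∑ 2 cos` -/
def es (p : Tor d M) : ℝ := 2 * d - ds p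

/-- `pm (√((es - E)² + η²) |f̂|²)` -/
def qn (E η : ℝ) (f : Tor d M → ℂ) : ℝ := pm fun p => mt (2 * d - E) η p * ‖ft f p‖ ^ 2

/-- the Sobolev inequality with the constant `A` -/
def Sob (d M : ℕ) [NeZero M] (E η A : ℝ) : Prop := ∀ f : Tor d M → ℂ, n4 f ≤ A * qn E η f

/-- the form bound for the potential -/
def FBq (E η τ : ℝ) (V : Tor d M → ℝ) : Prop :=
  ∀ f g : Tor d M → ℂ, ‖∑ x, (starRingEnd ℂ) (g x) * ((V x : ℂ) * f x)‖ ^ 2 ≤
    τ ^ 2 * (qn E η g * qn E η f)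

/-! ### the resolvent -/

/-- `H - z`, `H = adj + V` -/
def hz (V : Tor d M → ℝ) (z : ℂ) : Matrix (Tor d M) (Tor d M) ℂ :=
  (adj d M).map (fun a : ℝ => (a : ℂ)) + Matrix.diagonal fun x => (V x : ℂ) - z

/-- `(H - z)⁻¹` -/
def rs (V : Tor d M → ℝ) (z : ℂ) : Matrix (Tor d M) (Tor d M) ℂ := (hz V z)⁻¹

/-- the mean of the diagonal of the resolvent -/
def gb (d M : ℕ) [NeZero M] (v : ℝ≥0) (z : ℂ) : ℂ := ∫ V, rs V z 0 0 ∂(gau d M v)

/-- `∑_{x, y ∈ C} |G(x, y)|²` -/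
def mss (V : Tor d M → ℝ) (z : ℂ) (C : Finset (Tor d M)) : ℝ :=
  ∑ x ∈ C, ∑ y ∈ C, ‖rs V z x y‖ ^ 2

/-- the ladder kernel: the square of the free resolvent -/
def kk (ζ : ℂ) (x : Tor d M) : ℝ := ‖rs (0 : Tor d M → ℝ) ζ 0 x‖ ^ 2

/-- `(G^* f G₀)(x, x)`, `G₀` the free resolvent at `ζ` -/
def od (V : Tor d M → ℝ) (z ζ : ℂ) (f : Tor d M → ℝ) (x : Tor d M) : ℂ :=
  ∑ a, (starRingEnd ℂ) (rs V z a x) * ((f a : ℂ) * rs (0 : Tor d M → ℝ) ζ a x)

/-- the cube of side `L` with the corner `a` -/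
def cbt (a : Tor d M) (L : ℕ) : Finset (Tor d M) :=
  Finset.univ.filter fun x => ∀ i, (x i - a i).val < L

/-- the gap: the Fourier transform of the kernel `k` for small momenta -/
def Gap (k : Tor d M → ℝ) (c w : ℝ) : Prop :=
  ∀ q : Tor d M, (∀ i, 2 * Real.pi * |((q i).valMinAbs : ℝ)| ≤ c * w * M) →
    |∑ x, k x * (ec q x).re| ≤
      (1 - c * (2 * Real.pi / M) ^ 2 * (∑ i, ((q i).valMinAbs : ℝ) ^ 2) / w ^ 2) * ∑ x, k x

/-- the coarse cube with the index `k` -/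
def cub {d : ℕ} (b : Site d) (L : ℕ) (k : Site d) : Finset (Site d) :=
  Fintype.piFinset fun i => Finset.Ico (b i + L * k i) (b i + L * (k i + 1))

end Pool.Agent.LE.QD
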