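import Pool.Agent.LE.StmtsR

/-!
# The Lyapunov exponent is continuous; the localization length diverges at the mobility edge

Statements of the modules; the proofs are in `/team-store/PAPER_CON.md`.
-/

set_option autoImplicit false

open MeasureTheory ProbabilityTheory Function Filter

open scoped ENNReal BigOperators Topology

noncomputable section

namespace Pool.Agent.LE

open Pool.Agent.Anderson Pool.Agent.Loc Pool.Agent.Mob Pool.Agent.Helper54.Bal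
  Pool.Agent.Helper96.EXP

/-- the parameters range over a compact set -/
def Par (B σ E : ℝ) : Prop := |E| ≤ B ∧ |σ| ≤ B ∧ 1 ≤ B * |σ|

/-- the maximum of `D(c, s)` over the cube of radius `n` about `c` -/
def mx {d : ℕ} (V : Site d → ℝ) (N : ℕ) (E : ℝ) (c : Site d) (n : ℕ) : ℝ≥0∞ :=
  (box c n).sup fun s => ENNReal.ofReal (DL (box 0 N) E V c s)

/-! ### U. uniform constants -/

/-- UFM: FMN with a constant which is uniform in the parameters. -/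
def UfmStmt : Prop :=
  ∀ (d : ℕ) (B : ℝ), 1 ≤ d → 0 < B → ∃ C : ℝ, 0 < C ∧ ∀ σ E : ℝ, Par B σ E → ∀ N : ℕ,
    FamN d N (PP d (gl σ)) C (DL (box 0 N) E) ∧
    (∀ x ∈ box (0 : Site d) N, ∀ y ∈ box (0 : Site d) N,
      PP d (gl σ) {V | gr V (box 0 N) E x y = 0} = 0)

/-- UCH: chaining, with the moment of any order `q ≥ 4 d`, uniformly in the parameters. -/
def UchStmt : Prop :=
  ∀ (d q : ℕ) (B : ℝ), 1 ≤ d → 4 * d ≤ q → 0 < B → ∃ C : ℝ, 0 < C ∧ ∀ σ E : ℝ, Par B σ E →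
    ∀ (N n : ℕ) (c : Site d), 1 ≤ n → box c n ⊆ box 0 N →
      ∫⁻ V, (mx V N E c n) ^ q ∂(PP d (gl σ)) ≤ ENNReal.ofReal ((C * n) ^ q)

/-! ### G. the good event -/

/-- The good event at the scale `ℓ` about the base point `a`, in the cube `box 0 N`: as `GoodEv`,
with all cubes of radius at most `Qℓ` in the last part. -/
def GoodU {d : ℕ} (V : Site d → ℝ) (N Q ℓ : ℕ) (a : Site d) (E η : ℝ) : Prop :=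
  (RM V (box 0 N) E).det ≠ 0 ∧
  (∀ x ∈ box a (12 * (Q * ℓ)), ∀ y ∈ box a (12 * (Q * ℓ)), gr V (box 0 N) E x y ≠ 0 ∧
    |gr V (box 0 N) E x y| ≤ Real.exp (η * (Q * ℓ))) ∧
  (∀ x ∈ box a (12 * (Q * ℓ)), ∀ u ∈ box a (12 * (Q * ℓ)), ∀ y ∈ box a (12 * (Q * ℓ)),
    DL (box 0 N) E V x y ≤ DL (box 0 N) E V x u + DL (box 0 N) E V u y + η * (Q * ℓ)) ∧
  (∀ k ∈ box (0 : Site d) (10 * Q), ∀ y ∈ box (a + sm ℓ k) (3 * ℓ),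
    DL (box 0 N) E V (a + sm ℓ k) y ≤ η * (Q * ℓ)) ∧
  (∀ k ∈ box (0 : Site d) (8 * Q), ∀ y ∈ box (0 : Site d) Q,
    |DL (box 0 N) E V a (a + sm ℓ y) -
      DL (box 0 N) E V (a + sm ℓ k) (a + sm ℓ k + sm ℓ y)| ≤ η * (Q * ℓ)) ∧
  (∀ r ≤ Q * ℓ, ∀ s ∈ box a (8 * (Q * ℓ)), (RM V (box s r) E).det ≠ 0 ∧
    ∀ x y, |gr V (box s r) E x y| ≤ Real.exp (η * (Q * ℓ)))

/-- GVU: at one of the scales `2 ^ j ℓ₀`, `j ≤ J`, and at one base point, the good event has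
probability near one; `Q₀`, `J`, `l` do not depend on the parameters `σ`, `E`. -/
def GvuStmt : Prop :=
  ∀ (d : ℕ) (B η θ : ℝ), 1 ≤ d → 0 < B → 0 < η → 0 < θ → ∃ Q₀ : ℕ, 1 ≤ Q₀ ∧ ∀ Q : ℕ, Q₀ ≤ Q →
    ∃ J l : ℕ, 1 ≤ l ∧ ∀ ℓ₀ : ℕ, l ≤ ℓ₀ → ∀ σ E : ℝ, Par B σ E →
      ∃ j ≤ J, ∃ (N : ℕ) (a : Site d), box a (12 * (Q * (2 ^ j * ℓ₀))) ⊆ box 0 N ∧
        PP d (gl σ) {V | ¬ GoodU V N Q (2 ^ j * ℓ₀) a E η} ≤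
          ENNReal.ofReal (θ / (Q : ℝ) ^ (2 * d))

/-- DTU: on the good event the decay about `a + ℓ k` implies the decay about all sites near `a`,
for the cubes of radius `L₁ = Q₁ ℓ`, `Q = K Q₁` (deterministic). -/
def DtuStmt : Prop :=
  ∀ (d : ℕ) (η : ℝ) (K : ℕ), 1 ≤ d → 0 < η → 1 ≤ K → ∃ L₀ : ℕ, ∀ (κ : ℝ) (V : Site d → ℝ)
    (N Q₁ ℓ : ℕ) (a : Site d) (E : ℝ), 1 ≤ Q₁ → 1 ≤ ℓ → L₀ ≤ Q₁ * ℓ →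
    box a (12 * (K * Q₁ * ℓ)) ⊆ box 0 N → GoodU V N (K * Q₁) ℓ a E η →
      ∀ k ∈ box (0 : Site d) (8 * (K * Q₁)), SG V (Q₁ * ℓ) κ E (a + sm ℓ k) →
        ∀ s ∈ box a (7 * (K * Q₁ * ℓ)), SG V (Q₁ * ℓ) (κ - 12 * η * K) E s

/-- ZOS: zero-one law at a good scale. -/
def ZosStmt : Prop :=
  ∀ (d : ℕ) (η : ℝ) (K : ℕ), 1 ≤ d → 0 < η → 1 ≤ K → ∃ L₀ : ℕ, ∀ (σ E κ p : ℝ) (N Q₁ ℓ : ℕ)
    (a : Site d), σ ≠ 0 → 0 ≤ p → 1 ≤ Q₁ → 1 ≤ ℓ → L₀ ≤ Q₁ * ℓ →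
    box a (12 * (K * Q₁ * ℓ)) ⊆ box 0 N →
    PP d (gl σ) {V | ¬ GoodU V N (K * Q₁) ℓ a E η} ≤ ENNReal.ofReal p →
      PP d (gl σ) {V | SG V (Q₁ * ℓ) κ E 0} *
        PP d (gl σ) {V | ¬ SG V (Q₁ * ℓ) (κ - 12 * η * K) E 0} ≤ ENNReal.ofReal p

/-- INS: on the good event the decay about `a` gives a lower bound for `D` near `a`
(deterministic). -/
def InsStmt2 : Prop :=
  ∀ (d : ℕ) (η κ : ℝ) (K : ℕ), 1 ≤ d → 0 < η → 0 < κ → 1 ≤ K → 48 * η * K ≤ κ → ∃ L₀ : ℕ,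
    ∀ (V : Site d → ℝ) (N Q₁ ℓ : ℕ) (a : Site d) (E : ℝ), 1 ≤ Q₁ → 1 ≤ ℓ → L₀ ≤ Q₁ * ℓ →
    box a (12 * (K * Q₁ * ℓ)) ⊆ box 0 N → GoodU V N (K * Q₁) ℓ a E η →
    SG V (Q₁ * ℓ) κ E a → ∀ x ∈ box a (2 * (Q₁ * ℓ)), ∀ y ∈ box a (2 * (Q₁ * ℓ)),
      Q₁ * ℓ + 1 ≤ sd x y → κ / 2 * (Q₁ * ℓ) ≤ DL (box 0 N) E V x y

/-! ### U2. in the insulating phase the rate does not increase -/

/-- UPA: decay in the cubes of radius `K L₁` (deterministic). -/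
def UpaStmt : Prop :=
  ∀ (d : ℕ) (η κ' : ℝ) (K : ℕ), 1 ≤ d → 0 < η → 0 < κ' → 8 ≤ K → 24 * η * K ≤ κ' → ∃ L₀ : ℕ,
    ∀ (V : Site d → ℝ) (N Q₁ ℓ : ℕ) (a : Site d) (E : ℝ), 1 ≤ Q₁ → 1 ≤ ℓ → L₀ ≤ Q₁ * ℓ →
    box a (12 * (K * Q₁ * ℓ)) ⊆ box 0 N → GoodU V N (K * Q₁) ℓ a E η →
    SG V (Q₁ * ℓ) κ' E a → ∀ b ∈ box a (5 * (K * Q₁ * ℓ)), SG V (K * Q₁ * ℓ) (κ' / 4) E b

/-- LOX: locality (deterministic). -/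
def LoxStmt : Prop :=
  ∀ (d : ℕ) (η κ' κ₀ : ℝ) (K : ℕ), 1 ≤ d → 0 < η → 0 < κ' → 0 < κ₀ → 8 ≤ K →
    24 * η * K ≤ κ' → 16 * (κ₀ + 2) ≤ κ' * K → ∃ L₀ : ℕ,
    ∀ (V : Site d → ℝ) (N L : ℕ) (b x : Site d) (E : ℝ), L₀ ≤ L → box b (K * L + 1) ⊆ box 0 N →
    (RM V (box 0 N) E).det ≠ 0 → SG V (K * L) (κ' / 4) E b → x ∈ box b L →
    (∀ z, sd b z = K * L + 1 → |gr V (box 0 N) E z x| ≤ Real.exp (η * (K * L))) →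
      |gr V (box 0 N) E b x - gr V (box b (K * L)) E b x| ≤ Real.exp (-(κ₀ + 1) * L) / 2

/-- UPD: one direction in which the cost is at most `κ₀` with probability near one. -/
def UpdStmt : Prop :=
  ∀ (d : ℕ) (η κ' κ₀ : ℝ) (K : ℕ), 1 ≤ d → 0 < η → 0 < κ' → 0 < κ₀ → 8 ≤ K →
    24 * η * K ≤ κ' → 16 * η * K ≤ 1 → 16 * (κ₀ + 2) ≤ κ' * K → ∃ L₀ : ℕ,
    ∀ (σ E p : ℝ) (N Q₁ ℓ : ℕ) (a : Site d), σ ≠ 0 → 0 ≤ p → p ≤ 1 / 8 → 1 ≤ Q₁ → 1 ≤ ℓ →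
    L₀ ≤ Q₁ * ℓ → box a (12 * (K * Q₁ * ℓ)) ⊆ box 0 N →
    PP d (gl σ) {V | ¬ GoodU V N (K * Q₁) ℓ a E η} ≤ ENNReal.ofReal p →
    PP d (gl σ) {V | ¬ SG V (Q₁ * ℓ) κ' E 0} ≤ ENNReal.ofReal p →
    PP d (gl σ) {V | SG V (Q₁ * ℓ) κ₀ E 0} ≤ ENNReal.ofReal (1 / 4) →
      (∀ b : Site d, PP d (gl σ) {V | ¬ SG V (K * Q₁ * ℓ) (κ' / 4) E b} ≤
        ENNReal.ofReal (2 * p)) ∧
      ∃ y : Site d, sd 0 y = Q₁ ∧ ∀ b : Site d, PP d (gl σ) {V |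
        |gr V (box b (K * Q₁ * ℓ)) E b (b + sm ℓ y)| <
          Real.exp (-(κ₀ + 7 * η * K) * (Q₁ * ℓ))} ≤
        ENNReal.ofReal (4 * (2 * Q₁ + 1) ^ d * p)

/-- UPM: the mean of `D(0, m ℓ y)`. -/
def UpmStmt : Prop :=
  ∀ (d : ℕ) (B κ' κ₀ ε : ℝ) (K : ℕ), 1 ≤ d → 0 < B → 0 < κ' → 0 < κ₀ → 0 < ε → 8 ≤ K →
    16 * (κ₀ + 2) ≤ κ' * K → ∃ η₀ θ : ℝ, 0 < η₀ ∧ 0 < θ ∧ ∀ η : ℝ, 0 < η → η ≤ η₀ →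
    ∃ L₀ : ℕ, ∀ (σ E : ℝ) (Q₁ ℓ : ℕ) (y : Site d), Par B σ E → 1 ≤ Q₁ → 1 ≤ ℓ →
    L₀ ≤ Q₁ * ℓ → sd 0 y = Q₁ →
    (∀ b : Site d, PP d (gl σ) {V | ¬ SG V (K * Q₁ * ℓ) (κ' / 4) E b} ≤ ENNReal.ofReal θ) →
    (∀ b : Site d, PP d (gl σ) {V | |gr V (box b (K * Q₁ * ℓ)) E b (b + sm ℓ y)| <
      Real.exp (-(κ₀ + 7 * η * K) * (Q₁ * ℓ))} ≤ ENNReal.ofReal θ) →
    ∀ m N : ℕ, 1 ≤ m → (m + K + 2) * (Q₁ * ℓ) ≤ N →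
      ∫ V, DL (box 0 N) E V 0 (sm (m * ℓ) y) ∂(PP d (gl σ)) ≤ m * ((κ₀ + ε) * (Q₁ * ℓ))

/-- UPE: upper bound for the Lyapunov exponent. -/
def UpeStmt : Prop :=
  ∀ (d : ℕ) (σ E g c : ℝ) (M₀ Q₁ ℓ : ℕ) (y : Site d), 1 ≤ d → σ ≠ 0 → LyaAt d σ E g →
    1 ≤ Q₁ → 1 ≤ ℓ → sd 0 y = Q₁ →
    (∀ m N : ℕ, 1 ≤ m → (m + M₀) * (Q₁ * ℓ) ≤ N →
      ∫ V, DL (box 0 N) E V 0 (sm (m * ℓ) y) ∂(PP d (gl σ)) ≤ m * (c * (Q₁ * ℓ))) → g ≤ c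

/-- UPB: in the insulating phase the Lyapunov exponent is at most the rate at a good scale. -/
def UpbStmt : Prop :=
  ∀ (d : ℕ) (B κ' κ₀ ε : ℝ), 1 ≤ d → 0 < B → 0 < κ' → 0 < κ₀ → 0 < ε → ∃ K : ℕ, 1 ≤ K ∧
    ∃ η₀ θ : ℝ, 0 < η₀ ∧ 0 < θ ∧ θ ≤ 1 ∧ ∀ η : ℝ, 0 < η → η ≤ η₀ → ∃ L₀ : ℕ,
    ∀ (σ E g : ℝ) (N Q₁ ℓ : ℕ) (a : Site d), Par B σ E → LyaAt d σ E g → 1 ≤ Q₁ → 1 ≤ ℓ →
    L₀ ≤ Q₁ * ℓ → box a (12 * (K * Q₁ * ℓ)) ⊆ box 0 N →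
    PP d (gl σ) {V | ¬ GoodU V N (K * Q₁) ℓ a E η} ≤ ENNReal.ofReal (θ / (Q₁ : ℝ) ^ d) →
    PP d (gl σ) {V | ¬ SG V (Q₁ * ℓ) κ' E 0} ≤ ENNReal.ofReal (θ / (Q₁ : ℝ) ^ d) →
    PP d (gl σ) {V | SG V (Q₁ * ℓ) κ₀ E 0} ≤ ENNReal.ofReal (1 / 4) → g ≤ κ₀ + ε

/-! ### B. the Besicovitch step -/

/-- DMI: the discrete Poincare-Miranda theorem. -/
def DmiStmt : Prop :=
  ∀ (d n : ℕ) (F : Site d → Fin d → ℝ) (t h : ℝ) (v : Fin d → ℝ), 1 ≤ n →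
    (∀ k ∈ box (0 : Site d) n, ∀ i, k i = -(n : ℤ) → F k i ≤ t) →
    (∀ k ∈ box (0 : Site d) n, ∀ i, k i = (n : ℤ) → h ≤ F k i) →
    (∀ i, t ≤ v i ∧ v i ≤ h) →
      ∃ k ∈ box (0 : Site d) n, ∀ i, ∃ k' ∈ box (0 : Site d) n, sd k k' ≤ 1 ∧
        |v i - F k i| ≤ |F k' i - F k i|

/-- CNT: the counting lemma (deterministic). -/
def CntStmt : Prop :=
  ∀ (d : ℕ) (D : Site d → Site d → ℝ) (a : Site d) (s n M m q : ℕ) (t h cs : ℝ)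
    (c : Site d → ℝ) (G : Finset (Site d)), 1 ≤ d → 1 ≤ s → 1 ≤ n → 1 ≤ M → d ≤ q → 1 ≤ cs →
    0 ≤ t → 8 * t ≤ s → 8 * cs * s * m ≤ h →
    (∀ x y, D x y = D y x) →
    (∀ x ∈ box a (s * (n + 4 * M + 3)), ∀ u ∈ box a (s * (n + 4 * M + 3)),
      ∀ y ∈ box a (s * (n + 4 * M + 3)), D x y ≤ D x u + D u y + t) →
    (∀ k ∈ box (0 : Site d) n, D (a + sm s k) (a + sm s k) ≤ t) →
    (∀ k ∈ box (0 : Site d) n, ∀ k' ∈ box (0 : Site d) n, ∀ i, k i = -(n : ℤ) →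
      k' i = (n : ℤ) → h ≤ D (a + sm s k) (a + sm s k')) →
    (∀ k, 0 ≤ c k) →
    (∀ k ∈ box (0 : Site d) (n + 4 * M + 3), ∀ x ∈ box (a + sm s k) s,
      D (a + sm s k) x ≤ c k * s) →
    (∀ k ∈ G, ∀ j : ℕ, 1 ≤ j → j ≤ M → ∃ v : Site d,
      (sd (a + sm s k) v = 4 * j * s ∨ sd (a + sm s k) v = 4 * j * s + 1) ∧
        D (a + sm s k) v ≤ s) →
      (m : ℝ) ^ d ≤ ((box (0 : Site d) n) \ G).card +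
        2 * (2 * (n + 4 * M + 3) + 1) ^ d / M +
        (2 ^ d + 2 * (8 * M + 9) ^ d / M) * ∑ k ∈ box (0 : Site d) (n + 4 * M + 3), (c k / cs) ^ q

/-- CDU: a cube without decay conducts up to every radius (deterministic). -/
def CduStmt : Prop :=
  ∀ (d : ℕ) (V : Site d → ℝ) (N L r : ℕ) (b : Site d) (E κ T : ℝ), 1 ≤ d → 1 ≤ T → r ≤ L →
    box b (L + 1) ⊆ box 0 N → (RM V (box 0 N) E).det ≠ 0 →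
    (∀ x ∈ box b (L + 1), ∀ y ∈ box b (L + 1), |gr V (box 0 N) E x y| ≤ T) →
    (∀ r' ≤ L, (RM V (box b r') E).det ≠ 0 ∧ ∀ x y, |gr V (box b r') E x y| ≤ T) →
    ¬ SG V L κ E b → ∃ v : Site d, (sd b v = r ∨ sd b v = r + 1) ∧
      Real.exp (-κ * L) ≤ (1 + 2 * d * (2 * L + 1) ^ d * T) ^ 2 * |gr V (box 0 N) E b v|

/-- the regularity event, in the cube of radius `W` about `a` -/
def RegE {d : ℕ} (V : Site d → ℝ) (N W L : ℕ) (a : Site d) (E t : ℝ) : Prop :=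
  (RM V (box 0 N) E).det ≠ 0 ∧
  (∀ x ∈ box a W, ∀ y ∈ box a W, gr V (box 0 N) E x y ≠ 0 ∧
    |gr V (box 0 N) E x y| ≤ Real.exp t) ∧
  (∀ x ∈ box a W, ∀ u ∈ box a W, ∀ y ∈ box a W,
    DL (box 0 N) E V x y ≤ DL (box 0 N) E V x u + DL (box 0 N) E V u y + t) ∧
  (∀ x ∈ box a W, DL (box 0 N) E V x x ≤ t) ∧
  (∀ r ≤ L, ∀ b ∈ box a W, (RM V (box b r) E).det ≠ 0 ∧
    ∀ x y, |gr V (box b r) E x y| ≤ Real.exp t)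

/-- REG: regularity has probability near one. -/
def RegStmt : Prop :=
  ∀ (d R : ℕ) (B τ p : ℝ), 1 ≤ d → 0 < B → 0 < τ → 0 < p → ∃ L₀ : ℕ, ∀ (σ E : ℝ) (N W L : ℕ)
    (a : Site d), Par B σ E → L₀ ≤ L → W ≤ R * L → box a (W + 1) ⊆ box 0 N →
      PP d (gl σ) {V | ¬ RegE V N W L a E (τ * L)} ≤ ENNReal.ofReal p

/-- BEN: the numbers of the Besicovitch step. -/
def BenStmt : Prop :=
  ∀ (d : ℕ) (C κ : ℝ), 1 ≤ d → 0 < C → 0 < κ → κ ≤ 1 → ∃ (cs : ℝ) (M : ℕ) (p : ℝ), 1 ≤ cs ∧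
    1 ≤ M ∧ 0 < p ∧ p ≤ 1 ∧ 16 * cs / κ ≤ M ∧
    4 * p * 3 ^ d + 2 * 5 ^ d / M +
      (2 ^ d + 2 * (8 * M + 9) ^ d / M) * (4 * 5 ^ d * (C / cs) ^ (d ^ 2 + 4 * d)) <
      (κ / (16 * cs)) ^ d

/-- BES: a cube in which all small cubes conduct is not insulating. -/
def BesStmt : Prop :=
  ∀ (d : ℕ) (B κ : ℝ), 1 ≤ d → 0 < B → 0 < κ → κ ≤ 1 → ∃ κ' p : ℝ, 0 < κ' ∧ 0 < p ∧ p ≤ 1 ∧
    ∀ R : ℕ, 1 ≤ R → ∃ L₀ : ℕ, ∀ (σ E : ℝ) (N L L' : ℕ) (a : Site d), Par B σ E → L₀ ≤ L' →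
      L' ≤ L → L ≤ R * L' → box a (4 * L) ⊆ box 0 N →
      PP d (gl σ) {V | SG V L' κ' E 0} ≤ ENNReal.ofReal p →
      PP d (gl σ) {V | ¬ ∀ x ∈ box a (2 * L), ∀ y ∈ box a (2 * L), L + 1 ≤ sd x y →
        κ * L ≤ DL (box 0 N) E V x y} ≤ ENNReal.ofReal (1 / 4) → False

/-! ### C. continuity -/

/-- TVC: the probabilities at one scale are continuous in the parameters. -/
def TvcStmt : Prop :=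
  ∀ (d L : ℕ) (κ κ' p p' : ℝ) (q₀ : ℝ × ℝ), 1 ≤ L → 0 ≤ p → p < p' → q₀.1 ≠ 0 →
    (κ < κ' → PP d (gl q₀.1) {V | SG V L κ q₀.2 0} ≤ ENNReal.ofReal p →
      ∀ᶠ q : ℝ × ℝ in 𝓝 q₀, PP d (gl q.1) {V | SG V L κ' q.2 0} ≤ ENNReal.ofReal p') ∧
    (κ' < κ → PP d (gl q₀.1) {V | ¬ SG V L κ q₀.2 0} ≤ ENNReal.ofReal p →
      ∀ᶠ q : ℝ × ℝ in 𝓝 q₀, PP d (gl q.1) {V | ¬ SG V L κ' q.2 0} ≤ ENNReal.ofReal p')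

/-- USA: upper semicontinuity in the localized phase. -/
def UsaStmt : Prop :=
  ∀ (d : ℕ) (γ : ℝ → ℝ → ℝ), 1 ≤ d → (∀ σ : ℝ, σ ≠ 0 → ∀ E, LyaAt d σ E (γ σ E)) →
    ∀ q₀ : ℝ × ℝ, q₀.1 ≠ 0 → 0 < γ q₀.1 q₀.2 →
      UpperSemicontinuousAt (fun q : ℝ × ℝ => γ q.1 q.2) q₀

/-- USO: upper semicontinuity where `γ = 0`. -/
def UsoStmt : Prop :=
  ∀ (d : ℕ) (γ : ℝ → ℝ → ℝ), 1 ≤ d → (∀ σ : ℝ, σ ≠ 0 → ∀ E, LyaAt d σ E (γ σ E)) →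
    ∀ q₀ : ℝ × ℝ, q₀.1 ≠ 0 → γ q₀.1 q₀.2 = 0 →
      UpperSemicontinuousAt (fun q : ℝ × ℝ => γ q.1 q.2) q₀

/-- CON: the Lyapunov exponent is a continuous function of the coupling constant and the
energy. -/
def ConStmt2 : Prop :=
  ∀ (d : ℕ) (γ : ℝ → ℝ → ℝ), 1 ≤ d → (∀ σ : ℝ, σ ≠ 0 → ∀ E, LyaAt d σ E (γ σ E)) →
    ∀ q₀ : ℝ × ℝ, q₀.1 ≠ 0 → ContinuousAt (fun q : ℝ × ℝ => γ q.1 q.2) q₀

end Pool.Agent.LE
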