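import Pool.Agent.LE.StmtsQX

/-!
# The lattice: quantum diffusion, the local law, the local density of states up to `T = exp (|σ|^{-θ})`

The input is the result on the torus (`TorStmt`, the same as `QZ.TofStmt`). `G V z` is the resolvent
`(Δ + V - z)⁻¹` on `ℓ²(ℤ^d)` (`Pool.Agent.Helper54.Bal.G`, `Helper54_Ballistic/Ell.lean`), `del x` the
unit vector, `rs` the resolvent on the torus. Useful files: `Helper90_LQX/EGB.lean` (the cutoff `ct`,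
`rep_ti`, `sum_rep`, `comm_bound`, …), `Helper94_LQX/EIG.lean` (`union_le`, `grid`, numbers),
`Helper54_LIR/CPEb.lean` (`law_le`), `Helper73_BED/LawT.lean` (`lawT`).
-/

set_option autoImplicit false

open MeasureTheory ProbabilityTheory Function Filter

open scoped ENNReal BigOperators Topology NNReal ComplexOrder Matrix

noncomputable section

namespace Pool.Agent.LE.QY

open Pool.Agent.Anderson hiding box mem_box card_box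
open Pool.Agent.Loc Pool.Agent.Mob Pool.Agent.Helper54.Bal
  Pool.Agent.Helper96.EXP Pool.Agent.BED
open Pool.Agent.LE.MN Pool.Agent.LE.CL Pool.Agent.LE.IR Pool.Agent.LE.QD Pool.Agent.LE.QF

/-- the input: the torus -/
def TorStmt : Prop :=
  ∀ (d : ℕ) (a ε : ℝ), 3 ≤ d → 0 < a → 0 < ε → ε ≤ 1 → ∃ θ c C : ℝ, 0 < θ ∧ θ ≤ 1 / 100 ∧ 0 < c ∧
    c ≤ 1 / 4 ∧ 1 ≤ C ∧ ∀ (M : ℕ) [NeZero M] (v : ℝ≥0) (σ E η : ℝ), (v : ℝ) = σ ^ 2 → σ ≠ 0 →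
      |σ| ≤ c → |E| ≤ 2 * d - a → |σ| ^ (-5 : ℝ) ≤ M → (M : ℝ) ≤ Real.exp (|σ| ^ (-θ)) →
      |σ| ^ (-ε) ≤ η * (M : ℝ) ^ d → η ≤ |σ| ^ 3 →
        ∃ m : ℂ, c ≤ m.im ∧ ‖m‖ ≤ C ∧
          (∀ x, rs (0 : Tor d M → ℝ) (⟨E, η⟩ + (σ : ℂ) ^ 2 * m) x x = m) ∧
          ∀ (i : Fin d) (ξ : ℝ), 1 ≤ ξ →
            gau d M v {V | ¬ ((∀ x, c ≤ (rs V ⟨E, η⟩ x x).im) ∧
              (∀ x y, ‖rs V ⟨E, η⟩ x y - rs (0 : Tor d M → ℝ) (⟨E, η⟩ + (σ : ℂ) ^ 2 * m) x y‖ ≤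
                |σ| ^ θ) ∧
              (∀ C' : Finset (Tor d M), (C'.card : ℝ) ≤ (|σ| ^ (ε - 1) / Real.sqrt η) ^ d →
                (C'.card : ℝ) ≤ |σ| ^ ε * (M : ℝ) ^ d →
                mss V ⟨E, η⟩ C' ≤ |σ| ^ θ * C'.card / η) ∧
              ∑ x, ∑ y, ‖rs V ⟨E, η⟩ x y‖ ^ 2 * (((x - y) i).valMinAbs : ℝ) ^ 2 ≤
                C * ξ * (M : ℝ) ^ d / (σ ^ 2 * η ^ 2))} ≤
            ENNReal.ofReal (C / ξ + Real.exp (-(|σ| ^ (-(2 * θ)))))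

/-! ### A. Deterministic facts -/

/-- BAL: the ballistic bound. Proof: `g = G V z e_x`, `w` a weight with `w(x) = 0`,
`|w(y) - w(y')| ≤ W(y)` for neighbours: `w g = G [Δ, w] g` (`G_unique`; take `w` bounded: `min (sd x y) n`,
`min (sd x y) n ^ 2`), so `‖w g‖ ≤ (1/η) ‖[Δ, w] g‖ ≤ (2 d/η) ‖W g‖` (`W = 1`, then `W = 2 min (sd x y) n + 3`),
`‖g‖ ≤ 1/η`. So `‖w₁ g‖ ≤ 2 d/η²`, `‖w₂ g‖ ≤ C/η³`, and `n → ∞`. -/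
def BalStmt : Prop :=
  ∀ d : ℕ, 1 ≤ d → ∃ C : ℝ, 1 ≤ C ∧ ∀ (V : Site d → ℝ) (E η : ℝ) (x : Site d), 0 < η → η ≤ 1 →
    Summable (fun y : Site d => (sd x y : ℝ) ^ 4 * ‖G V ⟨E, η⟩ (del x) y‖ ^ 2) ∧
      ∑' y : Site d, (sd x y : ℝ) ^ 4 * ‖G V ⟨E, η⟩ (del x) y‖ ^ 2 ≤ C / η ^ 6

/-- LTT: the lattice and the torus. Proof: translate to `b = 0` (`G_unique`). The cutoff `χ = ct L` of
`Helper90_LQX/EGB.lean` (`1` on `box 0 L`, `0` outside of `box 0 (2 L)`, Lipschitz `1/L`), `g = G V z e_x`,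
`v(p) = χ(rep p) g(rep p)`: `hz v = e_{ti x} + comm`, `comm(p) = ∑_{y ~ rep p} (χ(y) - χ(rep p)) g(y)`, where
only `y` with `sd 0 y ≥ L` contribute, so `‖comm‖² ≤ (2 d/L)² ∑_{sd 0 y ≥ L} |g(y)|² ≤ C / (L⁶ η⁶)` (`BalStmt`,
`sd x y ≥ L/2`), and `v - rs e_{ti x} = rs comm`, the norm of `rs` is at most `1/η`. -/
def LttStmt : Prop :=
  ∀ d : ℕ, 1 ≤ d → ∃ C : ℝ, 1 ≤ C ∧ ∀ (M : ℕ) [NeZero M] (L : ℕ) (V : Site d → ℝ) (b : Site d)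
    (E η : ℝ) (x : Site d), 0 < η → η ≤ 1 → 1 ≤ L → 4 * L + 9 ≤ M → 2 * sd 0 x ≤ L →
      ∑ y ∈ box 0 L, ‖G V ⟨E, η⟩ (del (b + x)) (b + y) -
        rs (fun p : Tor d M => V (b + rep p)) ⟨E, η⟩ (ti M 0 x) (ti M 0 y)‖ ^ 2 ≤
          C / ((L : ℝ) ^ 6 * η ^ 8)

/-- HAR: Harnack. Proof: `Im G(x, x; z) = Im z ‖G(z) e_x‖²` (`(isRes_G V).im_inner`), the resolvent
identity `G(z') = (1 + (z' - z) G(z')) G(z)`, `‖G(z')‖ ≤ 1/η'`. -/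
def HarStmt : Prop :=
  ∀ (d : ℕ) (V : Site d → ℝ) (E E' η η' : ℝ) (x : Site d), 0 < η → η / 2 ≤ η' → η' ≤ 2 * η →
    |E - E'| ≤ η → (G V ⟨E', η'⟩ (del x) x).im ≤ 50 * (G V ⟨E, η⟩ (del x) x).im

/-! ### B. The torus -/

/-- TSM: the second moment on the torus. Proof: `Q = σ² η² ∑ ∑ / (C M^d)`; `0 ≤ Q ≤ σ² M² ≤ M²`
(`∑_y |G(x, y)|² ≤ η^{-2}`), `P(Q > ξ) ≤ C/ξ + exp (- |σ|^{-2 θ₀})` for `ξ ≥ 1` (`TorStmt`), so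
`E Q ≤ 1 + ∫_1^{M²} ≤ 1 + 2 C log M + M² exp (- |σ|^{-2 θ₀})`; take `θ ≤ min (θ₀, ε/4)`, `log M ≤ |σ|^{-θ}`.
(`lintegral` layer cake, or a sum over `ξ = 2^k`.) The law is invariant under translations, so the
mean of the sum at `0` is `E ∑ ∑ / M^d`. -/
def TsmStmt : Prop :=
  ∀ (d : ℕ) (a ε : ℝ), 3 ≤ d → 0 < a → 0 < ε → ε ≤ 1 → ∃ θ c : ℝ, 0 < θ ∧ 0 < c ∧ c ≤ 1 / 4 ∧
    ∀ (M : ℕ) [NeZero M] (v : ℝ≥0) (σ E η : ℝ) (i : Fin d), (v : ℝ) = σ ^ 2 → σ ≠ 0 → |σ| ≤ c →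
      |E| ≤ 2 * d - a → |σ| ^ (-5 : ℝ) ≤ M → (M : ℝ) ≤ Real.exp (|σ| ^ (-θ)) →
      |σ| ^ (-ε) ≤ η * (M : ℝ) ^ d → η ≤ |σ| ^ 3 →
        ∫⁻ V, ENNReal.ofReal (∑ y, ‖rs V ⟨E, η⟩ 0 y‖ ^ 2 * (((0 - y) i).valMinAbs : ℝ) ^ 2)
          ∂(gau d M v) ≤ ENNReal.ofReal (|σ| ^ (-2 - ε) / η ^ 2)

/-- TMA: the mass in a box on the torus. Proof: `S(x) = ∑_{|y - x| ≤ R} |G(x, y)|²`; by the invariance under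
translations `E S(0)` is the mean of `E S(x)`, `|x| ≤ R`, and `∑_{|x| ≤ R} S(x) ≤ mss (|x| ≤ 2 R)`. With
`TorStmt` (with `ε/2`, `ξ = exp (|σ|^{-2 θ₀})`): `E S(0) ≤ 3^d |σ|^{θ₀} / η + (C + 1) exp (- |σ|^{-2 θ₀}) η^{-2}`
(`(4 R + 1)^d ≤ min ((|σ|^{ε/2 - 1} / √η)^d, |σ|^{ε/2} M^d)`, `η^{-1} ≤ M^d ≤ exp (d |σ|^{-θ})`). -/
def TmaStmt : Prop :=
  ∀ (d : ℕ) (a ε : ℝ), 3 ≤ d → 0 < a → 0 < ε → ε ≤ 1 → ∃ θ c : ℝ, 0 < θ ∧ 0 < c ∧ c ≤ 1 / 4 ∧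
    ∀ (M R : ℕ) [NeZero M] (v : ℝ≥0) (σ E η : ℝ), (v : ℝ) = σ ^ 2 → σ ≠ 0 → |σ| ≤ c →
      |E| ≤ 2 * d - a → |σ| ^ (-5 : ℝ) ≤ M → (M : ℝ) ≤ Real.exp (|σ| ^ (-θ)) →
      |σ| ^ (-ε) ≤ η * (M : ℝ) ^ d → η ≤ |σ| ^ 3 → (R : ℝ) ≤ |σ| ^ (ε - 1) / Real.sqrt η →
      (R : ℝ) ≤ |σ| * M →
        ∫⁻ V, ENNReal.ofReal (∑ y, if ∀ i, |((y i).valMinAbs : ℝ)| ≤ R then ‖rs V ⟨E, η⟩ 0 y‖ ^ 2
          else 0) ∂(gau d M v) ≤ ENNReal.ofReal (|σ| ^ θ / η)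

/-- TEV: all eigenvectors on the torus are completely delocalized. Proof: `TorStmt` with `ε/2`,
`η = |σ|^{-ε/2} M^{-d}`, `ξ = exp (|σ|^{-2 θ₀})`, for the energies `j η`, `|j η| ≤ 2 d - a` (at most `C M^d ≤
exp (C |σ|^{-θ})` events of probability at most `(C + 1) exp (- |σ|^{-2 θ₀})`). For `E` choose `E₀ = j η` with
`|E₀| ≤ |E|`, `|E - E₀| ≤ η`, `z = E₀ + i η`: `hz V z *ᵥ u = (E - z) u`, so `u = (E - z) G u` and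
`|u x|² ≤ 2 η² ∑_y |G(x, y)|² n2 u = 2 η Im G(x, x) n2 u` (`RalStmt`), `|G(x, x)| ≤ C + 1`. -/
def TevStmt : Prop :=
  ∀ (d : ℕ) (a ε : ℝ), 3 ≤ d → 0 < a → 0 < ε → ε ≤ 1 → ∃ θ c : ℝ, 0 < θ ∧ 0 < c ∧ c ≤ 1 / 4 ∧
    ∀ (M : ℕ) [NeZero M] (v : ℝ≥0) (σ : ℝ), (v : ℝ) = σ ^ 2 → σ ≠ 0 → |σ| ≤ c →
      |σ| ^ (-5 : ℝ) ≤ M → (M : ℝ) ≤ Real.exp (|σ| ^ (-θ)) →
        gau d M v {V | ¬ ∀ (E : ℝ) (u : Tor d M → ℂ), |E| ≤ 2 * d - a → hz V (E : ℂ) *ᵥ u = 0 →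
          ∀ x, ‖u x‖ ^ 2 ≤ |σ| ^ (-ε) / (M : ℝ) ^ d * n2 u} ≤
          ENNReal.ofReal (Real.exp (-(|σ| ^ (-θ))))

/-! ### C. The lattice, diffusion -/

/-- the time averaged density -/
def rh {d : ℕ} (V : Site d → ℝ) (T E : ℝ) (x : Site d) : ℝ := ‖G V ⟨E, 1 / T⟩ (del 0) x‖ ^ 2 / T

/-- SMZ: the upper bound. Proof: `η = 1/T`, `M` the smallest natural number with `1 ≤ |σ|⁴ η² M`
(so `M ≤ 2 |σ|^{-4} T² ≤ exp (|σ|^{-θ₀})`), `L = ⌊(M - 9)/4⌋`. `(sd 0 x)² ≤ ∑_i x_i²`. In `box 0 L`: `TsmStmt` for every `i`, `LttStmt` (`x = 0`; the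
error is at most `2 d L² C / (L⁶ η⁸) η = C η^{-7} L^{-4} ≤ 1`), the law of `V ∘ rep` (`lawT`). Outside:
`(sd)² ≤ (sd)⁴ / L²`, `BalStmt`: `C η / (η⁶ L²) ≤ 1/η`. -/
def SmzStmt : Prop :=
  ∀ (d : ℕ) (a ε : ℝ), 3 ≤ d → 0 < a → 0 < ε → ε ≤ 1 → ∃ θ c : ℝ, 0 < θ ∧ 0 < c ∧ c ≤ 1 / 4 ∧
    ∀ σ E T : ℝ, σ ≠ 0 → |σ| ≤ c → |E| ≤ 2 * d - a → |σ| ^ (-3 : ℝ) ≤ T →
      T ≤ Real.exp (|σ| ^ (-θ)) →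
        ∫⁻ V, ∑' x : Site d, ENNReal.ofReal ((sd 0 x : ℝ) ^ 2 * rh V T E x) ∂(PP d (gl σ)) ≤
          ENNReal.ofReal (|σ| ^ (-2 - ε) * T)

/-- MAZ: the lower bound. Proof: as `SmzStmt`, with `TmaStmt`, `R = ⌊|σ|^{ε - 1} √T⌋ ≤ min (L, |σ| M)`. -/
def MazStmt : Prop :=
  ∀ (d : ℕ) (a ε : ℝ), 3 ≤ d → 0 < a → 0 < ε → ε ≤ 1 → ∃ θ c : ℝ, 0 < θ ∧ 0 < c ∧ c ≤ 1 / 4 ∧
    ∀ σ E T : ℝ, σ ≠ 0 → |σ| ≤ c → |E| ≤ 2 * d - a → |σ| ^ (-3 : ℝ) ≤ T →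
      T ≤ Real.exp (|σ| ^ (-θ)) →
        ∫⁻ V, ∑' x : Site d, (if (sd 0 x : ℝ) ≤ |σ| ^ (ε - 1) * Real.sqrt T then
          ENNReal.ofReal (rh V T E x) else 0) ∂(PP d (gl σ)) ≤ ENNReal.ofReal (|σ| ^ θ)

/-! ### D. The lattice, the local law -/

/-- LOC: the local law. Proof: `η = 1/T`, `M`, `L` as in `SmzStmt`, `m` and the event from `TorStmt`
(`ξ = exp (|σ|^{-2 θ₀})`), `law_le` with `b`; `LttStmt` for `V` at `E + i η` and for the potential `0` at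
`E + i η + σ² m` (its imaginary part is at least `c σ²`): every difference is at most
`C / (L³ η⁴) ≤ |σ|`. `T ≤ L / 2`. -/
def LocStmt : Prop :=
  ∀ (d : ℕ) (a : ℝ), 3 ≤ d → 0 < a → ∃ θ c : ℝ, 0 < θ ∧ 0 < c ∧ c ≤ 1 / 4 ∧
    ∀ σ E T : ℝ, σ ≠ 0 → |σ| ≤ c → |E| ≤ 2 * d - a → |σ| ^ (-3 : ℝ) ≤ T →
      T ≤ Real.exp (|σ| ^ (-θ)) → ∃ m : ℂ, c ≤ m.im ∧ ‖m‖ ≤ 1 / c ∧
        ‖m - G (0 : Site d → ℝ) (⟨E, 1 / T⟩ + (σ : ℂ) ^ 2 * m) (del 0) 0‖ ≤ |σ| ^ θ ∧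
        ∀ b : Site d, PP d (gl σ) {V | ¬ ∀ x y : Site d, (sd b x : ℝ) ≤ T → (sd b y : ℝ) ≤ T →
          ‖G V ⟨E, 1 / T⟩ (del x) y -
            G (0 : Site d → ℝ) (⟨E, 1 / T⟩ + (σ : ℂ) ^ 2 * m) (del x) y‖ ≤ |σ| ^ θ} ≤
          ENNReal.ofReal (Real.exp (-(|σ| ^ (-θ))))

/-- TMZ: the total mass. Proof: `∑_x |G(0, x)|² / T = Im G(0, 0)` (`im_G_del`), `LocStmt` with `θ₀`:
outside of an event of probability at most `exp (- |σ|^{-θ₀})` it is within `2 |σ|^{θ₀}` of `Im m`, and it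
is always at most `T ≤ exp (|σ|^{-θ₀/2})`. -/
def TmzStmt : Prop :=
  ∀ (d : ℕ) (a : ℝ), 3 ≤ d → 0 < a → ∃ θ c : ℝ, 0 < θ ∧ 0 < c ∧ c ≤ 1 / 4 ∧
    ∀ σ E T : ℝ, σ ≠ 0 → |σ| ≤ c → |E| ≤ 2 * d - a → |σ| ^ (-3 : ℝ) ≤ T →
      T ≤ Real.exp (|σ| ^ (-θ)) →
        ENNReal.ofReal c ≤ ∫⁻ V, ∑' x : Site d, ENNReal.ofReal (rh V T E x) ∂(PP d (gl σ)) ∧
        ∫⁻ V, ∑' x : Site d, ENNReal.ofReal (rh V T E x) ∂(PP d (gl σ)) ≤ ENNReal.ofReal (1 / c)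

/-- LDS: the local density of states, all energies and all scales. Proof: `LocStmt` with `b = x = y` for
all `x` with `sd 0 x ≤ T`, all `η = 2^k / T ≤ |σ|³`, and the energies `j η` with `|j η| ≤ 2 d - a` (at most
`T^{2 d + 3}` events, `T ≤ exp (|σ|^{-θ₀/2})`); every `(E', η')` has `η ≤ η' < 2 η`, `|E' - j η| ≤ η` for one of
them (`|j η| ≤ |E'|`), `HarStmt` in both directions; `c₁ ≤ Im m ≤ C`,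
`|Im G(0)(ζ) - Im m| ≤ |σ|^θ₀` (translation invariance of the free resolvent). -/
def LdsStmt : Prop :=
  ∀ (d : ℕ) (a : ℝ), 3 ≤ d → 0 < a → ∃ θ c : ℝ, 0 < θ ∧ 0 < c ∧ c ≤ 1 / 4 ∧
    ∀ σ T : ℝ, σ ≠ 0 → |σ| ≤ c → |σ| ^ (-3 : ℝ) ≤ T → T ≤ Real.exp (|σ| ^ (-θ)) →
      PP d (gl σ) {V | ¬ ∀ (x : Site d) (E η : ℝ), (sd 0 x : ℝ) ≤ T → |E| ≤ 2 * d - a →
        1 / T ≤ η → η ≤ |σ| ^ 3 →
          c ≤ (G V ⟨E, η⟩ (del x) x).im ∧ (G V ⟨E, η⟩ (del x) x).im ≤ 1 / c} ≤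
        ENNReal.ofReal (Real.exp (-(|σ| ^ (-θ))))

/-- EIZ: all local quasimodes are extended. Proof: as `QX.EigStmt` (`Helper94_LQX/EIG.lean`), from
`TorStmt` (`ξ = exp (|σ|^{-2 θ₀})`); the first part: `EgbStmt` with `n = 1`, `B = C²`
(`|G(x, x)| ≤ |m| + |σ|^θ ≤ C`, `mss {x} = |G(x, x)|²`) gives `4 η C S`, `η = 4 / t`. -/
def EizStmt : Prop :=
  ∀ (d : ℕ) (a : ℝ), 3 ≤ d → 0 < a → ∃ θ c : ℝ, 0 < θ ∧ 0 < c ∧ c ≤ 1 / 4 ∧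
    ∀ σ t : ℝ, σ ≠ 0 → |σ| ≤ c → |σ| ^ (-4 : ℝ) ≤ t → t ≤ Real.exp (|σ| ^ (-θ)) →
      PP d (gl σ) {V | ¬ ∀ (R : ℕ) (E S : ℝ) (u : Site d → ℂ),
        3 * d * t ≤ R → |E| ≤ 2 * d - a → ∑ x ∈ box 0 (R + 1), ‖u x‖ ^ 2 ≤ S →
        ∑ x ∈ box 0 R, ‖QX.nc u x + ((V x - E : ℝ) : ℂ) * u x‖ ^ 2 ≤ S / t ^ 2 →
          (∀ x : Site d, (∀ i, |(x i : ℝ)| ≤ t) → ‖u x‖ ^ 2 ≤ 1 / (c * t) * S) ∧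
          ∀ C : Finset (Site d), (∀ x ∈ C, ∀ i, |(x i : ℝ)| ≤ t) → (C.card : ℝ) ≤ t →
            ∑ x ∈ C, ‖u x‖ ^ 2 ≤ |σ| ^ θ * S} ≤ ENNReal.ofReal (Real.exp (-(|σ| ^ (-θ))))

end Pool.Agent.LE.QY
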