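import Pool.Agent.LE.StmtsI

/-!
# The Lyapunov exponent between the effective band edge and the bulk, part 2

Test multipliers, the clusters of the Green function, probability and numbers.
-/

set_option autoImplicit false

open MeasureTheory ProbabilityTheory Function Filter

open scoped ENNReal BigOperators Topology NNReal ComplexOrder

noncomputable section

namespace Pool.Agent.LE.IR

open Pool.Agent.Anderson hiding box mem_box card_box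
open Pool.Agent.Loc Pool.Agent.Mob Pool.Agent.Helper54.Bal
  Pool.Agent.Helper96.EXP Pool.Agent.BED
open Pool.Agent.LE.MN Pool.Agent.LE.CL

/-! ### D. The test multiplier -/

/-- KBE: the kernel bound and the main term near the edge; `KrbStmt` (proof in
`Pool/Agent/Helper28_LSP/KRB.lean`) rescaled. Proof: `2 (1 - cos th0) = l / d`, so `th0 ≈ √(l/d)`,
`r = c √l`.

Kernel bound. (a) If for some `j` and all `t` of a subinterval `sin θ` stays away from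
`- n_j / (2 t)` for `|θ - th0| ≤ 2 r`: the phase of `hh` has `|G'| ≥ c T r`, the amplitude
`r² - (θ - th0)²` vanishes at the ends, so `|hh| ≤ C r / T`; always `|hh| ≤ C r² T^{-1/2}` (second
derivative `2 t cos θ`). The integral over `t` is at most
`T (r / T) (C r² T^{-1/2})^{d-1} ≤ C r^{2d} T^{-(d-1)/2} l^{-1/2}`. (b) Otherwise
`sin θ*_j = - n_j / (2 t)`, `|θ*_j - th0| ≤ 3 r`, the phase `φ_j(t) = n_j θ*_j - 2 t cos θ*_j` has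
`φ_j'' = - (2 / t) sin² θ*_j / cos θ*_j`, so `|∑ φ_j''| ≥ c l / T`, and `A_j(t) = e^{- i φ_j} hh` has
`|A_j| ≤ C r² T^{-1/2}`, `|A_j'| ≤ C r² T^{-3/2}` (`A' = (1 / t) ∫ a(θ) tan ((θ + θ*) / 2)
(e^{i G})'`, and `(a tan)'` is at most `C r²` with variation `C r²`). The second derivative test:
`C (l / T)^{-1/2} (r² T^{-1/2})^d`.

Main term. `f_T = (2 - 2 cos (T x)) / (T x²) ≥ 0`, `wh T = 2 f_{2T} - f_T`. `I(T) = ∫ (∏ aa) f_T` is at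
most `C r^{2d} l^{(d-2)/2}` (the derivative of the argument in `θ_1` is at least `c √l`, `∫ f_T = 2 π`)
and at least `c r^{2d} l^{(d-2)/2}` (the set where the argument is at most `1 / T`, `T l ≥ C`); if
`2 I(2 T') - I(T') < c' …` at all the scales `T' = 2^k T`, `k ≤ k₀`, then `I` decays: contradiction. -/
def KbeStmt : Prop :=
  ∀ d : ℕ, 3 ≤ d → ∃ c₁ c C : ℝ, 0 < c₁ ∧ c₁ ≤ 1 ∧ 0 < c ∧ 1 ≤ C ∧ ∀ l : ℝ, 0 < l → l ≤ c₁ →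
    ∃ th0 r : ℝ, c₁ * Real.sqrt l ≤ r ∧ 2 * r ≤ th0 ∧ d * (th0 + r) ^ 2 ≤ 2 * l ∧
      (∀ T : ℝ, C ≤ T * l → ∀ n : Fin d → ℤ,
        ‖∫ t in T..(2 * T), Complex.exp (Complex.I * ((t * (2 * d - l) : ℝ) : ℂ)) *
          ∏ j, hh th0 r t (n j)‖ ≤ C * r ^ (2 * d) / (Real.sqrt T ^ (d - 1) * Real.sqrt l)) ∧
      ∀ T : ℝ, C ≤ T * l → ∃ T' : ℝ, T ≤ T' ∧ T' ≤ C * T ∧
        c * r ^ (2 * d) * l ^ (((d : ℝ) - 2) / 2) ≤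
          ∫ θ : Fin d → ℝ, (∏ j, aa th0 r (θ j)) * wh T' (∑ j, 2 * Real.cos (θ j) - (2 * d - l))

/-- TSE: the test multiplier on the torus. Proof: `q(p) = r^{-2d} ∏_j aa th0 r (θ_j) wh T' (ds p - l)`,
`θ_j ∈ [0, 2π)` the representative of `2 π p_j / M`, `T'` from `KbeStmt`. `wh` is even,
`ds p - l = (2 d - l) - ∑ 2 cos θ_j`; on the support `ds p ≤ ∑ θ_j² ≤ d (th0 + r)² ≤ 2 l`.
`|wh T x| ≤ min (3 T) (4 / (T x²)) ≤ C ker`, `ker = T⁻¹ / (x² + T⁻²)`, `q² ≤ C T ker`, `q² |X| ≤ C ker`,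
`|q X| ≤ (C / T) (X² + T⁻²)^{-1/2}`: `DstStmt` (`e = 4 l`, `η = 1 / T'`) and the second part of
`SmsStmt` (`κ = 16 l`, `η = 1 / T'`). The main term and the kernel: `pm` is a Riemann sum of a
function with the Lipschitz constant at most `C T^4 (Rb + 1)` (`1 / r ≤ C √T`), so up to
`C T^4 (Rb + 1) / M` it is the integral over `[0, 1)^d`, i.e. `(2π)^{-d} r^{-2d}` times the integrals
of `KbeStmt`: `x wh T x = (2 / T) ∫_T^{2T} sin (s x) ds` and Fubini as in `TsaStmt`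
(`Pool/Agent/Helper76_LSP/TSA.lean`): at most `(2 / T) C T^{-(d-1)/2} l^{-1/2}`. (`|y_i| ≤ Rb` for the
representatives of `y` with `tds 0 y ≤ Rb`.) -/
def TseStmt : Prop :=
  ∀ d : ℕ, 3 ≤ d → ∃ (A c C : ℝ) (k : ℕ), 1 ≤ A ∧ 0 < c ∧ 1 ≤ C ∧ ∀ (M Rb : ℕ) [NeZero M]
    (l T : ℝ), 0 < l → l ≤ c → C ≤ T * l → C * (T * (Rb + 1)) ^ k ≤ M →
      ∃ (T' : ℝ) (q : Tor d M → ℝ), T ≤ T' ∧ T' ≤ A * T ∧
        TstT A (l ^ (((d : ℝ) - 2) / 2)) l T' (A / (Real.sqrt T' ^ (d + 1) * Real.sqrt l)) Rb q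

/-! ### E. The clusters of the Green function -/

/-- CLE: the cluster of `b` is large (deterministic). Proof: as `ClbStmt`
(`Pool/Agent/Helper48_LSP/CLB.lean`). `S_0 = {b}`, `S_{j+1} = clu V Λ E s S_j (box b ((j + 1) R₁))`;
there is `j < J` with `|S_{j+1}| ≤ 2 |S_j|`. `C`, `C'` = the images of `S_j`, `S_{j+1}` under the
injection `ti M b` (`2 R + 5 ≤ M`). `χ(y) = exp (- κ' (sd b y - j R₁ : ℕ))`, `κ' = c' η`,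
`ψ x y = χ(y) gr x y` for `y ∈ S_{j+1}`, `0` otherwise, `g x y = ψ x y / ω y`, `ω = om z μ V_t`,
`V_t x = V (b + rep x)`. By `FlatE`: `-1 ≤ V_t ≤ z ≤ 2 d + 1`. For `f = ω g`: `(E - V) ψ - nb ψ = δ_x +
F̃ + ẽ` on the torus, `F̃ x y = - ∑_{z ~ y} (χ y / χ z - 1) ψ x z`, `|ẽ|` at most `(8 d + 2) e^{-s}`
inside and `(8 d + 2) e^{a - κ' (R₁ - 1)}` at `sd b y ∈ {r₁, r₁ + 1}`. By the identity in `SrcStmt` (1)
`aop (g x - sfn x) = Sfn x + ω F̃ + ω ẽ`. So `SysT` with `s = sfn`, `S = Sfn`, `κ = 1 / n`, `h = 1 / μ`,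
`A' = max (A, the constants of SrcStmt and SmsStmt)`, `φ = c_B η` for small `c'`, `e0 = c_B η D₀`,
`Γ = C growth (1 + log n)`, `β = C (ε + 2 n lam + √(4 l n (1 + log n)))`, `D₀ = l^{(d-2)/2}`,
`b₀ = (1/n)^{(d-2)/2} (1 + log (1/η))`; `NumT`: `κ^{(d-4)/2} ≤ growth d n`, `η ≤ l` (from
`η (1 / (n l))^d ≤ l`, `n l ≤ 1`), `SmsStmt`. `BleStmt`. (`tds ≤ 2 R` on the image of `box b R`.) -/
def CleStmt : Prop :=
  ∀ (d : ℕ) (A : ℝ), 3 ≤ d → 1 ≤ A → ∃ c₁ c c₂ C : ℝ, 0 < c₁ ∧ c₁ ≤ 1 ∧ 0 < c ∧ c ≤ 1 / 50 ∧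
    0 < c₂ ∧ 1 ≤ C ∧ ∀ (M n N R R₁ J : ℕ) [NeZero M] (V : Site d → ℝ) (b : Site d)
    (z μ ε lam w l η τ s a T Kq : ℝ) (q : Tor d M → ℝ), z ≤ 2 * d + 1 → 0 < μ →
    100 ≤ lam * μ → 0 < ε → ε ≤ c → |w - 1| ≤ 1 / 10 → l = lam - 1 / (μ * w) →
    FlatE ε z μ (fun x : Tor d M => V (b + rep x)) →
    FBd (om z μ fun x : Tor d M => V (b + rep x)) (1 / μ) lam w l η τ →
    1 ≤ n → n + 1 ≤ M ^ 2 → lam * (n * (1 + Real.log n)) ≤ c →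
    0 < η → η ≤ c → η * (1 + Real.log (1 / η)) * n ≤ c → η * (1 / (n * l)) ^ d ≤ l →
    C * growth d n * (1 + Real.log n) * η ≤ l ^ (((d : ℝ) - 2) / 2) → 0 ≤ τ →
    τ ^ 2 * (1 / (n : ℝ)) ^ (((d : ℝ) - 2) / 2) * (1 + Real.log (1 / η)) ≤
      c * l ^ (((d : ℝ) - 2) / 2) →
    C / η ≤ M → c₁ / η ≤ T → T ≤ A * (c₁ / η) → 0 < Kq →
    TstT A (l ^ (((d : ℝ) - 2) / 2)) l T Kq (2 * R) q →
    2 * R + 5 ≤ M → box b (R + 2) ⊆ box 0 N → J * R₁ ≤ R → (2 * R + 1) ^ d < 2 ^ J →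
    0 ≤ a → C * (a + Real.log (1 / η) + Real.log R) ≤ η * R₁ →
    C * (1 + Real.log (1 / η) + Real.log R) ≤ s → (RM V (box 0 N) (z - lam)).det ≠ 0 →
    (∀ x ∈ box b (R + 1), ∀ y ∈ box b (R + 1), |gr V (box 0 N) (z - lam) x y| ≤ Real.exp a) →
      c₂ * l ^ (((d : ℝ) - 2) / 2) * η / Kq ^ 2 ≤ (rch V (box 0 N) (z - lam) s b R J).card

/-! ### F. Probability and numbers -/

/-- FLQ: flatness with the explicit dependence on `ε`. Proof: this is the proof of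
`Pool.Agent.LE.H81Z.flatE` (file `Helper81_LSH/FLE.lean`), where `c0 = ε² / (288000 C²)`,
`C0 = 88 + 4 C`. -/
def FlqStmt : Prop :=
  ∀ d : ℕ, 3 ≤ d → ∃ c0 C0 : ℝ, 0 < c0 ∧ 0 < C0 ∧ ∀ (M' : ℕ) (v : ℝ≥0) (σ t ε p : ℝ),
    σ ≠ 0 → |σ| ≤ 1 → (v : ℝ) = σ ^ 2 → 3 ≤ M' → 1 ≤ t → t ≤ M' → 0 < ε → ε ≤ 1 / 50 →
    p = C0 * (1 + Real.log t) * (M' : ℝ) ^ d *
      Real.exp (-(c0 * ε ^ 2) / (σ ^ 2 * growth d t)) → p ≤ 1 / 2 →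
      ∃ z μ : ℝ, |z - 2 * d| ≤ C0 * (σ ^ 2 + 1 / t + Real.sqrt p) ∧ z ≤ 2 * d + 1 ∧
        10 * t ≤ μ ∧ μ ≤ 12 * t ∧
        ∀ h : NeZero M', gau d M' v {V | ¬ FlatE ε z μ V} ≤ ENNReal.ofReal p

/-- CPE: the probability of the clusters. Proof (`G = growth d t`, `C` = constants, which may depend on
`A₀`, `Kε`; `k`, `A_T` from `TseStmt`; `K₀ = 8 k + 20 d`; `FlatE` is monotone in `ε`, so let
`ε² = Kε L σ² G`): `τ² = c L^{-d/2}`, `η = K₃ σ² G lam L^{d+4}`,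
`n_s = ⌊c / (lam (1 + log (1 / lam)))⌋`, `J_s = ⌊√lam M'⌋` (the cut of the momenta). `M' ≥ (t/|σ|)^{K₀}`
is larger than all the polynomials in `t`, `1 / |σ|`, `R`. Note `G lam ≥ c lam^{(d-2)/2}`,
`G^{1/2} lam^{d/4} ≤ C G lam`, `1 ≤ L`, `log M' ≤ 2 K₀ L`, and by the hypothesis `K σ² G L^{2d+10} ≤ C`.
Events: (1) not `FlatE`: `p`. (2) `FloStmt` for `2 J_s` with `r² = C L v ε² μ² |low| / M^d`
(`|low| / M^d ≤ C lam^{d/2}`), `δ₂ = r ≤ C L σ² G^{1/2} lam^{d/4 - 1}`, so `C δ₂ lam ≤ τ η`. (3)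
`KhlStmt` for `J_s`, `τ / 4`, with `k = ⌈C L⌉`, `r² = C L`, `B = C lam^{(d-2)/2} L` (`SmsStmt` with
`κ = 40 d lam`): the last term is at most `e^{-k}` if `K₃` is large. (4) `|gr x y| > e^a` for some
`x, y ∈ box b (R + 1)`, `a = C L` (`P(|gr x y| > τ) ≤ 10 / (|σ| τ)`, `Pool.Agent.LE.MN.H61.lpr`).
(5) `det = 0`: null. The law of `x ↦ V (b + rep x)` is `gau` (`Pool.Agent.LE.H54W.cpf_core`,
`le_map_apply` for the non measurable sets). Outside: `FfbStmt` gives `FBd`; `TseStmt` with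
`T = c₁ / η`, `Rb = 2 R` and `l = lam - 1 / (μ w)`; `CleStmt` with `A = max A_T 1`: the number of the
sites is at least `c₂ l^{(d-2)/2} η T'^{d+1} l / A² ≥ c l^{d/2} η^{-d}`. `R₁ = ⌈C L / η⌉`, `J = ⌈C L⌉`,
`R = J R₁ ≤ (t / |σ|)^4`, `s = C L`, `ρ = R + 2`. -/
def CpeStmt : Prop :=
  ∀ d : ℕ, 3 ≤ d → ∃ K₀ : ℝ, 1 ≤ K₀ ∧ ∀ A₀ Kε : ℝ, 1 ≤ A₀ → 1 ≤ Kε → ∃ c K : ℝ, 0 < c ∧
    c ≤ 1 / 4 ∧ 1 ≤ K ∧ ∀ (M' : ℕ) (v : ℝ≥0) (σ t z μ ε p lam L : ℝ), σ ≠ 0 → |σ| ≤ c →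
    (v : ℝ) = σ ^ 2 → K ≤ t → L = Real.log (1 / |σ|) + Real.log t → z ≤ 2 * d + 1 →
    10 * t ≤ μ → μ ≤ 12 * t → 50 / t ≤ lam → lam ≤ 100 / t → 0 < ε →
    ε ^ 2 ≤ Kε * L * σ ^ 2 * growth d t →
    K * σ ^ 2 * growth d t ^ 2 * L ^ (2 * d + 10) ≤ lam ^ (((d : ℝ) - 4) / 2) →
    (t / |σ|) ^ K₀ ≤ M' → M' ≤ 2 * (t / |σ|) ^ K₀ →
    (∀ h : NeZero M', gau d M' v {V | ¬ FlatE ε z μ V} ≤ ENNReal.ofReal p) → 0 ≤ p →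
    p ≤ (|σ| / t) ^ A₀ →
      ∃ (n ρ J : ℕ) (s : ℝ), 1 ≤ s ∧ s ≤ K * L ∧ 1 ≤ ρ ∧ (ρ : ℝ) ≤ (t / |σ|) ^ K₀ ∧ 1 ≤ J ∧
        (J : ℝ) ≤ K * L ∧ 1 ≤ n ∧ (n : ℝ) ≤ (t / |σ|) ^ (2 * d) ∧
        (K * σ ^ 2 * growth d t * Real.sqrt lam * L ^ (d + 4)) ^ (-(d : ℝ)) ≤ n ∧
        ∀ (N : ℕ) (b : Site d), box b ρ ⊆ box 0 N →
          PP d (gl σ) {V | ¬ n ≤ (rch V (box 0 N) (z - lam) s b ρ J).card} ≤
            ENNReal.ofReal (3 * (|σ| / t) ^ A₀)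

/-- PIE: the final bound. Proof: `CpeStmt` with `A₀ = 2 d + 1`, `CrgStmt` with `q = 3 (|σ| / t)^{2d+1}`,
`q n ≤ 1`; `|z - lam| ≤ 2 d + 2`: `p < 1`, so some `V` has `FlatE`, and then `z > 2 d - 1` (the
quadratic form of `AM z V` at the constant function). -/
def PieStmt : Prop :=
  ∀ d : ℕ, 3 ≤ d → ∃ K₀ : ℝ, 1 ≤ K₀ ∧ ∀ Kε : ℝ, 1 ≤ Kε → ∃ c K : ℝ, 0 < c ∧
    c ≤ 1 / 4 ∧ 1 ≤ K ∧ ∀ (M' : ℕ) (v : ℝ≥0) (σ t z μ ε p lam L g : ℝ), σ ≠ 0 → |σ| ≤ c →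
    (v : ℝ) = σ ^ 2 → K ≤ t → L = Real.log (1 / |σ|) + Real.log t → z ≤ 2 * d + 1 →
    10 * t ≤ μ → μ ≤ 12 * t → 50 / t ≤ lam → lam ≤ 100 / t → 0 < ε →
    ε ^ 2 ≤ Kε * L * σ ^ 2 * growth d t →
    K * σ ^ 2 * growth d t ^ 2 * L ^ (2 * d + 10) ≤ lam ^ (((d : ℝ) - 4) / 2) →
    (t / |σ|) ^ K₀ ≤ M' → M' ≤ 2 * (t / |σ|) ^ K₀ →
    (∀ h : NeZero M', gau d M' v {V | ¬ FlatE ε z μ V} ≤ ENNReal.ofReal p) → 0 ≤ p →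
    p ≤ (|σ| / t) ^ (2 * (d : ℝ) + 1) → LyaAt d σ (z - lam) g →
      g ≤ K * σ ^ 2 * growth d t * Real.sqrt lam * L ^ (d + 6)

end Pool.Agent.LE.IR
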