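import Pool.Agent.Helper96_EXP.Lip
import Pool.Agent.Helper75_Mob.Transfer
import Pool.Agent.Helper48_Loc.GaussLaw

/-!
# No exponentially decaying eigenfunctions outside the localized phase: statements of the modules

The proofs are in `/team-store/PAPER_EXPL.md`.
-/

set_option autoImplicit false

open MeasureTheory ProbabilityTheory Function

open scoped ENNReal BigOperators

noncomputable section

namespace Pool.Agent.LE

open Pool.Agent.Anderson Pool.Agent.Loc Pool.Agent.Helper54.Bal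
  Pool.Agent.Helper96.EXP

/-- all the cubes of radius `L` with a centre in the cube of radius `L` about `a` are good -/
def AllGoodC {d : ℕ} (V : Site d → ℝ) (a : Site d) (L : ℕ) (m E : ℝ) : Prop :=
  ∀ s ∈ box a L, (RM V (box s L) E).det ≠ 0 ∧
    ∀ u, sd s u = L → |gr V (box s L) E s u| ≤ Real.exp (-m * L)

/-- CLO: closedness (projection along a compact set of solutions), hence measurability. -/
def CloStmt : Prop :=
  ∀ (d : ℕ) (C m : ℝ), IsClosed {p : (Site d → ℝ) × ℝ | GoodE C m p.1 p.2} ∧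
    ∀ K : Set ℝ, IsCompact K →
      IsClosed {V : Site d → ℝ | ∃ E ∈ K, ∃ n, Sol C m V E n ∧ lapR n 0 + V 0 = E}

/-- NUL: if at each energy of `K` almost no potential is good at `0`, then almost surely no
decaying eigenfunction with value `1` at `0` has its energy in `K`. -/
def NulStmt : Prop :=
  ∀ (d : ℕ) (ν : Measure ℝ) [IsProbabilityMeasure ν] (ρ : ℝ), BddDens ν ρ →
    ∀ (C m : ℝ) (K : Set ℝ), 0 < m → IsCompact K →
      (∀ E ∈ K, PP d ν {V | GoodE C m V E} = 0) →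
      PP d ν {V | ∃ E ∈ K, ∃ n, Sol C m V E n ∧ lapR n 0 + V 0 = E} = 0

/-- NOE: from the site `0` and fixed constants to all exponentially decaying eigenfunctions. -/
def NoeStmt : Prop :=
  ∀ (d : ℕ) (ν : Measure ℝ) [IsProbabilityMeasure ν] (D : Set ℝ), IsClosed D →
    (∀ (C m : ℝ) (K : Set ℝ), 0 < m → IsCompact K → K ⊆ D →
      PP d ν {V | ∃ E ∈ K, ∃ n, Sol C m V E n ∧ lapR n 0 + V 0 = E} = 0) →
    ∀ᵐ V ∂(PP d ν), ∀ E ∈ D, ∀ ψ : Site d → ℂ,
      (∀ x, lap ψ x + (V x : ℂ) * ψ x = (E : ℂ) * ψ x) →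
      (∃ B m : ℝ, 0 < m ∧ ∀ x, ‖ψ x‖ ≤ B * Real.exp (-m * sd 0 x)) → ∀ x, ψ x = 0

/-- ERG: an event of positive probability occurs, after a translation, in each large cube. -/
def ErgStmt : Prop :=
  ∀ (d : ℕ) (ν : Measure ℝ) [IsProbabilityMeasure ν] (S : Set (Site d → ℝ)), 1 ≤ d →
    MeasurableSet S → PP d ν S ≠ 0 → ∀ ε : ℝ, 0 < ε → ∃ n₀ : ℕ, ∀ n : ℕ, n₀ ≤ n →
      ∀ a : Site d, PP d ν {V | ∀ s ∈ box a n, tau s V ∉ S} ≤ ENNReal.ofReal ε

/-- RST: the Green function of a large cube decays from the good sites. -/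
def RstStmt : Prop :=
  ∀ (d : ℕ) (ν : Measure ℝ) [IsProbabilityMeasure ν] (ρ : ℝ), BddDens ν ρ →
    ∀ C m E : ℝ, 0 < m → ∀ p : ℝ, 0 < p → ∃ L₀ : ℕ, ∀ L : ℕ, L₀ ≤ L →
      PP d ν {V | ∃ s ∈ box (0 : Site d) L, GoodE C m (tau s V) E ∧
        ∃ w ∈ box (0 : Site d) (3 * L), L ≤ 2 * sd s w ∧
          Real.exp (-(m / 8) * L) < |gr V (box 0 (3 * L)) E s w|} ≤ ENNReal.ofReal p

/-- ONE (shared core): the one site inequality in a finite set. -/
def OneTail (d : ℕ) (ν : Measure ℝ) (E C : ℝ) : Prop :=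
  ∀ (Λ : Finset (Site d)) (x u y : Site d) (t : ℝ), x ∈ Λ → u ∈ Λ → y ∈ Λ → 0 ≤ t →
    PL ν Λ {V | Real.exp t * |gr V Λ E x y| < |gr V Λ E x u| * |gr V Λ E u y|} ≤
      ENNReal.ofReal (C * Real.exp (-t / 3))

/-- CHN (shared core): the chaining bound in a cube. -/
def ChnTail (d : ℕ) (ν : Measure ℝ) (E C : ℝ) : Prop :=
  ∀ (R n : ℕ) (c : Site d) (t : ℝ), 1 ≤ n → box c n ⊆ box 0 R → 0 < t →
    PL ν (box 0 R) {V | ∃ s ∈ box c n, |gr V (box 0 R) E c s| < Real.exp (-t)} ≤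
      ENNReal.ofReal (C * (n / t) ^ (4 * d))

/-- CVR: good sites everywhere make all the cubes good. -/
def CvrStmt : Prop :=
  ∀ (d : ℕ) (σ E : ℝ), 1 ≤ d → σ ≠ 0 → (∃ C, OneTail d (gl σ) E C) →
    (∃ C, ChnTail d (gl σ) E C) → ∀ C m : ℝ, 0 < m →
    PP d (gl σ) {V | GoodE C m V E} ≠ 0 → ∀ p : ℝ, 0 < p → ∀ L₀ : ℕ, ∃ L : ℕ, L₀ ≤ L ∧
      PL (gl σ) (box (0 : Site d) (2 * L)) {V | ¬ AllGoodC V 0 L (m / 16) E} ≤ ENNReal.ofReal p

end Pool.Agent.LE
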