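import Pool.Agent.LE.StmtsG

/-!
# Eigenfunctions decay exactly at the rate of the Lyapunov exponent: statements of the modules

The proofs are in `/team-store/PAPER_EXR.md`.
-/

set_option autoImplicit false

open MeasureTheory ProbabilityTheory Function Filter

open scoped ENNReal BigOperators Topology

noncomputable section

namespace Pool.Agent.LE

open Pool.Agent.Anderson Pool.Agent.Loc Pool.Agent.Mob Pool.Agent.Helper54.Bal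
  Pool.Agent.Helper96.EXP

/-- `g` is the Lyapunov exponent at the energy `E` -/
def LyaAt (d : ℕ) (σ E g : ℝ) : Prop :=
  0 ≤ g ∧ ∀ ε : ℝ, 0 < ε →
    Tendsto (fun L : ℕ => PP d (gl σ) {V | SG V L (g + ε) E 0}) atTop (𝓝 0) ∧
    Tendsto (fun L : ℕ => PP d (gl σ) {V | ¬ SG V L (g - ε) E 0}) atTop (𝓝 0)

/-! ### the sharp multiscale induction at one energy -/

/-- SMD: the sharp deterministic step. -/
def SmdStmt : Prop :=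
  ∀ (d : ℕ) (V : Site d → ℝ) (E m T q : ℝ) (L M N n : ℕ) (s u : Site d), 1 ≤ L → 1 ≤ N →
    0 ≤ T → q ≤ 1 → 2 * d * (3 * L) ^ d * Real.exp (-m * L) ≤ q →
    T * (2 * d * (33 * N * L) ^ d) * q ≤ 1 / 2 →
    ((RM V (box s M) E).det ≠ 0 ∧ ∀ x y, |gr V (box s M) E x y| ≤ T) →
    (∀ v ∈ box s M, ∀ r : ℕ, r ≤ 16 * N * L →
      (RM V (box v r) E).det ≠ 0 ∧ ∀ x y, |gr V (box v r) E x y| ≤ T) →
    (∀ F : Finset (Site d), (∀ v ∈ F, v ∈ box s M ∧ ¬ SG V L m E v) →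
      (∀ v ∈ F, ∀ v' ∈ F, v ≠ v' → 6 * L < sd v v') → F.card ≤ N) →
    n * (L + 1) + 45 * N ^ 2 * L ≤ M → sd s u = M → |gr V (box s M) E s u| ≤ q ^ n * T

/-- SMP: the probability step. -/
def SmpStmt : Prop :=
  ∀ (d : ℕ) (ν : Measure ℝ) [IsProbabilityMeasure ν] (ρ : ℝ), BddDens ν ρ →
    ∀ (E m m' p T q : ℝ) (L M N n : ℕ), 1 ≤ L → 1 ≤ N → 0 ≤ p → 0 < T → q ≤ 1 →
      2 * d * (3 * L) ^ d * Real.exp (-m * L) ≤ q → T * (2 * d * (33 * N * L) ^ d) * q ≤ 1 / 2 →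
      n * (L + 1) + 45 * N ^ 2 * L ≤ M → q ^ n * T ≤ Real.exp (-m' * M) →
      PP d ν {V | ¬ AllGoodC V 0 L m E} ≤ ENNReal.ofReal p →
      PP d ν {V | ¬ AllGoodC V 0 M m' E} ≤
        ENNReal.ofReal (((7 * (M / L : ℝ)) ^ d * p) ^ (N + 1) +
          12 * ρ * (5 * M) ^ (3 * d + 1) / T)

/-- the numbers of one step: from the scale `L`, the rate `m` and the probability `p` to the scale
`M`, the rate `m'` and the probability `p'` -/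
def StepN (d : ℕ) (ρ : ℝ) (L : ℕ) (m p : ℝ) (M : ℕ) (m' p' : ℝ) : Prop :=
  ∃ (N n : ℕ) (T q : ℝ), 1 ≤ N ∧ 0 < T ∧ q ≤ 1 ∧
    2 * d * (3 * L) ^ d * Real.exp (-m * L) ≤ q ∧ T * (2 * d * (33 * N * L) ^ d) * q ≤ 1 / 2 ∧
    n * (L + 1) + 45 * N ^ 2 * L ≤ M ∧ q ^ n * T ≤ Real.exp (-m' * M) ∧
    ((7 * (M / L : ℝ)) ^ d * p) ^ (N + 1) + 12 * ρ * (5 * M) ^ (3 * d + 1) / T ≤ p'

/-- SMN: the numbers of the induction. -/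
def SmnStmt : Prop :=
  ∀ (d : ℕ) (ρ m ε A : ℝ), 1 ≤ d → 0 < ρ → 0 < ε → ε < m → ∃ p₀ : ℝ, 0 < p₀ ∧ ∃ L₀ : ℕ,
    ∀ L : ℕ, L₀ ≤ L → ∃ (ℓ : ℕ → ℕ) (μ p : ℕ → ℝ), ℓ 0 = L ∧ μ 0 = m ∧ p 0 = p₀ ∧
      (∀ k, 1 ≤ ℓ k ∧ 0 ≤ p k ∧
        StepN d ρ (ℓ k) (μ k) (p k) (ℓ (k + 1)) (μ (k + 1)) (p (k + 1))) ∧
      ∃ L₁ : ℕ, ∀ M : ℕ, L₁ ≤ M → ∃ k,
        StepN d ρ (ℓ k) (μ k) (p k) M (m - ε) ((M : ℝ) ^ (-A))

/-- SMA: improvement of the probability, with an arbitrarily small loss in the rate. -/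
def SmaStmt : Prop :=
  ∀ (d : ℕ) (σ E m ε A : ℝ), 1 ≤ d → σ ≠ 0 → 0 < ε → ε < m →
    Tendsto (fun L : ℕ => PP d (gl σ) {V | ¬ AllGoodC V 0 L m E}) atTop (𝓝 0) →
    ∃ L₀ : ℕ, ∀ L : ℕ, L₀ ≤ L →
      PP d (gl σ) {V | ¬ AllGoodC V 0 L (m - ε) E} ≤ ENNReal.ofReal ((L : ℝ) ^ (-A))

/-- ALG: all the sites of a cube are good with rates close to the Lyapunov exponent. -/
def AlgStmt : Prop :=
  ∀ (d : ℕ) (σ E g ε : ℝ), 1 ≤ d → σ ≠ 0 → LyaAt d σ E g → 0 < ε →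
    Tendsto (fun L : ℕ => PP d (gl σ) {V | ¬ AllGoodC V 0 L (g - ε) E}) atTop (𝓝 0)

/-! ### one energy -/

/-- RSX: a decaying solution off the site `0` gives decay of the Green function at the same
rate. -/
def RsxStmt : Prop :=
  ∀ (d : ℕ) (σ E C m ε : ℝ), 1 ≤ d → σ ≠ 0 → 0 < m → 0 < ε →
    PP d (gl σ) {V | GoodE C m V E} ≠ 0 → ∃ δ : ℝ, 0 < δ ∧ ∃ L₀ : ℕ, ∀ L : ℕ, L₀ ≤ L →
      ENNReal.ofReal δ ≤ PP d (gl σ) {V | SG V L (m - ε) E 0}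

/-- FEX: decay of the Green function gives decay of the solutions off the site `0` at the same
rate. -/
def FexStmt : Prop :=
  ∀ (d : ℕ) (ν : Measure ℝ) [IsProbabilityMeasure ν] (E g c C m : ℝ), 0 < m → c < g →
    (∃ L₀ : ℕ, ∀ L : ℕ, L₀ ≤ L → PP d ν {V | ¬ SG V L g E 0} ≤
      ENNReal.ofReal ((L : ℝ) ^ (-((d : ℝ) + 2)))) →
    ∀ᵐ V ∂(PP d ν), ∀ n, Sol C m V E n → ∃ B : ℝ, Dec B c n

/-! ### from fixed energies to eigenvalues -/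

/-- GEN: exceptional pairs (potential, energy) which have probability zero at almost every energy
do not occur at eigenvalues. -/
def GenStmt : Prop :=
  ∀ (d : ℕ) (ν : Measure ℝ) [IsProbabilityMeasure ν] (ρ : ℝ), BddDens ν ρ →
    ∀ (C m : ℝ) (K : Set ℝ) (B : Set ((Site d → ℝ) × ℝ)), 0 < m → IsCompact K →
      MeasurableSet B →
      (∀ (V : Site d → ℝ) (r E : ℝ), (V, E) ∈ B ↔ (Function.update V 0 r, E) ∈ B) →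
      (∀ᵐ E ∂((volume : Measure ℝ).restrict K), PP d ν {V | GoodE C m V E ∧ (V, E) ∈ B} = 0) →
      PP d ν {V | ∃ E ∈ K, (V, E) ∈ B ∧ ∃ n, Sol C m V E n ∧ lapR n 0 + V 0 = E} = 0

/-- SIM: eigenvalues of decaying eigenfunctions are simple. -/
def SimStmt : Prop :=
  ∀ (d : ℕ) (ν : Measure ℝ) [IsProbabilityMeasure ν] (ρ : ℝ), BddDens ν ρ →
    ∀ (C m : ℝ), 0 < m → ∀ᵐ V ∂(PP d ν), ∀ (E : ℝ) (n : Site d → ℝ), Sol C m V E n →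
      lapR n 0 + V 0 = E → ∀ w : Site d → ℝ,
      (∃ B m' : ℝ, 0 < m' ∧ ∀ x, |w x| ≤ B * Real.exp (-m' * sd 0 x)) →
      (∀ x, lapR w x + V x * w x = E * w x) → w 0 = 0 → ∀ x, w x = 0

/-- MES: measurability of the Lyapunov exponent. -/
def MesStmt : Prop :=
  ∀ (d : ℕ) (σ : ℝ) (γ : ℝ → ℝ), 1 ≤ d → σ ≠ 0 → (∀ E, LyaAt d σ E (γ E)) →
    ∀ c : ℝ, MeasurableSet {E : ℝ | γ E < c}

/-- EXI: no decay faster than the Lyapunov exponent, normalized at `0`. -/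
def ExiStmt : Prop :=
  ∀ (d : ℕ) (σ : ℝ) (γ : ℝ → ℝ), 1 ≤ d → σ ≠ 0 → (∀ E, LyaAt d σ E (γ E)) →
    ∀ (C c : ℝ) (K : Set ℝ), 0 < c → IsCompact K →
      PP d (gl σ) {V | ∃ E ∈ K, γ E < c ∧ ∃ n, Sol C c V E n ∧ lapR n 0 + V 0 = E} = 0

/-- EXJ: decay at least at the rate of the Lyapunov exponent, normalized at `0`. -/
def ExjStmt : Prop :=
  ∀ (d : ℕ) (σ : ℝ) (γ : ℝ → ℝ), 1 ≤ d → σ ≠ 0 → (∀ E, LyaAt d σ E (γ E)) →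
    ∀ (C m c : ℝ) (K : Set ℝ), 0 < m → 0 < c → IsCompact K →
      ∀ᵐ V ∂(PP d (gl σ)), ∀ E ∈ K, c < γ E → ∀ n, Sol C m V E n → lapR n 0 + V 0 = E →
        ∃ B : ℝ, Dec B c n

/-- NXI: from the site `0` and fixed constants to all eigenfunctions, upper bound for the rate. -/
def NxiStmt : Prop :=
  ∀ (d : ℕ) (σ : ℝ) (γ : ℝ → ℝ), (∀ E, 0 ≤ γ E) →
    (∀ (C c : ℝ) (K : Set ℝ), 0 < c → IsCompact K →
      PP d (gl σ) {V | ∃ E ∈ K, γ E < c ∧ ∃ n, Sol C c V E n ∧ lapR n 0 + V 0 = E} = 0) →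
    ∀ᵐ V ∂(PP d (gl σ)), ∀ (E : ℝ) (ψ : Site d → ℂ),
      (∀ x, lap ψ x + (V x : ℂ) * ψ x = (E : ℂ) * ψ x) → ∀ B m : ℝ, γ E < m →
      (∀ x, ‖ψ x‖ ≤ B * Real.exp (-m * sd 0 x)) → ∀ x, ψ x = 0

/-- NXJ: from the site `0` and fixed constants to all eigenfunctions, lower bound for the rate. -/
def NxjStmt : Prop :=
  ∀ (d : ℕ) (σ : ℝ) (γ : ℝ → ℝ), (∀ E, 0 ≤ γ E) →
    (∀ (C m c : ℝ) (K : Set ℝ), 0 < m → 0 < c → IsCompact K →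
      ∀ᵐ V ∂(PP d (gl σ)), ∀ E ∈ K, c < γ E → ∀ n, Sol C m V E n → lapR n 0 + V 0 = E →
        ∃ B : ℝ, Dec B c n) →
    ∀ᵐ V ∂(PP d (gl σ)), ∀ (E : ℝ) (ψ : Site d → ℂ),
      (∀ x, lap ψ x + (V x : ℂ) * ψ x = (E : ℂ) * ψ x) →
      (∃ B m : ℝ, 0 < m ∧ ∀ x, ‖ψ x‖ ≤ B * Real.exp (-m * sd 0 x)) → ∀ c : ℝ, c < γ E →
      ∃ B : ℝ, ∀ x, ‖ψ x‖ ≤ B * Real.exp (-c * sd 0 x)

end Pool.Agent.LE
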