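import Pool.Agent.LE.StmtsQD

/-!
# Beyond the mean free path, part 2: the ladder equation, growth of the clusters, numbers

See `StmtsQD.lean`. `κ = 1/15`, `η = |σ|^{31/15}`, `l = log (1 / |σ|)`.
-/

set_option autoImplicit false

open MeasureTheory ProbabilityTheory Function Filter

open scoped ENNReal BigOperators Topology NNReal ComplexOrder Matrix

noncomputable section

namespace Pool.Agent.LE.QD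

open Pool.Agent.Anderson hiding box mem_box card_box
open Pool.Agent.Loc Pool.Agent.Mob Pool.Agent.Helper54.Bal
  Pool.Agent.Helper96.EXP Pool.Agent.BED
open Pool.Agent.LE.MN Pool.Agent.LE.CL Pool.Agent.LE.IR

/-! ### E. The ladder equation -/

/-- `∑_{b ∈ C} |G(x, b)|²` -/
def ro {d M : ℕ} [NeZero M] (V : Tor d M → ℝ) (z : ℂ) (C : Finset (Tor d M)) (x : Tor d M) : ℝ :=
  ∑ b ∈ C, ‖rs V z x b‖ ^ 2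

/-- `(G φ G^* f G₀)(x, x)`, `φ` the indicator of `C` -/
def yd {d M : ℕ} [NeZero M] (V : Tor d M → ℝ) (z ζ : ℂ) (f : Tor d M → ℝ) (C : Finset (Tor d M))
    (x : Tor d M) : ℂ :=
  ∑ b ∈ C, rs V z x b * ∑ a, (starRingEnd ℂ) (rs V z a b) *
    ((f a : ℂ) * rs (0 : Tor d M → ℝ) ζ a x)

/-- MEA: the mean of the resolvent. Proof: `H₀ = adj`, `G = rs V z`, `D x = G(x, x) - gb`. By
`RalStmt` (7) and the invariance of the measure under translations (`CovStmt` of `BED`) the mean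
`Gm(x, y) = h(x - y)`. `(H₀ - ζ) G = 1 - (V + v gb) G`, and by `SteStmt` (`F = G(x, y)`,
`F' = - G(x, x) G(x, y)`) `E V x G(x, y) = - v E G(x, x) G(x, y)`, so
`((H₀ - ζ) Gm)(x, y) = δ_{xy} + v E D x G(x, y)`. Multiply by `ec p y` and sum over `y`, at `x = 0`:
`(es p - ζ) λ(p) = 1 + s p`, `λ(p) = ∑_y Gm(0, y) ec p y = ft h p`, `s p = v E D 0 (G ec p)(0)`. By
translation invariance `E |(G ec p)(0)|² = M^{-d} E n2 (G ec p) ≤ 1 / z.im²`, and Cauchy-Schwarz. -/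
def MeaStmt : Prop :=
  ∀ (d M : ℕ) [NeZero M] (v : ℝ≥0) (z ζ : ℂ) (δ : ℝ), 0 < z.im → ζ = z + v * gb d M v z → 0 ≤ δ →
    (∫ V, ‖rs V z 0 0 - gb d M v z‖ ^ 2 ∂(gau d M v)) ≤ δ ^ 2 →
      0 ≤ (gb d M v z).im ∧ ∃ s : Tor d M → ℂ, (∀ p, ‖s p‖ ≤ v * δ / z.im) ∧
        ∀ x y : Tor d M, ∫ V, rs V z x y ∂(gau d M v) =
          (∑ p, ec p (x - y) * ((1 + s p) / ((es p : ℂ) - ζ))) / (M : ℂ) ^ d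

/-- SCE: the self-consistent equation. Proof: `w = ζ.im = η + v g.im`, `η ≤ w ≤ 2 c`,
`l' = 1 + log (1 / η)`, `g₀ = rs 0 ζ 0 0 = M^{-d} ∑ 1 / (es p - ζ)` (`RalStmt` (11)). `DsuStmt` at the
energy `ζ.re` and the width `w`: `pm (1 / |es - ζ|) ≤ C₁ l'`, so `|g - g₀| ≤ s₀ C₁ l'` and
`|g| ≤ 2 C₁ l'`, `v |g| ≤ 2 C₁ c ≤ δ / 2`. `Im g₀ = pm (w / ((es - ζ.re)² + w²))` is at most `C₁` and,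
by `DslStmt` (with `δ / 2`, `sin² ≤ 1`), at least `pm (1_{|es - ζ.re| ≤ w}) / (2 w) ≥ c₁ / 2`.
`∑ kk = Im g₀ / w` is `RalStmt` (5). -/
def SceStmt : Prop :=
  ∀ (d : ℕ) (δ : ℝ), 3 ≤ d → 0 < δ → ∃ c C : ℝ, 0 < c ∧ c ≤ 1 ∧ 1 ≤ C ∧
    ∀ (M : ℕ) [NeZero M] (v E η s₀ : ℝ) (g ζ : ℂ) (s : Tor d M → ℂ), |E| ≤ 2 * d - δ → 0 < η →
      η ≤ c → 0 ≤ v → C / η ≤ M → 0 ≤ g.im → v * g.im ≤ c → v * (1 + Real.log (1 / η)) ≤ c →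
      0 ≤ s₀ → s₀ * (1 + Real.log (1 / η)) ≤ c → (∀ p, ‖s p‖ ≤ s₀) → ζ = ⟨E, η⟩ + v * g →
      g = (∑ p, (1 + s p) / ((es p : ℂ) - ζ)) / (M : ℂ) ^ d →
        |ζ.re| ≤ 2 * d - δ / 2 ∧ (c ≤ g.im ∧ g.im ≤ C) ∧
        |g.im - (rs (0 : Tor d M → ℝ) ζ 0 0).im| ≤ C * s₀ * (1 + Real.log (1 / η)) ∧
        (c ≤ (rs (0 : Tor d M → ℝ) ζ 0 0).im ∧ (rs (0 : Tor d M → ℝ) ζ 0 0).im ≤ C) ∧
        ∑ x : Tor d M, kk ζ x = (rs (0 : Tor d M → ℝ) ζ 0 0).im / ζ.im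

/-- TEQ: the ladder equation, an identity. Proof: `G = rs V z`, `G₀ = rs 0 ζ`, `φ` the indicator of
`C`. `G = G₀ - G₀ (V + v gb) G`, so `tr (f G φ G^*) = tr (f G₀ φ G^*) - ∑_x (V x + v gb) yd(x)`. By
`SteStmt` (`F = yd(x)`, by `RalStmt` (9) and its complex conjugate `F' = - G(x, x) yd(x) - ro(x)
od(x)`) `E V x yd(x) = - v E (G(x, x) yd(x) + ro(x) od(x))`. So `E tr (f G φ G^*) = E tr (f G₀ φ G^*) +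
v E ∑_x (G(x, x) - gb) yd(x) + v E ∑_x od(x) ro(x)`. Subtract `v E ∑_x (∑_a kk (x - a) f a) ro(x)`,
`∑_a kk (x - a) f a = ∑_a conj (G₀(a, x)) f a G₀(a, x)`. -/
def TeqStmt : Prop :=
  ∀ (d M : ℕ) [NeZero M] (v : ℝ≥0) (z ζ : ℂ) (f : Tor d M → ℝ) (C : Finset (Tor d M)),
    0 < z.im → 0 < ζ.im → ζ = z + v * gb d M v z →
      ((∫ V, ∑ x, (f x - v * ∑ y, kk ζ (x - y) * f y) * ro V z C x ∂(gau d M v) : ℝ) : ℂ) =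
        ∑ b ∈ C, ∑ a, (f a : ℂ) * rs (0 : Tor d M → ℝ) ζ a b *
          (starRingEnd ℂ) (∫ V, rs V z a b ∂(gau d M v)) +
        v * ∫ V, ∑ x, (rs V z x x - gb d M v z) * yd V z ζ f C x ∂(gau d M v) +
        v * ∫ V, ∑ x, (od V z ζ f x - ∑ a, (starRingEnd ℂ) (rs (0 : Tor d M → ℝ) ζ a x) *
          ((f a : ℂ) * rs (0 : Tor d M → ℝ) ζ a x)) * (ro V z C x : ℂ) ∂(gau d M v)

/-- TER: the mean of the mass. Proof: `TeqStmt`; the left side is `E mss C`. `Gm` = the mean of `G`,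
`Gm - G₀` has the symbol `s / (es - ζ)`, so (Parseval) `∑_a |(Gm - G₀)(a, b)|² ≤ s₀² ∑ kk ≤ s₀² K₀`.
(1) First term: `∑_{b ∈ C} ∑_a f a kk (a - b)` up to `Φ |C| s₀ K₀` (Cauchy-Schwarz). (2) Second term:
`∑_x D x yd(x) = ∑_{b ∈ C} ⟨G δ_b, f G₀ D G δ_b⟩`, at most `|C| max_b |G δ_b|² Φ sup |D| / ζ.im`; on the
event `|D| ≤ δ₀` one has `|G δ_b|² = Im G(b, b) / η ≤ g₀ / η`, outside `|D| ≤ 2 / η`,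
`|G δ_b|² ≤ 1 / η²`. (3) Third term: `od - ∑_a … = (od - E od) + ((Gm - G₀)^* f G₀)(x, x)`, at most
`δ₂ Φ + Φ s₀ K₀` on the second event, always at most `2 Φ / η²`; `∑_x ro(x) = ∑_{b ∈ C} |G δ_b|²`. -/
def TerStmt : Prop :=
  ∀ (d M : ℕ) [NeZero M] (v : ℝ≥0) (E η δ₀ δ₂ s₀ K₀ g₀ Φ p : ℝ) (ζ : ℂ) (s : Tor d M → ℂ)
    (C : Finset (Tor d M)) (f : Tor d M → ℝ), 0 < η → 0 ≤ δ₀ → 0 ≤ δ₂ → 0 ≤ s₀ → 0 < Φ → 0 ≤ p →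
    0 ≤ (gb d M v ⟨E, η⟩).im → ζ = ⟨E, η⟩ + v * gb d M v ⟨E, η⟩ → (∀ q, ‖s q‖ ≤ s₀) →
    (∀ x y : Tor d M, ∫ V, rs V ⟨E, η⟩ x y ∂(gau d M v) =
      (∑ p, ec p (x - y) * ((1 + s p) / ((es p : ℂ) - ζ))) / (M : ℂ) ^ d) →
    ∑ x : Tor d M, kk ζ x ≤ K₀ → (gb d M v ⟨E, η⟩).im + δ₀ ≤ g₀ → (∀ x, 0 ≤ f x ∧ f x ≤ Φ) →
    (∀ x, f x - v * ∑ y, kk ζ (x - y) * f y = if x ∈ C then 1 else 0) →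
    gau d M v {V | ¬ ∀ x, ‖rs V ⟨E, η⟩ x x - gb d M v ⟨E, η⟩‖ ≤ δ₀} ≤ ENNReal.ofReal p →
    gau d M v {V | ¬ ∀ x, ‖od V ⟨E, η⟩ ζ f x - ∫ W, od W ⟨E, η⟩ ζ f x ∂(gau d M v)‖ ≤
      δ₂ * Φ} ≤ ENNReal.ofReal p →
      ∫ W, mss W ⟨E, η⟩ C ∂(gau d M v) ≤ ∑ x, f x * ∑ y ∈ C, kk ζ (x - y) +
        C.card * Φ * (s₀ * K₀ + v / η * g₀ * (δ₀ / ζ.im + δ₂ + s₀ * K₀) + 10 * v * p / η ^ 4)

/-- GAP: the gap of the ladder kernel. Proof: `w = ζ.im`, `k = kk ζ`, `K = ∑ k ≤ C₁ / w` (`RalStmt` (5),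
(11), `DsuStmt`). `k` is even in every coordinate, so `∑ k(x) Re (ec q x) = ∑ k(x) ∏_i cos a_i(x)`,
`a_i = 2 π q_i x_i / M`, at most `∑ k(x) |cos a_i(x)|` in absolute value for every `i`, and
`1 - |cos a| ≥ (1 - cos 2 a) / 4`. With `t = 4 π q_i / M`, `|t| ≤ 2 c w ≤ w / 2`: `∑ k(x) (1 - cos (t
x_i)) = (1/2) ∑ |G₀(0, x) (1 - e^{i t x_i})|² = (1/2) pm |1 / (es p - ζ) - 1 / (es p' - ζ)|²`, `p'` = `p`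
shifted by `2 q_i` in the coordinate `i`, `|es p - es p'| = 4 |sin (t/2) sin (θ_i ± t/2)|`. On the set
`|es p - ζ.re| ≤ w` the two denominators are at most `2 w²`, `5 w²` (squared), so by `DslStmt` this is
at least `(1/2) 16 sin² (t/2) c₁ w / (10 w⁴) ≥ c₂ t² / w³ ≥ c₃ K t² / w²`. Take the mean over `i`. -/
def GapStmt : Prop :=
  ∀ (d : ℕ) (δ : ℝ), 3 ≤ d → 0 < δ → ∃ c C : ℝ, 0 < c ∧ c ≤ 1 ∧ 1 ≤ C ∧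
    ∀ (M : ℕ) [NeZero M] (ζ : ℂ), |ζ.re| ≤ 2 * d - δ → 0 < ζ.im → ζ.im ≤ c → C / ζ.im ≤ M →
      Gap (fun x : Tor d M => kk ζ x) c ζ.im

/-- RWS: the random walk. Proof: `K f(x) = ∑ k(x - y) f(y)`, `K₀ = ∑ k`, `P = K / K₀`, `θ = v K₀ < 1`,
`φ` the indicator of `C'`. `f = ∑_m θ^m P^m φ`. `v ∑_x f(x) (K φ)(x) = ∑_{m ≥ 1} θ^m ⟨φ, P^m φ⟩`. For
`m ≤ n`: `⟨φ, P^m φ⟩ ≤ |C'|`. For `m > n`: `φ ≤ ∑_{a ∈ 𝒜} h(· - a)`, `h(x) = ∏_i F(x_i)`,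
`F(x) = 4 |∑_{|p| ≤ J} e^{2 π i p x / M}|² / (2 J + 1)²`, `J = ⌊M / (8 L)⌋`: `F ≥ 1` for
`0 ≤ x < L` (`|∑| ≥ (2 J + 1) cos (2 π J L / M) ≥ (2 J + 1) / √2`), `∑ F = 4 M / (2 J + 1) ≤ 32 L`, and
`F̂` vanishes for `|p| > 2 J`. For `|q_i| ≤ 2 J`: `2 π |q_i| ≤ π M / (2 L) ≤ c w M`, so `|P^(q)|^m ≤
exp (- c m (2 π / M)² |q|² / w²)` (`Gap`; if `m` is large the factor `1 - …` may not be negative, as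
`|P^| ≥ 0`). So `⟨h(· - a), P^m h(· - b)⟩ ≤ (32 L)^{2 d} ∏ (M⁻¹ ∑_{q ∈ ℤ} exp (- c m (2 π / M)² q² /
w²)) ≤ C L^{2 d} (M^{-d} + (w² / m)^{d/2})`. Sum over the pairs `(a, b)`, `|𝒜| L^d = |C'|`, and over
`m > n`: `∑_{m > n} m^{-d/2} ≤ 2 n^{1 - d/2}`, `∑ θ^m ≤ 1 / (1 - θ)`. -/
def RwsStmt : Prop :=
  ∀ (d : ℕ) (c : ℝ), 3 ≤ d → 0 < c → ∃ C : ℝ, 1 ≤ C ∧ ∀ (M : ℕ) [NeZero M] (k : Tor d M → ℝ)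
    (v w : ℝ) (L n : ℕ) (𝒜 C' : Finset (Tor d M)), (∀ x, 0 ≤ k x) → (∀ x, k (-x) = k x) → 0 < v →
    0 < ∑ x, k x → v * ∑ x, k x < 1 → 0 < w → w ≤ 1 → Gap k c w → C ≤ w * L → C * L ≤ M → 1 ≤ n →
    (∀ x ∈ C', ∃ a ∈ 𝒜, x ∈ cbt a L) → C'.card = 𝒜.card * L ^ d →
      ∃ f : Tor d M → ℝ, (∀ x, 0 ≤ f x ∧ f x ≤ 1 / (1 - v * ∑ x, k x)) ∧
        (∀ x, f x - v * ∑ y, k (x - y) * f y = if x ∈ C' then 1 else 0) ∧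
        v * ∑ x, f x * ∑ y ∈ C', k (x - y) ≤
          C'.card * (n + C * 𝒜.card * (L * w) ^ d * (n : ℝ) ^ (1 - (d : ℝ) / 2) +
            C * 𝒜.card * ((L : ℝ) / M) ^ d / (1 - v * ∑ x, k x))

/-! ### F. Numbers on the torus -/

/-- the facts about the torus: `A` is the constant of the Sobolev inequality at `η₁`, `B` bounds
`pm (1 / m)`, `p` is a probability, `δ₀` bounds `|G(x, x) - gb|`, `s` is the symbol of `MeaStmt` -/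
structure Kin (d M : ℕ) [NeZero M] (v : ℝ≥0) (E η η₁ A B p δ₀ s₀ δ c C : ℝ) (ζ : ℂ)
    (s : Tor d M → ℂ) : Prop where
  hη : 0 < η ∧ η ≤ η₁ ∧ η₁ ≤ 1
  hA : 0 < A ∧ 0 < B ∧ 0 ≤ p ∧ 0 ≤ δ₀ ∧ 0 ≤ s₀
  hS : Sob d M E η₁ A
  hB : pm (fun p : Tor d M => (mt (2 * d - E) η₁ p)⁻¹) ≤ B
  hF : gau d M v {V | ¬ FBq E η₁ (1 / 4) V} ≤ ENNReal.ofReal p
  hD : gau d M v {V | ¬ ∀ x, ‖rs V ⟨E, η⟩ x x - gb d M v ⟨E, η⟩‖ ≤ δ₀} ≤ ENNReal.ofReal p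
  hζ : ζ = ⟨E, η⟩ + v * gb d M v ⟨E, η⟩ ∧ |ζ.re| ≤ 2 * d - δ
  hs : ∀ q, ‖s q‖ ≤ s₀
  hm : ∀ x y : Tor d M, ∫ V, rs V ⟨E, η⟩ x y ∂(gau d M v) =
    (∑ p, ec p (x - y) * ((1 + s p) / ((es p : ℂ) - ζ))) / (M : ℂ) ^ d
  hg : c ≤ (gb d M v ⟨E, η⟩).im ∧ (gb d M v ⟨E, η⟩).im ≤ C
  h0 : c ≤ (rs (0 : Tor d M → ℝ) ζ 0 0).im ∧ (rs (0 : Tor d M → ℝ) ζ 0 0).im ≤ C
  hd : |(gb d M v ⟨E, η⟩).im - (rs (0 : Tor d M → ℝ) ζ 0 0).im| ≤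
    C * s₀ * (1 + Real.log (1 / η))
  hK : ∑ x : Tor d M, kk ζ x = (rs (0 : Tor d M → ℝ) ζ 0 0).im / ζ.im

/-- TOA. Proof: `l = log (1 / |σ|)`, `η₁ = K₁ σ² l³`, `K₁` large. `C / η₁² ≤ |σ|^{-10} ≤ M`: `SobStmt`
gives `A = C η₁^{-1/3} (1 + log M)² ≤ C |σ|^{-2/3} l²`, `DsuStmt` gives `B = C l` (`mt (2 d - E) η p =
√((es p - E)² + η²)`). `FbpStmt` with `τ = 1/4`, `r² = K₂ l`, `k = ⌈K₂ l⌉`: the probability is at most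
`C |σ|^{-20 d} (|σ|^{K₂ / 2} + (C K₂² l² B v / η₁)^k) ≤ |σ|^{A'}` (`K₂` large, then `K₁` large).
`DiaStmt` with `r² = K₃ l (A B (η₁ / η)²)² v`, `r = |σ|^{1/3 - 2/15} l^C ≤ |σ|^{1/6} / 4` (`p` with a larger
exponent than `A'`). So `E |G(0, 0) - gb|² ≤ |σ|^{1/3} + p (2 / η)² ≤ 4 |σ|^{1/3}`, `MeaStmt` with
`δ = 2 |σ|^{1/6}`: `s₀ = v δ / η = 2 |σ|^{1/6 - 1/15}`. `Im gb = E Im G(0, 0) ≤ (4/3) B η₁ / η + p / η`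
(`ResStmt` on `FBq`), so `v Im gb ≤ c`, `SceStmt`. -/
def ToaStmt : Prop :=
  ∀ (d : ℕ) (δ A' : ℝ), 3 ≤ d → 0 < δ → 1 ≤ A' → ∃ c C : ℝ, 0 < c ∧ c ≤ 1 / 4 ∧ 1 ≤ C ∧
    ∀ (M : ℕ) [NeZero M] (v : ℝ≥0) (σ E η : ℝ), (v : ℝ) = σ ^ 2 → σ ≠ 0 → |σ| ≤ c →
      |E| ≤ 2 * d - δ → η = |σ| ^ (31 / 15 : ℝ) → |σ| ^ (-10 : ℝ) ≤ M → (M : ℝ) ≤ |σ| ^ (-20 : ℝ) →
      ∃ (η₁ A B : ℝ) (ζ : ℂ) (s : Tor d M → ℂ),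
        Kin d M v E η η₁ A B (|σ| ^ A') (|σ| ^ (1 / 6 : ℝ)) (2 * |σ| ^ (1 / 10 : ℝ)) (δ / 2) c C ζ
          s ∧
        η₁ ≤ C * σ ^ 2 * Real.log (1 / |σ|) ^ 3 ∧
        A ≤ C * |σ| ^ (-(2 / 3) : ℝ) * Real.log (1 / |σ|) ^ 2 ∧ B ≤ C * Real.log (1 / |σ|)

/-- TOB: the mean of the mass. Proof: `ToaStmt` with a large `A'`. `w = ζ.im`, `c v ≤ w ≤ C v`,
`K₀ = Im G₀(0, 0) / w`, `θ = v K₀`: `1 - θ = (η + v (Im gb - Im G₀(0, 0))) / w ≥ η / (2 w)`, because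
`v C s₀ l ≤ C σ² |σ|^{1/10} l ≤ η / 2`; so `Φ = 1 / (1 - θ) ≤ C v / η = C |σ|^{-1/15}`. `GapStmt`,
`RwsStmt` (`k = kk ζ`): the function `f` and
`∑_x f(x) ∑_{y ∈ C'} k(x - y) ≤ (1 / v) |C'| (n + C |𝒜| (L w)^d n^{1 - d/2} + |σ|)`, `1 / v = |σ|^{1/15} / η`.
`OffStmt` with `r² = K₃ l ℓ² v`, `ℓ² = 80 A² B (η₁³ / η⁴) Φ² K₀ ≤ |σ|^{-4/3 + 6 - 124/15 - 2} l^C Φ²`:
`δ₂ = |σ|^{1 - 2/3 + 3 - 62/15 - 1} l^C = |σ|^{-9/5} l^C`, `v δ₂ ≤ |σ|^{1/5} l^C`. `TerStmt`: the error is at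
most `|C'| / η` times `C Φ (s₀ + δ₀ + v δ₂ + |σ|) ≤ C |σ|^{-1/15} |σ|^{1/10} ≤ |σ|^{1/31}`. -/
def TobStmt : Prop :=
  ∀ (d : ℕ) (δ : ℝ), 3 ≤ d → 0 < δ → ∃ c K : ℝ, 0 < c ∧ c ≤ 1 / 4 ∧ 1 ≤ K ∧
    ∀ (M : ℕ) [NeZero M] (v : ℝ≥0) (σ E η : ℝ) (L n : ℕ) (𝒜 C' : Finset (Tor d M)),
      (v : ℝ) = σ ^ 2 → σ ≠ 0 → |σ| ≤ c → |E| ≤ 2 * d - δ → η = |σ| ^ (31 / 15 : ℝ) →
      |σ| ^ (-10 : ℝ) ≤ M → (M : ℝ) ≤ |σ| ^ (-20 : ℝ) → K ≤ σ ^ 2 * L →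
      (L : ℝ) ≤ |σ| ^ (-3 : ℝ) → 1 ≤ n → 𝒜.Nonempty → (𝒜.card : ℝ) ≤ |σ| ^ (-(d : ℝ)) →
      (∀ x ∈ C', ∃ a ∈ 𝒜, x ∈ cbt a L) → C'.card = 𝒜.card * L ^ d →
        ∫ W, mss W ⟨E, η⟩ C' ∂(gau d M v) ≤
          (K * |σ| ^ (1 / 15 : ℝ) * (n + 𝒜.card * (σ ^ 2 * L) ^ d * (n : ℝ) ^ (1 - (d : ℝ) / 2)) +
            |σ| ^ (1 / 31 : ℝ)) * C'.card / η

/-- TOM: the torus. Proof: the diagonal: `ToaStmt`, `Im G(x, x) ≥ Im gb - δ₀ ≥ c`. The mass: `TobStmt`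
and `MasStmt` for the family of all `C'` (for each `𝒜` there is at most one `C'`, the union of the
cubes; with `|𝒜| = j` at most `M^{d j}`), `r = |σ|^{1/31} / (4 η)`: the exponent is at least
`j L^d |σ|^{2/31} η⁴ / (C l^8 σ⁶) ≥ j |σ|^{-3}` (`L ≥ σ^{-2}`, `d ≥ 3`), larger than `20 d j l + A l + j`. -/
def TomStmt : Prop :=
  ∀ (d : ℕ) (δ A' : ℝ), 3 ≤ d → 0 < δ → 1 ≤ A' → ∃ c K : ℝ, 0 < c ∧ c ≤ 1 / 4 ∧ 1 ≤ K ∧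
    ∀ (M : ℕ) [NeZero M] (v : ℝ≥0) (σ E η : ℝ) (L N n : ℕ), (v : ℝ) = σ ^ 2 → σ ≠ 0 → |σ| ≤ c →
      |E| ≤ 2 * d - δ → η = |σ| ^ (31 / 15 : ℝ) → |σ| ^ (-10 : ℝ) ≤ M → (M : ℝ) ≤ |σ| ^ (-20 : ℝ) →
      K ≤ σ ^ 2 * L → (L : ℝ) ≤ |σ| ^ (-3 : ℝ) → 1 ≤ n → (N : ℝ) ≤ |σ| ^ (-(d : ℝ)) →
      gau d M v {V | ¬ ((∀ x, c ≤ (rs V ⟨E, η⟩ x x).im) ∧
        ∀ 𝒜 C' : Finset (Tor d M), 𝒜.Nonempty → 𝒜.card ≤ N → (∀ x ∈ C', ∃ a ∈ 𝒜, x ∈ cbt a L) →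
          C'.card = 𝒜.card * L ^ d → mss V ⟨E, η⟩ C' ≤
            (K * |σ| ^ (1 / 15 : ℝ) * (n + N * (σ ^ 2 * L) ^ d * (n : ℝ) ^ (1 - (d : ℝ) / 2)) +
              2 * |σ| ^ (1 / 31 : ℝ)) * C'.card / η)} ≤ ENNReal.ofReal (|σ| ^ A')

/-! ### G. Growth of the clusters -/

/-- CLQ: the kinetic clusters. Proof: the proof of `ClpStmt` (`Helper81_LSP/CLP.lean`) gives
`ρ = R + 2`, `R = J R₁ ≤ C l² / η`, `η = K₁ σ² l⁴`, so `ρ ≤ K / σ²`. -/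
def ClqStmt : Prop :=
  ∀ (d : ℕ) (δ A : ℝ), 3 ≤ d → 0 < δ → 1 ≤ A → ∃ c K : ℝ, 0 < c ∧ c ≤ 1 / 4 ∧ 1 ≤ K ∧
    ∀ σ E : ℝ, σ ≠ 0 → |σ| ≤ c → |E| ≤ 2 * d - δ → ∃ (n ρ J : ℕ) (s : ℝ), 1 ≤ s ∧
      s ≤ K * Real.log (1 / |σ|) ∧ 1 ≤ ρ ∧ (ρ : ℝ) ≤ K / σ ^ 2 ∧ 1 ≤ J ∧
      (J : ℝ) ≤ K * Real.log (1 / |σ|) ∧ 1 ≤ n ∧ (n : ℝ) ≤ |σ| ^ (-(2 * (d : ℝ))) ∧
      (K * σ ^ 2 * Real.log (1 / |σ|) ^ 4) ^ (-(d : ℝ)) ≤ n ∧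
      ∀ (N : ℕ) (b : Site d), box b ρ ⊆ box 0 N →
        PP d (gl σ) {V | ¬ n ≤ (rch V (box 0 N) E s b ρ J).card} ≤ ENNReal.ofReal (|σ| ^ A)

/-- GRO: growth (deterministic). Proof: `U_0 = {b}`, `U_i' = ∪_{x ∈ U_i} rch V Λ E s x ρ J₁`,
`U_{i+1} = clu V Λ E s U_i' (box b ((i + 1) (R₁ + ρ)))`. By induction `U_i ⊆ box b (i (R₁ + ρ))`,
`U_i' ⊆ box b (i (R₁ + ρ) + ρ)`, `U_i ⊆ rch V Λ E s b R (i (J₁ + 1))`, `U_i' ⊆ rch V Λ E s b R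
(i (J₁ + 1) + J₁)` (`i ≤ J₂`). Let `I_i` be the set of the indices `k` of the coarse cubes `cub b L k` which
meet `U_i` (`k_j = ⌊(y_j - b_j) / L⌋`), `a_i = |I_i|`, `a_0 = 1`. Claim: `2^d |U_i'| ≥ n a_i`: some parity
class of indices contains at least `a_i / 2^d` elements of `I_i`; choose a point `x ∈ U_i` for each of
them; the sets `rch V Λ E s x ρ J₁ ⊆ box x ρ` are disjoint (two coordinates differ by more than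
`L ≥ 2 ρ`) with at least `n` elements. If `a_i ≥ N₀` for some `i ≤ J₂`: the first alternative. If not,
`a_{i+1} ≤ 2 a_i` for some `i < J₂` (since `2^{J₂} > N₀`), and `C = U_i'`, `𝒦 = I_{i+1}`,
`r = i (R₁ + ρ) + ρ`. -/
def GroStmt : Prop :=
  ∀ (d : ℕ) (V : Site d → ℝ) (Λ : Finset (Site d)) (E s : ℝ) (b : Site d)
    (ρ R R₁ J₁ J₂ L n N₀ : ℕ), 1 ≤ d → 1 ≤ N₀ → 1 ≤ L → 2 * ρ ≤ L → N₀ < 2 ^ J₂ →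
    J₂ * (R₁ + ρ) + ρ ≤ R → (∀ x ∈ box b R, n ≤ (rch V Λ E s x ρ J₁).card) →
      n * N₀ ≤ 2 ^ d * (rch V Λ E s b R ((J₁ + 1) * (J₂ + 1))).card ∨
      ∃ (r : ℕ) (C 𝒦 : Finset (Site d)), r + R₁ ≤ R ∧ C.Nonempty ∧ C ⊆ box b r ∧ 𝒦.Nonempty ∧
        𝒦.card ≤ 2 * N₀ ∧ n * 𝒦.card ≤ 2 ^ (d + 1) * C.card ∧
        (∀ y ∈ clu V Λ E s C (box b (r + R₁)), ∃ k ∈ 𝒦, y ∈ cub b L k) ∧
        ∀ k ∈ 𝒦, cub b L k ⊆ box b (R + L)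

/-- CLS: a cluster which does not grow (deterministic). Proof: `G = gr V (box 0 N) E`,
`U = clu V (box 0 N) E s C (box b (r + R₁))`, `4 d κ = η / 16`, `χ(y) = exp (- κ (sd b y - r)^+)`. As in the
proof of `ClbStmt` (`Helper48_LSP/CLB*.lean`): for `x ∈ C` the function `ψ x y = χ(y) G(x, y)` for
`y ∈ U`, `0` otherwise, satisfies `(E - H) ψ x = δ_x + F x + e x`, `F x y = ∓ ∑_{z ~ y} (χ(y) / χ(z) - 1)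
ψ x z`, `n2 F_v ≤ (4 d κ)² n2 ψ_v ≤ (η / 8)² n2 ψ_v`, `|e x y| ≤ (8 d + 2) (e^{-s} + e^{a - κ (R₁ - 1)})` on
`box b (R + 1)`, zero outside; so `n2 (e x) ≤ η²`. Transport to the torus with `ti M b` (injective on
`box b (R + L + 2)`, neighbours go to neighbours). `C'` = the image of the union of the cubes
`cub b L k`, `k ∈ 𝒦` (disjoint, `L^d` points each, contained in `box b (R + L)`), `𝒜` = the images of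
their corners. `HscStmt`: `c₀ |C| ≤ 200 (ε |𝒦| L^d + η |C|) ≤ 200 (2^{d+1} ε L^d / n + η) |C|`. -/
def ClsStmt : Prop :=
  ∀ d : ℕ, 1 ≤ d → ∃ K : ℝ, 1 ≤ K ∧ ∀ (M : ℕ) [NeZero M] (V : Site d → ℝ) (W : Tor d M → ℝ)
    (N R r R₁ L n : ℕ) (E η s a c₀ ε : ℝ) (b : Site d) (C 𝒦 : Finset (Site d)), 0 < η → η ≤ 1 →
    |E| ≤ 2 * d → 0 ≤ a → 0 ≤ ε → 1 ≤ L → 1 ≤ n → 1 ≤ R → 2 * (R + L) + 5 ≤ M →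
    (∀ y ∈ box b (R + 2), W (ti M b y) = V y) → box b (R + 2) ⊆ box 0 N → r + R₁ ≤ R →
    C.Nonempty → C ⊆ box b r →
    (∀ y ∈ clu V (box 0 N) E s C (box b (r + R₁)), ∃ k ∈ 𝒦, y ∈ cub b L k) →
    (∀ k ∈ 𝒦, cub b L k ⊆ box b (R + L)) → n * 𝒦.card ≤ 2 ^ (d + 1) * C.card →
    (RM V (box 0 N) E).det ≠ 0 → (∀ x ∈ box b (R + 1), |V x| ≤ 1) →
    (∀ x ∈ box b (R + 1), ∀ y ∈ box b (R + 1), |gr V (box 0 N) E x y| ≤ Real.exp a) →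
    K * (a + 1 + Real.log (1 / η) + Real.log R) ≤ η * R₁ →
    K * (1 + Real.log (1 / η) + Real.log R) ≤ s →
    (∀ x : Tor d M, c₀ ≤ (rs W ⟨E, η⟩ x x).im) →
    (∀ 𝒜 C' : Finset (Tor d M), 𝒜.Nonempty → 𝒜.card ≤ 𝒦.card →
      (∀ x ∈ C', ∃ a ∈ 𝒜, x ∈ cbt a L) → C'.card = 𝒜.card * L ^ d →
        mss W ⟨E, η⟩ C' ≤ ε * C'.card / η) →
      c₀ ≤ K * (ε * (L : ℝ) ^ d / n + η)

/-- CPX: the probability of the large clusters. Proof: `ClqStmt` (with a large exponent) gives `n₁`,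
`ρ₁`, `J₁`, `s₁`. `η = |σ|^{31/15}`, `N₀ = ⌊|σ|^{-d/31}⌋`, `m = ⌈|σ|^{-4/61}⌉`, `L = ⌈K' / σ²⌉ ≥ 2 ρ₁`,
`s = s₁ + C l` (`rch` grows with `s`), `a = C l`, `R₁ = ⌈C l / η⌉`, `J₂ = ⌈C l⌉`, `N₀ < 2^{J₂}`,
`R = J₂ (R₁ + ρ₁) + ρ₁ ≤ |σ|^{-5/2}`, `ρ = R + ρ₁ + 2`, `M = ⌈|σ|^{-10}⌉`, `J = (J₁ + 1) (J₂ + 1)`,
`n = ⌊n₁ N₀ / 2^d⌋`. Outside of an event of probability `≤ |σ|^A`: `det ≠ 0`, `|V| ≤ 1`,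
`|G(x, y)| ≤ e^a` on `box b (R + 1)` (as in the proof of `ClpStmt`), the clusters of all `x ∈ box b R`
have at least `n₁` points, and `W = V` on the torus (the potential of a cube of side `M` about `b`, see
`Helper54_LIR/CPE*.lean` for the transfer of the law) satisfies `TomStmt` with `N = 2 N₀`, `n = m`. The
coefficient of `|C'| / η` is at most `ε = |σ|^{1/1000}` because `1/15 - 4/61 = 1/915` and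
`1/15 - d/31 + (4/61) (d/2 - 1) ≥ 1/915`. If the second alternative of `GroStmt` holds then
`ClsStmt` gives `c₀ ≤ K (|σ|^{1/1000} L^d / n₁ + η)`, `L^d / n₁ ≤ l^C`: impossible for small `σ`. -/
def CpxStmt : Prop :=
  ∀ (d : ℕ) (δ A : ℝ), 3 ≤ d → 0 < δ → 1 ≤ A → ∃ c K : ℝ, 0 < c ∧ c ≤ 1 / 4 ∧ 1 ≤ K ∧
    ∀ σ E : ℝ, σ ≠ 0 → |σ| ≤ c → |E| ≤ 2 * d - δ → ∃ (n ρ J : ℕ) (s : ℝ), 1 ≤ s ∧
      s ≤ K * Real.log (1 / |σ|) ∧ 1 ≤ ρ ∧ (ρ : ℝ) ≤ |σ| ^ (-3 : ℝ) ∧ 1 ≤ J ∧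
      (J : ℝ) ≤ K * Real.log (1 / |σ|) ^ 2 ∧ 1 ≤ n ∧ (n : ℝ) ≤ |σ| ^ (-(3 * (d : ℝ))) ∧
      |σ| ^ (-((2 + 1 / 31) * (d : ℝ))) ≤ K * Real.log (1 / |σ|) ^ (4 * d) * n ∧
      ∀ (N : ℕ) (b : Site d), box b ρ ⊆ box 0 N →
        PP d (gl σ) {V | ¬ n ≤ (rch V (box 0 N) E s b ρ J).card} ≤ ENNReal.ofReal (|σ| ^ A)

/-- QDF: the final bound. Proof: `CpxStmt` with `A = 3 d`, `CrgStmt` with `q = |σ|^A`, `q n ≤ 1`: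
`γ ≤ C J (s + l + log ρ) n^{-1/d} ≤ C l^7 |σ|^{2 + 1/31}`. -/
def QdfStmt : Prop :=
  ∀ (d : ℕ) (δ : ℝ), 3 ≤ d → 0 < δ → ∃ c C : ℝ, 0 < c ∧ c ≤ 1 / 4 ∧ 1 ≤ C ∧
    ∀ σ E g : ℝ, σ ≠ 0 → |σ| ≤ c → |E| ≤ 2 * d - δ → LyaAt d σ E g →
      g ≤ C * |σ| ^ (2 + 1 / 32 : ℝ)

end Pool.Agent.LE.QD
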