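import Pool.Agent.LE.StmtsZ

/-!
# Clusters: the sites which are reached by a few cheap links

`rch V Λ E s b ρ j` is the set of the sites of `box b ρ` which are reached from `b` by at most `j`
links `x → y` with `|G_Λ(x, y; E)| ≥ e^{-s}`.
-/

set_option autoImplicit false

open MeasureTheory ProbabilityTheory

open scoped ENNReal

noncomputable section

namespace Pool.Agent.LE.CL

open Pool.Agent.Anderson Pool.Agent.Loc Pool.Agent.Mob Pool.Agent.Helper54.Bal
  Pool.Agent.Helper96.EXP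

/-- the sites of `box b ρ` reached from `b` by at most `j` links of the price at most `s` -/
def rch {d : ℕ} (V : Site d → ℝ) (Λ : Finset (Site d)) (E s : ℝ) (b : Site d) (ρ : ℕ) :
    ℕ → Finset (Site d)
  | 0 => {b}
  | j + 1 => by
      classical
      exact rch V Λ E s b ρ j ∪
        (box b ρ).filter fun y => ∃ x ∈ rch V Λ E s b ρ j, Real.exp (-s) ≤ |gr V Λ E x y|

/-- the sites of `B` reached from some point of `C` by one link of the price at most `s` -/
def clu {d : ℕ} (V : Site d → ℝ) (Λ : Finset (Site d)) (E s : ℝ) (C B : Finset (Site d)) :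
    Finset (Site d) := by
  classical
  exact C ∪ B.filter fun y => ∃ x ∈ C, Real.exp (-s) ≤ |gr V Λ E x y|

/-- the sum over the neighbours -/
def nb {d : ℕ} (u : Site d → ℝ) (x : Site d) : ℝ :=
  ∑ i : Fin d, (u (x + Pi.single i 1) + u (x - Pi.single i 1))

/-- CRG: the criterion (helper93, `StmtsP.lean`): from the size of the clusters to the Lyapunov
exponent. -/
def CrgStmt : Prop :=
  ∀ d : ℕ, 1 ≤ d → ∃ C : ℝ, 1 ≤ C ∧ ∀ (σ E s q g : ℝ) (J n ρ : ℕ), 0 < |σ| → |σ| ≤ 1 / 2 →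
    |E| ≤ 2 * d + 2 → 1 ≤ s → 1 ≤ J → 1 ≤ n → 1 ≤ ρ → LyaAt d σ E g → 0 ≤ q → q * n ≤ 1 →
    (∀ (N : ℕ) (b : Site d), box b ρ ⊆ box 0 N →
      PP d (gl σ) {V | ¬ n ≤ (rch V (box 0 N) E s b ρ J).card} ≤ ENNReal.ofReal q) →
      g ≤ C * J * (s + Real.log (1 / |σ|) + Real.log ρ) * (n : ℝ) ^ (-(1 / (d : ℝ)))

variable {d : ℕ} {V : Site d → ℝ} {Λ : Finset (Site d)} {E s : ℝ} {b : Site d} {ρ : ℕ}

theorem mem_clu {C B : Finset (Site d)} {y : Site d} :
    y ∈ clu V Λ E s C B ↔ y ∈ C ∨ (y ∈ B ∧ ∃ x ∈ C, Real.exp (-s) ≤ |gr V Λ E x y|) := by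
  classical
  simp [clu]

theorem rch_succ (j : ℕ) : rch V Λ E s b ρ (j + 1) = clu V Λ E s (rch V Λ E s b ρ j) (box b ρ) := by
  classical
  ext y
  rw [mem_clu]
  simp [rch]

theorem rch_zero : rch V Λ E s b ρ 0 = {b} := rfl

theorem rch_subset_succ (j : ℕ) : rch V Λ E s b ρ j ⊆ rch V Λ E s b ρ (j + 1) := by
  intro y hy
  rw [rch_succ, mem_clu]
  exact Or.inl hy

theorem rch_mono {j k : ℕ} (h : j ≤ k) : rch V Λ E s b ρ j ⊆ rch V Λ E s b ρ k := by
  induction k, h using Nat.le_induction with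
  | base => exact fun _ h => h
  | succ n _ ih => exact fun y hy => rch_subset_succ n (ih hy)

theorem rch_subset_box (j : ℕ) : rch V Λ E s b ρ j ⊆ box b ρ := by
  induction j with
  | zero =>
    intro y hy
    rw [rch_zero, Finset.mem_singleton] at hy
    rw [hy, mem_box, sd_self]
    exact Nat.zero_le _
  | succ n ih =>
    intro y hy
    rw [rch_succ, mem_clu] at hy
    rcases hy with hy | hy
    · exact ih hy
    · exact hy.1

theorem clu_mono {C C₂ B B₂ : Finset (Site d)} (hC : C ⊆ C₂) (hB : B ⊆ B₂) :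
    clu V Λ E s C B ⊆ clu V Λ E s C₂ B₂ := by
  intro y hy
  rw [mem_clu] at hy ⊢
  rcases hy with hy | ⟨hy, x, hx, hxy⟩
  · exact Or.inl (hC hy)
  · exact Or.inr ⟨hB hy, x, hC hx, hxy⟩

theorem rch_mono_rad {ρ' : ℕ} (h : ρ ≤ ρ') (j : ℕ) : rch V Λ E s b ρ j ⊆ rch V Λ E s b ρ' j := by
  induction j with
  | zero => exact fun _ h => h
  | succ n ih =>
    rw [rch_succ, rch_succ]
    exact clu_mono ih (box_mono b h)

theorem mem_rch_self (j : ℕ) : b ∈ rch V Λ E s b ρ j :=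
  rch_mono (Nat.zero_le j) (by rw [rch_zero, Finset.mem_singleton])

end Pool.Agent.LE.CL
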