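import Pool.Agent.LE.StmtsM
import Pool.Agent.LE.DefsC
import Pool.Agent.LE.StmtsK

/-!
# The Lyapunov exponent at weak disorder, pointwise: `γ(σ, E) ≤ C σ² log⁶ (1 / |σ|)`

Statements of the modules, with proofs. The final theorem is `PbdStmt`: for `d ≥ 3` and every real
`E`, `|E| ≤ 2 d - δ` (the critical energies `2 d - 4 k` included), the Lyapunov exponent is at most
`C σ² log⁶ (1 / |σ|)`: at every energy in the bulk the localization length is at least the mean free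
path, up to logarithms.

MAIN IDEA. Fix a large cube `Λ`, let `G` be its Green function at the real energy `E`. The site `y` is
linked to `x` if `|G(x, y)| ≥ e^{-s}`, `s = C log (1 / |σ|)`. Let `η = C σ² log⁴ (1 / |σ|)`.
(1) The set of the sites which are reached from `b` by `C log (1 / |σ|)` links inside of the cube of
radius `C η^{-1} log² (1 / |σ|)` about `b` has at least `c η^{-d}` elements, with probability at least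
`1 - |σ|^A` (CLP). (2) On all these sites the function `F_i = - log max_{z ∈ face i} |G(z, ·)|` has
nearly the same value. `F` covers a cube of side `γ L / 4` (Poincaré-Miranda), so
`(γ L / (C s log))^d ≤ C L^d η^d` (CN3, CR3, CRG).

Proof of (1). `S_0 = {b}`, `S_{j+1}` = `S_j` and the sites of the cube of radius `(j + 1) R₁` linked to
it. For some `j ≤ C log` the set `C' = S_{j+1}` has at most twice as many elements as `C = S_j`. Let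
`N = |C|` and `ψ_x = χ G(x, ·)`, `x ∈ C`, with a weight `χ`, `χ = 1` on the cube of radius `j R₁`, which
decays at the rate `c η` outside. Up to small errors `ψ_x` is supported in `C'`, and
`(E - V - Δ - W) ψ_x = δ_x`, `‖W‖ ≤ c η`. Write `X = sy - E`. The perturbation `V` is small relative to
`|X| + η` as a quadratic form (noncommutative Khintchine inequality, `PrbStmt`, `DuaStmt`). Let `A` be
the matrix of `η² / (X² + η²)` on `ℓ²(C')`, `tr A ≤ C η |C'|`. All `v ∈ ℓ²(C)` outside of a space of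
dimension `≤ 4 C η N` have `⟨ψ_v, A ψ_v⟩ ≤ ‖ψ_v‖² / 2`, `ψ_v = ∑ v_x ψ_x` (LAQ). The sum of `‖ψ_v‖²` over
an orthonormal basis of these `v` is at most `C N / η` (HSU). Test the equation with `q v`, where `q`
is a smooth approximation of `δ(X)`, `T = c / η`, near a point of the energy surface with nonzero
curvature: `∑ ⟨q X ψ_v, v⟩ = - ∑ ⟨q v, v⟩ + small`, at least `c N`, but the kernel of `q X` is at most
`C T^{-(d+1)/2}` (KRB, TSA): so `c N ≤ (C N / η)^{1/2} (N |C'| T^{-(d+1)})^{1/2}` (PAI, BLK).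
-/

set_option autoImplicit false

open MeasureTheory ProbabilityTheory Function Filter

open scoped ENNReal BigOperators Topology NNReal ComplexOrder

noncomputable section

namespace Pool.Agent.LE.CL

open Pool.Agent.Anderson hiding box mem_box card_box
open Pool.Agent.Loc Pool.Agent.Mob Pool.Agent.Helper54.Bal
  Pool.Agent.Helper96.EXP Pool.Agent.BED
open Pool.Agent.LE.MN

/-! ### A. Counting and the criterion -/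

/-- CN3: the counting lemma for a map with clusters (deterministic). Proof: as `H96W.cnt2`. Targets
`τ_κ = t + 16 S κ_i - 8 S`, `κ ∈ {1, …, m}^d`. By `DmiStmt` (`H24.dmi`) there is for each `κ` a
`k = k(κ) ∈ box 0 n` with `|F (a + k) i - τ_κ i| ≤ c k S` for all `i`. (1) `c k ≤ 1`, `k ∉ G`: different
`κ` have different `k`: at most `|box 0 n \ G|` such `κ`. (2) `c k ≤ 1`, `k ∈ G`: `F` is within `2 S` of
`τ_κ` on the set `T` of `k`, so these sets are disjoint for different `κ`, and contained in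
`box a (n + R)`. (3) `c k > 1`: for each such `k` there are at most `(c k / 8 + 1)^d ≤ (2 c k)^d`
targets within `c k S`. -/
def Cn3Stmt : Prop :=
  ∀ (d : ℕ) (F : Site d → Fin d → ℝ) (a : Site d) (n R M m : ℕ) (t h S : ℝ)
    (c : Site d → ℝ) (G : Finset (Site d)), 1 ≤ d → 1 ≤ n → 1 ≤ M → 0 < S →
    t + 16 * S * m ≤ h →
    (∀ k ∈ box (0 : Site d) n, ∀ i, k i = -(n : ℤ) → F (a + k) i ≤ t) →
    (∀ k ∈ box (0 : Site d) n, ∀ i, k i = (n : ℤ) → h ≤ F (a + k) i) →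
    (∀ k, 0 ≤ c k) →
    (∀ k ∈ box (0 : Site d) n, ∀ x ∈ box (a + k) 1, ∀ i, |F x i - F (a + k) i| ≤ c k * S) →
    (∀ k ∈ G, ∃ T : Finset (Site d), M ≤ T.card ∧ T ⊆ box (a + k) R ∧
      ∀ y ∈ T, ∀ i, |F y i - F (a + k) i| ≤ S) →
      (m : ℝ) ^ d ≤ ((box (0 : Site d) n) \ G).card + (2 * ((n : ℝ) + R) + 1) ^ d / M +
        2 ^ d * ∑ k ∈ (box (0 : Site d) n).filter (fun k => 1 < c k), c k ^ d

/-- CR3: the criterion. If clusters of `n` points are reached by `J` links, a large cube does not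
insulate at the rate `κ`. Proof: as `H93W.crt` (file `Helper93_LEW/CRT.lean`), with the mesh `1`: the
points `a + k`, `k ∈ box 0 L`, `S_i` = the face `k_i = - L`, `F x i = FD V (box 0 N) E S_i x`,
`S = 2 s J`, `c k = max_i osc (S_i) (a + k) 1 / S`, `t = κ / 4 L` (`RegStmt`), `h = κ L` (insulation),
`m = ⌊3 κ L / (64 S)⌋`, `G` = the `k` such that `rch` has `n` elements and
`|F x i - F y i| ≤ DL x y + s` for all `x, y ∈ box (a + k) ρ` (`TrfStmt`; union over the pairs). Along a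
chain of `J` links `|F y i - F (a + k) i| ≤ J (s + s)`: if `e^{-s} ≤ |gr x y|` then `DL x y ≤ s`.
Markov for the number of bad `k` and for the sum of `∑_i osc^d 1{osc > S}`; `Cn3Stmt`, `L → ∞`. -/
def Cr3Stmt : Prop :=
  ∀ (d ρ n J : ℕ) (σ E κ s q y : ℝ), 1 ≤ d → σ ≠ 0 → 1 ≤ n → 1 ≤ J → 0 < s → 0 < κ → 0 < q →
    0 < y →
    4 * 3 ^ d * (q + d * (2 * ρ + 1) ^ (2 * d) * (16 / |σ| * Real.exp (-s))) + 2 * 3 ^ d / n +
      2 ^ d * (4 * 3 ^ d * (d * y)) < (κ / (60 * (s * J))) ^ d →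
    (∀ (N : ℕ) (S : Finset (Site d)) (c : Site d), S.Nonempty → S ⊆ box 0 N → box c 1 ⊆ box 0 N →
      ∫⁻ V in {V | ENNReal.ofReal (2 * s * J) < osc V N E S c 1}, (osc V N E S c 1) ^ d
        ∂(PP d (gl σ)) ≤ ENNReal.ofReal (y * (2 * s * J) ^ d)) →
    (∀ (N : ℕ) (b : Site d), box b ρ ⊆ box 0 N →
      PP d (gl σ) {V | ¬ n ≤ (rch V (box 0 N) E s b ρ J).card} ≤ ENNReal.ofReal q) →
      ∃ L₀ : ℕ, ∀ (L N : ℕ) (a : Site d), L₀ ≤ L → box a (4 * L) ⊆ box 0 N →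
        PP d (gl σ) {V | ¬ ∀ x ∈ box a (2 * L), ∀ y ∈ box a (2 * L), L + 1 ≤ sd x y →
          κ * L ≤ DL (box 0 N) E V x y} ≤ ENNReal.ofReal (1 / 4) → False

/-- OST: the tail of the oscillation. Proof: for neighbours (and for `x = y`) the positive part of
`DL x y` has exponential tails: `P(DL x y > u) ≤ C |σ|^{-A} e^{-u / C}`; this is the proof of
`Pool.Agent.LE.H3W.cst` / `H28W.cstB` (the fractional moment `∫ |gr|^{-1/4}` for neighbours,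
`LY.low_marg`, and `LY.one_marg` along a path with at most `2 d` steps); with `TrfStmt`,
`|F(x) - F(c)| ≤ DL c x + t` up to the probability `16 / |σ| e^{-t}`, so
`P(osc > u) ≤ C |σ|^{-A} e^{-u / C}`, and `∫_{osc > u} osc^d = u^d P(osc > u) +
∫_u^∞ d v^{d-1} P(osc > v) dv`. -/
def OstStmt : Prop :=
  ∀ d : ℕ, 1 ≤ d → ∃ A C : ℝ, 1 ≤ A ∧ 1 ≤ C ∧ ∀ (σ E u : ℝ) (N : ℕ) (S : Finset (Site d))
    (c : Site d), σ ≠ 0 → |σ| ≤ 1 → |E| ≤ 2 * d + 2 → 0 ≤ u → S.Nonempty → S ⊆ box 0 N →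
    box c 1 ⊆ box 0 N →
      ∫⁻ V in {V | ENNReal.ofReal u < osc V N E S c 1}, (osc V N E S c 1) ^ d
        ∂(PP d (gl σ)) ≤ ENNReal.ofReal (C * |σ| ^ (-A) * Real.exp (-(u / C)))

/- CRG: the criterion with numbers, `CrgStmt` in `DefsC.lean`. Proof: `l = log (1 / |σ|) ≥ log 2`. If `(2 ρ + 1)^d < n` then the
hypothesis says `q ≥ 1`, so `n ≤ 1`: impossible. Let `s' = s + K (l + log ρ)`, `K` large (`rch` grows
with `s`), `q' = 1 / n ≥ q`. In `Cr3Stmt` the pair term is at most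
`d (2 ρ + 1)^{2d} (16 / |σ|) e^{-s'} ≤ 1 / n`, and `y = 1 / n` is allowed by `OstStmt`
(`u = 2 s' J`, `K` large), so the left side is at most `C₁ / n`; the right side is
`(κ / (60 s' J))^d`, larger if `κ ≥ 60 (2 C₁)^{1/d} s' J n^{-1/d}`. If `g > 2 κ` then `InfStmt` (with
`2 κ`) contradicts `Cr3Stmt`. -/

/-! ### B. The cluster lemma -/

/-- the test multipliers: bounded approximations of `δ(sy - E)` -/
def Tst (d : ℕ) (cT CT E T : ℝ) (q : UnitAddTorus (Fin d) → ℝ) : Prop :=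
  Measurable q ∧ (∀ θ, |q θ| ≤ CT * T) ∧ cT ≤ |∫ θ, q θ| ∧ (∫ θ, q θ ^ 2) ≤ CT * T ∧
  (∫ θ, q θ ^ 2 * |sy θ - E|) ≤ CT ∧
  ∀ y : Site d, ‖∫ θ, ((q θ * (sy θ - E) : ℝ) : ℂ) * ch y θ‖ ≤
    CT * T ^ (-(((d : ℝ) + 1) / 2))

/-- the form bound for the potential `D` on `B` relative to `|sy - E| + η` -/
def KF {d : ℕ} (B : Finset (Site d)) (D : Site d → ℝ) (E η τ : ℝ) : Prop :=
  ∀ w : Site d → ℂ, (∀ y, y ∉ B → w y = 0) →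
    ∫ θ, (md E η θ)⁻¹ * ‖hatS B (fun y => (D y : ℂ) * w y) θ‖ ^ 2 ≤
      τ ^ 2 * ∫ θ, md E η θ * ‖hatS B w θ‖ ^ 2

/-- `∑_{x ∈ C} v x ψ x` -/
def lin {d : ℕ} (C : Finset (Site d)) (ψ : Site d → Site d → ℂ) (v : C → ℂ) : Site d → ℂ :=
  fun y => ∑ x : C, v x * ψ x y

/-- the equation `(Δ + D - E) ψ x = F x + e x - δ x` for `x ∈ C`, `ψ x` supported in `C'`, `F` of norm at
most `ω` relative to `ψ`, `|e x|² ≤ ε`, and the form bound -/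
def Sys {d : ℕ} (C C' B : Finset (Site d)) (D : Site d → ℝ) (ψ F e : Site d → Site d → ℂ)
    (E η ω ε τ : ℝ) : Prop :=
  C ⊆ C' ∧ C' ⊆ B ∧ (∀ y ∈ C', ∀ i, y - Pi.single i 1 ∈ B ∧ y + Pi.single i 1 ∈ B) ∧
  (∀ x ∈ C, ∀ y, y ∉ C' → ψ x y = 0) ∧
  (∀ x ∈ C, ∀ y, lap (ψ x) y + (D y : ℂ) * ψ x y - (E : ℂ) * ψ x y =
    F x y + e x y - if y = x then 1 else 0) ∧
  (∀ x ∈ C, ∀ y, y ∉ B → F x y = 0 ∧ e x y = 0) ∧
  (∀ v : C → ℂ, ∑ y ∈ B, ‖lin C F v y‖ ^ 2 ≤ ω ^ 2 * ∑ y ∈ C', ‖lin C ψ v y‖ ^ 2) ∧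
  (∀ x ∈ C, ∑ y ∈ B, ‖e x y‖ ^ 2 ≤ ε) ∧ KF C' D E η τ

/-- Bessel's inequality for the family `v` (the columns of a projection) -/
def Bes {d : ℕ} (C : Finset (Site d)) (v : C → C → ℂ) : Prop :=
  ∀ u : C → ℂ, ∑ k, ‖∑ x, u x * v k x‖ ^ 2 ≤ ∑ x, ‖u x‖ ^ 2

/-- LAQ: linear algebra. Proof: `A = ∑ λ_k u_k u_k^*`, bad set `K = {k | λ_k > 1/2}`, `|K| ≤ 2 tr A`. `Q`
= the orthogonal projection onto the kernel of the map `v ↦ (u_k^* Ψ v)_{k ∈ K}`; `tr (1 - Q)` = the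
rank of this map `≤ |K|`. For `w` orthogonal to the bad `u_k`: `⟨w, A w⟩ ≤ |w|² / 2`. -/
def LaqStmt : Prop :=
  ∀ (m n : Type) [Fintype m] [DecidableEq m] [Fintype n] [DecidableEq n] (A : Matrix n n ℂ)
    (Ψ : Matrix n m ℂ), A.PosSemidef →
      ∃ Q : Matrix m m ℂ, Q.IsHermitian ∧ Q * Q = Q ∧
        (Matrix.trace (1 - Q)).re ≤ 2 * (Matrix.trace A).re ∧
        ∀ v : m → ℂ,
          (dotProduct (star (Matrix.mulVec Ψ (Matrix.mulVec Q v)))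
            (Matrix.mulVec A (Matrix.mulVec Ψ (Matrix.mulVec Q v)))).re ≤
            1 / 2 * nsq (Matrix.mulVec Ψ (Matrix.mulVec Q v))

/-- HSU: the upper bound in the Hilbert-Schmidt norm. Proof: `N = |C|`, `g_k = lin C ψ (v k)`,
`X = sy - E`, `m = md E η`, `|X| ≤ m`, `m² = X² + η²`, `m ≥ η`. Fourier transform of the equation
(`hat_lap`): `X ĝ_k = - v̂_k + F̂_k + ê_k - (D g_k)^`. By `Bes` (`u = ch · θ`): `∑_k |v̂_k(θ)|² ≤ N` for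
every `θ`, and (`u = e · y`) `∑_k |lin C e (v k)|² ≤ N ε`. Let `a² = ∑_k |g_k|²`,
`Y² = ∑_k ∫ m |ĝ_k|²`, `κ = kap d E η ≤ C (1 + log (1 / η))` (`kap_le`). (1) `m = (X² + η²) / m ≤
X² / m + η`, so `Y² ≤ η a² + 4 ∑_k ∫ m⁻¹ (|v̂|² + |F̂|² + |ê|² + |(D g)^|²) ≤ η a² + 4 (N κ +
ω² a² / η + N ε / η + τ² Y²)`. (2) the hypothesis says `a² / 2 ≤ ∑_k ∫ X² / m² |ĝ_k|² ≤ 4 ∑_k ∫ m⁻²
(…) ≤ 4 (128 π N / η + ω² a² / η² + N ε / η² + τ² Y² / η)` (`integral_ker_le`; `m⁻² ≤ m⁻¹ / η`). For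
`ω ≤ c η`, `ε ≤ η`, `τ² (1 + log (1 / η)) ≤ c`, `c` small: `Y² ≤ 2 η a² + C N κ'`, then
`a² ≤ C N / η`. -/
def HsuStmt : Prop :=
  ∀ d : ℕ, 3 ≤ d → ∃ c C₂ : ℝ, 0 < c ∧ 1 ≤ C₂ ∧ ∀ (C C' B : Finset (Site d)) (D : Site d → ℝ)
    (ψ F e : Site d → Site d → ℂ) (E η ω ε τ : ℝ) (v : C → C → ℂ), 0 < η → η ≤ 1 → 0 ≤ ω →
    ω ≤ c * η → ε ≤ η → 0 ≤ τ → τ ^ 2 * (1 + Real.log (1 / η)) ≤ c →
    Sys C C' B D ψ F e E η ω ε τ → Bes C v →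
    (∀ k, ∫ θ, η ^ 2 / ((sy θ - E) ^ 2 + η ^ 2) * ‖hatS C' (lin C ψ (v k)) θ‖ ^ 2 ≤
      1 / 2 * ∑ y ∈ C', ‖lin C ψ (v k) y‖ ^ 2) →
      ∑ k, ∑ y ∈ C', ‖lin C ψ (v k) y‖ ^ 2 ≤ C₂ * C.card / η ∧
      ∑ k, ∫ θ, md E η θ * ‖hatS C' (lin C ψ (v k)) θ‖ ^ 2 ≤
        C₂ * C.card * (1 + Real.log (1 / η))

/-- PAI: the pairing. Proof: `T ∈ [c / η, CT c / η]`, `g_k = lin C ψ (v k)`, `X = sy - E`. Let
`Z = ∑_k ∫ q X ĝ_k conj (v̂_k)`. By the equation `X ĝ_k = - v̂_k + F̂_k + ê_k - (D g_k)^`, so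
`|Z| ≥ |∑_k ∫ q |v̂_k|²| - errors ≥ cT N / 2 - errors`. Errors (Cauchy-Schwarz, `∑_k |v̂_k|² ≤ N`
pointwise): `F`: `(N ∫ q²)^{1/2} ω a ≤ (N CT T)^{1/2} c η (C₂ N / η)^{1/2}`; `e`:
`(N CT T)^{1/2} (N ε)^{1/2}`; `D g`: `(N ∫ q² m)^{1/2} τ Y`, `m ≤ |X| + η`, `∫ q² m ≤ CT + CT T η`: all
at most `cT N / 16` for small `c`. On the other side (Parseval) `Z = ∑_k ∑_{y ∈ C'} g_k(y)
conj (h_k(y))`, `h_k(y) = ∑_x v_k(x) Q(y - x)` or its conjugate, `Q` the kernel of `q X`, and by `Bes`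
`∑_k |h_k(y)|² ≤ ∑_{x ∈ C} |Q(y - x)|² ≤ N CT² T^{-(d+1)}`, so `|Z| ≤ (C₂ N / η)^{1/2}
(|C'| N CT² T^{-(d+1)})^{1/2}`. -/
def PaiStmt : Prop :=
  ∀ (d : ℕ) (cT CT C₂ : ℝ), 3 ≤ d → 0 < cT → 1 ≤ CT → 1 ≤ C₂ → ∃ c₀ : ℝ, 0 < c₀ ∧
    ∀ c : ℝ, 0 < c → c ≤ c₀ → ∃ c₂ : ℝ, 0 < c₂ ∧ ∀ (C C' B : Finset (Site d)) (D : Site d → ℝ)
    (ψ F e : Site d → Site d → ℂ) (E η ω ε τ T : ℝ) (q : UnitAddTorus (Fin d) → ℝ)
    (v : C → C → ℂ), 0 < η → η ≤ 1 → 0 ≤ ω → ω ≤ c * η → ε ≤ c * η → 0 ≤ τ →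
    τ ^ 2 * (1 + Real.log (1 / η)) ≤ c → c / η ≤ T → T ≤ CT * (c / η) → C.Nonempty →
    Sys C C' B D ψ F e E η ω ε τ → Tst d cT CT E T q → Bes C v →
    ∑ k, ∑ y ∈ C', ‖lin C ψ (v k) y‖ ^ 2 ≤ C₂ * C.card / η →
    ∑ k, ∫ θ, md E η θ * ‖hatS C' (lin C ψ (v k)) θ‖ ^ 2 ≤
      C₂ * C.card * (1 + Real.log (1 / η)) →
    cT / 2 * C.card ≤ |∑ k, ∫ θ, q θ * ‖hatV (v k) θ‖ ^ 2| →
      c₂ * η ^ (-(d : ℝ)) ≤ C'.card

/-- BLK: the cluster lemma. Proof: `A y y' = ∫ η² / (X² + η²) conj (ch y) ch y'` on `C'`, positive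
semidefinite, `tr A = |C'| ∫ η² / (X² + η²) ≤ 128 π η |C'| ≤ 256 π η N`; `Q` from `LaqStmt` with
`Ψ y x = ψ x y`, `v k x = Q x k`. `Bes`: `Q` is a contraction. `∑_k ∫ q |v̂_k|² = tr (Q M)`,
`M x x' = ∫ q conj (ch x) ch x'` (up to transposition), `tr M = N ∫ q`, and
`|tr ((1 - Q) M)| ≤ tr (1 - Q) sup |q| ≤ 512 π η N CT T ≤ cT N / 2`. `HsuStmt` and `PaiStmt`. -/
def BlkStmt : Prop :=
  ∀ (d : ℕ) (cT CT : ℝ), 3 ≤ d → 0 < cT → 1 ≤ CT → ∃ c c₂ : ℝ, 0 < c ∧ c ≤ 1 ∧ 0 < c₂ ∧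
    ∀ (C C' B : Finset (Site d)) (D : Site d → ℝ) (ψ F e : Site d → Site d → ℂ)
    (E η ω ε τ T : ℝ) (q : UnitAddTorus (Fin d) → ℝ), 0 < η → η ≤ c → 0 ≤ ω → ω ≤ c * η →
    ε ≤ c * η → 0 ≤ τ → τ ^ 2 * (1 + Real.log (1 / η)) ≤ c → c / η ≤ T → T ≤ CT * (c / η) →
    C.Nonempty → C'.card ≤ 2 * C.card → Sys C C' B D ψ F e E η ω ε τ → Tst d cT CT E T q →
      c₂ * η ^ (-(d : ℝ)) ≤ C'.card

/-- CLB: from the Green function to the cluster lemma (deterministic). Proof: `S_0 = {b}`,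
`S_{j+1} = clu V Λ E s S_j (box b ((j + 1) R₁))`, `S_j ⊆ rch … j` and `S_j ⊆ box b (j R₁)`. If
`|S_{j+1}| > 2 |S_j|` for all `j < J`, then `|S_J| ≥ 2^J > (2 R + 1)^d`, impossible. So there is `j < J`
with `|C'| ≤ 2 |C|`, `C = S_j`, `C' = S_{j+1}`. Let `r₀ = j R₁`, `r₁ = (j + 1) R₁ ≤ R`,
`χ(y) = exp (- κ (sd b y - r₀)^+)`, `4 d κ = c η`, `B = box b (r₁ + 1)`,
`ψ x y = χ(y) G(x, y)` for `y ∈ C'`, `F x y = - ∑_{z ~ y} (χ(y) / χ(z) - 1) ψ x z`. For `y ∈ box b r₁`,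
`y ∉ C'`: `|G(x, y)| < e^{-s}`. Multiply `∑_z G(x, z) + (V(y) - E) G(x, y) = - δ` (`y ∈ Λ`) by `χ(y)`:
for `|y - b| ≤ r₁ - 1` the equation of `Sys` holds with `|e x y| ≤ (8 d + 2) e^{-s}`; for
`|y - b| = r₁`, `r₁ + 1` all the terms are at most `(8 d + 2) e^{a - κ (R₁ - 1)}` (`y ≠ x`). For
`|y - b| > r₁ + 1` everything is zero. `|χ(y) / χ(z) - 1| ≤ e^κ - 1 ≤ 2 κ`, so `ω = 4 d κ`. With the
hypotheses `∑_{y ∈ B} |e x y|² ≤ (2 R + 3)^d (8 d + 2)² (…)² ≤ c η`. `BlkStmt`. -/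
def ClbStmt : Prop :=
  ∀ (d : ℕ) (cT CT : ℝ), 3 ≤ d → 0 < cT → 1 ≤ CT → ∃ c c₂ C : ℝ, 0 < c ∧ c ≤ 1 ∧ 0 < c₂ ∧ 1 ≤ C ∧
    ∀ (V : Site d → ℝ) (N R R₁ J : ℕ) (E η τ s a T : ℝ) (b : Site d)
    (q : UnitAddTorus (Fin d) → ℝ), 0 < η → η ≤ c → |E| ≤ 2 * d → 0 ≤ a → 0 ≤ τ →
    τ ^ 2 * (1 + Real.log (1 / η)) ≤ c → c / η ≤ T → T ≤ CT * (c / η) → Tst d cT CT E T q →
    box b (R + 2) ⊆ box 0 N → J * R₁ ≤ R → (2 * R + 1) ^ d < 2 ^ J →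
    C * (a + Real.log (1 / η) + Real.log R) ≤ η * R₁ →
    C * (1 + Real.log (1 / η) + Real.log R) ≤ s →
    (RM V (box 0 N) E).det ≠ 0 → (∀ x ∈ box b (R + 1), |V x| ≤ 1) →
    (∀ x ∈ box b (R + 1), ∀ y ∈ box b (R + 1), |gr V (box 0 N) E x y| ≤ Real.exp a) →
    KF (box b R) V E η τ →
      c₂ * η ^ (-(d : ℝ)) ≤ (rch V (box 0 N) E s b R J).card

/-- TSA: the test multiplier on the torus. Proof: `KrbStmt`, with `T'` instead of `T` (`T ≤ T' ≤ C T`).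
`a(θ) = ∏_j aa (th0 j) r (2 π x_j)`, `x_j ∈ [0, 1)` the representative of `θ_j` (continuous, since
`2 r ≤ th0 j ≤ π - 2 r`), `q(θ) = a(θ) wh T' (sy θ - E)`; `∫ q = (2π)^{-d} ∫ ∏ aa wh` (the circle is
`[0, 1)`, `θ_j = 2 π x_j`). `|wh T x| ≤ 3 T` and `|wh T x| ≤ 4 / (T x²)`, so `q² ≤ C T ker`,
`q² |X| ≤ C ker` with `ker = T^{-1} / (X² + T^{-2})` and `∫ ker ≤ 128 π` (`integral_ker_le`).
`x wh T x = (2 / T) ∫_T^{2T} sin (t x) dt`, and by Fubini `∫ q X ch y = (2 / T) ∫_T^{2T} ∫ a(θ)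
sin (t X) ch y θ dθ dt`, `sin = (e^{i t X} - e^{- i t X}) / 2 i`; `∫ a e^{- i t X} ch y =
(2π)^{-d} e^{i t E} ∏_j hh (th0 j) r t (y j)`, and the other term is the complex conjugate of this for
`- y`. So `|∫ q X ch y| ≤ (2 / T) C T^{-(d-1)/2}`. (`T ≥ 1`; the constants of `Tst` are those for
`T'`.) -/
def TsaStmt : Prop :=
  ∀ (d : ℕ) (δ : ℝ), 3 ≤ d → 0 < δ → ∃ cT CT : ℝ, 0 < cT ∧ 1 ≤ CT ∧ ∀ E T : ℝ,
    |E| ≤ 2 * d - δ → 1 ≤ T → ∃ (T' : ℝ) (q : UnitAddTorus (Fin d) → ℝ), T ≤ T' ∧ T' ≤ CT * T ∧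
      Tst d cT CT E T' q

/-! ### C. Probability and numbers -/

/-- CLP: the probability of the clusters. Proof: `l = log (1 / |σ|)`, `η = K₁ σ² l⁴`, `τ² = c' / l` with
`τ² (1 + log (1 / η)) ≤ c`, `a = A' l`, `s = C' l`, `R₁ = ⌈C'' l / η⌉`, `J = ⌈C'' l⌉`, `R = J R₁`,
`ρ = R + 2`; `TsaStmt` with `T = c / η ≥ 1`. Outside of an event of probability `≤ |σ|^A`: `det ≠ 0`
(almost surely), `|V| ≤ 1` on `box b (R + 1)` (Gaussian tail), `|G(x, y)| ≤ e^a` for all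
`x, y ∈ box b (R + 1)` (Wegner for one matrix element: `P(|gr x y| > τ) ≤ 10 / (|σ| τ)`, see
`Pool.Agent.LE.H54.upI`), and the operator bound on `box b R` (`PrbStmt`, `K₁` large), which gives
`KF (box b R) V E η τ` by `DuaStmt`. `ClbStmt`, `n = ⌊c₂ η^{-d}⌋`, `rch` grows with the radius
(`R ≤ ρ`). -/
def ClpStmt : Prop :=
  ∀ (d : ℕ) (δ A : ℝ), 3 ≤ d → 0 < δ → 1 ≤ A → ∃ c K : ℝ, 0 < c ∧ c ≤ 1 / 4 ∧ 1 ≤ K ∧
    ∀ σ E : ℝ, σ ≠ 0 → |σ| ≤ c → |E| ≤ 2 * d - δ → ∃ (n ρ J : ℕ) (s : ℝ), 1 ≤ s ∧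
      s ≤ K * Real.log (1 / |σ|) ∧ 1 ≤ ρ ∧ (ρ : ℝ) ≤ |σ| ^ (-3 : ℝ) ∧ 1 ≤ J ∧
      (J : ℝ) ≤ K * Real.log (1 / |σ|) ∧ 1 ≤ n ∧ (n : ℝ) ≤ |σ| ^ (-(2 * (d : ℝ))) ∧
      (K * σ ^ 2 * Real.log (1 / |σ|) ^ 4) ^ (-(d : ℝ)) ≤ n ∧
      ∀ (N : ℕ) (b : Site d), box b ρ ⊆ box 0 N →
        PP d (gl σ) {V | ¬ n ≤ (rch V (box 0 N) E s b ρ J).card} ≤ ENNReal.ofReal (|σ| ^ A)

/-- PBD: the final bound. Proof: `ClpStmt` with `A = 2 d`, `CrgStmt` with `q = |σ|^A`. -/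
def PbdStmt : Prop :=
  ∀ (d : ℕ) (δ : ℝ), 3 ≤ d → 0 < δ → ∃ c C : ℝ, 0 < c ∧ c ≤ 1 / 4 ∧ 1 ≤ C ∧
    ∀ σ E g : ℝ, σ ≠ 0 → |σ| ≤ c → |E| ≤ 2 * d - δ → LyaAt d σ E g →
      g ≤ C * σ ^ 2 * Real.log (1 / |σ|) ^ 6

end Pool.Agent.LE.CL
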