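import Pool.Agent.LE.Stmts2
import Pool.Agent.Mob.Stmts

/-!
# Multiscale induction with deterministic cubes: from a small constant probability to `LocSet`

Goodness of a cube is `AllGoodC` of `LE/Stmts2`. The proofs are in `/team-store/PAPER_MSA.md`.
-/

set_option autoImplicit false

open MeasureTheory ProbabilityTheory Function

open scoped ENNReal BigOperators

noncomputable section

namespace Pool.Agent.LE

open Pool.Agent.Anderson Pool.Agent.Loc Pool.Agent.Mob Pool.Agent.Helper54.Bal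

/-- the site `v` is good; `AllGoodC V a L m E` says that all the sites of `box a L` are good -/
def SG {d : ℕ} (V : Site d → ℝ) (L : ℕ) (m E : ℝ) (v : Site d) : Prop :=
  (RM V (box v L) E).det ≠ 0 ∧ ∀ u, sd v u = L → |gr V (box v L) E v u| ≤ Real.exp (-m * L)

/-- MSD: the deterministic step. -/
def MsdStmt : Prop :=
  ∀ (d : ℕ) (V : Site d → ℝ) (E m T q : ℝ) (L : ℕ) (s u : Site d), 1 ≤ L → 0 ≤ T → q ≤ 1 →
    (∀ r : ℕ, r ≤ 52 * L →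
      (RM V (box s r) E).det ≠ 0 ∧ ∀ x y, |gr V (box s r) E x y| ≤ T) →
    (∀ v ∈ box s (50 * L), ∀ v' ∈ box s (50 * L), ¬ SG V L m E v → ¬ SG V L m E v' →
      sd v v' ≤ 6 * L) →
    T * (2 * d * (105 * L) ^ d) * (2 * d * (3 * L) ^ d * Real.exp (-m * L)) ≤ q →
    sd s u = 52 * L → |gr V (box s (52 * L)) E s u| ≤ q ^ 13 * T

/-- MSP: the probability step. -/
def MspStmt : Prop :=
  ∀ (d : ℕ) (ν : Measure ℝ) [IsProbabilityMeasure ν] (ρ : ℝ), BddDens ν ρ →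
    ∀ (E m p : ℝ) (L : ℕ), 1 ≤ L → 0 < m → 0 ≤ p →
      (2 * d) ^ 2 * (105 * L) ^ (2 * d) * Real.exp (-(m * L) / 4) ≤ 1 →
      PP d ν {V | ¬ AllGoodC V 0 L m E} ≤ ENNReal.ofReal p →
      PP d ν {V | ¬ AllGoodC V 0 (52 * L) (m / 13) E} ≤
        ENNReal.ofReal (209 ^ (2 * d) * p ^ 2 +
          6 * ρ * (105 * L) ^ (3 * d + 1) * Real.exp (-(m * L) / 4))

/-- MSN: the numbers. -/
def MsnStmt : Prop :=
  ∀ (d : ℕ) (ρ m : ℝ), 0 < ρ → 0 < m → ∃ L₀ : ℕ, ∀ L : ℕ, L₀ ≤ L → 1 ≤ L ∧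
    (∀ k : ℕ, (2 * d) ^ 2 * (105 * (52 ^ k * L)) ^ (2 * d) * Real.exp (-(4 ^ k * (m * L)) / 4) ≤ 1 ∧
      6 * ρ * (105 * (52 ^ k * L)) ^ (3 * d + 1) * Real.exp (-(4 ^ k * (m * L)) / 4) ≤
        1 / (4 * 209 ^ (2 * d)) * (1 / 2) ^ (2 ^ (k + 1))) ∧
    ∀ A : ℕ, ∃ k : ℕ, A ≤ 52 ^ k * L ∧
      (1 / 2 : ℝ) ^ (2 ^ k) ≤ ((52 ^ k * L : ℕ) : ℝ) ^ (-(A : ℝ)) ∧
      Real.exp (-(4 ^ k * (m * L))) ≤ ((52 ^ k * L : ℕ) : ℝ) ^ (-(A : ℝ))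

/-- MSA: a small constant probability of failure implies localization. -/
def MsaStmt : Prop :=
  ∀ (d : ℕ) (C₀ σ E m : ℝ), 0 < C₀ → σ ≠ 0 → 0 < m → ∃ p : ℝ, 0 < p ∧ ∃ L₀ : ℕ,
    ∀ L : ℕ, L₀ ≤ L →
      PL (gl σ) (box (0 : Site d) (2 * L)) {V | ¬ AllGoodC V 0 L m E} ≤ ENNReal.ofReal p →
      E ∈ LocSet d C₀ σ

end Pool.Agent.LE
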