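import Pool.Agent.LE.DefsC
import Pool.Agent.Helper60_LSH.CDE

/-!
# Clusters near the effective band edge: pointwise bound for the Lyapunov exponent

Statements of the modules, with proofs. For an energy `E` near the effective band edge `z`,
`lam = |E - z| + 1 / t`, with high probability the sites of `box b ρ` which are reached from `b` by
at most `J = C log t` links of the price at most `s = C log t` are at least `c lam^{-d/2}` many.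
With the criterion `CrgStmt` this gives `γ(E) ≤ C (|E - z| + 1 / t)^{1/2} log² t`.

IDEA. Let `C ⊆ C'`, `|C'| ≤ 2 |C|`, be such that `G(x, y)` is tiny for `x ∈ C`, `y ∉ C'` (volume
pigeonhole). Then `ψ = χ G (ω 1_C)` (`ω` the flat landscape function, `(z - H) ω = 1 / μ`, `χ` an
exponential weight) lives in `C'`, and `(E - H) ψ = ω 1_C + W ψ + (tiny)`. If `|C'|` is small, the
Faber-Krahn inequality for `z - H` on `C'` gives `|ψ|² ≤ C ℓ⁴ |C|`, `ℓ² ≪ 1 / lam`, and the test of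
the equation with `ω` gives `|C| ≤ (lam + k) ∑ |ψ| + … < |C|`, a contradiction.
-/

set_option autoImplicit false

open MeasureTheory ProbabilityTheory Function Filter

open scoped ENNReal BigOperators Topology NNReal

noncomputable section

namespace Pool.Agent.LE.CL

open Pool.Agent.Anderson Pool.Agent.Loc Pool.Agent.Mob Pool.Agent.Helper54.Bal
  Pool.Agent.Helper96.EXP Pool.Agent.BED

/-- the energy of `φ` in `T` -/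
def gd {d : ℕ} (φ : Site d → ℝ) (T : Finset (Site d)) : ℝ :=
  ∑ x ∈ T, ∑ i : Fin d, (φ (x + Pi.single i 1) - φ x) ^ 2

/-- a cluster near the edge: `C ⊆ C'`, `ψ` lives in `box b r`, essentially in `C'`, and solves
`(E - H) ψ = ω 1_C + W ψ + e`; `ω` is the flat landscape function and `χ` the weight -/
structure EC {d : ℕ} (V ω χ ψ e : Site d → ℝ) (C C' : Finset (Site d)) (b : Site d) (r : ℕ)
    (z E lam κ k : ℝ) : Prop where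
  hω : ∀ x, |ω x - 1| ≤ 1 / 50
  hk : 0 ≤ k ∧ k ≤ lam
  hωe : ∀ x ∈ box b r, (z - V x) * ω x - nb ω x = k
  hκ : 0 ≤ κ ∧ κ ≤ 1
  hχ : ∀ x, 0 < χ x
  hχn : ∀ (x : Site d) (i : Fin d), χ (x + Pi.single i 1) ≤ Real.exp κ * χ x ∧
    χ x ≤ Real.exp κ * χ (x + Pi.single i 1)
  hC : C.Nonempty ∧ C ⊆ C' ∧ C' ⊆ box b r ∧ C'.card ≤ 2 * C.card
  hψ : ∀ x, x ∉ box b r → ψ x = 0
  hψC : ∑ x ∈ box b r \ C', |ψ x| ≤ 1 / 100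
  he : ∑ x ∈ box b (r + 1), |e x| ≤ 1 / 100
  hE : |E - z| ≤ lam
  heq : ∀ y ∈ box b (r + 1), (E - V y) * ψ y - nb ψ y =
    (if y ∈ C then ω y else 0) +
      ∑ i : Fin d, ((χ y / χ (y + Pi.single i 1) - 1) * ψ (y + Pi.single i 1) +
        (χ y / χ (y - Pi.single i 1) - 1) * ψ (y - Pi.single i 1)) + e y

/-- SBP: summation by parts. Proof: `∑_x F x (x - e_i) = ∑_x F (x + e_i) x` (shift by `e_i`), and all
the terms which are not zero are in the index sets. -/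
def SbpStmt : Prop :=
  ∀ (d : ℕ) (F : Site d → Site d → ℝ) (b : Site d) (r : ℕ),
    (∀ x, x ∉ box b r → ∀ y, F x y = 0) →
      (∑ x ∈ box b r, ∑ i : Fin d, (F x (x + Pi.single i 1) + F x (x - Pi.single i 1)) =
        ∑ x ∈ box b (r + 1), ∑ i : Fin d, (F x (x + Pi.single i 1) + F (x + Pi.single i 1) x)) ∧
      ∑ y ∈ box b (r + 1), ∑ i : Fin d, (F (y + Pi.single i 1) y + F (y - Pi.single i 1) y) =
        ∑ x ∈ box b (r + 1), ∑ i : Fin d, (F x (x + Pi.single i 1) + F (x + Pi.single i 1) x)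

/-- FKI: the Faber-Krahn inequality with an error. Proof: `ℓ = 2 m + 1`; the cubes `box (ℓ p) m`,
`p ∈ ℤ^d`, are disjoint and cover `ℤ^d`. For such a cube `Q`: `∑_Q φ² = ∑_Q (φ - av)² + |Q| av²`,
`∑_Q (φ - av)² ≤ d ℓ² eg_Q` (`PcrStmt`, proved:
`Pool.Agent.LE.H19Z.pcr`), and
`|Q| av² = (∑_Q φ)² / |Q| ≤ 2 |C' ∩ Q| / |Q| ∑_Q φ² + 2 (∑_{Q \ C'} |φ|)² ≤ (1/2) ∑_Q φ² + …`. So
`∑_Q φ² ≤ 2 d ℓ² eg_Q + 4 (∑_{Q \ C'} |φ|)²`; sum over the cubes. -/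
def FkiStmt : Prop :=
  ∀ (d : ℕ) (φ : Site d → ℝ) (b : Site d) (r m : ℕ) (C' : Finset (Site d)), 1 ≤ d →
    (∀ x, x ∉ box b r → φ x = 0) → 4 * C'.card ≤ (2 * m + 1) ^ d →
      ∑ x ∈ box b r, φ x ^ 2 ≤
        2 * d * (2 * (m : ℝ) + 1) ^ 2 * gd φ (box b (r + 1)) +
          4 * (∑ x ∈ box b r \ C', |φ x|) ^ 2

/-- ENI: the energy identity (ground state representation). Proof: `ψ = ω φ`;
`(z - V) ψ - nb ψ = φ (k + nb ω) - nb (ω φ) = k φ + ∑_{y ~ x} ω(y) (φ(x) - φ(y))` on `box b r`.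
Multiply by `ω φ` and sum: `SbpStmt` with `F x y = ω x ω y φ x (φ x - φ y)`. -/
def EniStmt : Prop :=
  ∀ (d : ℕ) (V ω φ : Site d → ℝ) (b : Site d) (r : ℕ) (z k : ℝ),
    (∀ x, x ∉ box b r → φ x = 0) → (∀ x ∈ box b r, (z - V x) * ω x - nb ω x = k) →
      ∑ x ∈ box b r, ω x * φ x * ((z - V x) * (ω x * φ x) - nb (fun y => ω y * φ y) x) =
        ∑ x ∈ box b (r + 1), ∑ i : Fin d,
          ω x * ω (x + Pi.single i 1) * (φ (x + Pi.single i 1) - φ x) ^ 2 +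
        k * ∑ x ∈ box b r, ω x * φ x ^ 2

/-- ENB: the energy bound. Proof: `φ = ψ / ω`, `ℓ = 2 m + 1`, `N = |C|`, `Ψ² = ∑ ψ²`,
`D = gd φ (box b (r + 1))`. `EniStmt`: `0.96 D ≤ ∑ ψ ((z - V) ψ - nb ψ) ≤ lam Ψ² + 1.02 √N Ψ + W +
0.01 Ψ` (equation `heq`, Cauchy-Schwarz). By `SbpStmt` with `F y x = ψ y (χ y / χ x - 1) ψ x` the
term `W` is `∑_{x, i} ψ x ψ (x + e_i) (ρ + 1/ρ - 2)`, `ρ = χ (x + e_i) / χ x ∈ [e^{-κ}, e^κ]`, so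
`|W| ≤ (2 cosh κ - 2) d Ψ² ≤ 1.1 d κ² Ψ²`. `FkiStmt`: `Ψ² ≤ 1.05 ∑ φ² ≤ 2.1 d ℓ² D + 0.0011`. So
`Ψ² ≤ 2.2 d ℓ² ((lam + 1.1 d κ²) Ψ² + 1.03 √N Ψ) + 0.0011`, the first term is at most `Ψ² / 2`:
`Ψ ≤ 5 d ℓ² √N`, and `D ≤ 12 d ℓ² N`. -/
def EnbStmt : Prop :=
  ∀ (d : ℕ) (V ω χ ψ e : Site d → ℝ) (C C' : Finset (Site d)) (b : Site d) (r m : ℕ)
    (z E lam κ k : ℝ), 1 ≤ d → EC V ω χ ψ e C C' b r z E lam κ k →
    4 * C'.card ≤ (2 * m + 1) ^ d → 5 * d * (2 * (m : ℝ) + 1) ^ 2 * (lam + 2 * d * κ ^ 2) ≤ 1 →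
      ∑ x ∈ box b r, ψ x ^ 2 ≤ 25 * d ^ 2 * (2 * (m : ℝ) + 1) ^ 4 * C.card ∧
      gd (fun x => ψ x / ω x) (box b (r + 1)) ≤ 12 * d * (2 * (m : ℝ) + 1) ^ 2 * C.card

/-- ECL: a cluster near the edge is large. Proof: suppose `4 |C'| < ℓ^d`, `ℓ = 2 m + 1`. Multiply
`(z - V) ψ - nb ψ` by `ω` and sum over `box b (r + 1)`: by symmetry (`SbpStmt` twice, `F x y = ψ x ω y`)
the result is `k ∑ ψ`. By `heq` it is also `(z - E) ∑ ω ψ + ∑_C ω² + W + ∑ ω e`, so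
`0.96 N ≤ (k + 1.02 lam) ∑ |ψ| + |W| + 0.0102`. `∑ |ψ| ≤ √(2 N) Ψ + 0.01 ≤ 8 d ℓ² N` (`EnbStmt`).
`W = ∑_y ω y ∑_{x ~ y} (χ y / χ x - 1) ω x φ x` (`φ = ψ / ω`) is, by `SbpStmt` with
`F x y = a (χ y / χ x - 1) φ x`, `a = ω x ω y`, the sum over `x, i` (`y = x + e_i`) of
`a ((χ y / χ x - 1) (φ x - φ y) + (χ y / χ x + χ x / χ y - 2) φ y)`, at most
`1.05 (2 κ ∑ |φ x - φ y| + 1.1 κ² d ∑ |φ|)`. The edges which meet `C'` are at most `2 d |C'| ≤ 4 d N`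
many: `∑ |φ x - φ y| ≤ √(4 d N) √D + 0.03 d ≤ 7 d ℓ N + 0.03 d`. So `|W| ≤ 15 d κ ℓ N +
10 d² κ² ℓ² N`, and `0.96 N ≤ (0.2 + 0.3 + 0.004 + 0.0102) N`, a contradiction. -/
def EclStmt : Prop :=
  ∀ (d : ℕ) (V ω χ ψ e : Site d → ℝ) (C C' : Finset (Site d)) (b : Site d) (r m : ℕ)
    (z E lam κ k : ℝ), 1 ≤ d → EC V ω χ ψ e C C' b r z E lam κ k →
    lam * (2 * (m : ℝ) + 1) ^ 2 ≤ 1 / (100 * d) → κ * (2 * (m : ℝ) + 1) ≤ 1 / (50 * d) →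
      (2 * m + 1) ^ d ≤ 4 * C'.card

/-- CUT: the equation for the weighted Green function. Proof: `φ₀ y = ∑_{x ∈ C} gr y x ω x`,
`(E - V y) φ₀ y - nb φ₀ y = if y ∈ C then ω y else 0` for `y ∈ Λ` (as in
`Pool.Agent.LE.H60Z.Cde.green`; `φ₀ = 0` outside `Λ`), `χ y = exp (-κ (sd b y - r₀ : ℕ))`,
`ψ y = χ y φ₀ y` on `box b r`, `0` outside, `r = r₀ + R₁`. For `y ∈ box b r` the equation holds with
`e y = χ y ∑_{x ~ y, x ∉ box b r} φ₀ x` (zero if `sd b y < r`), for `sd b y = r + 1` with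
`e y = - χ y ∑_{x ~ y, x ∈ box b r} φ₀ x`. So `|e y| ≤ 2.04 d e^{-κ R₁} |C| G`, and
`|ψ y| ≤ 1.02 |C| e^{-s}` for `y ∈ box b r`, `y ∉ C' = clu V Λ E s C (box b r)`. -/
def CutStmt : Prop :=
  ∀ (d : ℕ) (V ω : Site d → ℝ) (Λ C : Finset (Site d)) (b : Site d) (r₀ R₁ : ℕ)
    (z E lam κ k s G : ℝ), 1 ≤ d → (∀ x, |ω x - 1| ≤ 1 / 50) → 0 ≤ k → k ≤ lam →
    (∀ x ∈ box b (r₀ + R₁), (z - V x) * ω x - nb ω x = k) → 0 ≤ κ → κ ≤ 1 → |E - z| ≤ lam →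
    C.Nonempty → C ⊆ box b r₀ → box b (r₀ + R₁ + 1) ⊆ Λ → (RM V Λ E).det ≠ 0 → 1 ≤ G →
    (∀ x ∈ box b (r₀ + R₁ + 1), ∀ y ∈ box b (r₀ + R₁ + 1), |gr V Λ E x y| ≤ G) →
    (clu V Λ E s C (box b (r₀ + R₁))).card ≤ 2 * C.card →
    200 * (2 * ((r₀ + R₁ : ℕ) : ℝ) + 1) ^ (2 * d) ≤ Real.exp s →
    300 * d * (2 * ((r₀ + R₁ : ℕ) : ℝ) + 3) ^ (2 * d) * G ≤ Real.exp (κ * R₁) →
      ∃ χ ψ e : Site d → ℝ,
        EC V ω χ ψ e C (clu V Λ E s C (box b (r₀ + R₁))) b (r₀ + R₁) z E lam κ k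

/-- EDC: the cluster of `b` is large (deterministic). Proof: `ρ = J R₁`, `S_0 = {b}`,
`S_{j+1} = clu V Λ E s S_j (box b ((j + 1) R₁)) ⊆ rch V Λ E s b ρ (j + 1)`. There is `j < J` with
`|S_{j+1}| ≤ 2 |S_j|`, otherwise `2^J ≤ |S_J| ≤ (2 ρ + 1)^d`. `Pool.Agent.LE.H60Z.Cde.landscape` for
`y ↦ V (b + y)` gives `ω`. `CutStmt` with `r₀ = j R₁`, `κ = 1 / (50 d (2 m + 1))`, `k = 1 / μ`, and
`EclStmt`. -/
def EdcStmt : Prop :=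
  ∀ (d M' J R₁ m : ℕ) [NeZero M'] (V : Site d → ℝ) (Λ : Finset (Site d)) (E s z μ lam G : ℝ)
    (b : Site d), 1 ≤ d → 0 < μ → 1 ≤ lam * μ → |E - z| ≤ lam →
    lam * (2 * (m : ℝ) + 1) ^ 2 ≤ 1 / (100 * d) → 1 ≤ G → 1 ≤ J → 1 ≤ R₁ →
    2 * (J * R₁ + 2) ≤ M' → FlatE (1 / 50) z μ (fun x : Tor d M' => V (b + rep x)) →
    box b (J * R₁ + 1) ⊆ Λ → (RM V Λ E).det ≠ 0 →
    (∀ x ∈ box b (J * R₁ + 1), ∀ y ∈ box b (J * R₁ + 1), |gr V Λ E x y| ≤ G) →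
    (2 * (J * R₁) + 1) ^ d < 2 ^ J → 200 * (2 * ((J * R₁ : ℕ) : ℝ) + 1) ^ (2 * d) ≤ Real.exp s →
    300 * d * (2 * ((J * R₁ : ℕ) : ℝ) + 3) ^ (2 * d) * G ≤
      Real.exp (R₁ / (50 * d * (2 * (m : ℝ) + 1))) →
      (2 * m + 1) ^ d ≤ 4 * (rch V Λ E s b (J * R₁) J).card

/-- EDP: the cluster of `b` is large with high probability. Proof: the three bad events of `EdcStmt`:
not flat (law of `x ↦ V (b + rep x)` as in `Pool.Agent.LE.H54W.cpf_core`: probability `≤ p`), the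
determinant (null), some `|gr x y| > G` (`P(|gr x y| > τ) ≤ 10 / (|σ| τ)`, see
`Pool.Agent.LE.MN.H61.lpr`, union over the pairs). -/
def EdpStmt : Prop :=
  ∀ (d M' J R₁ m N : ℕ) (v : ℝ≥0) (σ E s z μ lam G p : ℝ) (b : Site d), 1 ≤ d → σ ≠ 0 →
    (v : ℝ) = σ ^ 2 → 0 < μ → 1 ≤ lam * μ → |E - z| ≤ lam →
    lam * (2 * (m : ℝ) + 1) ^ 2 ≤ 1 / (100 * d) → 1 ≤ G → 1 ≤ J → 1 ≤ R₁ →
    2 * (J * R₁ + 2) ≤ M' → 0 ≤ p →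
    (∀ h : NeZero M', gau d M' v {V | ¬ FlatE (1 / 50) z μ V} ≤ ENNReal.ofReal p) →
    box b (J * R₁ + 1) ⊆ box 0 N →
    (2 * (J * R₁) + 1) ^ d < 2 ^ J → 200 * (2 * ((J * R₁ : ℕ) : ℝ) + 1) ^ (2 * d) ≤ Real.exp s →
    300 * d * (2 * ((J * R₁ : ℕ) : ℝ) + 3) ^ (2 * d) * G ≤
      Real.exp (R₁ / (50 * d * (2 * (m : ℝ) + 1))) →
      PP d (gl σ) {V | ¬ (2 * m + 1) ^ d ≤ 4 * (rch V (box 0 N) E s b (J * R₁) J).card} ≤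
        ENNReal.ofReal (p + 10 * (2 * ((J * R₁ : ℕ) : ℝ) + 3) ^ (2 * d) / (|σ| * G))

/-- PEN: the Lyapunov exponent near the edge. Proof: `w = log t`, `lam = |E - z| + 1 / t`, `m` the
largest integer with `lam (2 m + 1)² ≤ 1 / (100 d)`, so `2 m + 1 ≥ 1 / (30 √(d lam))` for small `c`;
`J = ⌈2 d w⌉ + 1`, `s = (2 d + 1) w`, `G = t^{3 d + 4}`, `R₁ = ⌈50 d (5 d + 6) w (2 m + 1)⌉`; then
`2 J R₁ + 5 ≤ C w² √t ≤ t ≤ M'` for `t ≥ C`, so all the hypotheses of `EdpStmt` hold, and the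
probability is at most `q = t^{-C} + 10 t^{2 d + 1 - 3 d - 4} ≤ t^{-d}`. `CrgStmt` with
`n = ⌈(2 m + 1)^d / 4⌉ ≤ t^d`, `ρ = J R₁ + 1` (`rch` is increasing in `ρ`:
`rch_mono_rad`). -/
def PenStmt : Prop :=
  ∀ d : ℕ, 1 ≤ d → ∃ c C : ℝ, 0 < c ∧ 1 ≤ C ∧
    ∀ (M' : ℕ) (v : ℝ≥0) (σ t z μ p E g : ℝ), σ ≠ 0 → |σ| ≤ 1 / 2 → (v : ℝ) = σ ^ 2 →
    0 ≤ z → z ≤ 2 * d + 1 → 1 / |σ| ≤ t → C ≤ t → 9 * t ≤ μ → t ≤ M' →
    (∀ h : NeZero M', gau d M' v {V | ¬ FlatE (1 / 50) z μ V} ≤ ENNReal.ofReal p) →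
    p ≤ t ^ (-C) → LyaAt d σ E g → |E - z| ≤ c →
      g ≤ C * Real.sqrt (|E - z| + 1 / t) * Real.log t ^ 2

end Pool.Agent.LE.CL
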