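import Pool.Agent.LE.StmtsP
import Pool.Agent.LE.StmtsQ
import Pool.Agent.Helper32_BED.Heat

/-!
# The region between the effective band edge and the bulk: definitions

Fourier transform on the torus `Tor d M`, the operator `ω (E - H) ω` of the landscape function, the
form bound, the filter, the systems of the cluster lemma.
-/

set_option autoImplicit false

open MeasureTheory ProbabilityTheory

open scoped ENNReal BigOperators NNReal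

noncomputable section

namespace Pool.Agent.LE.IR

open Pool.Agent.Anderson hiding box mem_box card_box
open Pool.Agent.Loc Pool.Agent.Mob Pool.Agent.Helper54.Bal
  Pool.Agent.Helper96.EXP Pool.Agent.BED
open Pool.Agent.LE.MN Pool.Agent.LE.CL

variable {d M : ℕ} [NeZero M]

/-! ### Fourier transform on the torus -/

/-- the characters `e^{2 π i p y / M}` of the torus -/
def ec (p y : Tor d M) : ℂ := ∏ i, ZMod.stdAddChar (p i * y i)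

/-- the Fourier transform -/
def ft (f : Tor d M → ℂ) (p : Tor d M) : ℂ := ∑ y, (starRingEnd ℂ) (ec p y) * f y

/-- the mean over the momenta -/
def pm (F : Tor d M → ℝ) : ℝ := (∑ p, F p) / (M : ℝ) ^ d

/-- the symbol of the positive Laplacian `2 d - Δ` -/
def ds (p : Tor d M) : ℝ :=
  ∑ i, 2 * (1 - Real.cos (2 * Real.pi * ((p i).valMinAbs : ℝ) / M))

/-- `√((ds - l)² + η²)` -/
def mt (l η : ℝ) (p : Tor d M) : ℝ := Real.sqrt ((ds p - l) ^ 2 + η ^ 2)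

/-- the low momenta -/
def low (d M J : ℕ) [NeZero M] : Finset (Tor d M) :=
  Finset.univ.filter fun p => ∀ i, (p i).valMinAbs.natAbs ≤ J

/-- the kernel of the projection onto the low momenta -/
def dk (J : ℕ) (y : Tor d M) : ℝ := (∑ p ∈ low d M J, (ec p y).re) / (M : ℝ) ^ d

/-- the low frequency part of a real function -/
def lpf (J : ℕ) (f : Tor d M → ℝ) (x : Tor d M) : ℝ := ∑ y, dk J (x - y) * f y

/-- the sup distance on the torus -/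
def tds (x y : Tor d M) : ℕ := Finset.univ.sup fun i => (y i - x i).valMinAbs.natAbs

/-! ### the operators -/

/-- `ω (E - H) ω = - div ω ω grad + h ω - lam ω²`, if `(z - H) ω = h` and `E = z - lam` -/
def aop (ω : Tor d M → ℝ) (h lam : ℝ) (f : Tor d M → ℂ) (x : Tor d M) : ℂ :=
  ∑ i : Fin d, (((ω x * ω (x + ev i) : ℝ) : ℂ) * (f x - f (x + ev i)) +
    ((ω x * ω (x - ev i) : ℝ) : ℂ) * (f x - f (x - ev i))) +
    ((h * ω x - lam * ω x ^ 2 : ℝ) : ℂ) * f x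

/-- `w² (2 d - Δ - l)` -/
def fop (w l : ℝ) (f : Tor d M → ℂ) (x : Tor d M) : ℂ :=
  ((w ^ 2 : ℝ) : ℂ) * (∑ i : Fin d, (2 * f x - f (x + ev i) - f (x - ev i)) - (l : ℂ) * f x)

/-- the part of `aop - fop` which is linear in `θ = ω - w` -/
def tpo (θ : Tor d M → ℝ) (w c : ℝ) (f : Tor d M → ℂ) (x : Tor d M) : ℂ :=
  (w : ℂ) * ∑ i : Fin d, (((θ x + θ (x + ev i) : ℝ) : ℂ) * (f x - f (x + ev i)) +
    ((θ x + θ (x - ev i) : ℝ) : ℂ) * (f x - f (x - ev i))) + ((c * θ x : ℝ) : ℂ) * f x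

/-- the form bound for `aop - fop` -/
def FBd (ω : Tor d M → ℝ) (h lam w l η τ : ℝ) : Prop :=
  ∀ f : Tor d M → ℂ,
    pm (fun p => (mt l η p)⁻¹ * ‖ft (fun x => aop ω h lam f x - fop w l f x) p‖ ^ 2) ≤
      τ ^ 2 * pm (fun p => mt l η p * ‖ft f p‖ ^ 2)

/-- the form bound for `tpo θ w c` on the low momenta -/
def KE (J : ℕ) (θ : Tor d M → ℝ) (w c l η τ : ℝ) : Prop :=
  ∀ f g : Tor d M → ℂ, (∀ p, p ∉ low d M J → ft f p = 0) → (∀ p, p ∉ low d M J → ft g p = 0) →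
    ‖∑ x, (starRingEnd ℂ) (g x) * tpo θ w c f x‖ ^ 2 ≤
      τ ^ 2 * (pm (fun p => mt l η p * ‖ft g p‖ ^ 2) * pm (fun p => mt l η p * ‖ft f p‖ ^ 2))

/-- `(2 d - Δ + h)⁻¹ V` -/
def gv (h : ℝ) (V : Tor d M → ℝ) (x : Tor d M) : ℝ := ∑ y, GM (2 * d + h) 0 x y * V y

/-- the landscape function divided by `μ` -/
def om (z μ : ℝ) (V : Tor d M → ℝ) (x : Tor d M) : ℝ := DD z V x / μ

/-! ### the local part of the Green function -/

/-- `1 / (8 d) ∑_{j < n} T^j / ω`, `T = 1 - (E - H) / (8 d)`, `E = z - lam` -/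
def sfn (z μ lam : ℝ) (V : Tor d M → ℝ) (n : ℕ) (x y : Tor d M) : ℂ :=
  ((((∑ j ∈ Finset.range n, (TM (z - lam) V ^ j) x y) / (8 * d)) / om z μ V y : ℝ) : ℂ)

/-- `ω T^n` -/
def Sfn (z μ lam : ℝ) (V : Tor d M → ℝ) (n : ℕ) (x y : Tor d M) : ℂ :=
  ((om z μ V y * (TM (z - lam) V ^ n) x y : ℝ) : ℂ)

/-! ### systems -/

/-- `∑_{x ∈ C} v x ψ x` -/
def lnt {X : Type} (C : Finset X) (ψ : X → X → ℂ) (v : C → ℂ) : X → ℂ :=
  fun y => ∑ x : C, v x * ψ x y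

/-- Bessel's inequality for the family `v` -/
def BesT {X : Type} (C : Finset X) (v : C → C → ℂ) : Prop :=
  ∀ u : C → ℂ, ∑ k, ‖∑ x, u x * v k x‖ ^ 2 ≤ ∑ x, ‖u x‖ ^ 2

/-- `v ∈ ℓ²(C)` as a function on the torus -/
def vx (C : Finset (Tor d M)) (v : C → ℂ) (y : Tor d M) : ℂ := by
  classical
  exact if h : y ∈ C then v ⟨y, h⟩ else 0

/-- a system: for `x ∈ C` the function `g x` is supported in `C'`, and
`aop (g x - s x) = S x + F x + e x` where `S x` is nearly a point source for the momenta with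
`ds ≤ 4 l`, `F` is small relative to `g`, `e x` is small -/
structure SysT (ω : Tor d M → ℝ) (h lam w l η τ φ e0 A κ Γ β : ℝ) (C C' : Finset (Tor d M))
    (g s S F e : Tor d M → Tor d M → ℂ) : Prop where
  hC : C.Nonempty ∧ C ⊆ C' ∧ C'.card ≤ 2 * C.card
  hg : ∀ x ∈ C, ∀ y, y ∉ C' → g x y = 0
  heq : ∀ x ∈ C, ∀ y, aop ω h lam (fun u => g x u - s x u) y = S x y + F x y + e x y
  hF : ∀ v : C → ℂ, ∑ y, ‖lnt C F v y‖ ^ 2 ≤ φ ^ 2 * ∑ y, ‖lnt C g v y‖ ^ 2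
  he : ∀ x ∈ C, ∑ y, ‖e x y‖ ^ 2 ≤ e0
  hs1 : ∀ x ∈ C, ∀ p, ‖ft (s x) p‖ ≤ A / κ
  hs2 : ∀ x ∈ C, ∑ y, ‖s x y‖ ^ 2 ≤ Γ
  hS1 : ∀ x ∈ C, ∀ p, ‖ft (S x) p‖ ≤ A
  hS2 : ∀ x ∈ C, ∑ y, ‖S x y‖ ^ 2 ≤ A * κ ^ ((d : ℝ) / 2)
  hβ : ∀ x ∈ C, ∀ p, ds p ≤ 4 * l → ‖ft (S x) p - (starRingEnd ℂ) (ec p x)‖ ≤ β
  hW : FBd ω h lam w l η τ

/-- the numbers of the cluster lemma; `c` is small, `D₀ = l^{(d-2)/2}` is the density of states,
`b₀ = κ^{(d-2)/2} (1 + log (1 / η))` -/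
structure NumT (d M : ℕ) [NeZero M] (A c w l η τ φ e0 κ Γ β D₀ b₀ : ℝ) : Prop where
  hw : |w - 1| ≤ 1 / 10
  hη : 0 < η ∧ η * (1 + Real.log (1 / η)) ≤ c * κ ∧ η ≤ 1
  hl : 0 < l ∧ 4 * l ≤ κ ∧ κ ≤ 1
  hD : 0 < D₀ ∧ D₀ ≤ b₀
  hκ : κ ^ (((d : ℝ) - 2) / 2) ≤ b₀ ∧ κ ^ (((d : ℝ) - 4) / 2) * η ≤ D₀
  hΓ : 0 ≤ Γ ∧ Γ * η ≤ D₀
  hφ : 0 ≤ φ ∧ φ ≤ c * η
  he : 0 ≤ e0 ∧ e0 ≤ c * η * D₀
  hτ : 0 ≤ τ ∧ τ ^ 2 * b₀ ≤ c * D₀
  hβ : 0 ≤ β ∧ β ≤ c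
  h2 : pm (fun p : Tor d M => if ds p ≤ κ then (mt l η p ^ 2)⁻¹ else 0) ≤ A * D₀ / η
  h1 : pm (fun p : Tor d M => if ds p ≤ κ then (mt l η p)⁻¹ else 0) ≤ A * b₀

/-- test multipliers: bounded approximations of `δ(ds - l)`; `Kq` bounds the kernel of
`q (ds - l)` -/
structure TstT (A D₀ l T Kq : ℝ) (Rb : ℕ) (q : Tor d M → ℝ) : Prop where
  hsupp : ∀ p, q p ≠ 0 → ds p ≤ 4 * l
  hsup : ∀ p, |q p| ≤ A * T
  hmain : D₀ / A ≤ |pm q|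
  hL1 : pm (fun p => |q p|) ≤ A * D₀
  hL2 : pm (fun p => q p ^ 2) ≤ A * T * D₀
  hX2 : pm (fun p => q p ^ 2 * |ds p - l|) ≤ A * D₀
  hX1 : pm (fun p => |q p * (ds p - l)|) ≤ A * D₀ * (1 + Real.log T) / T
  hker : ∀ y : Tor d M, tds 0 y ≤ Rb →
    ‖(∑ p, ((q p * (ds p - l) : ℝ) : ℂ) * ec p y) / (M : ℂ) ^ d‖ ≤ Kq

/-- the point of the torus of a site of a cube about `b` -/
def ti {d : ℕ} (M : ℕ) (b y : Site d) : Tor d M := fun i => ((y i - b i : ℤ) : ZMod M)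

end Pool.Agent.LE.IR
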