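import Pool.Agent.LE.StmtsQE

/-!
# Diffusion down to the scale `η = |σ|^{2 d - ε}`: definitions

Jets of functions of the time and the potential, the matrices of the flow, the functional.
-/

set_option autoImplicit false

open MeasureTheory ProbabilityTheory

open scoped ENNReal BigOperators NNReal Matrix

noncomputable section

namespace Pool.Agent.LE.QF

open Pool.Agent.Anderson hiding box mem_box card_box
open Pool.Agent.Loc Pool.Agent.Mob Pool.Agent.Helper54.Bal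
  Pool.Agent.Helper96.EXP Pool.Agent.BED
open Pool.Agent.LE.MN Pool.Agent.LE.CL Pool.Agent.LE.IR Pool.Agent.LE.QD

/-! ### jets -/

section Jets

variable {ι : Type} [Fintype ι] [DecidableEq ι] {E : Type} [NormedAddCommGroup E]
  [NormedSpace ℝ E]

/-- the derivative in the coordinate `c` of a function of the time and the potential -/
def dC (c : ι) (F : ℝ × (ι → ℝ) → E) (q : ℝ × (ι → ℝ)) : E := fderiv ℝ F q (0, Pi.single c 1)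

/-- the generator `(1/2) ∑ ∂_c² + ∂_t` -/
def LL (F : ℝ × (ι → ℝ) → E) (q : ℝ × (ι → ℝ)) : E :=
  (1 / 2 : ℝ) • ∑ c, dC c (dC c F) q + fderiv ℝ F q (1, 0)

/-- at the point `q` the function `F` is twice continuously differentiable with the value `v`, the
derivatives `g c`, and `LL F = l` -/
structure HJ (F : ℝ × (ι → ℝ) → E) (q : ℝ × (ι → ℝ)) (v : E) (g : ι → E) (l : E) : Prop where
  sm : ContDiffAt ℝ 2 F q
  vl : F q = v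
  gr : ∀ c, dC c F q = g c
  ge : LL F q = l

/-- the same for matrices, entry by entry -/
def HM {m n : Type} (F : ℝ × (ι → ℝ) → Matrix m n E) (q : ℝ × (ι → ℝ)) (v : Matrix m n E)
    (g : ι → Matrix m n E) (l : Matrix m n E) : Prop :=
  ∀ a b, HJ (fun r => F r a b) q (v a b) (fun c => g c a b) (l a b)

end Jets

/-! ### matrices: `G` is the resolvent, `μ` the fluctuation of its diagonal -/

section Mat

variable {X : Type} [Fintype X] [DecidableEq X]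

/-- the quadratic form -/
def qf (A : Matrix X X ℝ) (f : X → ℝ) : ℝ := ∑ a, f a * (A *ᵥ f) a

/-- the orthogonal projection onto the constants -/
def P0 (X : Type) [Fintype X] : Matrix X X ℝ := fun _ _ => (Fintype.card X : ℝ)⁻¹

/-- the Laplacian with the conductances `K` -/
def Dl (K : Matrix X X ℝ) : Matrix X X ℝ := Matrix.diagonal (fun a => ∑ b, K a b) - K

/-- the derivative `- G E_c G` of `G` -/
def gG (G : Matrix X X ℂ) (c : X) : Matrix X X ℂ := fun a b => -(G a c * G c b)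

/-- `G φ G` -/
def GD (G : Matrix X X ℂ) (φ : X → ℂ) : Matrix X X ℂ := G * Matrix.diagonal φ * G

/-- `B`, the squares of the entries -/
def BB (G : Matrix X X ℂ) : Matrix X X ℂ := fun a b => G a b ^ 2

/-- the derivative of `B` -/
def dB (G : Matrix X X ℂ) (c : X) : Matrix X X ℂ := fun a b => -(2 * G a b * G a c * G c b)

/-- `2 G ∘ (G μ G)` -/
def EB (G : Matrix X X ℂ) (μ : X → ℂ) : Matrix X X ℂ := fun a b => 2 * G a b * GD G μ a b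

/-- `K = |G|²` entry by entry -/
def KK (G : Matrix X X ℂ) : Matrix X X ℝ := fun a b => ‖G a b‖ ^ 2

/-- the derivative of `K` -/
def dK (G : Matrix X X ℂ) (c : X) : Matrix X X ℝ :=
  fun a b => -(2 * ((starRingEnd ℂ) (G a b) * G a c * G c b).re)

/-- `2 Re (conj G ∘ (G μ G))` -/
def EK (G : Matrix X X ℂ) (μ : X → ℂ) : Matrix X X ℝ :=
  fun a b => 2 * ((starRingEnd ℂ) (G a b) * GD G μ a b).re

/-- `∂_c φ a` is `QQ a c` -/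
def QQ (G Θ : Matrix X X ℂ) (τ : ℝ) (φ : X → ℂ) : Matrix X X ℂ :=
  -(Θ * Matrix.of fun a b => G a b ^ 2 + 2 * τ * G a b * GD G φ a b)

/-- `LL φ` -/
def lph (G Θ : Matrix X X ℂ) (τ : ℝ) (φ μ : X → ℂ) (a : X) : ℂ :=
  τ * (Θ *ᵥ (EB G μ *ᵥ φ)) a +
    ∑ c, (Θ *ᵥ (((τ : ℂ) • dB G c) *ᵥ fun y => QQ G Θ τ φ y c)) a

/-- the derivative of `G + τ G φ G`; `Q a c` is the derivative of `φ a` -/
def dX (G Q : Matrix X X ℂ) (τ : ℝ) (φ : X → ℂ) (c : X) : Matrix X X ℂ :=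
  gG G c + (τ : ℂ) • (gG G c * Matrix.diagonal φ * G + G * Matrix.diagonal φ * gG G c +
    GD G fun y => Q y c)

/-- `LL` of `G + τ G φ G`, if `LL φ = ψ` -/
def lX (G Q : Matrix X X ℂ) (τ : ℝ) (φ μ ψ : X → ℂ) : Matrix X X ℂ :=
  (τ : ℂ) • (GD G ψ + G * Matrix.diagonal μ * GD G φ + GD G φ * Matrix.diagonal μ * G +
    ∑ c, (gG G c * Matrix.diagonal (fun y => Q y c) * G +
      G * Matrix.diagonal (fun y => Q y c) * gG G c))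

/-- `LL` of `∑_b K(a, b)²` -/
def lLa (G : Matrix X X ℂ) (μ : X → ℂ) (a : X) : ℝ :=
  4 * (KK G * KK G * KK G) a a + 2 * (KK G * EK G μ) a a +
    2 * (∑ b, ∑ c, (starRingEnd ℂ) (BB G a b) * BB G a c * BB G c b).re

/-- a good point of the flow: `G` is symmetric, `G G^* = Im G / κ`, `τ` is comparable with `κ`, the
row sums of `τ |G|²` are nearly one, the fluctuations `μ` are small, the entries of `G` are bounded,
and small outside of the near sets `𝒩 a` -/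
structure GdM (G : Matrix X X ℂ) (μ : X → ℂ) (𝒩 : X → Finset X) (κ τ δ N C₀ : ℝ) : Prop where
  hκ : 0 < κ ∧ κ ≤ 1 ∧ 0 < τ ∧ κ ≤ C₀ * τ ∧ τ ≤ C₀ * κ
  hδ : 0 ≤ δ ∧ C₀ * δ ≤ 1 / 2 ∧ 1 ≤ N
  hs : ∀ a b, G a b = G b a
  hw : ∀ a b, (κ : ℂ) * ∑ c, G a c * (starRingEnd ℂ) (G b c) = ((G a b).im : ℂ)
  hk : ∀ a, |τ * ∑ b, ‖G a b‖ ^ 2 - 1| ≤ C₀ * δ
  hμ : ∀ a, ‖μ a‖ ≤ C₀ * δ
  hG : ∀ a b, ‖G a b‖ ≤ C₀
  hn : ∀ a b, (b ∈ 𝒩 a ↔ a ∈ 𝒩 b) ∧ (b ∉ 𝒩 a → ‖G a b‖ ≤ C₀ * δ)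
  hN : ∀ a, ((𝒩 a).card : ℝ) ≤ N

end Mat

/-! ### the flow on the torus -/

/-- the parameters: the final energy is `E + i η`, the variance is `T`, the self-energy `m`; `δ` bounds
the fluctuations, `N` is the number of the near points, `π` the relative number of the low
momenta, `S` a Fourier multiplier, `Pl` the projection onto the low momenta -/
structure Dat (d M : ℕ) where
  E : ℝ
  η : ℝ
  T : ℝ
  m : ℂ
  δ : ℝ
  ε₁ : ℝ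
  e₀ : ℝ
  e₁ : ℝ
  ϖ : ℝ
  L₀ : ℝ
  N : ℝ
  π₀ : ℝ
  S : Matrix (Tor d M) (Tor d M) ℝ
  Pl : Matrix (Tor d M) (Tor d M) ℝ
  j : ℕ
  p : ℕ

variable {d M : ℕ} [NeZero M]

namespace Dat

variable (D : Dat d M)

/-- the imaginary part of the energy at the time `t` -/
def kp (t : ℝ) : ℝ := D.η + (D.T - t) * D.m.im

/-- `τ = κ / Im m` -/
def ta (t : ℝ) : ℝ := D.kp t / D.m.im

/-- the energy at the time `t` -/
def zt (t : ℝ) : ℂ := ⟨D.E, D.η⟩ + ((D.T - t : ℝ) : ℂ) * D.m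

/-- the initial imaginary part -/
def w : ℝ := D.kp 0

/-- the resolvent -/
def G (r : ℝ × (Tor d M → ℝ)) : Matrix (Tor d M) (Tor d M) ℂ := rs r.2 (D.zt r.1)

/-- the free resolvent -/
def G0 : Matrix (Tor d M) (Tor d M) ℂ := rs (0 : Tor d M → ℝ) (D.zt 0)

/-- the near points -/
def nr (a : Tor d M) : Finset (Tor d M) := by
  classical
  exact Finset.univ.filter fun b => D.δ < ‖D.G0 a b‖

/-- the fluctuation of the diagonal -/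
def mu (r : ℝ × (Tor d M → ℝ)) (a : Tor d M) : ℂ := D.G r a a - D.m

/-- `Y = τ B` -/
def Y (r : ℝ × (Tor d M → ℝ)) : Matrix (Tor d M) (Tor d M) ℂ := (D.ta r.1 : ℂ) • BB (D.G r)

/-- `Θ = (1 - Y)⁻¹` -/
def Th (r : ℝ × (Tor d M → ℝ)) : Matrix (Tor d M) (Tor d M) ℂ := (1 - D.Y r)⁻¹

/-- `φ = Θ μ` -/
def ph (r : ℝ × (Tor d M → ℝ)) : Tor d M → ℂ := D.Th r *ᵥ D.mu r

/-- `G + τ G φ G - G₀` -/
def Xh (r : ℝ × (Tor d M → ℝ)) : Matrix (Tor d M) (Tor d M) ℂ :=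
  D.G r + (D.ta r.1 : ℂ) • GD (D.G r) (D.ph r) - D.G0

/-- `∑_b |G(a, b)|⁴` -/
def La (r : ℝ × (Tor d M → ℝ)) (a : Tor d M) : ℝ := ∑ b, KK (D.G r) a b ^ 2

/-- the bound for `La` -/
def Ls (t : ℝ) : ℝ := D.L₀ * (D.N + D.π₀ / D.kp t ^ 2 + D.δ ^ 4 / D.kp t)

/-- the Laplacian `τ (diag (K 1) - K)` -/
def X (r : ℝ × (Tor d M → ℝ)) : Matrix (Tor d M) (Tor d M) ℝ := D.ta r.1 • Dl (KK (D.G r))

/-- `e₀ + τ S` -/
def A (t : ℝ) : Matrix (Tor d M) (Tor d M) ℝ := D.e₀ • (1 : Matrix (Tor d M) (Tor d M) ℝ) + D.ta t • D.S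

/-- `(X + P0 + ϖ)⁻¹` -/
def W (r : ℝ × (Tor d M → ℝ)) : Matrix (Tor d M) (Tor d M) ℝ :=
  (D.X r + P0 (Tor d M) + D.ϖ • (1 : Matrix (Tor d M) (Tor d M) ℝ))⁻¹

/-- the part of `φ` -/
def U1 (r : ℝ × (Tor d M → ℝ)) : ℝ := ∑ a, (‖D.ph r a‖ ^ 2 / D.δ ^ 2) ^ D.j

/-- the part of `Xh` -/
def U2 (r : ℝ × (Tor d M → ℝ)) : ℝ := ∑ a, ∑ b, (‖D.Xh r a b‖ ^ 2 / D.δ ^ 2) ^ D.j

/-- the part of `Y` -/
def U3 (r : ℝ × (Tor d M → ℝ)) : ℝ :=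
  (Matrix.trace ((D.Y r * (D.Y r)ᴴ) ^ D.j)).re / D.ε₁ ^ (2 * D.j)

/-- the part of `La` -/
def U4 (r : ℝ × (Tor d M → ℝ)) : ℝ := ∑ a, (D.La r a / D.Ls r.1) ^ D.j

/-- the part of `W` -/
def U5 (r : ℝ × (Tor d M → ℝ)) : ℝ := Matrix.trace (((D.A r.1)⁻¹ * D.W r) ^ D.p)

/-- the functional -/
def U (r : ℝ × (Tor d M → ℝ)) : ℝ := D.U1 r + D.U2 r + D.U3 r + D.U4 r + D.U5 r

/-- bounds `kp t * Ls t` -/
def ch : ℝ := D.L₀ * (D.N * D.w + D.π₀ / D.η + D.δ ^ 4)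

/-- the size of the errors: `LL U` is at most `aN / κ` times `U`, nearly -/
def aN : ℝ :=
  D.j * (D.δ + Real.sqrt D.ch / D.δ + D.δ / D.ε₁) +
    D.j ^ 2 * (D.ch / D.δ ^ 2 + (D.N * D.w + D.δ ^ 2) / D.ε₁ ^ 2 + 1 / Real.sqrt D.L₀ + D.ε₁ +
      (D.e₀ - 1)) +
    D.p * D.δ + D.p ^ 2 * (D.N * D.w + D.δ ^ 2 + D.π₀ / D.η)

/-- the additive errors -/
def bN : ℝ := 2 * ((M : ℝ) ^ d) ^ 2 * ((1 / 4) ^ D.j + (1 / D.e₁) ^ D.p)

end Dat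

/-- the hypotheses on the parameters and the initial values; `c₁ ≤ 1 ≤ C₁`, `c₀` is small -/
structure Adm (D : Dat d M) (c₁ C₁ c₀ : ℝ) (k₀ : ℕ) : Prop where
  hT : 0 < D.T ∧ 0 < D.η ∧ D.w ≤ 1 ∧ D.η ≤ D.T
  hm : c₁ ≤ D.m.im ∧ D.m.im ≤ C₁
  hfix : ∀ a, D.G0 a a = D.m
  hδ : 0 < D.δ ∧ D.δ ≤ D.ε₁ ∧ D.ε₁ ≤ c₀
  hk : (M : ℝ) ^ d * D.ε₁ ^ (2 * k₀) ≤ 1 / 4
  he : 1 < D.e₁ ∧ D.e₁ ≤ D.e₀ ∧ D.e₀ ≤ 2
  hj : 2 ≤ D.j ∧ 2 ≤ D.p ∧ 1 ≤ D.L₀ ∧ 1 ≤ D.N ∧ 0 ≤ D.π₀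
  h0 : ∀ a b, ‖D.G0 a b‖ ≤ C₁
  hN : ∀ a, ((D.nr a).card : ℝ) ≤ D.N
  hY : ∀ u, n2 (D.Y 0 *ᵥ u) ≤ (D.ε₁ / 2) ^ 2 * n2 u
  hL : ∀ a, 4 * D.La 0 a ≤ D.Ls 0
  hS : (∀ a b, D.S a b = D.S b a) ∧ (∀ f, 0 ≤ qf D.S f) ∧ (∀ a, ∑ b, D.S a b = 0) ∧
    ∀ a, D.w * D.S a a ≤ D.π₀
  hP : (∀ a b, D.Pl a b = D.Pl b a) ∧ D.Pl * D.Pl = D.Pl ∧ (∀ a, D.Pl a a ≤ D.π₀) ∧
    (∀ a, ∑ b, D.Pl a b = 1) ∧ D.S * D.Pl = D.S
  hϖ : 0 < D.ϖ ∧ D.ϖ ≤ D.δ ∧ ∀ f, D.ϖ * qf (D.A 0) f ≤ D.δ * ∑ a, f a ^ 2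
  hW : ∀ f, D.e₁ * qf (D.A 0)⁻¹ f ≤ qf (D.X 0 + P0 (Tor d M)) f

/-! ### Fourier multipliers, the initial values -/

/-- the Fourier multiplier with the even real symbol `s` -/
def mlt (s : Tor d M → ℝ) : Matrix (Tor d M) (Tor d M) ℝ :=
  fun x y => (∑ p, s p * (ec p (x - y)).re) / (M : ℝ) ^ d

/-- the Fourier transform of `kk ζ` -/
def kf (ζ : ℂ) (p : Tor d M) : ℝ := ∑ x : Tor d M, kk ζ x * (ec p x).re

/-- the mean of `e^{2 i Re (a u)}` over the `M`-th roots of unity `u` -/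
def jc (M : ℕ) [NeZero M] (a : ℂ) : ℂ :=
  (∑ k : ZMod M, Complex.exp (Complex.I * ((2 * (a * ZMod.stdAddChar k).re : ℝ) : ℂ))) / (M : ℂ)

/-- the Fourier transform of `|G₀|²`, in the momenta -/
def kh (z : ℂ) (p : Tor d M) : ℂ :=
  (∑ k, ((es k : ℂ) - z)⁻¹ * (starRingEnd ℂ) (((es (k + p) : ℂ) - z)⁻¹)) / (M : ℂ) ^ d

/-- the Fourier transform of `G₀²`, in the momenta -/
def bh (z : ℂ) (p : Tor d M) : ℂ :=
  (∑ k, ((es k : ℂ) - z)⁻¹ * ((es (p - k) : ℂ) - z)⁻¹) / (M : ℂ) ^ d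

/-- the symbol of `S`: `cs (1 / w + w / ds)` for the low momenta `≠ 0` -/
def sy0 (cs w : ℝ) (J : ℕ) (p : Tor d M) : ℝ :=
  if p ∈ low d M J ∧ p ≠ 0 then cs * (1 / w + w / ds p) else 0

end Pool.Agent.LE.QF
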