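import Pool.Agent.LE.StmtsQH

/-!
# Diffusion down to the scale `η = exp (- |σ|^{-θ})`: definitions

The same functional as in `DefsQF.lean`, with a better bound `Ls` for `La`: the drift of `La` is
`4 K³(a, a) + …`, and with `x = K e_a` the form bound gives
`τ ⟨x, K x⟩ ≤ ε₃ |x|² + τ ⟨x, S x⟩ + ⟨x, P0 x⟩`, `⟨x, S x⟩ ≤ (∑ x)² max S(b, b) ≤ (4/τ²) max S(b, b)`. So there
is no lower limit for `κ`. The inverse `(1 - Y)⁻¹` has the norm `h = 2 k + 1` in `ℓ^∞`, `k` grows with `log M`.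
-/

set_option autoImplicit false

open MeasureTheory ProbabilityTheory

open scoped ENNReal BigOperators NNReal Matrix

noncomputable section

namespace Pool.Agent.LE.QX

open Pool.Agent.Anderson hiding box mem_box card_box
open Pool.Agent.Loc Pool.Agent.Mob Pool.Agent.Helper54.Bal
  Pool.Agent.Helper96.EXP Pool.Agent.BED
open Pool.Agent.LE.MN Pool.Agent.LE.CL Pool.Agent.LE.IR Pool.Agent.LE.QD Pool.Agent.LE.QF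

/-! ### the flow on the torus -/

/-- the parameters: the final energy is `E + i η`, the variance is `T`, the self-energy `m`; `δ` bounds
the fluctuations, `N` is the number of the near points, `π₀` bounds `S a a + 1 / (η M^d)`, `S` is a
Fourier multiplier, `k` the number of the steps for `(1 - Y)⁻¹` -/
structure Dat (d M : ℕ) where
  E : ℝ
  η : ℝ
  T : ℝ
  m : ℂ
  δ : ℝ
  ε₁ : ℝ
  e₀ : ℝ
  e₁ : ℝ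
  ϖ : ℝ
  L₀ : ℝ
  N : ℝ
  π₀ : ℝ
  S : Matrix (Tor d M) (Tor d M) ℝ
  k : ℕ
  j : ℕ
  p : ℕ

variable {d M : ℕ} [NeZero M]

namespace Dat

variable (D : Dat d M)

/-- the imaginary part of the energy at the time `t` -/
def kp (t : ℝ) : ℝ := D.η + (D.T - t) * D.m.im

/-- `τ = κ / Im m` -/
def ta (t : ℝ) : ℝ := D.kp t / D.m.im

/-- the energy at the time `t` -/
def zt (t : ℝ) : ℂ := ⟨D.E, D.η⟩ + ((D.T - t : ℝ) : ℂ) * D.m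

/-- the initial imaginary part -/
def w : ℝ := D.kp 0

/-- the resolvent -/
def G (r : ℝ × (Tor d M → ℝ)) : Matrix (Tor d M) (Tor d M) ℂ := rs r.2 (D.zt r.1)

/-- the free resolvent -/
def G0 : Matrix (Tor d M) (Tor d M) ℂ := rs (0 : Tor d M → ℝ) (D.zt 0)

/-- the near points -/
def nr (a : Tor d M) : Finset (Tor d M) := by
  classical
  exact Finset.univ.filter fun b => D.δ < ‖D.G0 a b‖

/-- the fluctuation of the diagonal -/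
def mu (r : ℝ × (Tor d M → ℝ)) (a : Tor d M) : ℂ := D.G r a a - D.m

/-- `Y = τ B` -/
def Y (r : ℝ × (Tor d M → ℝ)) : Matrix (Tor d M) (Tor d M) ℂ := (D.ta r.1 : ℂ) • BB (D.G r)

/-- `Θ = (1 - Y)⁻¹` -/
def Th (r : ℝ × (Tor d M → ℝ)) : Matrix (Tor d M) (Tor d M) ℂ := (1 - D.Y r)⁻¹

/-- `φ = Θ μ` -/
def ph (r : ℝ × (Tor d M → ℝ)) : Tor d M → ℂ := D.Th r *ᵥ D.mu r

/-- `G + τ G φ G - G₀` -/
def Xh (r : ℝ × (Tor d M → ℝ)) : Matrix (Tor d M) (Tor d M) ℂ :=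
  D.G r + (D.ta r.1 : ℂ) • GD (D.G r) (D.ph r) - D.G0

/-- `∑_b |G(a, b)|⁴` -/
def La (r : ℝ × (Tor d M → ℝ)) (a : Tor d M) : ℝ := ∑ b, KK (D.G r) a b ^ 2

/-- the bound for `La` -/
def Ls (t : ℝ) : ℝ := D.L₀ * (D.N + D.π₀ / D.kp t + D.δ ^ 4 / D.kp t)

/-- the Laplacian `τ (diag (K 1) - K)` -/
def X (r : ℝ × (Tor d M → ℝ)) : Matrix (Tor d M) (Tor d M) ℝ := D.ta r.1 • Dl (KK (D.G r))

/-- `e₀ + τ S` -/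
def A (t : ℝ) : Matrix (Tor d M) (Tor d M) ℝ := D.e₀ • (1 : Matrix (Tor d M) (Tor d M) ℝ) + D.ta t • D.S

/-- `(X + P0 + ϖ)⁻¹` -/
def W (r : ℝ × (Tor d M → ℝ)) : Matrix (Tor d M) (Tor d M) ℝ :=
  (D.X r + P0 (Tor d M) + D.ϖ • (1 : Matrix (Tor d M) (Tor d M) ℝ))⁻¹

/-- the part of `φ` -/
def U1 (r : ℝ × (Tor d M → ℝ)) : ℝ := ∑ a, (‖D.ph r a‖ ^ 2 / D.δ ^ 2) ^ D.j

/-- the part of `Xh` -/
def U2 (r : ℝ × (Tor d M → ℝ)) : ℝ := ∑ a, ∑ b, (‖D.Xh r a b‖ ^ 2 / D.δ ^ 2) ^ D.j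

/-- the part of `Y` -/
def U3 (r : ℝ × (Tor d M → ℝ)) : ℝ :=
  (Matrix.trace ((D.Y r * (D.Y r)ᴴ) ^ D.j)).re / D.ε₁ ^ (2 * D.j)

/-- the part of `La` -/
def U4 (r : ℝ × (Tor d M → ℝ)) : ℝ := ∑ a, (D.La r a / D.Ls r.1) ^ D.j

/-- the part of `W` -/
def U5 (r : ℝ × (Tor d M → ℝ)) : ℝ := Matrix.trace (((D.A r.1)⁻¹ * D.W r) ^ D.p)

/-- the functional -/
def U (r : ℝ × (Tor d M → ℝ)) : ℝ := D.U1 r + D.U2 r + D.U3 r + D.U4 r + D.U5 r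

/-- bounds `kp t * Ls t` -/
def ch : ℝ := D.L₀ * (D.N * D.w + D.π₀ + D.δ ^ 4)

/-- bounds the rows of `Θ` -/
def h : ℝ := 2 * D.k + 1

/-- the size of the errors: `LL U` is at most `aN / κ` times `U`, nearly -/
def aN : ℝ :=
  D.j * (D.h ^ 2 * (D.δ + Real.sqrt D.ch / D.δ) + D.δ / D.ε₁) +
    D.j ^ 2 * (D.h ^ 4 * (D.ch / D.δ ^ 2) + (D.N * D.w + D.δ ^ 2) / D.ε₁ ^ 2 +
      1 / Real.sqrt D.L₀ + D.ε₁ + (D.e₀ - 1)) +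
    D.p * D.δ + D.p ^ 2 * (D.N * D.w + D.δ ^ 2 + D.π₀)

/-- the additive errors -/
def bN : ℝ := 2 * ((M : ℝ) ^ d) ^ 2 * ((1 / 4) ^ D.j + (1 / D.e₁) ^ D.p)

end Dat

/-- the hypotheses on the parameters and the initial values; `c₁ ≤ 1 ≤ C₁`, `c₀` is small -/
structure Adm (D : Dat d M) (c₁ C₁ c₀ : ℝ) : Prop where
  hT : 0 < D.T ∧ 0 < D.η ∧ D.w ≤ 1 ∧ D.η ≤ D.T
  hm : c₁ ≤ D.m.im ∧ D.m.im ≤ C₁
  hfix : ∀ a, D.G0 a a = D.m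
  hδ : 0 < D.δ ∧ D.δ ≤ D.ε₁ ∧ D.ε₁ ≤ c₀
  hk : 1 ≤ D.k ∧ D.k * D.δ ≤ c₀ ∧ (M : ℝ) ^ d * D.ε₁ ^ (2 * D.k) ≤ 1 / 4
  he : 1 < D.e₁ ∧ D.e₁ ≤ D.e₀ ∧ D.e₀ ≤ 2
  hj : 2 ≤ D.j ∧ 2 ≤ D.p ∧ 1 ≤ D.L₀ ∧ 1 ≤ D.N ∧ 0 ≤ D.π₀
  h0 : ∀ a b, ‖D.G0 a b‖ ≤ C₁
  hN : ∀ a, ((D.nr a).card : ℝ) ≤ D.N
  hY : ∀ u, n2 (D.Y 0 *ᵥ u) ≤ (D.ε₁ / 2) ^ 2 * n2 u
  hL : ∀ a, 4 * D.La 0 a ≤ D.Ls 0
  hS : (∀ a b, D.S a b = D.S b a) ∧ (∀ f, 0 ≤ qf D.S f) ∧ (∀ a, ∑ b, D.S a b = 0) ∧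
    ∀ a, D.S a a + 1 / (D.η * (M : ℝ) ^ d) ≤ D.π₀
  hϖ : 0 < D.ϖ ∧ D.ϖ ≤ D.δ ∧ ∀ f, D.ϖ * qf (D.A 0) f ≤ D.δ * ∑ a, f a ^ 2
  hW : ∀ f, D.e₁ * qf (D.A 0)⁻¹ f ≤ qf (D.X 0 + P0 (Tor d M)) f

end Pool.Agent.LE.QX
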