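import Pool.Agent.LE.Stmts2
import Pool.Agent.Mob.Stmts

/-!
# Theorem A (zero-one law at every energy), in finite volume: statements of the modules

The proofs are in `/team-store/PAPER_ZOL.md`.
-/

set_option autoImplicit false

open MeasureTheory ProbabilityTheory Function

open scoped ENNReal BigOperators

noncomputable section

namespace Pool.Agent.LE

open Pool.Agent.Anderson Pool.Agent.Loc Pool.Agent.Mob Pool.Agent.Helper54.Bal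

/-- the site `a + l y` -/
def mv {d : ℕ} (a : Site d) (l : ℕ) (y : Site d) : Site d := fun i => a i + l * y i

/-- `M_L(a) ≥ t`: the Green function of the cube of radius `L` about `a`, between the centre and
the boundary, is at most `e^{-t}`. -/
def DecA {d : ℕ} (V : Site d → ℝ) (a : Site d) (L : ℕ) (t E : ℝ) : Prop :=
  (RM V (box a L) E).det ≠ 0 ∧ ∀ u, sd a u = L → |gr V (box a L) E a u| ≤ Real.exp (-t)

/-- the cost `-log |G|` in the cube `box 0 N` -/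
def cst {d : ℕ} (N : ℕ) (E : ℝ) (x y : Site d) (V : Site d → ℝ) : ℝ :=
  -Real.log |gr V (box 0 N) E x y|

/-- A random cost on the cube `box 0 N`: symmetric, with moments of the order of the distance,
with bounded negative part, and subadditive up to a bounded error. -/
structure Cost {d : ℕ} {Ω : Type} [MeasurableSpace Ω] (P : Measure Ω) (C : ℝ) (N : ℕ)
    (D : Site d → Site d → Ω → ℝ) : Prop where
  symm : ∀ x ∈ box (0 : Site d) N, ∀ y ∈ box (0 : Site d) N, D x y = D y x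
  memLp : ∀ x ∈ box (0 : Site d) N, ∀ y ∈ box (0 : Site d) N, MemLp (D x y) 2 P
  sq : ∀ x ∈ box (0 : Site d) N, ∀ y ∈ box (0 : Site d) N,
    ∫ ω, (D x y ω) ^ 2 ∂P ≤ C * ((sd x y : ℝ) + 1) ^ 2
  neg : ∀ x ∈ box (0 : Site d) N, ∀ y ∈ box (0 : Site d) N,
    ∫ ω, (max (-D x y ω) 0) ^ 2 ∂P ≤ C
  tri : ∀ x ∈ box (0 : Site d) N, ∀ y ∈ box (0 : Site d) N, ∀ z ∈ box (0 : Site d) N,
    ∫ ω, (max (D x z ω - D x y ω - D y z ω) 0) ^ 2 ∂P ≤ C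

/-- PIG: the pigeonhole over the scales. At one of the scales `2 ^ j l₀`, `j ≤ J`, and at one
base point, the cost of all the macroscopic vectors is nearly the same everywhere near the base
point. -/
def PigStmt : Prop :=
  ∀ (d K₁ K : ℕ) (C ε : ℝ), 0 < ε → ∃ J l₁ : ℕ, ∀ l₀ : ℕ, l₁ ≤ l₀ → ∃ N : ℕ,
    ∀ (Ω : Type) [MeasurableSpace Ω] (P : Measure Ω) [IsProbabilityMeasure P]
      (D : Site d → Site d → Ω → ℝ), Cost P C N D →
    ∃ j ≤ J, ∃ a : Site d, box a (K * (2 ^ j * l₀)) ⊆ box 0 N ∧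
      ∀ y ∈ box (0 : Site d) K₁, ∀ y' ∈ box (0 : Site d) K₁,
        ∫ ω, |D a (mv a (2 ^ j * l₀) y) ω -
          D (mv a (2 ^ j * l₀) y') (mv (mv a (2 ^ j * l₀) y') (2 ^ j * l₀) y) ω| ∂P ≤
          ε * (2 ^ j * l₀)

/-- MOM: the moments of `-log |G|`, uniformly in the cube. -/
def MomStmt : Prop :=
  ∀ (d : ℕ) (σ E : ℝ), 1 ≤ d → σ ≠ 0 → ∃ C : ℝ, ∀ N : ℕ,
    Cost (PL (gl σ) (box (0 : Site d) N)) C N (cst N E)

/-- The good event at the base point `a`, at the scale `l`, with the loss `e^θ`. -/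
structure GEv {d : ℕ} (V : Site d → ℝ) (N : ℕ) (a : Site d) (l Q : ℕ) (θ E : ℝ) : Prop where
  det : (RM V (box 0 N) E).det ≠ 0
  detc : ∀ s ∈ box a (4 * (Q * l)), (RM V (box s (Q * l)) E).det ≠ 0
  up : ∀ x ∈ box a (10 * (Q * l)), ∀ y ∈ box a (10 * (Q * l)),
    |gr V (box 0 N) E x y| ≤ Real.exp θ
  upc : ∀ s ∈ box a (4 * (Q * l)), ∀ x y, |gr V (box s (Q * l)) E x y| ≤ Real.exp θ
  low : ∀ z ∈ box (0 : Site d) (3 * Q + 1), ∀ s ∈ box (mv a l z) (3 * l),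
    Real.exp (-θ) ≤ |gr V (box 0 N) E (mv a l z) s|
  nz : ∀ z ∈ box (0 : Site d) (2 * Q + 1), ∀ y ∈ box (0 : Site d) Q,
    gr V (box 0 N) E (mv a l z) (mv (mv a l z) l y) ≠ 0
  tri : ∀ x ∈ box a (10 * (Q * l)), ∀ u ∈ box a (10 * (Q * l)), ∀ y ∈ box a (10 * (Q * l)),
    |gr V (box 0 N) E x u| * |gr V (box 0 N) E u y| ≤ Real.exp θ * |gr V (box 0 N) E x y|

/-- CPA: comparison of the cubes of radius `Q l` with the big cube (deterministic). -/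
def CpaStmt : Prop :=
  ∀ (d : ℕ) (V : Site d → ℝ) (N : ℕ) (a : Site d) (l Q : ℕ) (θ E t : ℝ), 1 ≤ d → 1 ≤ l → 1 ≤ Q →
    box a (10 * (Q * l)) ⊆ box 0 N → 1 + 2 * d * (2 * (Q * l) + 1) ^ d * Real.exp θ ≤
      Real.exp (2 * θ) → GEv V N a l Q θ E → ∀ z ∈ box (0 : Site d) (2 * Q + 1),
    (DecA V (mv a l z) (Q * l) t E → ∀ y, sd 0 y = Q →
      |gr V (box 0 N) E (mv a l z) (mv (mv a l z) l y)| ≤ Real.exp (-(t - 2 * θ))) ∧
    ((∀ y, sd 0 y = Q → |gr V (box 0 N) E (mv a l z) (mv (mv a l z) l y)| ≤ Real.exp (-t)) →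
      ∀ s ∈ box (mv a l z) l, DecA V s (Q * l) (t - 6 * θ) E)

/-- GPR: the probability of the good event. -/
def GprStmt : Prop :=
  ∀ (d : ℕ) (σ E : ℝ), 1 ≤ d → σ ≠ 0 → (∃ C, OneTail d (gl σ) E C) →
    (∃ C, ChnTail d (gl σ) E C) → ∀ k p : ℝ, 0 < k → 0 < p → ∃ Q : ℕ, 1 ≤ Q ∧ ∃ l₁ : ℕ,
      ∀ l : ℕ, l₁ ≤ l → ∀ (N : ℕ) (a : Site d), box a (10 * (Q * l)) ⊆ box 0 N →
        PL (gl σ) (box 0 N) {V | ¬ GEv V N a l Q (k * (Q * l)) E} ≤ ENNReal.ofReal p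

/-- CON: a positive probability at all large scales becomes a probability close to one. -/
def ConStmt : Prop :=
  ∀ (d : ℕ) (σ E κ δ : ℝ), 1 ≤ d → σ ≠ 0 → (∃ C, OneTail d (gl σ) E C) →
    (∃ C, ChnTail d (gl σ) E C) → 0 < κ → 0 < δ →
    (∃ L₁ : ℕ, ∀ L : ℕ, L₁ ≤ L → ENNReal.ofReal δ ≤
      PL (gl σ) (box (0 : Site d) L) {V | DecA V 0 L (κ * L) E}) →
    ∀ p : ℝ, 0 < p → ∀ L₀ : ℕ, ∃ L : ℕ, L₀ ≤ L ∧
      PL (gl σ) (box (0 : Site d) (2 * L)) {V | ¬ AllGoodC V 0 L (κ / 2) E} ≤ ENNReal.ofReal p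

/-- CNV: in `LocSet` the probability of decay is exponentially close to one. -/
def CnvStmt : Prop :=
  ∀ (d : ℕ) (C₀ σ E : ℝ), 1 ≤ d → 0 < C₀ → σ ≠ 0 → BlkAt d C₀ σ → E ∈ LocSet d C₀ σ →
    ∃ κ c : ℝ, 0 < κ ∧ 0 < c ∧ ∃ L₁ : ℕ, ∀ L : ℕ, L₁ ≤ L →
      PL (gl σ) (box (0 : Site d) L) {V | ¬ DecA V 0 L (κ * L) E} ≤
        ENNReal.ofReal (Real.exp (-c * L))

/-- ZOL: the zero-one law at every energy. -/
def ZolStmt : Prop :=
  ∀ (d : ℕ) (C₀ σ E : ℝ), 1 ≤ d → 0 < C₀ → σ ≠ 0 → E ∉ LocSet d C₀ σ → ∀ κ : ℝ, 0 < κ →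
    Filter.liminf (fun L : ℕ => PL (gl σ) (box (0 : Site d) L) {V | DecA V 0 L (κ * L) E})
      Filter.atTop = 0

end Pool.Agent.LE
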