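import Pool.Agent.LE.Stmts3

/-!
# Zero-one law for the exponential decay of the Green function, at every energy: statements

Theorem A of `/team-store/PAPER_POS.md`, in finite volume, at real energies. The infinite volume is
replaced by a large cube, and stationarity by averages over base points.
-/

set_option autoImplicit false

open MeasureTheory ProbabilityTheory Function

open scoped ENNReal BigOperators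

noncomputable section

namespace Pool.Agent.LE

open Pool.Agent.Anderson Pool.Agent.Loc Pool.Agent.Mob Pool.Agent.Helper54.Bal

/-! ### P. pure probability -/

/-- `ℓ y` -/
def sm {d : ℕ} (ℓ : ℕ) (y : Site d) : Site d := fun j => ℓ * y j

/-- Almost subadditive random functions of two sites of `box 0 N`, with second moments. -/
structure FamN (d N : ℕ) {Ω : Type} [MeasurableSpace Ω] (P : Measure Ω) (C : ℝ)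
    (D : Ω → Site d → Site d → ℝ) : Prop where
  meas : ∀ x y, Measurable fun ω => D ω x y
  symm : ∀ ω x y, D ω x y = D ω y x
  int : ∀ x ∈ box (0 : Site d) N, ∀ y ∈ box (0 : Site d) N, Integrable (fun ω => D ω x y ^ 2) P
  sq : ∀ x ∈ box (0 : Site d) N, ∀ y ∈ box (0 : Site d) N,
    ∫ ω, D ω x y ^ 2 ∂P ≤ C * ((sd x y : ℝ) + 1) ^ 2
  neg : ∀ x ∈ box (0 : Site d) N, ∀ y ∈ box (0 : Site d) N, ∫ ω, (max 0 (-D ω x y)) ^ 2 ∂P ≤ C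
  tri : ∀ x ∈ box (0 : Site d) N, ∀ u ∈ box (0 : Site d) N, ∀ y ∈ box (0 : Site d) N,
    ∫ ω, (max 0 (D ω x y - D ω x u - D ω u y)) ^ 2 ∂P ≤ C

/-- the average over the cube of radius `R` -/
def Av {d : ℕ} (R : ℕ) (f : Site d → ℝ) : ℝ :=
  (∑ a ∈ box (0 : Site d) R, f a) / (2 * R + 1) ^ d

/-- AVS: averages over large cubes are almost shift invariant. -/
def AvsStmt : Prop :=
  ∀ (d b₀ : ℕ) (B ε : ℝ), 0 < ε → ∃ R₀ : ℕ, ∀ R : ℕ, R₀ ≤ R → ∀ (f : Site d → ℝ) (b : Site d),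
    sd 0 b ≤ b₀ → (∀ a ∈ box (0 : Site d) (R + b₀), |f a| ≤ B) →
      |Av R (fun a => f (a + b)) - Av R f| ≤ ε

/-- PHO: the pigeonhole of scales. -/
def PhoStmt : Prop :=
  ∀ (B ε : ℝ) (N q : ℕ), 0 < B → 0 < ε → ∃ J : ℕ, ∀ (ι : Type) (F : Finset ι), F.card ≤ N →
    ∀ (h s v : ι → ℕ → ℝ) (e : ℕ → ℝ),
    (∀ i ∈ F, ∀ j, h i (j + 1) ≤ h i j + e j) → (∀ i ∈ F, ∀ j, |h i j| ≤ B) →
    (∀ i ∈ F, ∀ j, s i (j + 1) ≤ s i j - v i j / 4 + e j) → (∀ i ∈ F, ∀ j, |s i j| ≤ B) →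
    (∀ i ∈ F, ∀ j, 0 ≤ v i j) → (∀ j, 0 ≤ e j) → (∀ n, ∑ j ∈ Finset.range n, e j ≤ B) →
      ∃ j ≤ J, ∀ i ∈ F, h i j - h i (j + q) ≤ ε ∧ v i j ≤ ε

/-- the average of `D(a, a + ℓ y) / ℓ` -/
def hA {d : ℕ} {Ω : Type} [MeasurableSpace Ω] (P : Measure Ω) (D : Ω → Site d → Site d → ℝ)
    (R : ℕ) (y : Site d) (ℓ : ℕ) : ℝ :=
  Av R fun a => ∫ ω, D ω a (a + sm ℓ y) / ℓ ∂P

/-- the average of `(D(a, a + ℓ y) / ℓ)²` -/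
def sA {d : ℕ} {Ω : Type} [MeasurableSpace Ω] (P : Measure Ω) (D : Ω → Site d → Site d → ℝ)
    (R : ℕ) (y : Site d) (ℓ : ℕ) : ℝ :=
  Av R fun a => ∫ ω, (D ω a (a + sm ℓ y) / ℓ) ^ 2 ∂P

/-- the average of `(D(a, a + ℓ y) / ℓ - D(a + ℓ y, a + 2 ℓ y) / ℓ)²` -/
def vA {d : ℕ} {Ω : Type} [MeasurableSpace Ω] (P : Measure Ω) (D : Ω → Site d → Site d → ℝ)
    (R : ℕ) (y : Site d) (ℓ : ℕ) : ℝ :=
  Av R fun a => ∫ ω, (D ω a (a + sm ℓ y) / ℓ - D ω (a + sm ℓ y) (a + sm (2 * ℓ) y) / ℓ) ^ 2 ∂P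

/-- DBL: the mean and the second moment when the distance is doubled. -/
def DblStmt : Prop :=
  ∀ (d K : ℕ) (C : ℝ), 0 < C → 1 ≤ K → ∃ M : ℝ, 0 < M ∧ ∀ ℓ : ℕ, 1 ≤ ℓ → ∃ R₀ : ℕ, ∀ R N : ℕ,
    R₀ ≤ R → R + 4 * K * ℓ ≤ N → ∀ (Ω : Type) [MeasurableSpace Ω] (P : Measure Ω)
    [IsProbabilityMeasure P] (D : Ω → Site d → Site d → ℝ), FamN d N P C D →
    ∀ y : Site d, sd 0 y ≤ K →
      |hA P D R y ℓ| ≤ M ∧ |sA P D R y ℓ| ≤ M ∧ 0 ≤ vA P D R y ℓ ∧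
      hA P D R y (2 * ℓ) ≤ hA P D R y ℓ + M / ℓ ∧
      sA P D R y (2 * ℓ) ≤ sA P D R y ℓ - vA P D R y ℓ / 4 + M / ℓ

/-- BLO: at a good scale `ℓ`, the distances `ℓ` and `nℓ`. -/
def BloStmt : Prop :=
  ∀ (d K : ℕ) (C : ℝ), 0 < C → 1 ≤ K → ∃ M : ℝ, 0 < M ∧ ∀ ℓ n : ℕ, 1 ≤ ℓ → 1 ≤ n →
    ∃ R₀ : ℕ, ∀ R N : ℕ, R₀ ≤ R → R + 4 * K * (n * ℓ) ≤ N → ∀ (Ω : Type) [MeasurableSpace Ω]
    (P : Measure Ω) [IsProbabilityMeasure P] (D : Ω → Site d → Site d → ℝ), FamN d N P C D →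
    ∀ (y : Site d) (ε : ℝ), sd 0 y ≤ K → 0 ≤ ε → hA P D R y ℓ - hA P D R y (n * ℓ) ≤ ε →
      vA P D R y ℓ ≤ ε ^ 2 →
      Av R (fun a => ∫ ω, |D ω a (a + sm ℓ y) / ℓ - D ω a (a + sm (n * ℓ) y) / (n * ℓ)| ∂P) ≤
        ε + n * ε + M / ℓ

/-- SHI: shifts at the distance `nℓ`. -/
def ShiStmt : Prop :=
  ∀ (d K : ℕ) (C : ℝ), 0 < C → 1 ≤ K → ∃ M : ℝ, 0 < M ∧ ∀ (N ℓ n : ℕ), 1 ≤ ℓ → 1 ≤ n →
    ∀ (Ω : Type) [MeasurableSpace Ω] (P : Measure Ω) [IsProbabilityMeasure P]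
    (D : Ω → Site d → Site d → ℝ), FamN d N P C D → ∀ a y k : Site d, sd 0 y ≤ K → sd 0 k ≤ K →
      box a (4 * K * (n * ℓ)) ⊆ box 0 N →
        ∫ ω, |D ω a (a + sm (n * ℓ) y) / (n * ℓ) -
          D ω (a + sm ℓ k) (a + sm ℓ k + sm (n * ℓ) y) / (n * ℓ)| ∂P ≤ M / n

/-- PIG: at one of finitely many scales, and at one base point, near invariance under shifts. -/
def PigStmt : Prop :=
  ∀ (d K W : ℕ) (C ε : ℝ), 0 < C → 0 < ε → 1 ≤ K → ∃ J l : ℕ, 1 ≤ l ∧ ∀ ℓ₀ : ℕ, l ≤ ℓ₀ →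
    ∃ N₀ : ℕ, ∀ N : ℕ, N₀ ≤ N → ∀ (Ω : Type) [MeasurableSpace Ω] (P : Measure Ω)
    [IsProbabilityMeasure P] (D : Ω → Site d → Site d → ℝ), FamN d N P C D →
    ∃ j ≤ J, ∃ a : Site d, box a (W * (2 ^ j * ℓ₀)) ⊆ box 0 N ∧ ∀ y k : Site d, sd 0 y ≤ K →
      sd 0 k ≤ K →
        ∫ ω, |D ω a (a + sm (2 ^ j * ℓ₀) y) -
          D ω (a + sm (2 ^ j * ℓ₀) k) (a + sm (2 ^ j * ℓ₀) k + sm (2 ^ j * ℓ₀) y)| ∂P ≤
            ε * (2 ^ j * ℓ₀ : ℕ)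

/-! ### F. finite volume -/

/-- `-log |G_Λ(x, y; E)|` -/
def DL {d : ℕ} (Λ : Finset (Site d)) (E : ℝ) (V : Site d → ℝ) (x y : Site d) : ℝ :=
  -Real.log |gr V Λ E x y|

/-- FMN: `-log |G|` in a cube has the properties of `FamN`, with a constant which does not depend
on the cube. -/
def FmnStmt : Prop :=
  ∀ (d : ℕ) (σ E : ℝ), 1 ≤ d → σ ≠ 0 → ∃ C : ℝ, 0 < C ∧ ∀ N : ℕ,
    FamN d N (PP d (gl σ)) C (DL (box 0 N) E) ∧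
    (∀ x ∈ box (0 : Site d) N, ∀ y ∈ box (0 : Site d) N,
      PP d (gl σ) {V | gr V (box 0 N) E x y = 0} = 0)

/-- FVD: comparison of a cube with a larger set (deterministic). -/
def FvdStmt : Prop :=
  ∀ (d : ℕ) (V : Site d → ℝ) (Λ : Finset (Site d)) (s : Site d) (L : ℕ) (E T a : ℝ), 0 ≤ T →
    0 ≤ a → box s (L + 1) ⊆ Λ → (RM V Λ E).det ≠ 0 → (RM V (box s L) E).det ≠ 0 →
    (∀ x y, |gr V (box s L) E x y| ≤ T) →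
    (∀ x ∈ box s (L + 1), ∀ y ∈ box s (L + 1), |gr V Λ E x y| ≤ T) →
    ((∀ u, sd s u = L → |gr V (box s L) E s u| ≤ a) → ∀ u, (sd s u = L ∨ sd s u = L + 1) →
      |gr V Λ E s u| ≤ (1 + 2 * d * (2 * L + 1) ^ d * T) * a) ∧
    ((∀ u, (sd s u = L ∨ sd s u = L + 1) → |gr V Λ E s u| ≤ a) → ∀ u, sd s u = L →
      |gr V (box s L) E s u| ≤ (1 + 2 * d * (2 * L + 1) ^ d * T) * a)

/-- The good event at the scale `ℓ`, `L = Qℓ`, about the base point `a`, in the cube `box 0 N`. -/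
def GoodEv {d : ℕ} (V : Site d → ℝ) (N Q ℓ : ℕ) (a : Site d) (E κ₃ : ℝ) : Prop :=
  (RM V (box 0 N) E).det ≠ 0 ∧
  (∀ x ∈ box a (12 * (Q * ℓ)), ∀ y ∈ box a (12 * (Q * ℓ)), gr V (box 0 N) E x y ≠ 0 ∧
    |gr V (box 0 N) E x y| ≤ Real.exp (κ₃ * (Q * ℓ))) ∧
  (∀ x ∈ box a (12 * (Q * ℓ)), ∀ u ∈ box a (12 * (Q * ℓ)), ∀ y ∈ box a (12 * (Q * ℓ)),
    DL (box 0 N) E V x y ≤ DL (box 0 N) E V x u + DL (box 0 N) E V u y + κ₃ * (Q * ℓ)) ∧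
  (∀ k ∈ box (0 : Site d) (10 * Q), ∀ y ∈ box (a + sm ℓ k) (3 * ℓ),
    DL (box 0 N) E V (a + sm ℓ k) y ≤ κ₃ * (Q * ℓ)) ∧
  (∀ k ∈ box (0 : Site d) (8 * Q), ∀ y ∈ box (0 : Site d) Q,
    |DL (box 0 N) E V a (a + sm ℓ y) -
      DL (box 0 N) E V (a + sm ℓ k) (a + sm ℓ k + sm ℓ y)| ≤ κ₃ * (Q * ℓ)) ∧
  (∀ s ∈ box a (8 * (Q * ℓ)), (RM V (box s (Q * ℓ)) E).det ≠ 0 ∧
    ∀ x y, |gr V (box s (Q * ℓ)) E x y| ≤ Real.exp (κ₃ * (Q * ℓ)))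

/-- GEV: the good event has probability near one, at one of finitely many scales and at one base
point. -/
def GevStmt : Prop :=
  ∀ (d : ℕ) (σ E κ₃ p : ℝ), 1 ≤ d → σ ≠ 0 → 0 < κ₃ → 0 < p → ∃ Q : ℕ, 1 ≤ Q ∧ ∀ l : ℕ,
    ∃ (ℓ N : ℕ) (a : Site d), l ≤ ℓ ∧ 1 ≤ ℓ ∧ box a (12 * (Q * ℓ)) ⊆ box 0 N ∧
      PP d (gl σ) {V | ¬ GoodEv V N Q ℓ a E κ₃} ≤ ENNReal.ofReal p

/-- DET: on the good event the decay about `a` implies the decay about all sites near `a`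
(deterministic). -/
def DetStmt : Prop :=
  ∀ (d : ℕ) (κ κ₃ : ℝ), 1 ≤ d → 0 < κ → 0 < κ₃ → 20 * κ₃ ≤ κ → ∃ L₀ : ℕ,
    ∀ (V : Site d → ℝ) (N Q ℓ : ℕ) (a : Site d) (E : ℝ), 1 ≤ Q → 1 ≤ ℓ → L₀ ≤ Q * ℓ →
      box a (12 * (Q * ℓ)) ⊆ box 0 N → GoodEv V N Q ℓ a E κ₃ → SG V (Q * ℓ) κ E a →
        ∀ s ∈ box a (7 * (Q * ℓ)), SG V (Q * ℓ) (κ / 2) E s

/-- CON: if there is decay with some fixed positive probability at all large scales, there is decay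
with probability near one, simultaneously about all sites of a cube, at arbitrarily large
scales. -/
def ConStmt : Prop :=
  ∀ (d : ℕ) (σ E κ δ p : ℝ), 1 ≤ d → σ ≠ 0 → 0 < κ → 0 < δ → 0 < p →
    (∃ L₁ : ℕ, ∀ L : ℕ, L₁ ≤ L → ENNReal.ofReal δ ≤ PP d (gl σ) {V | SG V L κ E 0}) →
    ∀ L₂ : ℕ, ∃ L : ℕ, L₂ ≤ L ∧
      PL (gl σ) (box (0 : Site d) (2 * L)) {V | ¬ AllGoodC V 0 L (κ / 2) E} ≤
        ENNReal.ofReal p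

/-! ### the zero-one law -/

/-- ZER: outside `LocSet` there is no decay with a fixed positive probability at all large
scales. -/
def ZerStmt : Prop :=
  ∀ (d : ℕ) (C₀ σ E κ δ : ℝ), 1 ≤ d → 0 < C₀ → σ ≠ 0 → E ∉ LocSet d C₀ σ → 0 < κ → 0 < δ →
    ∀ L₁ : ℕ, ∃ L : ℕ, L₁ ≤ L ∧ PP d (gl σ) {V | SG V L κ E 0} < ENNReal.ofReal δ

/-- CNV: in `LocSet` there is decay with probability near one. -/
def CnvStmt : Prop :=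
  ∀ (d : ℕ) (C₀ σ E : ℝ), 1 ≤ d → 0 < C₀ → σ ≠ 0 → BlkAt d C₀ σ → E ∈ LocSet d C₀ σ →
    ∃ (κ c : ℝ) (L₀ : ℕ), 0 < κ ∧ 0 < c ∧ ∀ L : ℕ, L₀ ≤ L →
      PP d (gl σ) {V | ¬ SG V L κ E 0} ≤ ENNReal.ofReal (Real.exp (-c * L))

end Pool.Agent.LE
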