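import Pool.Agent.LE.StmtsA
import Pool.Agent.Helper54_QE.Rank

/-!
# Theorem B: the Lyapunov exponent, for almost every energy: statements

The proofs are in `/team-store/PAPER_LYAP.md` and in the table `leb`.
-/

set_option autoImplicit false

open MeasureTheory ProbabilityTheory Function

open scoped ENNReal BigOperators

noncomputable section

namespace Pool.Agent.LE

open Pool.Agent.Anderson Pool.Agent.Loc Pool.Agent.Mob Pool.Agent.Helper54.Bal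

/-- `|G(x, y; E + iη)|` -/
def gn {d : ℕ} (V : Site d → ℝ) (η E : ℝ) (x y : Site d) : ℝ := ‖G V (zz η E) (del x) y‖

/-- A priori properties of (the modulus of) a Green function. -/
structure ApG (d : ℕ) (P : Measure (Cfg d)) (C : ℝ) (h : Cfg d → Site d → Site d → ℝ) :
    Prop where
  meas : ∀ x y, Measurable fun V => h V x y
  nonneg : ∀ V x y, 0 ≤ h V x y
  pos : ∀ᵐ V ∂P, ∀ x y, 0 < h V x y
  symm : ∀ᵐ V ∂P, ∀ x y, h V x y = h V y x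
  stat : ∀ a, ∀ᵐ V ∂P, ∀ x y, h (tau a V) x y = h V (x + a) (y + a)
  up : ∀ x y, ∀ t : ℝ, 0 < t → P {V | t < h V x y} ≤ ENNReal.ofReal (C / √t)
  one : ∀ x u y, ∀ t : ℝ, 0 < t → P {V | t * h V x y < h V x u * h V u y} ≤ ENNReal.ofReal (C / t)
  sq : ∀ x y, Integrable (fun V => Real.log (h V x y) ^ 2) P ∧
    ∫ V, Real.log (h V x y) ^ 2 ∂P ≤ C * ((sd x y : ℝ) + 1) ^ 2
  neg : ∀ x y, ∫ V, (max 0 (Real.log (h V x y))) ^ 2 ∂P ≤ C
  tri : ∀ x u y,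
    ∫ V, (max 0 (Real.log (h V x u) + Real.log (h V u y) - Real.log (h V x y))) ^ 2 ∂P ≤ C
  chn : ∀ (x : Site d) (r : ℕ) (t : ℝ), 1 ≤ r → 0 < t →
    P {V | ∃ y ∈ box x r, h V x y < Real.exp (-t)} ≤ ENNReal.ofReal (C * (r / t) ^ (4 * d))

/-- APG: the a priori properties at the height `η`, uniformly in `η`. -/
def ApgStmt : Prop :=
  ∀ (d : ℕ) (σ E : ℝ), 1 ≤ d → σ ≠ 0 → ∃ C : ℝ, 0 < C ∧ ∀ η : ℝ, 0 < η → η ≤ 1 →
    ApG d (PP d (gl σ)) C fun V x y => gn V η E x y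

/-- BVE: boundary values of the Green functions, for almost all energies. -/
def BveStmt : Prop :=
  ∀ (d : ℕ) (σ : ℝ), σ ≠ 0 → ∃ e : ℕ → ℝ, (∀ k, 0 < e k) ∧
    Filter.Tendsto e Filter.atTop (nhds 0) ∧ ∀ᵐ E : ℝ,
      ∃ g : Cfg d → Site d → Site d → ℂ, (∀ x y, Measurable fun V => g V x y) ∧
        ∀ᵐ V ∂(PP d (gl σ)), ∀ x y, Filter.Tendsto (fun k => G V (zz (e k) E) (del x) y)
          Filter.atTop (nhds (g V x y))

/-- LIM: the a priori properties pass to the limit. -/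
def LimStmt : Prop :=
  ∀ (d : ℕ) (P : Measure (Cfg d)) [IsProbabilityMeasure P] (C : ℝ)
    (h : ℕ → Cfg d → Site d → Site d → ℝ) (h₀ : Cfg d → Site d → Site d → ℝ), ShiftInv P →
    0 < C → (∀ k, ApG d P C (h k)) → (∀ x y, Measurable fun V => h₀ V x y) →
    (∀ V x y, 0 ≤ h₀ V x y) →
    (∀ᵐ V ∂P, ∀ x y, Filter.Tendsto (fun k => h k V x y) Filter.atTop (nhds (h₀ V x y))) →
      ApG d P C h₀

/-- The comparison of a cube with the infinite volume, at the real energy `E`. -/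
structure CmpG (d : ℕ) (P : Measure (Cfg d)) (E : ℝ) (h : Cfg d → Site d → Site d → ℝ) :
    Prop where
  cmp1 : ∀ᵐ V ∂P, ∀ (s : Site d) (L : ℕ), (RM V (box s L) E).det ≠ 0 → ∀ u : Site d,
    h V s u ≤ |gr V (box s L) E s u| + ∑ b ∈ box s L, ∑ b' ∈ box s (L + 1) \ box s L,
      |gr V (box s L) E s b| * hop b b' * h V b' u
  cmp2 : ∀ᵐ V ∂P, ∀ (s : Site d) (L : ℕ), (RM V (box s L) E).det ≠ 0 → ∀ u ∈ box s L,
    |gr V (box s L) E s u| ≤ h V s u + ∑ b ∈ box s L, ∑ b' ∈ box s (L + 1) \ box s L,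
      h V s b' * hop b b' * |gr V (box s L) E b u|

/-- CMG: the limits satisfy the comparison inequalities. -/
def CmgStmt : Prop :=
  ∀ (d : ℕ) (σ E : ℝ) (e : ℕ → ℝ) (g : Cfg d → Site d → Site d → ℂ), σ ≠ 0 → (∀ k, 0 < e k) →
    Filter.Tendsto e Filter.atTop (nhds 0) →
    (∀ᵐ V ∂(PP d (gl σ)), ∀ x y, Filter.Tendsto (fun k => G V (zz (e k) E) (del x) y)
      Filter.atTop (nhds (g V x y))) →
    CmpG d (PP d (gl σ)) E fun V x y => ‖g V x y‖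

/-- ERM: mean ergodic theorem for the shifts by the multiples of a vector. -/
def ErmStmt : Prop :=
  ∀ (d : ℕ) (ν : Measure ℝ) [IsProbabilityMeasure ν] (f : Cfg d → ℝ), Measurable f →
    Integrable f (PP d ν) → ∀ a : Site d, a ≠ 0 →
      Filter.Tendsto (fun k : ℕ => ∫ V, |(∑ i ∈ Finset.range k, f (tau (i • a) V)) / k -
        ∫ W, f W ∂(PP d ν)| ∂(PP d ν)) Filter.atTop (nhds 0)

/-- LLN: the law of large numbers for `-log |G(0, n x)|`. -/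
def LlnStmt : Prop :=
  ∀ (d : ℕ) (ν : Measure ℝ) [IsProbabilityMeasure ν] (C : ℝ)
    (h : Cfg d → Site d → Site d → ℝ), 0 < C → ApG d (PP d ν) C h → ∃ μ : Site d → ℝ, ∀ x,
      Filter.Tendsto (fun n : ℕ => ∫ V, |-Real.log (h V 0 (sm n x)) / n - μ x| ∂(PP d ν))
        Filter.atTop (nhds 0)

/-- MUP: elementary properties of the limit. -/
def MupStmt : Prop :=
  ∀ (d : ℕ) (P : Measure (Cfg d)) [IsProbabilityMeasure P] (C : ℝ)
    (h : Cfg d → Site d → Site d → ℝ) (μ : Site d → ℝ), 0 < C → ShiftInv P → ApG d P C h →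
    (∀ x, Filter.Tendsto (fun n : ℕ => ∫ V, |-Real.log (h V 0 (sm n x)) / n - μ x| ∂P)
      Filter.atTop (nhds 0)) →
    (∀ x, 0 ≤ μ x) ∧ (∀ x y, μ (x + y) ≤ μ x + μ y) ∧ (∀ x, μ (-x) = μ x) ∧
    (∀ (k : ℕ) (x : Site d), μ (sm k x) = k * μ x) ∧
    (∀ x y, |μ x - μ y| ≤ √C * 2 * sd x y)

/-- the reflection of the coordinate `i` -/
def refl {d : ℕ} (i : Fin d) (x : Site d) : Site d := Function.update x i (-x i)

/-- the transposition of the coordinates `i`, `j` -/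
def swp {d : ℕ} (i j : Fin d) (x : Site d) : Site d := fun k => x (Equiv.swap i j k)

/-- SYM: reflections and transpositions of the coordinates. -/
def SymStmt : Prop :=
  ∀ (d : ℕ) (σ E : ℝ) (e : ℕ → ℝ) (g : Cfg d → Site d → Site d → ℂ) (C : ℝ) (μ : Site d → ℝ),
    σ ≠ 0 → (∀ k, 0 < e k) → (∀ x y, Measurable fun V => g V x y) →
    (∀ᵐ V ∂(PP d (gl σ)), ∀ x y, Filter.Tendsto (fun k => G V (zz (e k) E) (del x) y)
      Filter.atTop (nhds (g V x y))) → ApG d (PP d (gl σ)) C (fun V x y => ‖g V x y‖) →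
    (∀ x, Filter.Tendsto (fun n : ℕ => ∫ V, |-Real.log ‖g V 0 (sm n x)‖ / n - μ x| ∂(PP d (gl σ)))
      Filter.atTop (nhds 0)) →
    (∀ i x, μ (refl i x) = μ x) ∧ ∀ i j x, μ (swp i j x) = μ x

/-- GAM: the typical exponential decay in cubes. -/
def GamStmt : Prop :=
  ∀ (d : ℕ) (σ E C : ℝ) (h : Cfg d → Site d → Site d → ℝ) (μ : Site d → ℝ), 1 ≤ d → σ ≠ 0 →
    0 < C → ApG d (PP d (gl σ)) C h → CmpG d (PP d (gl σ)) E h →
    (∀ x, Filter.Tendsto (fun n : ℕ => ∫ V, |-Real.log (h V 0 (sm n x)) / n - μ x| ∂(PP d (gl σ)))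
      Filter.atTop (nhds 0)) →
    ∃ γ : ℝ, 0 ≤ γ ∧ (∀ x, γ * sd 0 x ≤ μ x) ∧
      (∀ ε : ℝ, 0 < ε → ∃ x : Site d, x ≠ 0 ∧ μ x ≤ (γ + ε) * sd 0 x) ∧
      ∀ ε : ℝ, 0 < ε → Filter.Tendsto (fun L : ℕ => PP d (gl σ) {V |
        (RM V (box 0 L) E).det ≠ 0 ∧
        (∀ u, sd 0 u = L → |gr V (box 0 L) E 0 u| ≤ Real.exp (-(γ - ε) * L)) ∧
        ∃ u, sd 0 u = L ∧ Real.exp (-(γ + ε) * L) ≤ |gr V (box 0 L) E 0 u|})
        Filter.atTop (nhds 1)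

/-- LYA: the Lyapunov exponent. -/
def LyaStmt : Prop :=
  ∀ (d : ℕ) (σ : ℝ), 1 ≤ d → σ ≠ 0 → ∀ᵐ E : ℝ, ∃ (γ : ℝ) (μ : Site d → ℝ)
    (g : Cfg d → Site d → Site d → ℂ) (e : ℕ → ℝ), 0 ≤ γ ∧ (∀ k, 0 < e k) ∧
    Filter.Tendsto e Filter.atTop (nhds 0) ∧
    (∀ᵐ V ∂(PP d (gl σ)), ∀ x y, Filter.Tendsto (fun k => G V (zz (e k) E) (del x) y)
      Filter.atTop (nhds (g V x y))) ∧
    (∀ x, Filter.Tendsto (fun n : ℕ => ∫ V, |-Real.log ‖g V 0 (sm n x)‖ / n - μ x| ∂(PP d (gl σ)))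
      Filter.atTop (nhds 0)) ∧
    (∀ x, γ * sd 0 x ≤ μ x ∧ μ x ≤ d * γ * sd 0 x) ∧
    ∀ ε : ℝ, 0 < ε → Filter.Tendsto (fun L : ℕ => PP d (gl σ) {V |
        (RM V (box 0 L) E).det ≠ 0 ∧
        (∀ u, sd 0 u = L → |gr V (box 0 L) E 0 u| ≤ Real.exp (-(γ - ε) * L)) ∧
        ∃ u, sd 0 u = L ∧ Real.exp (-(γ + ε) * L) ≤ |gr V (box 0 L) E 0 u|})
        Filter.atTop (nhds 1)

end Pool.Agent.LE
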