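import Pool.Agent.LE.StmtsG
import Pool.Agent.LE.Stmts3

/-!
# The exact rate of decay of the eigenfunctions is the Lyapunov exponent

Statements of the modules; the proofs are in `/team-store/PAPER_EDR.md`.
-/

set_option autoImplicit false

open MeasureTheory ProbabilityTheory Function Filter

open scoped ENNReal BigOperators Topology

noncomputable section

namespace Pool.Agent.LE

open Pool.Agent.Anderson Pool.Agent.Loc Pool.Agent.Mob Pool.Agent.Helper54.Bal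
  Pool.Agent.Helper96.EXP

/-! ### A. multiscale induction without loss of rate -/

/-- the factor of one step through a good cube -/
def eta (d : ℕ) (m : ℝ) (L : ℕ) : ℝ := 2 * d * (3 * L) ^ d * Real.exp (-m * L)

/-- MSDY: the deterministic step with the factor `Y`; one bad cluster costs `20` steps. -/
def MsdYStmt : Prop :=
  ∀ (d : ℕ) (V : Site d → ℝ) (E m T : ℝ) (L Y : ℕ) (s u : Site d), 1 ≤ L → 40 ≤ Y → Y ≤ L →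
    0 ≤ T → eta d m L ≤ 1 → 2 * (T * (2 * d * (15 * L) ^ d) * eta d m L) ≤ 1 →
    ((RM V (box s (Y * L)) E).det ≠ 0 ∧ ∀ x y, |gr V (box s (Y * L)) E x y| ≤ T) →
    (∀ b ∈ box s (Y * L), (RM V (box b (7 * L)) E).det ≠ 0 ∧
      ∀ x y, |gr V (box b (7 * L)) E x y| ≤ T) →
    (∀ v ∈ box s (Y * L), ∀ v' ∈ box s (Y * L), ¬ SG V L m E v → ¬ SG V L m E v' →
      sd v v' ≤ 6 * L) →
    sd s u = Y * L → |gr V (box s (Y * L)) E s u| ≤ eta d m L ^ (Y - 20) * T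

/-- MSPY: the probability step with the factor `Y`. -/
def MspYStmt : Prop :=
  ∀ (d : ℕ) (ν : Measure ℝ) [IsProbabilityMeasure ν] (ρ : ℝ), BddDens ν ρ →
    ∀ (E m m' p : ℝ) (L Y : ℕ), 1 ≤ L → 40 ≤ Y → Y ≤ L → 0 ≤ p → eta d m L ≤ 1 →
      2 * (Real.exp (m * L / 4) * (2 * d * (15 * L) ^ d) * eta d m L) ≤ 1 →
      eta d m L ^ (Y - 20) * Real.exp (m * L / 4) ≤ Real.exp (-m' * (Y * L)) →
      PP d ν {V | ¬ AllGoodC V 0 L m E} ≤ ENNReal.ofReal p →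
      PP d ν {V | ¬ AllGoodC V 0 (Y * L) m' E} ≤
        ENNReal.ofReal ((5 * Y) ^ (2 * d) * p ^ 2 +
          12 * ρ * (5 * (Y * L)) ^ (3 * d) * Real.exp (-(m * L / 4)))

/-- the factors -/
def YK (Y₀ k : ℕ) : ℕ := 2 ^ k * Y₀

/-- the scales -/
def LK (Y₀ L : ℕ) : ℕ → ℕ
  | 0 => L
  | k + 1 => YK Y₀ k * LK Y₀ L k

/-- the rates -/
def mK (m m' : ℝ) (k : ℕ) : ℝ := m' + (m - m') / 2 ^ k

/-- the probabilities -/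
def aK (d Y₀ k : ℕ) : ℝ := 1 / (2 * (5 * Y₀) ^ (2 * d) * 4 ^ (d * (k + 1)) * 2 ^ (2 ^ k))

/-- MSNY: the numbers. -/
def MsnYStmt : Prop :=
  ∀ (d : ℕ) (ρ m m' : ℝ), 0 < ρ → 0 < m' → m' < m → ∃ Y₀ L₀ : ℕ, 40 ≤ Y₀ ∧ 1 ≤ L₀ ∧
    ∀ L : ℕ, L₀ ≤ L → ∀ k : ℕ, 1 ≤ LK Y₀ L k ∧ YK Y₀ k ≤ LK Y₀ L k ∧
      eta d (mK m m' k) (LK Y₀ L k) ≤ 1 ∧
      2 * (Real.exp (mK m m' k * LK Y₀ L k / 4) * (2 * d * (15 * LK Y₀ L k) ^ d) *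
        eta d (mK m m' k) (LK Y₀ L k)) ≤ 1 ∧
      eta d (mK m m' k) (LK Y₀ L k) ^ (YK Y₀ k - 20) *
        Real.exp (mK m m' k * LK Y₀ L k / 4) ≤
          Real.exp (-mK m m' (k + 1) * (YK Y₀ k * LK Y₀ L k)) ∧
      (5 * YK Y₀ k : ℝ) ^ (2 * d) * aK d Y₀ k ^ 2 +
        12 * ρ * (5 * (YK Y₀ k * LK Y₀ L k)) ^ (3 * d) *
          Real.exp (-(mK m m' k * LK Y₀ L k / 4)) ≤ aK d Y₀ (k + 1)

/-- MSAY: a small probability of failure at one large scale implies superexponentially small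
probabilities at the scales `LK`, at almost the same rate, uniformly in the energy. -/
def MsaYStmt : Prop :=
  ∀ (d : ℕ) (σ m m' : ℝ), σ ≠ 0 → 0 < m' → m' < m → ∃ p : ℝ, 0 < p ∧ ∃ Y₀ L₀ : ℕ, 40 ≤ Y₀ ∧
    1 ≤ L₀ ∧ ∀ (E : ℝ) (L : ℕ), L₀ ≤ L →
      PP d (gl σ) {V | ¬ AllGoodC V 0 L m E} ≤ ENNReal.ofReal p →
      ∀ k : ℕ, PP d (gl σ) {V | ¬ AllGoodC V 0 (LK Y₀ L k) m' E} ≤
        ENNReal.ofReal ((1 / 2) ^ (2 ^ k))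

/-! ### B. the set of the rates -/

/-- decay at the rate `κ` with a fixed positive probability at arbitrarily large scales -/
def Pos (d : ℕ) (σ E κ : ℝ) : Prop :=
  ∃ δ : ℝ, 0 < δ ∧ ∀ L₁ : ℕ, ∃ L : ℕ, L₁ ≤ L ∧
    ENNReal.ofReal δ ≤ PP d (gl σ) {V | SG V L κ E 0}

/-- AGC: then all the cubes are good at each smaller rate with probability near one at all large
scales. -/
def AgcStmt : Prop :=
  ∀ (d : ℕ) (σ E κ κ' p : ℝ), 1 ≤ d → σ ≠ 0 → κ' < κ → 0 < p → Pos d σ E κ →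
    ∃ L₁ : ℕ, ∀ L : ℕ, L₁ ≤ L → PP d (gl σ) {V | ¬ AllGoodC V 0 L κ' E} ≤ ENNReal.ofReal p

/-- LSC: lower semicontinuity. -/
def LscStmt : Prop :=
  ∀ (d : ℕ) (σ E₀ κ κ' : ℝ), 1 ≤ d → σ ≠ 0 → 0 < κ' → κ' < κ → Pos d σ E₀ κ →
    ∃ ε : ℝ, 0 < ε ∧ ∀ E : ℝ, |E - E₀| < ε → Pos d σ E κ'

/-! ### C. slow solutions -/

/-- there is an exponentially decaying solution off `0` with value `1` at `0` which is not bounded
by `C' e^{-q|x|}` -/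
def Slow {d : ℕ} (C m q C' : ℝ) (V : Site d → ℝ) (E : ℝ) : Prop :=
  ∃ n, Sol C m V E n ∧ ∃ x : Site d, C' * Real.exp (-q * sd 0 x) ≤ |n x|

/-- there is an eigenfunction of this kind with energy in `K` -/
def SlowE {d : ℕ} (C m q C' : ℝ) (K : Set ℝ) (V : Site d → ℝ) : Prop :=
  ∃ E ∈ K, ∃ n, Sol C m V E n ∧ lapR n 0 + V 0 = E ∧
    ∃ x : Site d, C' * Real.exp (-q * sd 0 x) ≤ |n x|

/-- CLOS: measurability. -/
def ClosStmt : Prop :=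
  ∀ (d : ℕ) (C m q C' : ℝ), MeasurableSet {p : (Site d → ℝ) × ℝ | Slow C m q C' p.1 p.2} ∧
    ∀ K : Set ℝ, IsCompact K → MeasurableSet {V : Site d → ℝ | SlowE C m q C' K V}

/-- UPP: at a fixed energy a decaying solution has the rate of the good cubes. -/
def UppStmt : Prop :=
  ∀ (d : ℕ) (σ E κ q C m : ℝ), 1 ≤ d → σ ≠ 0 → 0 < q → q < κ → 0 < m → Pos d σ E κ →
    Tendsto (fun N : ℕ => PP d (gl σ) {V | Slow C m q N V E}) atTop (𝓝 0)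

/-- NULQ: the eigenfunctions with a bad energy. -/
def NulQStmt : Prop :=
  ∀ (d : ℕ) (ν : Measure ℝ) [IsProbabilityMeasure ν] (ρ : ℝ), BddDens ν ρ →
    ∀ (C m q C' : ℝ) (K : Set ℝ), 0 < m → IsCompact K →
      PP d ν {V | SlowE C m q C' K V} ≤
        ENNReal.ofReal (ρ * (C * (C * ∑' x : Site d, Real.exp (-m * sd 0 x)))) *
          ∫⁻ E in K, PP d ν {V | Slow C m q C' V E}

/-- SLO: no slow eigenfunctions. -/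
def SloStmt : Prop :=
  ∀ (d : ℕ) (σ q C m : ℝ) (K : Set ℝ), 1 ≤ d → σ ≠ 0 → 0 < q → 0 < m → IsCompact K →
    (∀ E ∈ K, ∃ κ : ℝ, q < κ ∧ Pos d σ E κ) →
    ∀ᵐ V ∂(PP d (gl σ)), ∀ E ∈ K, ∀ n, Sol C m V E n → lapR n 0 + V 0 = E →
      ∃ C' : ℝ, ∀ x, |n x| ≤ C' * Real.exp (-q * sd 0 x)

/-! ### D. fast solutions -/

/-- GSG: a decaying solution makes the cubes about `0` good. -/
def GsgStmt : Prop :=
  ∀ (d : ℕ) (σ E C m κ : ℝ), 1 ≤ d → σ ≠ 0 → 0 < m → κ < m →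
    PP d (gl σ) {V | GoodE C m V E} ≠ 0 → Pos d σ E κ

/-! ### E. all the eigenfunctions -/

/-- NOES: from the site `0` and fixed constants to all the exponentially decaying solutions. -/
def NoeSStmt : Prop :=
  ∀ (d : ℕ) (ν : Measure ℝ) [IsProbabilityMeasure ν] (q : ℝ) (D : Set ℝ), IsOpen D → 0 < q →
    (∀ (C m : ℝ) (K : Set ℝ), 0 < m → IsCompact K → K ⊆ D →
      ∀ᵐ V ∂(PP d ν), ∀ E ∈ K, ∀ n, Sol C m V E n → lapR n 0 + V 0 = E →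
        ∃ C' : ℝ, ∀ x, |n x| ≤ C' * Real.exp (-q * sd 0 x)) →
    ∀ᵐ V ∂(PP d ν), ∀ E ∈ D, ∀ ψ : Site d → ℂ,
      (∀ x, lap ψ x + (V x : ℂ) * ψ x = (E : ℂ) * ψ x) →
      (∃ B m : ℝ, 0 < m ∧ ∀ x, ‖ψ x‖ ≤ B * Real.exp (-m * sd 0 x)) →
      ∃ B : ℝ, ∀ x, ‖ψ x‖ ≤ B * Real.exp (-q * sd 0 x)

/-- NOEF: the same for the fast solutions. -/
def NoeFStmt : Prop :=
  ∀ (d : ℕ) (ν : Measure ℝ) [IsProbabilityMeasure ν] (m : ℝ) (D : Set ℝ), IsClosed D → 0 < m →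
    (∀ (C : ℝ) (K : Set ℝ), IsCompact K → K ⊆ D →
      PP d ν {V | ∃ E ∈ K, ∃ n, Sol C m V E n ∧ lapR n 0 + V 0 = E} = 0) →
    ∀ᵐ V ∂(PP d ν), ∀ E ∈ D, ∀ ψ : Site d → ℂ,
      (∀ x, lap ψ x + (V x : ℂ) * ψ x = (E : ℂ) * ψ x) →
      (∃ B : ℝ, ∀ x, ‖ψ x‖ ≤ B * Real.exp (-m * sd 0 x)) → ∀ x, ψ x = 0

/-- EDR: the exact rate. `γ` is any function with the property of `LyaStmt`. -/
def EdrStmt : Prop :=
  ∀ (d : ℕ) (σ : ℝ) (γ : ℝ → ℝ), 1 ≤ d → σ ≠ 0 → (∀ E, 0 ≤ γ E ∧ ∀ ε : ℝ, 0 < ε →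
    Tendsto (fun L : ℕ => PP d (gl σ) {V | SG V L (γ E + ε) E 0}) atTop (𝓝 0) ∧
    Tendsto (fun L : ℕ => PP d (gl σ) {V | ¬ SG V L (γ E - ε) E 0}) atTop (𝓝 0)) →
    LowerSemicontinuous γ ∧
    ∀ᵐ V ∂(PP d (gl σ)), ∀ (E : ℝ) (ψ : Site d → ℂ),
      (∀ x, lap ψ x + (V x : ℂ) * ψ x = (E : ℂ) * ψ x) → (∃ x, ψ x ≠ 0) →
      (∃ (B : ℝ) (k : ℕ), ∀ x, ‖ψ x‖ ≤ B * (1 + (sd 0 x : ℝ)) ^ k) →
      (0 < γ E → ∃ B m : ℝ, 0 < m ∧ ∀ x, ‖ψ x‖ ≤ B * Real.exp (-m * sd 0 x)) →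
      ∀ ε : ℝ, 0 < ε → (∃ B : ℝ, ∀ x, ‖ψ x‖ ≤ B * Real.exp (-(γ E - ε) * sd 0 x)) ∧
        ¬ ∃ B : ℝ, ∀ x, ‖ψ x‖ ≤ B * Real.exp (-(γ E + ε) * sd 0 x)

end Pool.Agent.LE
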