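import Pool.Agent.LE.StmtsC

/-!
# The Lyapunov exponent is at most a power of the disorder (theorem F)

`0 < |σ| ≤ 1`, `|E| ≤ 2d + |σ|`: `γ(σ, E) ≤ C |σ|^c`, in every dimension. So the localization length
is at least `|σ|^(-c) / C` in the whole spectrum, and the Lyapunov exponent is continuous up to
`σ = 0`.

Scheme. All losses in the theorem of `StmtsC` (continuity) are polynomial in the logarithmic size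
`X ≥ log (1 / |σ|)` of the parameters; we take `X = |σ|^(-c₁)`, and all scales are at least a
large power of `X`. Statements are of the form: there is `a = a(d)` such that for all `X ≥ 2`, all
parameters between `1 / X` and `X` and all scales `L ≥ X ^ a`. The loss `log (1 / |σ|)` in every
step is harmless. At the scale `R₀ = X ^ (a')`, which is at most `|σ|^(-c₀)`, the cubes conduct, by a
deterministic argument (CO0): a Green function which is exponentially small on the boundary would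
be an approximate solution of `(H₀ - E) φ = - δ₀`, and the plane wave `ψ` with `(H₀ - E) ψ = 0`,
`ψ 0 = 1` gives a contradiction; `‖φ‖` is at most a power of `R₀` by UNC. Then the argument of USO:
the last conducting scale `L'` (which need not be a good scale, so that `L' = R₀` is allowed) and
the first good scale `L` which does not conduct, `L ≤ exp (poly X) L'`, contradict BSX if
`γ > 1 / X`.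
-/

set_option autoImplicit false

open MeasureTheory ProbabilityTheory Function Filter

open scoped ENNReal BigOperators Topology

noncomputable section

namespace Pool.Agent.LE

open Pool.Agent.Anderson Pool.Agent.Loc Pool.Agent.Mob Pool.Agent.Helper54.Bal
  Pool.Agent.Helper96.EXP

/-- the parameters have logarithmic size at most `X` -/
def ParX (X : ℕ) (σ E : ℝ) : Prop := |E| ≤ X ∧ |σ| ≤ X ∧ Real.exp (-(X : ℝ)) ≤ |σ|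

/-! ### U. uniform constants -/

/-- LWX: the negative moment of an entry, diagonal or at distance one.
Proof: `Pool.Agent.LY.low` with `M = 32 d² + 4 + X`, `ρ = 1/|σ| ≤ exp X`; `Clow` is a polynomial in
`ρ`, `M` and the first moment of `gl σ`. -/
def LwxStmt : Prop :=
  ∀ d : ℕ, 1 ≤ d → ∃ a : ℕ, ∀ (X : ℕ) (σ E : ℝ), 2 ≤ X → ParX X σ E →
    ∀ (Λ : Finset (Site d)) (x y : Site d), x ∈ Λ → y ∈ Λ → (x = y ∨ hop x y ≠ 0) →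
      ∫⁻ V, (ENNReal.ofReal |gr V Λ E x y|) ^ (-(1 / 4) : ℝ) ∂(PP d (gl σ)) ≤
        ENNReal.ofReal (Real.exp (a * X))

/-- UFX: UFM with the constant `X ^ a`.
Proof: as UFM; the `L²` norm is at most the `L^X` norm, and `‖Dp‖_p ≤ 4 p (exp (a X)) ^ (1/p)`. -/
def UfxStmt : Prop :=
  ∀ d : ℕ, 1 ≤ d → ∃ a : ℕ, ∀ (X : ℕ) (σ E : ℝ), 2 ≤ X → ParX X σ E → ∀ N : ℕ,
    FamN d N (PP d (gl σ)) ((X : ℝ) ^ a) (DL (box 0 N) E) ∧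
    (∀ x ∈ box (0 : Site d) N, ∀ y ∈ box (0 : Site d) N,
      PP d (gl σ) {V | gr V (box 0 N) E x y = 0} = 0)

/-- UCX: UCH with the constant `X ^ a`. -/
def UcxStmt : Prop :=
  ∀ d q : ℕ, 1 ≤ d → 4 * d ≤ q → ∃ a : ℕ, ∀ (X : ℕ) (σ E : ℝ), 2 ≤ X → ParX X σ E →
    ∀ (N n : ℕ) (c : Site d), 1 ≤ n → box c n ⊆ box 0 N →
      ∫⁻ V, (mx V N E c n) ^ q ∂(PP d (gl σ)) ≤ ENNReal.ofReal (((X : ℝ) ^ a * n) ^ q)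

/-! ### P. the pigeonhole of scales with explicit constants -/

/-- PHX: PHO, with the explicit number of scales (see `Helper28_LE/Pho.lean`). -/
def PhxStmt : Prop :=
  ∀ (B ε : ℝ) (N q J : ℕ), 0 < B → 0 < ε → N * (4 * B * q + 16 * B) < ε * J →
    ∀ (ι : Type) (F : Finset ι), F.card ≤ N → ∀ (h s v : ι → ℕ → ℝ) (e : ℕ → ℝ),
    (∀ i ∈ F, ∀ j, h i (j + 1) ≤ h i j + e j) → (∀ i ∈ F, ∀ j, |h i j| ≤ B) →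
    (∀ i ∈ F, ∀ j, s i (j + 1) ≤ s i j - v i j / 4 + e j) → (∀ i ∈ F, ∀ j, |s i j| ≤ B) →
    (∀ i ∈ F, ∀ j, 0 ≤ v i j) → (∀ j, 0 ≤ e j) → (∀ n, ∑ j ∈ Finset.range n, e j ≤ B) →
      ∃ j ≤ J, ∀ i ∈ F, h i j - h i (j + q) ≤ ε ∧ v i j ≤ ε

/-- DBX: DBL with the explicit constant (see `Helper39_LE/Dbl.lean`). -/
def DbxStmt : Prop :=
  ∀ (d K : ℕ) (C M : ℝ), 0 < C → 1 ≤ K → M = 2 + √C * (K + 1) + 2 * (C * ((K : ℝ) + 1) ^ 2) →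
    ∀ ℓ : ℕ, 1 ≤ ℓ → ∃ R₀ : ℕ, ∀ R N : ℕ,
    R₀ ≤ R → R + 4 * K * ℓ ≤ N → ∀ (Ω : Type) [MeasurableSpace Ω] (P : Measure Ω)
    [IsProbabilityMeasure P] (D : Ω → Site d → Site d → ℝ), FamN d N P C D →
    ∀ y : Site d, sd 0 y ≤ K →
      |hA P D R y ℓ| ≤ M ∧ |sA P D R y ℓ| ≤ M ∧ 0 ≤ vA P D R y ℓ ∧
      hA P D R y (2 * ℓ) ≤ hA P D R y ℓ + M / ℓ ∧
      sA P D R y (2 * ℓ) ≤ sA P D R y ℓ - vA P D R y ℓ / 4 + M / ℓ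

/-- BLX: BLO with the explicit constant (see `Helper59_LE/Blo.lean`). -/
def BlxStmt : Prop :=
  ∀ (d K : ℕ) (C M : ℝ), 0 < C → 1 ≤ K → M = 1 + 2 * √C → ∀ ℓ n : ℕ, 1 ≤ ℓ → 1 ≤ n →
    ∃ R₀ : ℕ, ∀ R N : ℕ, R₀ ≤ R → R + 4 * K * (n * ℓ) ≤ N → ∀ (Ω : Type) [MeasurableSpace Ω]
    (P : Measure Ω) [IsProbabilityMeasure P] (D : Ω → Site d → Site d → ℝ), FamN d N P C D →
    ∀ (y : Site d) (ε : ℝ), sd 0 y ≤ K → 0 ≤ ε → hA P D R y ℓ - hA P D R y (n * ℓ) ≤ ε →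
      vA P D R y ℓ ≤ ε ^ 2 →
      Av R (fun a => ∫ ω, |D ω a (a + sm ℓ y) / ℓ - D ω a (a + sm (n * ℓ) y) / (n * ℓ)| ∂P) ≤
        ε + n * ε + M / ℓ

/-- SHX: SHI with the explicit constant (see `Helper69_LE/Shi.lean`). -/
def ShxStmt : Prop :=
  ∀ (d K : ℕ) (C M : ℝ), 0 < C → 1 ≤ K → M = 2 * (1 + C * ((K : ℝ) + 1) ^ 2) + 4 * (1 + C) →
    ∀ (N ℓ n : ℕ), 1 ≤ ℓ → 1 ≤ n →
    ∀ (Ω : Type) [MeasurableSpace Ω] (P : Measure Ω) [IsProbabilityMeasure P]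
    (D : Ω → Site d → Site d → ℝ), FamN d N P C D → ∀ a y k : Site d, sd 0 y ≤ K → sd 0 k ≤ K →
      box a (4 * K * (n * ℓ)) ⊆ box 0 N →
        ∫ ω, |D ω a (a + sm (n * ℓ) y) / (n * ℓ) -
          D ω (a + sm ℓ k) (a + sm ℓ k + sm (n * ℓ) y) / (n * ℓ)| ∂P ≤ M / n

/-- PIX: PIG, with polynomially many scales.
Proof: as PIG (`Helper26_LE/Pig.lean`) with the explicit constants of PHX, DBX, BLX, SHX: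
`M₁, M₂, M₃ ≤ 40 X⁴`, `c = (2K+1)^(2d)`, `η = ε / (4c)`, `q` the least number with
`M₃ / 2^q ≤ η` (so `2^q ≤ 2 M₃ / η + 2`, `q ≤ 2^q`), `n = 2^q`, `ε₁ = η / (2 (1 + n))`,
`ε₂ = min ε₁ (ε₁²)`, `J = X ^ a > (2K+1)^d (4 (2M₁) q + 16 (2M₁)) / ε₂`. -/
def PixStmt : Prop :=
  ∀ d : ℕ, ∃ a : ℕ, ∀ (X K W : ℕ) (C ε : ℝ), 2 ≤ X → 1 ≤ K → K ≤ X → 0 < C → C ≤ X →
    1 ≤ X * ε → ∀ ℓ₀ : ℕ, X ^ a ≤ ℓ₀ →
    ∃ N₀ : ℕ, ∀ N : ℕ, N₀ ≤ N → ∀ (Ω : Type) [MeasurableSpace Ω] (P : Measure Ω)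
    [IsProbabilityMeasure P] (D : Ω → Site d → Site d → ℝ), FamN d N P C D →
    ∃ j ≤ X ^ a, ∃ b : Site d, box b (W * (2 ^ j * ℓ₀)) ⊆ box 0 N ∧ ∀ y k : Site d, sd 0 y ≤ K →
      sd 0 k ≤ K →
        ∫ ω, |D ω b (b + sm (2 ^ j * ℓ₀) y) -
          D ω (b + sm (2 ^ j * ℓ₀) k) (b + sm (2 ^ j * ℓ₀) k + sm (2 ^ j * ℓ₀) y)| ∂P ≤
            ε * (2 ^ j * ℓ₀ : ℕ)

/-! ### G. the good event -/

/-- GVX: GVU, with polynomial bounds.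
Proof: as GVU (`Helper59_LEC/Gvu.lean`), `C = X ^ a'` of UFX and UCX. Clause 4 needs
`3 · 21^d (3 X^a' / η)^(4d) ≤ θ Q^d`, true for `Q ≥ X ^ a`. Clauses 1, 2, 3, 6: union bounds,
`14 exp X (24 L + 1)^(3d+1) exp (- η L / 3) ≤ θ / (9 Q^(2d))` for `L = Q ℓ`, `ℓ ≥ Q ^ a` (by `pol`).
Clause 5: PIX with its `X` equal to `Q ^ b`, `K = 8Q`, `W = 12Q`,
`ε = θ η Q / (3 Q^(2d) (16Q+1)^d (2Q+1)^d)`. -/
def GvxStmt : Prop :=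
  ∀ d : ℕ, 1 ≤ d → ∃ a : ℕ, ∀ (X Q : ℕ) (η θ : ℝ), 2 ≤ X → X ^ a ≤ Q → 1 ≤ X * η → 1 ≤ X * θ →
    ∀ ℓ₀ : ℕ, Q ^ a ≤ ℓ₀ → ∀ σ E : ℝ, ParX X σ E →
      ∃ j ≤ Q ^ a, ∃ (N : ℕ) (b : Site d), box b (12 * (Q * (2 ^ j * ℓ₀))) ⊆ box 0 N ∧
        PP d (gl σ) {V | ¬ GoodU V N Q (2 ^ j * ℓ₀) b E η} ≤
          ENNReal.ofReal (θ / (Q : ℝ) ^ (2 * d))

/-- DTX: DTU for scales at least `X ^ a` (`Helper96_LEC/Dtu.lean`; `1 + 2d(2L+1)^d e^(ηKL) ≤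
e^(2ηKL)` by `pol`). -/
def DtxStmt : Prop :=
  ∀ d : ℕ, 1 ≤ d → ∃ a : ℕ, ∀ (X K N Q₁ ℓ : ℕ) (η κ E : ℝ) (V : Site d → ℝ) (b : Site d),
    2 ≤ X → 1 ≤ X * η → 1 ≤ K → 1 ≤ Q₁ → 1 ≤ ℓ → X ^ a ≤ Q₁ * ℓ →
    box b (12 * (K * Q₁ * ℓ)) ⊆ box 0 N → GoodU V N (K * Q₁) ℓ b E η →
      ∀ k ∈ box (0 : Site d) (8 * (K * Q₁)), SG V (Q₁ * ℓ) κ E (b + sm ℓ k) →
        ∀ s ∈ box b (7 * (K * Q₁ * ℓ)), SG V (Q₁ * ℓ) (κ - 12 * η * K) E s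

/-- ZOX: ZOS for scales at least `X ^ a` (`Helper59_LEC/Zos.lean`). -/
def ZoxStmt : Prop :=
  ∀ d : ℕ, 1 ≤ d → ∃ a : ℕ, ∀ (X K N Q₁ ℓ : ℕ) (η σ E κ p : ℝ) (b : Site d),
    2 ≤ X → 1 ≤ X * η → 1 ≤ K → σ ≠ 0 → 0 ≤ p → 1 ≤ Q₁ → 1 ≤ ℓ → X ^ a ≤ Q₁ * ℓ →
    box b (12 * (K * Q₁ * ℓ)) ⊆ box 0 N →
    PP d (gl σ) {V | ¬ GoodU V N (K * Q₁) ℓ b E η} ≤ ENNReal.ofReal p →
      PP d (gl σ) {V | SG V (Q₁ * ℓ) κ E 0} *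
        PP d (gl σ) {V | ¬ SG V (Q₁ * ℓ) (κ - 12 * η * K) E 0} ≤ ENNReal.ofReal p

/-- INX: INS for scales at least `X ^ a` (`Helper77_LCN/Ins.lean`). -/
def InxStmt : Prop :=
  ∀ d : ℕ, 1 ≤ d → ∃ a : ℕ, ∀ (X K N Q₁ ℓ : ℕ) (η κ E : ℝ) (V : Site d → ℝ) (b : Site d),
    2 ≤ X → 1 ≤ X * η → 1 ≤ X * κ → 1 ≤ K → 48 * η * K ≤ κ → 1 ≤ Q₁ → 1 ≤ ℓ →
    X ^ a ≤ Q₁ * ℓ → box b (12 * (K * Q₁ * ℓ)) ⊆ box 0 N → GoodU V N (K * Q₁) ℓ b E η →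
    SG V (Q₁ * ℓ) κ E b → ∀ x ∈ box b (2 * (Q₁ * ℓ)), ∀ y ∈ box b (2 * (Q₁ * ℓ)),
      Q₁ * ℓ + 1 ≤ sd x y → κ / 2 * (Q₁ * ℓ) ≤ DL (box 0 N) E V x y

/-! ### U2. in the insulating phase the rate does not increase -/

/-- UAX: UPA for scales at least `X ^ a` (`Helper76_LEC/Upa.lean`). -/
def UaxStmt : Prop :=
  ∀ d : ℕ, 1 ≤ d → ∃ a : ℕ, ∀ (X K N Q₁ ℓ : ℕ) (η κ' E : ℝ) (V : Site d → ℝ) (b : Site d),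
    2 ≤ X → 1 ≤ X * η → 1 ≤ X * κ' → 8 ≤ K → K ≤ X → 24 * η * K ≤ κ' → 1 ≤ Q₁ → 1 ≤ ℓ →
    X ^ a ≤ Q₁ * ℓ → box b (12 * (K * Q₁ * ℓ)) ⊆ box 0 N → GoodU V N (K * Q₁) ℓ b E η →
    SG V (Q₁ * ℓ) κ' E b → ∀ c ∈ box b (5 * (K * Q₁ * ℓ)), SG V (K * Q₁ * ℓ) (κ' / 4) E c

/-- LXX: LOX for scales at least `X ^ a` (`Helper85_LE/Lox.lean`). -/
def LxxStmt : Prop :=
  ∀ d : ℕ, 1 ≤ d → ∃ a : ℕ, ∀ (X K N L : ℕ) (η κ' κ₀ E : ℝ) (V : Site d → ℝ) (b x : Site d),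
    2 ≤ X → 1 ≤ X * η → 1 ≤ X * κ' → 0 < κ₀ → 8 ≤ K → K ≤ X → 24 * η * K ≤ κ' →
    16 * (κ₀ + 2) ≤ κ' * K → X ^ a ≤ L → box b (K * L + 1) ⊆ box 0 N →
    (RM V (box 0 N) E).det ≠ 0 → SG V (K * L) (κ' / 4) E b → x ∈ box b L →
    (∀ z, sd b z = K * L + 1 → |gr V (box 0 N) E z x| ≤ Real.exp (η * (K * L))) →
      |gr V (box 0 N) E b x - gr V (box b (K * L)) E b x| ≤ Real.exp (-(κ₀ + 1) * L) / 2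

/-- UDX: UPD for scales at least `X ^ a` (`Helper17_LEC/UPD.lean`). -/
def UdxStmt : Prop :=
  ∀ d : ℕ, 1 ≤ d → ∃ a : ℕ, ∀ (X K N Q₁ ℓ : ℕ) (η κ' κ₀ σ E p : ℝ) (b : Site d),
    2 ≤ X → 1 ≤ X * η → 1 ≤ X * κ' → 0 < κ₀ → 8 ≤ K → K ≤ X → 24 * η * K ≤ κ' →
    16 * η * K ≤ 1 → 16 * (κ₀ + 2) ≤ κ' * K → σ ≠ 0 → 0 ≤ p → p ≤ 1 / 8 → 1 ≤ Q₁ → 1 ≤ ℓ →
    X ^ a ≤ Q₁ * ℓ → box b (12 * (K * Q₁ * ℓ)) ⊆ box 0 N →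
    PP d (gl σ) {V | ¬ GoodU V N (K * Q₁) ℓ b E η} ≤ ENNReal.ofReal p →
    PP d (gl σ) {V | ¬ SG V (Q₁ * ℓ) κ' E 0} ≤ ENNReal.ofReal p →
    PP d (gl σ) {V | SG V (Q₁ * ℓ) κ₀ E 0} ≤ ENNReal.ofReal (1 / 4) →
      (∀ c : Site d, PP d (gl σ) {V | ¬ SG V (K * Q₁ * ℓ) (κ' / 4) E c} ≤
        ENNReal.ofReal (2 * p)) ∧
      ∃ y : Site d, sd 0 y = Q₁ ∧ ∀ c : Site d, PP d (gl σ) {V |
        |gr V (box c (K * Q₁ * ℓ)) E c (c + sm ℓ y)| <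
          Real.exp (-(κ₀ + 7 * η * K) * (Q₁ * ℓ))} ≤
        ENNReal.ofReal (4 * (2 * Q₁ + 1) ^ d * p)

/-- UMX: UPM; `X` bounds the parameters, `η ≤ 1 / X ^ a`, and `Y ≥ 1 / η` controls the scale
(`Helper28_LEC/UPM.lean`). Proof: as UPM with `C = X ^ a'` of UFX. The needs are: `8 η K ≤ ε / 3`,
`√(3 θ C) ≤ ε / 12` for `θ = 1 / X ^ a`, `√C ≤ ε L₁ / 6`, and by `pol` the Wegner estimate
`6 exp X (3 (K + m) L₁)^(..) exp (- η K L₁) ≤ θ` (the points at which it is used lie in one cube of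
radius `3 K L₁`). -/
def UmxStmt : Prop :=
  ∀ d : ℕ, 1 ≤ d → ∃ a : ℕ, ∀ (X Y K Q₁ ℓ : ℕ) (κ' κ₀ ε η σ E : ℝ) (y : Site d),
    2 ≤ X → X ≤ Y → 8 ≤ K → K ≤ X → 1 ≤ X * κ' → 0 < κ₀ → 1 ≤ X * ε →
    16 * (κ₀ + 2) ≤ κ' * K → ParX X σ E → (X : ℝ) ^ a * η ≤ 1 → 1 ≤ Y * η → 1 ≤ Q₁ → 1 ≤ ℓ →
    Y ^ a ≤ Q₁ * ℓ → sd 0 y = Q₁ →
    (∀ b : Site d, PP d (gl σ) {V | ¬ SG V (K * Q₁ * ℓ) (κ' / 4) E b} ≤
      ENNReal.ofReal (1 / (X : ℝ) ^ a)) →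
    (∀ b : Site d, PP d (gl σ) {V | |gr V (box b (K * Q₁ * ℓ)) E b (b + sm ℓ y)| <
      Real.exp (-(κ₀ + 7 * η * K) * (Q₁ * ℓ))} ≤ ENNReal.ofReal (1 / (X : ℝ) ^ a)) →
    ∀ m N : ℕ, 1 ≤ m → (m + K + 2) * (Q₁ * ℓ) ≤ N →
      ∫ V, DL (box 0 N) E V 0 (sm (m * ℓ) y) ∂(PP d (gl σ)) ≤ m * ((κ₀ + ε) * (Q₁ * ℓ))

/-- UBX: UPB in the same form (`Helper93_LEC/UPB.lean`), from UDX, UMX, UPE. -/
def UbxStmt : Prop :=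
  ∀ d : ℕ, 1 ≤ d → ∃ a : ℕ, ∀ (X Y K N Q₁ ℓ : ℕ) (κ' κ₀ ε η σ E g : ℝ) (b : Site d),
    2 ≤ X → X ≤ Y → 8 ≤ K → K ≤ X → 1 ≤ X * κ' → 0 < κ₀ → 1 ≤ X * ε →
    16 * (κ₀ + 2) ≤ κ' * K → ParX X σ E → (X : ℝ) ^ a * η ≤ 1 → 1 ≤ Y * η →
    LyaAt d σ E g → 1 ≤ Q₁ → 1 ≤ ℓ → Y ^ a ≤ Q₁ * ℓ →
    box b (12 * (K * Q₁ * ℓ)) ⊆ box 0 N →
    PP d (gl σ) {V | ¬ GoodU V N (K * Q₁) ℓ b E η} ≤
      ENNReal.ofReal (1 / ((X : ℝ) ^ a * (Q₁ : ℝ) ^ d)) →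
    PP d (gl σ) {V | ¬ SG V (Q₁ * ℓ) κ' E 0} ≤
      ENNReal.ofReal (1 / ((X : ℝ) ^ a * (Q₁ : ℝ) ^ d)) →
    PP d (gl σ) {V | SG V (Q₁ * ℓ) κ₀ E 0} ≤ ENNReal.ofReal (1 / 4) → g ≤ κ₀ + ε

/-! ### B. the Besicovitch step -/

/-- RGX: REG; the cube of radius `W` may be exponentially larger than the scale `L`.
Proof: as REG (`Helper76_LEC/Reg.lean`), union bounds with exponentially small probabilities: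
Wegner `6 exp X / T`, `OneTail` `8 exp X exp (- t / 3)`, and, for the part `D(x, x) ≤ t`, LWX:
`P(|G(x,x)| < exp (-t)) ≤ exp (a X) exp (- t / 4)` (instead of UCH). All factors
`(2 W + 1)^(3d) (L + 1)(2 L + 1)^(2d)`, `W ≤ exp X · L`, are at most `exp (m X) (X L)^m`; then
`pol`. -/
def RgxStmt : Prop :=
  ∀ d : ℕ, 1 ≤ d → ∃ a : ℕ, ∀ (X N W L : ℕ) (τ p σ E : ℝ) (b : Site d), 2 ≤ X →
    1 ≤ X * τ → 1 ≤ X * p → ParX X σ E → X ^ a ≤ L → (W : ℝ) ≤ Real.exp X * L →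
    box b (W + 1) ⊆ box 0 N →
      PP d (gl σ) {V | ¬ RegE V N W L b E (τ * L)} ≤ ENNReal.ofReal p

/-- BNX: BEN with polynomial bounds (`Helper15_LEC/BEN.lean`).
Proof: `A = (κ / (16 cs))^d`, `M = ⌈16 · 5^d / A⌉`, `p = A / (32 · 3^d)`, and `cs = X ^ b` with
`const · (C / cs)^(d²+4d) (1 / A)^(d-1) ≤ A / 8`: since `1 / A ≤ (16 X^b X)^d` the left side divided
by `A` is at most `const X^(d²+4d) X^(-b (d²+4d)) (16 X^(b+1))^(d²)`, and `b (d² + 4d) > b d²`. -/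
def BnxStmt : Prop :=
  ∀ d : ℕ, 1 ≤ d → ∃ a : ℕ, ∀ (X : ℕ) (C κ : ℝ), 2 ≤ X → 0 < C → C ≤ X → 1 ≤ X * κ → κ ≤ 1 →
    ∃ (cs : ℝ) (M : ℕ) (p : ℝ), 1 ≤ cs ∧ cs ≤ (X : ℝ) ^ a ∧ 1 ≤ M ∧ M ≤ X ^ a ∧
      1 / (X : ℝ) ^ a ≤ p ∧ p ≤ 1 ∧ 16 * cs / κ ≤ M ∧
      4 * p * 3 ^ d + 2 * 5 ^ d / M +
        (2 ^ d + 2 * (8 * M + 9) ^ d / M) * (4 * 5 ^ d * (C / cs) ^ (d ^ 2 + 4 * d)) <
        (κ / (16 * cs)) ^ d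

/-- BSX: BES; the conducting scale `L'` need not be a good scale, `L ≤ exp Y · L'`, `L' ≥ Y ^ a`,
and the rate and the probability depend on `X` only.
Proof: as BES (`Helper93_LEC/BES.lean`): `C = X ^ a'` (UCX, `q = d² + 4d`), BNX with its `X`
equal to `X ^ (a' + 1)`, `τ = 1 / (100 (M + 1))`, and `1 / X ^ a ≤ min τ p`; RGX with its `X`
equal to `Y ^ b`, `W = 3 L`, its `L` equal to `L'`. `SG` at the rate `τ` implies `SG` at the rate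
`1 / X ^ a`. -/
def BsxStmt : Prop :=
  ∀ d : ℕ, 1 ≤ d → ∃ a : ℕ, ∀ (X Y N L L' : ℕ) (κ σ E : ℝ) (b : Site d), 2 ≤ X → X ≤ Y →
    1 ≤ X * κ → κ ≤ 1 → ParX X σ E → Y ^ a ≤ L' → L' ≤ L → (L : ℝ) ≤ Real.exp Y * L' →
    box b (4 * L) ⊆ box 0 N →
    PP d (gl σ) {V | SG V L' (1 / (X : ℝ) ^ a) E 0} ≤ ENNReal.ofReal (1 / (X : ℝ) ^ a) →
    PP d (gl σ) {V | ¬ ∀ x ∈ box b (2 * L), ∀ y ∈ box b (2 * L), L + 1 ≤ sd x y →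
      κ * L ≤ DL (box 0 N) E V x y} ≤ ENNReal.ofReal (1 / 4) → False

/-! ### S. the start: small disorder conducts at the scale `|σ|^(-c₀)` -/

/-- SCR: the one-dimensional estimate.
Proof: let `ρ` (complex) be a root of `ρ² - bρ + 1 = 0` with `0 < |ρ| ≤ 1` (the product of the
roots is 1), `f n = φ (n+1) + φ (n-1) - b φ n`, `χ n = φ n - ρ φ (n-1)`. Then
`f n = χ (n+1) - χ n / ρ`, so `χ n = ρ (χ (n+1) - f n)`; as `χ n = 0` for `n ≥ R + 2`,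
`|χ n| ≤ F := ∑ |f m|` over `|m| ≤ R + 1` (downward induction), and `χ n = 0` for `n < -R`. From
`φ n = χ n + ρ φ (n-1)` and `φ n = 0` for `n < -R`: `|φ n| ≤ (2R + 1) F` for `|n| ≤ R`. With
`F² ≤ (2R+3) ∑ f²` the sum is at most `(2R+1)³ (2R+3) ∑ f²`. -/
def ScrStmt : Prop :=
  ∀ (R : ℕ) (b : ℝ) (φ : ℤ → ℝ), (∀ n : ℤ, (R : ℤ) < |n| → φ n = 0) →
    ∑ n ∈ Finset.Icc (-(R : ℤ)) R, φ n ^ 2 ≤ (2 * R + 3) ^ 4 *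
      ∑ n ∈ Finset.Icc (-(R : ℤ) - 1) (R + 1), (φ (n + 1) + φ (n - 1) - b * φ n) ^ 2

/-- SCH: the same with values in a finite-dimensional inner product space and a symmetric operator.
Proof: an orthonormal basis of eigenvectors (`LinearMap.IsSymmetric.eigenvectorBasis`), SCR for
each component with `b = -` the eigenvalue, and Parseval. -/
def SchStmt : Prop :=
  ∀ (ι : Type) [Fintype ι] (T : EuclideanSpace ℝ ι →ₗ[ℝ] EuclideanSpace ℝ ι), T.IsSymmetric →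
    ∀ (R : ℕ) (φ : ℤ → EuclideanSpace ℝ ι), (∀ n : ℤ, (R : ℤ) < |n| → φ n = 0) →
      ∑ n ∈ Finset.Icc (-(R : ℤ)) R, ‖φ n‖ ^ 2 ≤ (2 * R + 3) ^ 4 *
        ∑ n ∈ Finset.Icc (-(R : ℤ) - 1) (R + 1), ‖φ (n + 1) + φ (n - 1) + T (φ n)‖ ^ 2

/-- UNC: a function with finite support is controlled by its image under `H₀ - E`.
Proof: `d = e + 1`, `Fin.cons : ℤ × Site e ≃ Site d`. `Φ n = (φ (Fin.cons n x'))_{x' ∈ box 0 R}` in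
`EuclideanSpace ℝ (box (0 : Site e) R)`, `T = hop - E` restricted to `box (0 : Site e) R`
(symmetric). `hop (cons n x') (cons m y') = [|n - m| = 1][x' = y'] + [n = m] hop x' y'`, so the
component `x' ∈ box 0 R` of `Φ (n+1) + Φ (n-1) + T (Φ n)` is `(H₀ φ - E φ)(cons n x')`. Then SCH, and
drop the terms `x' ∉ box 0 R` on the right. -/
def UncStmt : Prop :=
  ∀ (d R : ℕ) (E : ℝ) (φ : Site d → ℝ), 1 ≤ d → (∀ x, x ∉ box (0 : Site d) R → φ x = 0) →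
    ∑ x ∈ box (0 : Site d) R, φ x ^ 2 ≤ (2 * R + 3) ^ 4 * ∑ x ∈ box (0 : Site d) (R + 1),
      (∑ y ∈ box (0 : Site d) R, hop x y * φ y - E * φ x) ^ 2

/-- PLW: the plane wave, also slightly outside of the spectrum of `H₀`.
Proof: `S x = ∑ x_i`. If `|E| ≤ 2d`: `ψ x = cos (θ S x)`, `2 d cos θ = E`
(`cos (θ (S + 1)) + cos (θ (S - 1)) = 2 cos θ cos (θ S)`). If `E > 2d`: `ψ x = cosh (θ S x)`,
`2 d cosh θ = E`; `cosh θ ≥ 1 + θ²/2` gives `d θ² (R+1)² ≤ 1`, `|θ S x| ≤ √d ≤ d` on the cube, and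
`cosh t ≤ exp t ≤ 3 ^ d`. If `E < -2d`: `(-1)^(S x) cosh (θ S x)`. -/
def PlwStmt : Prop :=
  ∀ (d R : ℕ) (E : ℝ), 1 ≤ d → ((R : ℝ) + 1) ^ 2 * (|E| - 2 * d) ≤ 1 →
    ∃ ψ : Site d → ℝ, ψ 0 = 1 ∧ (∀ x ∈ box (0 : Site d) (R + 1), |ψ x| ≤ 3 ^ d) ∧
      ∀ x, ∑ y ∈ box x 1, hop x y * ψ y = E * ψ x

/-- CO0: a small potential conducts (deterministic).
Proof: suppose `SG V R κ E 0`; `φ x = gr V (box 0 R) E 0 x` (zero outside),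
`f x = ∑_{y ∈ box 0 R} hop x y φ y - E φ x`. By `(E - H) G = 1`, `f x = - δ_{0x} - V x φ x` on
`box 0 R`, and on `box 0 (R+1) \ box 0 R`, `|f x| ≤ 2 d exp (-κR) =: e` (only `y` with `sd 0 y = R`
have `hop x y ≠ 0`), `f = 0` further outside. UNC:
`‖φ‖₂ ≤ (2R+3)² (1 + t ‖φ‖₂ + (2R+3)^d e)`, so `‖φ‖₂ ≤ 4 (2R+3)²` if `t (2R+3)² ≤ 1/2` and
`(2R+3)^d e ≤ 1`. With the plane wave, `∑_{x ∈ box 0 (R+1)} ψ x f x =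
∑_{y ∈ box 0 R} φ y (∑_x hop y x ψ x - E ψ y) = 0`, so
`1 = ψ 0 = - ∑ ψ V φ + ∑_outside ψ f ≤ 3^d t (2R+1)^d 4 (2R+3)² + 3^d (2R+3)^d e < 1`. -/
def Co0Stmt : Prop :=
  ∀ d : ℕ, 1 ≤ d → ∃ a : ℕ, ∀ (R : ℕ) (V : Site d → ℝ) (κ E t : ℝ), 2 ≤ R →
    ((R : ℝ) + 1) ^ 2 * (|E| - 2 * d) ≤ 1 → 0 ≤ t → (∀ x ∈ box (0 : Site d) R, |V x| ≤ t) →
    t * (R : ℝ) ^ a ≤ 1 → (R : ℝ) ^ a * Real.exp (-κ * R) ≤ 1 → ¬ SG V R κ E 0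

/-- CO1: the same with probability.
Proof: `t = R ^ (-a₀)` in CO0; `P(|V x| > t) ≤ E |σ ξ| / t ≤ |σ| R ^ a₀`, and `(2R+1)^d` sites. -/
def Co1Stmt : Prop :=
  ∀ d : ℕ, 1 ≤ d → ∃ a : ℕ, ∀ (R : ℕ) (σ κ E : ℝ), 2 ≤ R → σ ≠ 0 →
    ((R : ℝ) + 1) ^ 2 * (|E| - 2 * d) ≤ 1 → (R : ℝ) ^ a * Real.exp (-κ * R) ≤ 1 →
      PP d (gl σ) {V | SG V R κ E 0} ≤ ENNReal.ofReal (|σ| * (R : ℝ) ^ a)

/-! ### F. assembly -/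

/-- FIX: the Lyapunov exponent is at most `1 / X` for `X = |σ| ^ (-1/a)`.
Proof: as USO (`Helper93_LEC/USO.lean`). Suppose `g > κ := 1 / X`. Let `a_B, a_U, a_Z, a_I, a_G, a_C`
be the exponents of BSX, UBX, ZOX, INX, GVX, CO1. All numbers are powers of `X`:
`X_b = 8 X` (so `1 ≤ X_b (κ/8)`), `κ1 = p1 = min (1 / X_b ^ a_B) (κ / 8)`;
`K` a power of `X` with `16 (κ/2 + 2) ≤ (κ1/2) K`, `8 ≤ K`; `X_u` a power of `X` with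
`K ≤ X_u`, `1 ≤ X_u κ1 / 2`, `1 ≤ X_u κ / 4`; `θ = 1 / X_u ^ a_U`; `η` the inverse of a power
of `X`, `η ≤ 1 / X_u ^ a_U`, `η K ≤ κ1 / 200`; `θ' = θ p1 / 20`; `X_g` a power of `X` with
`1 ≤ X_g η`, `1 ≤ X_g θ'`, `1 ≤ X_g κ / 4`, `X ≤ X_g`; `Q₀ = X_g ^ a_G`, `Q = K Q₀`, `J = Q ^ a_G`;
`Y` a power of `X` with `2 ^ (2J+1) Q ≤ exp Y`, `X_u, X_b, 1/η ≤ Y`; `ℓ₀` a power of `X`,
`ℓ₀ ≥ Q ^ a_G, X_g ^ a_Z, X_g ^ a_I, Y ^ a_U, Y ^ a_B`, and `R₀ = Q₀ ℓ₀ = X ^ r`.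
Windows `ℓ₀(w) = 2 ^ ((J+1) w) ℓ₀`, good scales `ell w = 2 ^ (j w) ℓ₀(w)`, `j w ≤ J` (GVX), with
`L_w = Q₀ ell w`. `w` = the first window with `P(SG V L_w κ1 E 0) > p1` (it exists as `g > κ1`,
LyaAt). If `w > 0` let `L' = L_(w-1)`, otherwise `L' = R₀`; then `P(SG V L' κ1 E 0) ≤ p1`: for
`L' = R₀` by CO1, as `|σ| R₀ ^ a_C ≤ p1` (from `X ^ a |σ| ≤ 1`), `R₀ ^ a_C exp (-κ1 R₀) ≤ 1`
(`pol`; take `ℓ₀` large), and `(R₀+1)² |σ| ≤ 1`. `L' ≤ L_w ≤ 2 ^ (2J+1) L'`. The rest is as in USO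
with ZOX, UBX (`κ' = κ1/2`, `κ₀ = κ/2`, `ε = κ/4`), ZOX, INX, and BSX (`κ/8`). -/
def FixStmt : Prop :=
  ∀ d : ℕ, 1 ≤ d → ∃ a : ℕ, ∀ (X : ℕ) (σ E g : ℝ), 2 ≤ X → 2 * d + 1 ≤ X →
    (X : ℝ) ^ a * |σ| ≤ 1 → Real.exp (-(X : ℝ)) ≤ |σ| → |E| ≤ 2 * d + |σ| → LyaAt d σ E g →
      g ≤ 1 / X

/-- FFF: theorem F. -/
def FffStmt : Prop :=
  ∀ d : ℕ, 1 ≤ d → ∃ c C : ℝ, 0 < c ∧ 0 < C ∧ ∀ σ E g : ℝ, σ ≠ 0 → |σ| ≤ 1 →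
    |E| ≤ 2 * d + |σ| → LyaAt d σ E g → g ≤ C * |σ| ^ c

end Pool.Agent.LE
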