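import Pool.Agent.LE.StmtsA

/-!
# The Lyapunov exponent exists at every energy and is positive exactly in the localized phase

Statements of the modules; the proofs are in `/team-store/PAPER_GAM.md`.
-/

set_option autoImplicit false

open MeasureTheory ProbabilityTheory Function Filter

open scoped ENNReal BigOperators Topology

noncomputable section

namespace Pool.Agent.LE

open Pool.Agent.Anderson Pool.Agent.Loc Pool.Agent.Mob Pool.Agent.Helper54.Bal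

/-! ### P. pure probability -/

/-- the L² norm with the average over the base points in `box 0 R` -/
def nA {d : ℕ} {Ω : Type} [MeasurableSpace Ω] (P : Measure Ω) (R : ℕ) (f : Site d → Ω → ℝ) : ℝ :=
  Real.sqrt (Av R fun a => ∫ ω, f a ω ^ 2 ∂P)

/-- `D(a, a + ℓ y) / ℓ` -/
def XX {d : ℕ} {Ω : Type} (D : Ω → Site d → Site d → ℝ) (y : Site d) (ℓ : ℕ) :
    Site d → Ω → ℝ :=
  fun a ω => D ω a (a + sm ℓ y) / ℓ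

/-- admissible families: `f a` is measurable and square integrable for all `a` in `box 0 R` -/
def Adm {d : ℕ} {Ω : Type} [MeasurableSpace Ω] (P : Measure Ω) (R : ℕ) (f : Site d → Ω → ℝ) :
    Prop :=
  ∀ a ∈ box (0 : Site d) R, Measurable (f a) ∧ Integrable (fun ω => f a ω ^ 2) P

/-- NRM: the norm. -/
def NrmStmt : Prop :=
  ∀ (d : ℕ) (Ω : Type) [MeasurableSpace Ω] (P : Measure Ω) [IsProbabilityMeasure P] (R : ℕ),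
    (∀ f g : Site d → Ω → ℝ, Adm P R f → Adm P R g →
      Adm P R (fun a ω => f a ω + g a ω) ∧
      nA P R (fun a ω => f a ω + g a ω) ≤ nA P R f + nA P R g ∧
      nA P R (fun a ω => f a ω - g a ω) ^ 2 = 2 * nA P R f ^ 2 + 2 * nA P R g ^ 2 -
        4 * nA P R (fun a ω => (f a ω + g a ω) / 2) ^ 2) ∧
    (∀ f g : Site d → Ω → ℝ, Adm P R g → (∀ a ∈ box (0 : Site d) R, ∀ ω, |f a ω| ≤ |g a ω|) →
      nA P R f ≤ nA P R g) ∧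
    (∀ (f : Site d → Ω → ℝ) (c : ℝ), nA P R (fun a ω => c * f a ω) = |c| * nA P R f) ∧
    (∀ (n : ℕ) (f : ℕ → Site d → Ω → ℝ) (B : ℝ), (∀ i < n, Adm P R (f i)) →
      (∀ i < n, nA P R (f i) ≤ B) →
      Adm P R (fun a ω => ∑ i ∈ Finset.range n, f i a ω) ∧
      nA P R (fun a ω => ∑ i ∈ Finset.range n, f i a ω) ≤ n * B) ∧
    (∀ (f : Site d → Ω → ℝ) (B : ℝ), 0 ≤ B →
      (∀ a ∈ box (0 : Site d) R, ∫ ω, f a ω ^ 2 ∂P ≤ B ^ 2) → nA P R f ≤ B) ∧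
    (∀ f : Site d → Ω → ℝ, Adm P R f → Av R (fun a => ∫ ω, |f a ω| ∂P) ≤ nA P R f)

/-- SUBX: subadditivity of the norm. -/
def SubXStmt : Prop :=
  ∀ (d K : ℕ) (C : ℝ), 0 < C → 1 ≤ K → ∃ M : ℝ, 0 < M ∧ ∀ (ℓ ℓ' : ℕ), 1 ≤ ℓ → 1 ≤ ℓ' →
    ∃ R₀ : ℕ, ∀ R N : ℕ, R₀ ≤ R → R + 4 * K * (ℓ + ℓ') ≤ N → ∀ (Ω : Type) [MeasurableSpace Ω]
    (P : Measure Ω) [IsProbabilityMeasure P] (D : Ω → Site d → Site d → ℝ), FamN d N P C D →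
    ∀ y : Site d, sd 0 y ≤ K → nA P R (XX D y ℓ) ≤ M ∧
      (ℓ + ℓ') * nA P R (XX D y (ℓ + ℓ')) ≤
        ℓ * nA P R (XX D y ℓ) + ℓ' * nA P R (XX D y ℓ') + M

/-- KEYX: the lower bound for the mean of two scales. -/
def KeyXStmt : Prop :=
  ∀ (d K : ℕ) (C : ℝ), 0 < C → 1 ≤ K → ∃ M : ℝ, 0 < M ∧ ∀ (ℓ ℓ' : ℕ) (e : ℝ), 1 ≤ ℓ → 1 ≤ ℓ' →
    0 < e → ∃ R₀ : ℕ, ∀ R N : ℕ, R₀ ≤ R → R + 4 * K * (ℓ * ℓ') ≤ N →
    ∀ (Ω : Type) [MeasurableSpace Ω] (P : Measure Ω) [IsProbabilityMeasure P]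
    (D : Ω → Site d → Site d → ℝ), FamN d N P C D → ∀ y : Site d, sd 0 y ≤ K →
      nA P R (XX D y (ℓ * ℓ')) ≤
        nA P R (fun a ω => (XX D y ℓ a ω + XX D y ℓ' a ω) / 2) + M * (1 / ℓ + 1 / ℓ') + e

/-- CAU: the sequence `D(a, a + ℓ y) / ℓ` is a Cauchy sequence in L², in the limit of large
cubes. -/
def CauStmt : Prop :=
  ∀ (d K : ℕ) (C : ℝ), 0 < C → 1 ≤ K → ∀ (Ω : Type) [MeasurableSpace Ω] (P : Measure Ω)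
    [IsProbabilityMeasure P] (D : ℕ → Ω → Site d → Site d → ℝ), (∀ N, FamN d N P C (D N)) →
    ∀ ε : ℝ, 0 < ε → ∃ l : ℕ, 1 ≤ l ∧ ∀ ℓ ℓ' : ℕ, l ≤ ℓ → l ≤ ℓ' →
      ∀ᶠ N in (hyperfilter ℕ : Filter ℕ), ∀ y : Site d, sd 0 y ≤ K →
        nA P (N / 2) (fun a ω => XX (D N) y ℓ a ω - XX (D N) y ℓ' a ω) ≤ ε

/-- PIG3: at any two large scales and at one common base point, near invariance under shifts, and
near equality of the two scales. -/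
def Pig3Stmt : Prop :=
  ∀ (d K W : ℕ) (C ε : ℝ), 0 < C → 0 < ε → 1 ≤ K → ∀ (Ω : Type) [MeasurableSpace Ω]
    (P : Measure Ω) [IsProbabilityMeasure P] (D : ℕ → Ω → Site d → Site d → ℝ),
    (∀ N, FamN d N P C (D N)) → ∃ l : ℕ, 1 ≤ l ∧ ∀ ℓ ℓ' : ℕ, l ≤ ℓ → l ≤ ℓ' →
      ∃ (N : ℕ) (a : Site d), box a (W * ℓ) ⊆ box 0 N ∧ box a (W * ℓ') ⊆ box 0 N ∧
        ∀ y k : Site d, sd 0 y ≤ K → sd 0 k ≤ K →
          ∫ ω, |D N ω a (a + sm ℓ y) - D N ω (a + sm ℓ k) (a + sm ℓ k + sm ℓ y)| ∂P ≤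
            ε * (ℓ : ℕ) ∧
          ∫ ω, |D N ω a (a + sm ℓ' y) - D N ω (a + sm ℓ' k) (a + sm ℓ' k + sm ℓ' y)| ∂P ≤
            ε * (ℓ' : ℕ) ∧
          ∫ ω, |D N ω a (a + sm ℓ y) / ℓ - D N ω a (a + sm ℓ' y) / ℓ'| ∂P ≤ ε

/-! ### the good events -/

/-- The good event at the scale `ℓ` about the base point `a`, in the cube `box 0 N`; as `GoodEv`,
but the last part is about the cubes of radius `Qℓ + r` for all `r < Q`. -/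
def GoodG {d : ℕ} (V : Site d → ℝ) (N Q ℓ : ℕ) (a : Site d) (E κ₃ : ℝ) : Prop :=
  (RM V (box 0 N) E).det ≠ 0 ∧
  (∀ x ∈ box a (12 * (Q * ℓ)), ∀ y ∈ box a (12 * (Q * ℓ)), gr V (box 0 N) E x y ≠ 0 ∧
    |gr V (box 0 N) E x y| ≤ Real.exp (κ₃ * (Q * ℓ))) ∧
  (∀ x ∈ box a (12 * (Q * ℓ)), ∀ u ∈ box a (12 * (Q * ℓ)), ∀ y ∈ box a (12 * (Q * ℓ)),
    DL (box 0 N) E V x y ≤ DL (box 0 N) E V x u + DL (box 0 N) E V u y + κ₃ * (Q * ℓ)) ∧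
  (∀ k ∈ box (0 : Site d) (10 * Q), ∀ y ∈ box (a + sm ℓ k) (3 * ℓ),
    DL (box 0 N) E V (a + sm ℓ k) y ≤ κ₃ * (Q * ℓ)) ∧
  (∀ k ∈ box (0 : Site d) (8 * Q), ∀ y ∈ box (0 : Site d) Q,
    |DL (box 0 N) E V a (a + sm ℓ y) -
      DL (box 0 N) E V (a + sm ℓ k) (a + sm ℓ k + sm ℓ y)| ≤ κ₃ * (Q * ℓ)) ∧
  (∀ r < Q, ∀ s ∈ box a (8 * (Q * ℓ)), (RM V (box s (Q * ℓ + r)) E).det ≠ 0 ∧
    ∀ x y, |gr V (box s (Q * ℓ + r)) E x y| ≤ Real.exp (κ₃ * (Q * ℓ)))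

/-- the two scales `ℓ`, `ℓ'` are nearly equal -/
def CrossG {d : ℕ} (V : Site d → ℝ) (N Q ℓ ℓ' : ℕ) (a : Site d) (E κ₃ : ℝ) : Prop :=
  ∀ y ∈ box (0 : Site d) Q, |DL (box 0 N) E V a (a + sm ℓ y) / ℓ -
    DL (box 0 N) E V a (a + sm ℓ' y) / ℓ'| ≤ κ₃ * Q

/-- GEVG: at any two large scales the good events have probability near one, at one base point. -/
def GevGStmt : Prop :=
  ∀ (d : ℕ) (σ E κ₃ p : ℝ), 1 ≤ d → σ ≠ 0 → 0 < κ₃ → 0 < p → ∃ Q : ℕ, 1 ≤ Q ∧ ∃ l : ℕ, 1 ≤ l ∧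
    ∀ ℓ ℓ' : ℕ, l ≤ ℓ → l ≤ ℓ' → ∃ (N : ℕ) (a : Site d), box a (12 * (Q * ℓ)) ⊆ box 0 N ∧
      box a (12 * (Q * ℓ')) ⊆ box 0 N ∧
      PP d (gl σ) {V | ¬ (GoodG V N Q ℓ a E κ₃ ∧ GoodG V N Q ℓ' a E κ₃ ∧
        CrossG V N Q ℓ ℓ' a E κ₃)} ≤ ENNReal.ofReal p

/-- DETG: on the good event the decay about `a + ℓ k` implies the decay about all sites near `a`
(deterministic). -/
def DetGStmt : Prop :=
  ∀ (d : ℕ) (κ₃ : ℝ), 1 ≤ d → 0 < κ₃ → ∃ L₀ : ℕ, ∀ (κ : ℝ) (V : Site d → ℝ) (N Q ℓ L : ℕ)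
    (a : Site d) (E : ℝ), 1 ≤ Q → Q ≤ ℓ → L₀ ≤ L → Q * ℓ ≤ L → L < Q * (ℓ + 1) →
    box a (12 * (Q * ℓ)) ⊆ box 0 N → GoodG V N Q ℓ a E κ₃ →
      ∀ k ∈ box (0 : Site d) (8 * Q), SG V L κ E (a + sm ℓ k) →
        ∀ s ∈ box a (7 * (Q * ℓ)), SG V L (κ - 12 * κ₃) E s

/-- DETX: on the good events at two scales the decay at one scale implies the decay at the other
scale (deterministic). -/
def DetXStmt : Prop :=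
  ∀ (d : ℕ) (κ₃ : ℝ), 1 ≤ d → 0 < κ₃ → ∃ L₀ : ℕ, ∀ (κ : ℝ) (V : Site d → ℝ)
    (N Q ℓ ℓ' L L' : ℕ) (a : Site d) (E : ℝ), 1 ≤ Q → Q ≤ ℓ → Q ≤ ℓ' →
    |κ| + 12 * κ₃ ≤ κ₃ * ℓ → |κ| + 12 * κ₃ ≤ κ₃ * ℓ' → L₀ ≤ L → L₀ ≤ L' → Q * ℓ ≤ L →
    L < Q * (ℓ + 1) → Q * ℓ' ≤ L' → L' < Q * (ℓ' + 1) → box a (12 * (Q * ℓ)) ⊆ box 0 N →
    box a (12 * (Q * ℓ')) ⊆ box 0 N → GoodG V N Q ℓ a E κ₃ → GoodG V N Q ℓ' a E κ₃ →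
    CrossG V N Q ℓ ℓ' a E κ₃ → SG V L κ E a → SG V L' (κ - 12 * κ₃) E a

/-- ZOO: decay at the rate `κ` with a fixed positive probability at arbitrarily large scales implies
decay at each smaller rate with probability near one at all large scales. -/
def ZooStmt : Prop :=
  ∀ (d : ℕ) (σ E κ κ' δ p : ℝ), 1 ≤ d → σ ≠ 0 → κ' < κ → 0 < δ → 0 < p →
    (∀ L₁ : ℕ, ∃ L : ℕ, L₁ ≤ L ∧ ENNReal.ofReal δ ≤ PP d (gl σ) {V | SG V L κ E 0}) →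
    ∃ L₀ : ℕ, ∀ L : ℕ, L₀ ≤ L → PP d (gl σ) {V | ¬ SG V L κ' E 0} ≤ ENNReal.ofReal p

/-- LOCG: decay with a fixed positive probability at arbitrarily large scales implies
localization. -/
def LocGStmt : Prop :=
  ∀ (d : ℕ) (C₀ σ E κ δ : ℝ), 1 ≤ d → 0 < C₀ → σ ≠ 0 → 0 < κ → 0 < δ →
    (∀ L₁ : ℕ, ∃ L : ℕ, L₁ ≤ L ∧ ENNReal.ofReal δ ≤ PP d (gl σ) {V | SG V L κ E 0}) →
    E ∈ LocSet d C₀ σ

/-- LYA: the Lyapunov exponent exists at every energy. -/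
def LyaStmt : Prop :=
  ∀ (d : ℕ) (σ E : ℝ), 1 ≤ d → σ ≠ 0 → ∃ γ : ℝ, 0 ≤ γ ∧ ∀ ε : ℝ, 0 < ε →
    Tendsto (fun L : ℕ => PP d (gl σ) {V | SG V L (γ + ε) E 0}) atTop (𝓝 0) ∧
    Tendsto (fun L : ℕ => PP d (gl σ) {V | ¬ SG V L (γ - ε) E 0}) atTop (𝓝 0)

end Pool.Agent.LE
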