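import Pool.Agent.Mob.Stmts3

/-!
# The localized region and the zeros of the Lyapunov exponent: statements of the modules

Deterministic part: for one potential `V`, the Poisson smoothed spectral measures `wt V S η u` of the
vectors `u` of `ℓ²(ℤ^d)`. Probabilistic part: their means. `zz η E = E + i η`, `G V z = (H - z)⁻¹`,
`gz V Λ z = (z - H_Λ)⁻¹` (so `gz` tends to `- G`), `del x = δ_x`, `gl σ` the law of `σ ξ(0)`.

Useful lemmas: `IsRes` (`im_inner`: `Im ⟨f, G f⟩ = Im z ‖G f‖²`, `norm_le`, `adj`, `norm_conj`),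
`isRes_G`, `G_eq`, `G_unique`, `continuous_G`, `G_update_del`, `mf`, `im_G_del`, `shiftInv_PP`,
`resamp_PP`, `integral_poisson`, `inner_del_left`, `coord_apply`, `Lap_apply` (files
`Helper54_Ballistic/{Res,Ell,Int,Law,Evol,Cov,Main}.lean`, `Helper17_Anderson/Ell2.lean`);
`ExpStmt` is proved: `Pool.Agent.Mob.H47.exp_` (`Helper47_Mob/Exp.lean`).
-/

set_option autoImplicit false

open MeasureTheory ProbabilityTheory Function Filter

open scoped ENNReal BigOperators InnerProductSpace Topology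

noncomputable section

namespace Pool.Agent.LE.CH

open Pool.Agent.Anderson Pool.Agent.Loc Pool.Agent.Mob Pool.Agent.Helper54.Bal

variable {d : ℕ}

/-! ### definitions -/

/-- The mass in `S` of the spectral measure of `u`, smoothed at the scale `η`. -/
def wt (V : Site d → ℝ) (S : Set ℝ) (η : ℝ) (u : L2 d) : ℝ≥0∞ :=
  ∫⁻ E in S, ENNReal.ofReal (η / Real.pi * ‖G V (zz η E) u‖ ^ 2)

/-- `u` is orthogonal to the eigenfunctions with energies in `J`. -/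
def Orth (V : Site d → ℝ) (J : Set ℝ) (u : L2 d) : Prop :=
  ∀ (E : ℝ) (φ : L2 d), E ∈ J → IsEigen V E φ → ⟪φ, u⟫_ℂ = 0

/-- The eigenfunctions are complete in `[a - r, a + r]`. -/
def CplJ (V : Site d → ℝ) (a r : ℝ) : Prop :=
  ∀ u w : L2 d, (∀ x, w x = lap u x + (V x : ℂ) * u x) →
    Orth V (Set.Icc (a - r) (a + r)) u → r * ‖u‖ ≤ ‖w - (a : ℂ) • u‖

/-- The eigenfunctions are complete in the set `O` of energies. -/
def Cpl (V : Site d → ℝ) (O : Set ℝ) : Prop :=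
  ∀ a r : ℝ, Set.Icc (a - r) (a + r) ⊆ O → CplJ V a r

/-- The solution of `(z - H_Λ) v = u` in the cube `Λ = box 0 n`. -/
def fv (V : Site d → ℝ) (n : ℕ) (z : ℂ) (u : Site d → ℂ) (x : Site d) : ℂ :=
  ∑ y ∈ box (0 : Site d) n, gz V (box 0 n) z x y * u y

/-- The restriction to the cube. -/
def cut (n : ℕ) (u : Site d → ℂ) (x : Site d) : ℂ := if x ∈ box (0 : Site d) n then u x else 0

/-- The open sets `U k` carry arbitrarily little spectral measure. -/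
def Sml (V : Site d → ℝ) (U : ℕ → Set ℝ) : Prop :=
  ∀ (n : ℕ) (ε : ℝ), 0 < ε → ∃ k : ℕ, ∃ᶠ m : ℕ in atTop,
    ∑ x ∈ box (0 : Site d) n, wt V (U k) (1 / ((m : ℝ) + 1)) (del x) < ENNReal.ofReal ε

/-! ### finite volume -/

/-- FVW: the spectral decomposition of a vector in a cube. Proof: `ExpStmt` with `Λ = box 0 n` gives
real `φ j`, `lam j`, `j ∈ Λ`, orthonormal (`φ` is a square matrix with `gz V Λ z x y =
∑ j, φ j x φ j y / (z - lam j)`; orthonormality of the columns from `∑_j φ j x φ j y = δ_{xy}`: take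
`z = i t`, `t → ∞` in the formula for `z gz V Λ z x y`, or use the eigenvector equations and the
resolvent identity; or reprove the decomposition directly from `Matrix.IsHermitian` as in
`Helper47_Mob/Exp.lean`). `p j = |∑ x ∈ Λ, φ j x u x|²`. For `x ∈ Λ` the sum over neighbours in
`lap (cut n u) x` is the sum over neighbours in the cube, `H_Λ u`, and
`∑_x φ j x (H_Λ u)(x) = lam j ∑_x φ j x u x`. -/
def FvwStmt : Prop :=
  ∀ (d n : ℕ) (V : Site d → ℝ) (u : Site d → ℂ), ∃ p lam : (box (0 : Site d) n) → ℝ,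
    (∀ j, 0 ≤ p j) ∧ ∑ j, p j = ∑ x ∈ box (0 : Site d) n, ‖u x‖ ^ 2 ∧
    (∀ z : ℂ, z.im ≠ 0 →
      ∑ x ∈ box (0 : Site d) n, ‖fv V n z u x‖ ^ 2 = ∑ j, p j / ‖z - lam j‖ ^ 2) ∧
    ∀ a : ℝ, ∑ x ∈ box (0 : Site d) n,
      ‖lap (cut n u) x + (V x : ℂ) * u x - (a : ℂ) * u x‖ ^ 2 = ∑ j, p j * (lam j - a) ^ 2

/-- FVG: strong convergence of the finite volume resolvents. Proof: `g = G V z u`,
`b_n x = ∑ g y` over the neighbours `y ∉ box 0 n` of `x`. By `G_eq`, `(z - H_Λ)(- g) = u - b_n` in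
`Λ = box 0 n`, so `fv V n z u + g = fv V n z b_n` in `Λ`; by `FvwStmt`, `‖z - lam j‖ ≥ |z.im|`,
`∑ ‖fv V n z b_n x‖² ≤ |z.im|⁻² ∑_{x ∈ Λ} ‖b_n x‖² ≤ |z.im|⁻² (2 d)² ∑_{y ∉ Λ} ‖g y‖² → 0`. -/
def FvgStmt : Prop :=
  ∀ (d : ℕ) (V : Site d → ℝ) (z : ℂ) (u : L2 d), z.im ≠ 0 →
    Tendsto (fun n : ℕ => ∑ x ∈ box (0 : Site d) n, ‖fv V n z u x + G V z u x‖ ^ 2) atTop (𝓝 0) ∧
    Tendsto (fun n : ℕ => ∑ x ∈ box (0 : Site d) n, ‖fv V n z u x‖ ^ 2) atTop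
      (𝓝 (‖G V z u‖ ^ 2)) ∧
    ∀ x : Site d, Tendsto (fun n : ℕ => fv V n z u x) atTop (𝓝 (-G V z u x))

/-! ### the smoothed spectral measures -/

/-- WTL: the total mass. Proof: `FvwStmt`, `integral_poisson`: in finite volume the integral over all
`E` is `∑ j, p j ≤ ‖u‖²`; `FvgStmt` and Fatou. (For `u = δ_0` this is `Pool.Agent.Mob.TotStmt`.) -/
def WtlStmt : Prop :=
  ∀ (d : ℕ) (V : Site d → ℝ) (S : Set ℝ) (η : ℝ) (u : L2 d), 0 < η →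
    wt V S η u ≤ ENNReal.ofReal (‖u‖ ^ 2)

/-- WTA: `wt` of a sum, of a multiple, and of a combination of the `δ_x`
(`‖∑ u x G δ_x‖² ≤ (∑ ‖u x‖²) (∑ ‖G δ_x‖²)`). -/
def WtaStmt : Prop :=
  ∀ (d : ℕ) (V : Site d → ℝ) (S : Set ℝ) (η : ℝ), 0 < η →
    (∀ u v : L2 d, wt V S η (u + v) ≤ 2 * wt V S η u + 2 * wt V S η v) ∧
    (∀ (c : ℂ) (u : L2 d), wt V S η (c • u) = ENNReal.ofReal (‖c‖ ^ 2) * wt V S η u) ∧
    ∀ (n : ℕ) (u : L2 d), wt V S η (∑ x ∈ box (0 : Site d) n, u x • del x) ≤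
      ENNReal.ofReal (‖u‖ ^ 2) * ∑ x ∈ box (0 : Site d) n, wt V S η (del x)

/-- WTE: eigenfunctions. Proof: `G φ = φ / (E₀ - z)` (`G_unique`). (1) `∫_{|E - E₀| ≥ s} dE /
(E - E₀)² = 2 / s`. (2) `⟪φ, G u⟫ = ⟪G* φ, u⟫ = ⟪φ, u⟫ / (E₀ - z)`, so `‖⟪φ, u⟫‖² / ((E - E₀)² + η²)
≤ ‖φ‖² ‖G u‖²`; integrate over `|E - E₀| < s`: `∫ η / π / (..) = (2 / π) arctan (s / η) ≥ 1 / 2`. -/
def WteStmt : Prop :=
  ∀ (d : ℕ) (V : Site d → ℝ) (S : Set ℝ) (η s E₀ : ℝ) (φ : L2 d), 0 < η → 0 < s →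
    IsEigen V E₀ φ →
    ((∀ E ∈ S, s ≤ |E - E₀|) → wt V S η φ ≤ ENNReal.ofReal (η / s * ‖φ‖ ^ 2)) ∧
    (η ≤ s → Set.Ioo (E₀ - s) (E₀ + s) ⊆ S → ∀ u : L2 d,
      ENNReal.ofReal (‖⟪φ, u⟫_ℂ‖ ^ 2) ≤ ENNReal.ofReal (2 * ‖φ‖ ^ 2) * wt V S η u)

/-- WTC: complete eigenfunctions, an orthogonal vector. Proof: `g = G V z v`, `z = zz η E`. For an
eigenfunction `φ`, `⟪φ, v⟫ = (E₀ - z) ⟪φ, g⟫` (`adj`, `G* φ = φ / (E₀ - conj z)`), so `Orth V J g`.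
`H g = v + z g`, so `r ‖g‖ ≤ ‖v + (z - a) g‖ ≤ ‖v‖ + (|E - a| + η) ‖g‖`, and `η ‖g‖ ≤ ‖v‖`. -/
def WtcStmt : Prop :=
  ∀ (d : ℕ) (V : Site d → ℝ) (a r η E : ℝ) (v : L2 d), 0 < η → CplJ V a r →
    Orth V (Set.Icc (a - r) (a + r)) v → (r - |E - a|) * ‖G V (zz η E) v‖ ≤ 2 * ‖v‖

/-- PTI: a pointwise inequality. Proof: `s = |t - a|`. If `s ≥ r - √η` use `(r - s)(r + s) ≤ 2 r √η`.
Otherwise the integral is `(arctan ((a + r - t) / η) + arctan ((t - a + r) / η)) / π ≥ 1 - √η`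
(`arctan y ≥ π / 2 - 1 / y`, `y ≥ 1 / √η`). -/
def PtiStmt : Prop :=
  ∀ a r η t : ℝ, 0 ≤ r → 0 < η → η ≤ 1 →
    r ^ 2 ≤ (t - a) ^ 2 + (r ^ 2 + 3 * r) * √η +
      r ^ 2 * ∫ E in Set.Icc (a - r) (a + r), η / Real.pi / ((E - t) ^ 2 + η ^ 2)

/-- WTQ: a vector with little mass in `[a - r, a + r]`. Proof: `PtiStmt` with `t = lam j`,
multiplied by `p j` and summed (`FvwStmt`), gives the inequality in finite volume; `n → ∞`:
`∑_{x ∈ Λ} ‖lap (cut n u) x + V x u x - a u x‖² → ‖w - a u‖²` since `lap (cut n u) x = lap u x -` (the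
sum over the neighbours outside), whose `ℓ²` norm tends to `0`; the integral over the compact
interval converges by `FvgStmt` and dominated convergence (`∑ ‖fv‖² ≤ ‖u‖² / η²`). -/
def WtqStmt : Prop :=
  ∀ (d : ℕ) (V : Site d → ℝ) (a r η : ℝ) (u w : L2 d), 0 ≤ r → 0 < η → η ≤ 1 →
    (∀ x, w x = lap u x + (V x : ℂ) * u x) →
    ENNReal.ofReal (r ^ 2 * ‖u‖ ^ 2) ≤
      ENNReal.ofReal (‖w - (a : ℂ) • u‖ ^ 2 + (r ^ 2 + 3 * r) * √η * ‖u‖ ^ 2) +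
        ENNReal.ofReal (r ^ 2) * wt V (Set.Icc (a - r) (a + r)) η u

/-- WTS: the span of eigenfunctions with energies outside of a closed set. Proof: each `φ` with
`E₀ ∉ B` satisfies `s ≤ |E - E₀|` on `B` for some `s > 0` (`WteStmt` (1)); finite combinations by
`WtaStmt`; the closure by `WtaStmt` and `WtlStmt`. -/
def WtsStmt : Prop :=
  ∀ (d : ℕ) (V : Site d → ℝ) (B : Set ℝ) (u : L2 d), IsClosed B →
    u ∈ closure (Submodule.span ℂ {φ : L2 d | ∃ E₀ : ℝ, E₀ ∉ B ∧ IsEigen V E₀ φ} : Set (L2 d)) →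
    Tendsto (fun η : ℝ => wt V B η u) (𝓝[>] 0) (𝓝 0)

/-- LIM: no eigenvalue in `B`, complete eigenfunctions near `B`. Proof: `M` the closure of the span of
the eigenfunctions with energies in `J = [a - r, a + r]` (they are not in `B`, or zero),
`u = m + v`, `m ∈ M`, `v ∈ Mᗮ`. `WtsStmt` for `m`; `WtcStmt` for `v`:
`‖G V (zz η E) v‖ ≤ (4 / r) ‖v‖` for `E ∈ B`, so `wt V B η v ≤ C η`. `WtaStmt`. -/
def LimStmt : Prop :=
  ∀ (d : ℕ) (V : Site d → ℝ) (a r : ℝ) (B : Set ℝ) (u : L2 d), IsClosed B → 0 < r →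
    B ⊆ Set.Icc (a - r / 2) (a + r / 2) → CplJ V a r →
    (∀ E ∈ B, ∀ φ : L2 d, IsEigen V E φ → φ = 0) →
    Tendsto (fun η : ℝ => wt V B η u) (𝓝[>] 0) (𝓝 0)

/-- NUL: no eigenvalue in the intersection of the `U k`. Proof: let `IsEigen V E φ`, `E ∈ U k` for all
`k`, `x` a site, `x ∈ box 0 n`. For `ε > 0` take `k` from `Sml V U`, `s` with `Ioo (E - s) (E + s) ⊆
U k`, and `m` with `1 / (m + 1) ≤ s` and the sum less than `ε`; `WteStmt` (2): `‖φ x‖² ≤ 2 ‖φ‖² ε`. -/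
def NulStmt : Prop :=
  ∀ (d : ℕ) (V : Site d → ℝ) (U : ℕ → Set ℝ), (∀ k, IsOpen (U k)) → Sml V U →
    ∀ E : ℝ, (∀ k, E ∈ U k) → ∀ φ : L2 d, IsEigen V E φ → φ = 0

/-- CPG: completeness outside of a negligible set. Proof: let `J = [a - r, a + r] ⊆ I`, `r > 0`,
`w = H u`, `Orth V J u`, `0 < r' < r`, `J' = [a - r', a + r']`. It is enough that `r' ‖u‖ ≤
‖w - a u‖`. By `WtqStmt` (with `r'`), for all `η ≤ 1`, `r'² ‖u‖² ≤ ‖w - a u‖² + C √η ‖u‖² +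
r'² (wt V (J' \ U k) η u + wt V (U k) η u)`.
(1) `J' \ U k` is compact and contained in `O ∩ Ioo (a - r) (a + r)`: each of its points `E₁` has
`s > 0` with `[E₁ - s, E₁ + s] ⊆ O ∩ J`, so `CplJ V E₁ s`, and `Orth V [E₁ - s, E₁ + s] u`
(`Orth` is monotone), so `‖G V (zz η E) u‖ ≤ (4 / s) ‖u‖` for `|E - E₁| < s / 2` (`WtcStmt`). By
compactness `‖G V (zz η E) u‖ ≤ C_k` on `J' \ U k`, all `η > 0`, and `wt V (J' \ U k) η u ≤ C'_k η`.
(2) `u = u_n + v_n`, `u_n = ∑ x ∈ box 0 n, u x • del x`, `‖v_n‖ → 0`; by `WtaStmt`, `WtlStmt`,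
`wt V (U k) η u ≤ 2 ‖u‖² ∑ x ∈ box 0 n, wt V (U k) η (del x) + 2 ‖v_n‖²`.
Given `ε`, choose `n`, then `k` by `Sml V U`, then `η = 1 / (m + 1)` with `m` large. -/
def CpgStmt : Prop :=
  ∀ (d : ℕ) (V : Site d → ℝ) (U : ℕ → Set ℝ) (O I : Set ℝ), IsOpen O → (∀ k, IsOpen (U k)) →
    Sml V U → (∀ k, I ⊆ O ∪ U k) → Cpl V O → Cpl V I

/-! ### means -/

/-- MEW: measurability. Proof: `continuous_G`; `Measurable.lintegral_prod_right'`. -/
def MewStmt : Prop :=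
  ∀ (d : ℕ) (S : Set ℝ) (η : ℝ) (u : L2 d), 0 < η → MeasurableSet S →
    Measurable fun V : Site d → ℝ => wt V S η u

/-- AVU: the upper bound (Wegner). Proof: `η ‖G δ_x‖² = Im (G δ_x) x`. For `x = 0`: with
`g' = G (update V 0 0) z (del 0) 0`, `h = 1 / g'`, `G V z (del 0) 0 = 1 / (V 0 + h)` (`G_update_del`),
`Im h < 0`, so the mean over `V 0` with density `≤ 1 / (√(2 π) |σ|)` is at most
`π / (√(2 π) |σ|) ≤ π / |σ|` (`resamp_PP`, `integral_poisson`). For general `x`: `G V z (del x)` is the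
translate of `G (tau x V) z (del 0)` (`G_unique`), `shiftInv_PP`. Tonelli. -/
def AvuStmt : Prop :=
  ∀ (d : ℕ) (σ η : ℝ) (S : Set ℝ) (x : Site d), σ ≠ 0 → 0 < η → MeasurableSet S →
    ∫⁻ V, wt V S η (del x) ∂(PP d (gl σ)) ≤ ENNReal.ofReal (1 / |σ|) * volume S

/-- AVF: the lower bound in finite volume. Proof: `Λ = box 0 n`, `z = zz η E`, `g y = gz V Λ z 0 y`.
(1) The equation at `0`: `(z - V 0) g 0 - ∑_{y ∼ 0} g y = 1`. If `|V 0| ≤ M₁`, then either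
`|g 0| ≥ 1 / (2 (M₁ + K + 1))` or `|g y| ≥ 1 / (4 d)` for some neighbour `y`. By `VtzStmt`
(`LE/StmtsM.lean`, proved: `Pool.Agent.LE.MN.H28.vtz`, `Helper28_LYM/VTZ.lean`) with `S = {0}`,
`u = y`, `y = 0`: `P(τ |g 0| < |g y|²) ≤ 8 / (|σ| τ)` (`gz` is symmetric). So `P(|g 0| < c₁) ≤ 1 / 2`
with `c₁ = c₁(d, σ, K) > 0`, all `n ≥ 1`.
(2) `g 0 = 1 / (z - V 0 - m)`, `m` independent of `V 0` (Schur; as a function of `v = V 0`, with the
other values fixed, `1 / g 0 = z - v - m`, from the resolvent identity for the change of `V 0`,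
`Im m < 0`). If `|g 0| ≥ c₁` and `|V 0| ≤ M₁` then `|z - m| ≤ M₂ = M₁ + 1 / c₁`; this event for `z - m`
has probability at least `1 / 4`, and is independent of `V 0`. On it, `z - m = a + i b`, `|a| ≤ M₂`,
`0 < b ≤ M₂`, `- Im g 0 = b / ((a - v)² + b²)`, whose mean over `v` is at least
`ρ_min ∫_{|v - a| ≤ M₂} b / ((a - v)² + b²) dv ≥ ρ_min π / 2`, `ρ_min` the minimum of the density of
`gl σ` on `[-2 M₂, 2 M₂]`. -/
def AvfStmt : Prop :=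
  ∀ (d : ℕ) (σ K : ℝ), 1 ≤ d → σ ≠ 0 → ∃ c : ℝ, 0 < c ∧ ∀ (n : ℕ) (η E : ℝ), 1 ≤ n → |E| ≤ K →
    0 < η → η ≤ 1 →
      ENNReal.ofReal c ≤
        ∫⁻ V, ENNReal.ofReal (-(gz V (box (0 : Site d) n) (zz η E) 0 0).im) ∂(PP d (gl σ))

/-- AVL: the lower bound. Proof: `fv V n z (del 0) 0 = gz V (box 0 n) z 0 0`, so by `FvgStmt`
`- Im gz V (box 0 n) (zz η E) 0 0 → Im (G V (zz η E) (del 0) 0) = η ‖G V (zz η E) (del 0)‖²`; it is
bounded by `1 / η`; dominated convergence in `AvfStmt`; Tonelli. -/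
def AvlStmt : Prop :=
  ∀ (d : ℕ) (σ K : ℝ), 1 ≤ d → σ ≠ 0 → ∃ c : ℝ, 0 < c ∧ ∀ (η : ℝ) (S : Set ℝ), 0 < η → η ≤ 1 →
    MeasurableSet S → S ⊆ Set.Icc (-K) K →
      ENNReal.ofReal c * volume S ≤ ∫⁻ V, wt V S η (del (0 : Site d)) ∂(PP d (gl σ))

/-- SML: null sets of energies. Proof: open `U k ⊇ Z`, `volume (U k) ≤ 4⁻ᵏ` (outer regularity). By
`AvuStmt`, Fatou and `MewStmt`, the mean of `liminf_m ∑ x ∈ box 0 n, wt V (U k) (1 / (m + 1)) (del x)`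
is at most `(2 n + 1)^d / |σ| 4⁻ᵏ`, so almost surely it tends to `0` as `k → ∞`, for each `n`. -/
def SmlStmt : Prop :=
  ∀ (d : ℕ) (σ : ℝ) (Z : Set ℝ), σ ≠ 0 → volume Z = 0 →
    ∃ U : ℕ → Set ℝ, (∀ k, IsOpen (U k) ∧ Z ⊆ U k) ∧ ∀ᵐ V ∂(PP d (gl σ)), Sml V U

/-- CNV: an eigenvalue free set of positive measure, near which the eigenfunctions are complete, does
not exist. Proof: otherwise `wt (W ω) B η (del 0) → 0` almost surely (`LimStmt`), it is at most `1`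
(`WtlStmt`, `‖del 0‖ = 1`) and measurable (`MewStmt`), so its mean tends to `0`
(`η = 1 / (m + 1)`), but the mean is at least `c volume B > 0` (`AvlStmt`, `lintegral_map`). -/
def CnvStmt.{u} : Prop :=
  ∀ (d : ℕ) (σ a r : ℝ) (B : Set ℝ), 1 ≤ d → σ ≠ 0 → IsClosed B → 0 < r →
    B ⊆ Set.Icc (a - r / 2) (a + r / 2) → 0 < volume B →
    ∀ (Ω : Type u) [MeasurableSpace Ω] (P : Measure Ω) [IsProbabilityMeasure P]
      (W : Ω → Site d → ℝ), Measurable W → P.map W = PP d (gl σ) →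
      ¬ ∀ᵐ ω ∂P, CplJ (W ω) a r ∧ ∀ E ∈ B, ∀ φ : L2 d, IsEigen (W ω) E φ → φ = 0

end Pool.Agent.LE.CH
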