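import Pool.Agent.LE.DefsI

/-!
# The Lyapunov exponent between the effective band edge and the bulk

Statements of the modules, with proofs. `z` is the effective band edge at the scale `t`, the energy is
`E = z - lam`, `50 / t ≤ lam ≤ 100 / t`, `G = growth d t`, `L = log (1 / |σ|) + log t`. The final
theorem is `PieStmt` (`StmtsJ.lean`): if `K σ² G² L^{2 d + 10} ≤ lam^{(d-4)/2}` then
`γ(σ, E) ≤ K σ² G √lam L^{d + 6}`. So `γ ≤ C σ² log^C (1 / |σ|)` for all energies inside of the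
effective band edge if `d = 3, 4, 5`.

MAIN IDEA. (A) Let `ω = DD z V / μ` be the flat landscape function, `h = 1 / μ`, `(z - H) ω = h`. Then
`ω (E - H) ω = - div ω ω grad + h ω - lam ω² =: aop`. Compare with the free operator
`fop = w² (2 d - Δ - l)`, `w` = the mean of `ω`, `l = lam - h / w`. `W = aop - fop` is small relative to
`m = √((ds - l)² + η²)`, `η = K σ² G lam L^{d+4}`: for momenta with `ds ≥ 4 l` only the sup norm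
`ε ~ √(L G) σ` of `ω - 1` is needed, also for the coupling of these momenta to the low momenta. Low
to low: only the low frequency part of `ω - w` enters; its first order part `(2 d - Δ + h)⁻¹ V` is
linear in `V` (noncommutative Khintchine inequality, `NckStmt`, `KhlStmt`), the rest is small
(`LflStmt`, `FloStmt`).

(B) The cluster lemma on the torus. `ψ_x = χ G(x, ·)`, `x ∈ C`, lives in `C'`, `|C'| ≤ 2 |C|`. With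
`T = 1 - (E - H) / (8 d)` and `s_x = (1 / 8 d) ∑_{j < n} T^j δ_x`, `n ≈ c / (lam log (1 / lam))`, one has
`(E - H) s_x = δ_x - T^n δ_x`, so `g_x - s_x / ω`, `g_x = ψ_x / ω`, solves
`aop (g_x - s_x / ω) = ω T^n δ_x =: S_x`. `S_x` is a smooth bump of mass about `1` (`HkeStmt`,
`CvbStmt`, `FmoStmt`, `SrcStmt`). Then as in the bulk (`StmtsP.lean`): linear algebra (`LaqStmt`),
Hilbert-Schmidt bound (`HseStmt`), pairing with a test multiplier (`PaeStmt`).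

(C) The test multiplier is concentrated near a point of the energy surface `ds = l`; the kernel of
`q (ds - l)` is at most `C T^{-(d+1)/2} l^{-1/2}` (`KbeStmt`, `TseStmt`).
-/

set_option autoImplicit false

open MeasureTheory ProbabilityTheory Function Filter

open scoped ENNReal BigOperators Topology NNReal ComplexOrder

noncomputable section

namespace Pool.Agent.LE.IR

open Pool.Agent.Anderson hiding box mem_box card_box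
open Pool.Agent.Loc Pool.Agent.Mob Pool.Agent.Helper54.Bal
  Pool.Agent.Helper96.EXP Pool.Agent.BED
open Pool.Agent.LE.MN Pool.Agent.LE.CL

/-! ### A. Fourier transform, form bound -/

/-- FTB: the Fourier transform on the torus. All parts are routine: `∑_y ec p y = M^d` if `p = 0`, `0`
otherwise. -/
def FtbStmt : Prop :=
  ∀ (d M : ℕ) [NeZero M],
    (∀ p y : Tor d M, ‖ec p y‖ = 1) ∧
    (∀ p y z : Tor d M, ec p (y + z) = ec p y * ec p z) ∧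
    (∀ p q y : Tor d M, ec (p + q) y = ec p y * ec q y) ∧
    (∀ p y : Tor d M, ec (-p) y = (starRingEnd ℂ) (ec p y) ∧ ec p (-y) = (starRingEnd ℂ) (ec p y)) ∧
    (∀ f g : Tor d M → ℂ, ∑ x, (starRingEnd ℂ) (g x) * f x =
      (∑ p, (starRingEnd ℂ) (ft g p) * ft f p) / (M : ℂ) ^ d) ∧
    (∀ f : Tor d M → ℂ, ∑ x, ‖f x‖ ^ 2 = pm fun p => ‖ft f p‖ ^ 2) ∧
    (∀ (f : Tor d M → ℂ) (x : Tor d M), f x = (∑ p, ec p x * ft f p) / (M : ℂ) ^ d) ∧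
    (∀ F : Tor d M → ℂ, ∃ f : Tor d M → ℂ, ∀ p, ft f p = F p) ∧
    (∀ (f : Tor d M → ℂ) (p : Tor d M),
      ft (fun x => ∑ i : Fin d, (2 * f x - f (x + ev i) - f (x - ev i))) p = (ds p : ℂ) * ft f p) ∧
    (∀ f : Tor d M → ℂ, ∑ x, ∑ i : Fin d, ‖f (x + ev i) - f x‖ ^ 2 =
      pm fun p => ds p * ‖ft f p‖ ^ 2) ∧
    (∀ (J : ℕ) (f : Tor d M → ℝ) (p : Tor d M), ft (fun x => (lpf J f x : ℂ)) p =
      if p ∈ low d M J then ft (fun x => (f x : ℂ)) p else 0) ∧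
    ∀ (h : ℝ) (V : Tor d M → ℝ) (p : Tor d M), 0 < h →
      ft (fun x => (gv h V x : ℂ)) p = ft (fun x => (V x : ℂ)) p / ((ds p + h : ℝ) : ℂ)

/-- NCK: noncommutative Khintchine inequality. Proof: truncate at `|V y| ≤ r √v` (the probability of
the complement is at most `2 |ι| e^{-r²/2}`), introduce independent signs. For `X = ∑ ε_y A_y`,
`∑ A_y² ≤ Θ' = r² v Θ`: `E tr X^{2k} = ∑_y E tr ε_y A_y X^{2k-1}`; the difference of the values for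
`ε_y = ± 1` is `2 ∑_j tr A_y X_+^j A_y X_-^{2k-2-j}`, at most `(2k-1) (tr A_y² X_+^{2k-2} +
tr A_y² X_-^{2k-2})` (eigenbases of `X_±`, `a^j b^{m-j} + a^{m-j} b^j ≤ |a|^m + |b|^m`), so
`E tr X^{2k} ≤ (2k-1) Θ' E tr X^{2k-2} ≤ … ≤ (2 k Θ')^k |n|`. Markov. (As
`Helper17_Anderson/Khintchine.lean`, `Prob.lean`, where `A_y = D y C e_y e_y^* C`.) -/
def NckStmt : Prop :=
  ∀ (ι n : Type) [Fintype ι] [DecidableEq ι] [Fintype n] [DecidableEq n]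
    (X : ι → Matrix n n ℂ) (v : ℝ≥0) (Θ τ r : ℝ) (k : ℕ), (∀ y, (X y).IsHermitian) → 0 ≤ Θ →
    (∀ u : n → ℂ, ∑ y, nsq (Matrix.mulVec (X y) u) ≤ Θ * nsq u) → 0 < τ → 0 ≤ r → 1 ≤ k →
      (Measure.pi fun _ : ι => gaussianReal 0 v)
        {V | ¬ ∀ u : n → ℂ, nsq (Matrix.mulVec (∑ y, (V y : ℂ) • X y) u) ≤ τ ^ 2 * nsq u} ≤
          ENNReal.ofReal (2 * Fintype.card ι * Real.exp (-(r ^ 2 / 2)) +
            Fintype.card n * (2 * k * r ^ 2 * v * Θ / τ ^ 2) ^ k)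

/-- KHL: the linear part on the low momenta. Proof: `θ = gv h V`, `θ̂(p) = V̂(p) / (ds p + h)`. For
`p, q ∈ low`: `∑_x conj (ec p) (tpo θ w c (ec q)) = θ̂(p - q) [w ∑_i (1 + ec (p - q) (ev i))
conj (ec p (ev i) - 1) (ec q (ev i) - 1) + c] = V̂(p - q) t(p, q)`, and `|t| ≤ C`, since
`|ec p (ev i) - 1| ≤ 2 π J / M ≤ 2 π √lam`, `|c| ≤ 5 lam`, `lam ≤ 1200 h`, `ds + h ≥ h`. With
`f̂ = m^{-1/2} a`, `ĝ = m^{-1/2} b` on `low` the left side of `KE` is `|⟨b, X a⟩|²`,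
`X = ∑_y V y X_y` (in the norms of `pm`), `X_y(p, q) = M^{-d} conj (ec (p - q) y) t(p, q)
(m(p) m(q))^{-1/2}`, Hermitian, `∑_y X_y² = diag (m(p)⁻¹ M^{-d} ∑_{r ∈ low} |t(p, r)|² / m(r))
≤ C² B / η`. `NckStmt` with `Θ = C² B / η`; `|low| ≤ (2 J + 1)^d`. -/
def KhlStmt : Prop :=
  ∀ d : ℕ, 1 ≤ d → ∃ C : ℝ, 1 ≤ C ∧ ∀ (M J : ℕ) [NeZero M] (v : ℝ≥0) (w h lam l η τ r B : ℝ)
    (k : ℕ), 1 / 2 ≤ w → w ≤ 2 → 0 < h → h ≤ lam → lam ≤ 1200 * h →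
    (J : ℝ) ^ 2 ≤ lam * (M : ℝ) ^ 2 → 0 < η → 0 < τ → 0 ≤ r → 1 ≤ k →
    pm (fun p => if p ∈ low d M J then (mt l η p)⁻¹ else 0) ≤ B →
      gau d M v {V | ¬ KE J (gv h V) w (h - 2 * lam * w) l η τ} ≤
        ENNReal.ofReal (2 * (M : ℝ) ^ d * Real.exp (-(r ^ 2 / 2)) +
          (2 * (J : ℝ) + 1) ^ d * (C * k * r ^ 2 * v * B / (η * τ ^ 2)) ^ k)

/-- LFL: Lipschitz bound for the low frequency part of `ω - (2 d - Δ + h)⁻¹ V` (deterministic). Proof: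
`h = 1 / μ`, `ω = om z μ V`, `ω' = om z μ V'`, `G = GM z V`, `ω - ω' = G ((V - V') ω')` (resolvent
identity, `(z - H_V) ω = h`). `R = ω⁻¹ G ω⁻¹` is the inverse of `- div ω ω grad + h ω`
(`AM_doob`), so `⟨u, R⁻¹ u⟩ ≥ 0.96 |∇u|² + 0.98 h |u|²`, `|R| ≤ 1.1 / h` and `|∇ R u|² ≤
1.1 / h |u|²`. Let `φ = dk J (x - ·)`, `|φ|² = |low| / M^d`, `G₀ = (2 d - Δ + h)⁻¹`. The left side is
`⟨k, V - V'⟩`, `k = φᵀ (ω R ω ω' - G₀) = φᵀ (ω - 1) R ω ω' + φᵀ R (ω ω' - 1) + φᵀ (R - G₀)` and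
`φᵀ (R - G₀) = φᵀ G₀ [(2 d - Δ + h) - (- div ω ω grad + h ω)] R`, in absolute value at most
`|∇ G₀ φ| 3 ε |∇ R| + |G₀ φ| h ε |R|`, `|∇ G₀ φ| ≤ h^{-1/2} |φ|`. So `|k| ≤ C ε |φ| / h`. -/
def LflStmt : Prop :=
  ∀ d : ℕ, 1 ≤ d → ∃ C : ℝ, 1 ≤ C ∧ ∀ (M J : ℕ) [NeZero M] (z μ ε : ℝ) (V V' : Tor d M → ℝ)
    (x : Tor d M), 0 < μ → 0 < ε → ε ≤ 1 / 50 → FlatE ε z μ V → FlatE ε z μ V' →
      |lpf J (fun y => om z μ V y - om z μ V' y - gv (1 / μ) (fun u => V u - V' u) y) x| ≤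
        C * ε * μ * Real.sqrt ((low d M J).card / (M : ℝ) ^ d) *
          Real.sqrt (∑ u, (V u - V' u) ^ 2)

/-- FLO: the low frequency part of `ω - (2 d - Δ + h)⁻¹ V` is constant up to a small error. Proof:
`Φ_x(V) = lpf J (om z μ V - gv (1/μ) V) x = Φ_0(tr x V)` (`CovStmt`). By `LflStmt` `Φ_0` is Lipschitz
with the constant `K` on the set of the `V` with `FlatE`; extension `F`
(`LipschitzOnWith.extend_real`), `w = ∫ F`. Gaussian concentration (`GCStmt`) for `F (tr x V)`, all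
`x`. For `w`: the mean of `Φ_x(V)` over `x` is the mean of `ω` minus `μ` times the mean of `V`; the
latter is at most `ε / μ` with probability `≥ 3/4` (Chebyshev), and `q ≤ 1/4`, so some `V` has
everything: `|w - 1| ≤ r + ε + ε`. `lpf J w = w`. -/
def FloStmt : Prop :=
  ∀ d : ℕ, 1 ≤ d → ∃ C : ℝ, 1 ≤ C ∧ ∀ (M J : ℕ) [NeZero M] (v : ℝ≥0) (z μ ε p r q : ℝ),
    0 < μ → 0 < ε → ε ≤ 1 / 50 → 0 < v → 0 ≤ p → 0 < r → r ≤ ε →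
    gau d M v {V | ¬ FlatE ε z μ V} ≤ ENNReal.ofReal p →
    q = p + 2 * (M : ℝ) ^ d *
      Real.exp (-(r ^ 2 / (C * v * ε ^ 2 * μ ^ 2 * ((low d M J).card / (M : ℝ) ^ d)))) →
    q ≤ 1 / 4 → 4 * v * μ ^ 2 < ε ^ 2 * (M : ℝ) ^ d →
      ∃ w : ℝ, |w - 1| ≤ 3 * ε ∧
        gau d M v {V | ¬ ∀ x, |lpf J (fun y => om z μ V y - w - gv (1 / μ) V y) x| ≤ r} ≤
          ENNReal.ofReal q

/-- FFB: the form bound (deterministic). Proof: by duality (`FtbStmt`) it is enough to show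
`|⟨g, W f⟩| ≤ τ |g|_m |f|_m`, `W f = aop f - fop f`, `|f|_m² = pm (m |f̂|²)`. With `δ = ω - w`,
`|δ| ≤ 4 ε`: `W f = tpo δ w (h - 2 lam w) f + R₂ f`, `R₂ f = ∑ δ δ⁺ (f - f⁺) + ∑ δ δ⁻ (f - f⁻) -
lam δ² f`. Let `f = f_L + f_H`, `f_L` the part with the momenta in `low J`. Outside of `low J`:
`ds ≥ 16 J² / M² ≥ 4 lam ≥ 4 l`, so `m ≥ (3/4) ds ≥ c (ds + lam)`; in `low J`: `ds ≤ 4 π² d lam`.
`|⟨g, W f⟩| ≤ C ε (|∇g| |∇f| + lam |g| |f|)` gives for (high, high) `C ε`, and for (low, high)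
`C ε √lam |g_L| |f_H|_m ≤ C ε √(lam / η) |g_L|_m |f_H|_m`. (low, low): `R₂`: `C ε² lam / η`; `tpo δ` =
`tpo (gv)` (`KE`) + `tpo (δ - θ)`, and in `⟨g_L, tpo (δ - θ) f_L⟩` only the frequencies in
`low (2 J)` of `δ - θ` enter: `δ - θ` may be replaced by `lpf (2 J) (δ - θ)`: `C δ₂ lam / η`. -/
def FfbStmt : Prop :=
  ∀ d : ℕ, 1 ≤ d → ∃ C : ℝ, 1 ≤ C ∧ ∀ (M J : ℕ) [NeZero M] (ω θ : Tor d M → ℝ)
    (w ε δ₂ h lam l η τ : ℝ), 0 < ε → C * ε ≤ τ → τ ≤ 1 → |w - 1| ≤ 3 * ε →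
    (∀ x, |ω x - 1| ≤ ε) → 0 < h → 100 * h ≤ lam → lam ≤ 1 → l = lam - h / w →
    lam * (M : ℝ) ^ 2 ≤ 4 * (J : ℝ) ^ 2 → (J : ℝ) ^ 2 ≤ lam * (M : ℝ) ^ 2 → 0 < η → η ≤ lam →
    0 ≤ δ₂ → (∀ x, |lpf (2 * J) (fun y => ω y - w - θ y) x| ≤ δ₂) →
    KE J θ w (h - 2 * lam * w) l η (τ / 4) → C * ε ^ 2 * lam ≤ τ ^ 2 * η →
    C * δ₂ * lam ≤ τ * η →
      FBd ω h lam w l η τ

/-- DST: the density of states near the edge, on the torus. Proof: for `ds p ≤ e ≤ 1` all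
`|p_i| ≤ M / 6`. The coordinates `p_3, …, p_d`: at most `(C M √e)^{d-2}` values (`M √e ≥ 1`). For
fixed `p_3, …, p_d` compare the sum over `(p_1, p_2)` with the integral over the cells of side `1/M`:
`4 sin² (π x) + 4 sin² (π y)` changes by at most `8 π / M ≤ η / 2` on a cell, so
`M^{-2} ∑ ker ≤ C ∫∫_{|x|, |y| ≤ 1/4} ker`, `ker = η / ((X² + Y² - a)² + η²)`, `X = 2 sin (π x)`;
`dx ≤ dX / (√2 π)`; polar coordinates: `≤ C ∫_0^∞ η / ((ρ - a)² + η²) dρ ≤ C π`. -/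
def DstStmt : Prop :=
  ∀ d : ℕ, 3 ≤ d → ∃ C : ℝ, 1 ≤ C ∧ ∀ (M : ℕ) [NeZero M] (e l η : ℝ), 0 < η → η ≤ e → e ≤ 1 →
    C / η ≤ M →
      pm (fun p : Tor d M => if ds p ≤ e then η / ((ds p - l) ^ 2 + η ^ 2) else 0) ≤
        C * e ^ (((d : ℝ) - 2) / 2)

/-- SMS: sums over the low momenta. Proof: first: `ds ≤ 4 l`: `DstStmt` with `e = 4 l`; `4 l < ds ≤ κ`:
`m ≥ (3/4) ds`, dyadic decomposition, `pm 1_{ds ≤ e} ≤ 2 C e^{d/2}` (`DstStmt` with `l = 0`,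
`η = e`): at most `C (κ / l) (l^{(d-4)/2} + κ^{(d-4)/2}) ≤ C l^{(d-2)/2} / η`. Second: `1 / m` is at
most a sum of `C (1 + log (κ / η))` kernels `C η_j / ((ds - l)² + η_j²)`, `η_j = 2^j η ≤ κ`, and
`C / κ` (`inv_sqrt_le` in `Helper17_Anderson/Kappa.lean`). -/
def SmsStmt : Prop :=
  ∀ d : ℕ, 3 ≤ d → ∃ C : ℝ, 1 ≤ C ∧ ∀ (M : ℕ) [NeZero M] (l η κ : ℝ), 0 < η → η ≤ l →
    4 * l ≤ κ → κ ≤ 1 → C / η ≤ M →
      (η * (κ / l) ^ d ≤ l →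
        pm (fun p : Tor d M => if ds p ≤ κ then (mt l η p ^ 2)⁻¹ else 0) ≤
          C * l ^ (((d : ℝ) - 2) / 2) / η) ∧
      pm (fun p : Tor d M => if ds p ≤ κ then (mt l η p)⁻¹ else 0) ≤
        C * κ ^ (((d : ℝ) - 2) / 2) * (1 + Real.log (1 / η))

/-! ### B. The local part of the Green function -/

/-- HKE: powers of `T = 1 - (E - H) / (8 d)`, `E = z - lam`. Proof: `T = T₀ + ℓ`, `T₀ = TM z V`,
`ℓ = lam / (8 d)`, so `T^n = ∑ binom n j ℓ^{n-j} T₀^j`; `T₀` has entries `≥ 0` and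
`∑_y (T₀^j x y)² ≤ KH (j + 1)^{-d/2}` (`heatAll`, with `a = (1 - ε) μ`), `≤ 1`. The terms `j ≥ n/2`:
`(1 + ℓ)^n ≤ 2`; the terms `j < n/2`: `∑_{i > n/2} (n ℓ)^i / i! ≤ C (n + 1)^{-d/4}`, since
`n ℓ ≤ 1/8`. Mass: `T₀ DD = DD - 1 / (8 d)`, so `T DD = (1 + ℓ) DD - 1 / (8 d)` and
`(1 - 1 / (7 d μ)) DD ≤ T DD ≤ (1 + ℓ) DD`; induction. -/
def HkeStmt : Prop :=
  ∀ d : ℕ, 1 ≤ d → ∃ C : ℝ, 1 ≤ C ∧ ∀ (M : ℕ) [NeZero M] (z μ ε lam : ℝ) (V : Tor d M → ℝ)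
    (n : ℕ) (x : Tor d M), z ≤ 2 * d + 1 → 0 < μ → 0 < ε → ε ≤ 1 / 50 → FlatE ε z μ V →
    0 ≤ lam → n * (lam + 1 / μ) ≤ 1 → n + 1 ≤ M ^ 2 →
      (∀ y, 0 ≤ (TM (z - lam) V ^ n) x y) ∧
      |∑ y, (TM (z - lam) V ^ n) x y * om z μ V y - om z μ V x| ≤ C * n * (lam + 1 / μ) ∧
      ∑ y, ((TM (z - lam) V ^ n) x y) ^ 2 ≤ C * ((n : ℝ) + 1) ^ (-(d : ℝ) / 2)

/-- CVB: the bound of Carne and Varopoulos. Proof: `cos^n a = 2^{-n} ∑_j binom n j cos ((n - 2 j) a)`,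
so `T^n = 2^{-n} ∑_j binom n j Q_{|n - 2 j|}(T)` with the Chebyshev polynomials `Q_k`
(`Polynomial.Chebyshev.T`), `|Q_k(T)| ≤ 1` (the eigenvalues of `T` are in `[-1, 1]`), and
`Q_k(T) x y = 0` if `tds x y > k`. So `|T^n x y| ≤ P(|S_n| ≥ tds x y) ≤ 2 e^{- tds² / (2 n)}` for the
simple random walk `S_n` (`cosh s ≤ e^{s²/2}`). -/
def CvbStmt : Prop :=
  ∀ (d M : ℕ) [NeZero M] (T : Matrix (Tor d M) (Tor d M) ℝ), (∀ x y, T x y = T y x) →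
    (∀ f : Tor d M → ℝ, ∑ x, (Matrix.mulVec T f x) ^ 2 ≤ ∑ x, f x ^ 2) →
    (∀ x y, T x y ≠ 0 → tds x y ≤ 1) → ∀ (n : ℕ) (x y : Tor d M),
      |(T ^ n) x y| ≤ 2 * Real.exp (-((tds x y : ℝ) ^ 2 / (2 * n)))

/-- FMO: the first moment. Proof: `T^n = ∑ binom n j ℓ^{n-j} T₀^j`, and for `j ≤ n`, with
`r₀² = 4 (d + 3) n (1 + log n)`, `∑_y T₀^j x y tds x y ≤ 1.1 r₀ + ∑_{tds > r₀} tds 2 e^{-tds²/(2n)}`
(`HkeStmt` for `lam = 0`, `CvbStmt` for `T₀`: `|T₀ f| ≤ |f|` is in `heatAll`), at most `(2 k + 1)^d`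
points with `tds = k`, and `k²/(2n) ≥ k²/(4n) + (d + 3) (1 + log n)`. -/
def FmoStmt : Prop :=
  ∀ d : ℕ, 1 ≤ d → ∃ C : ℝ, 1 ≤ C ∧ ∀ (M : ℕ) [NeZero M] (z μ ε lam : ℝ) (V : Tor d M → ℝ)
    (n : ℕ) (x : Tor d M), z ≤ 2 * d + 1 → 0 < μ → 0 < ε → ε ≤ 1 / 50 → FlatE ε z μ V →
    0 ≤ lam → n * (lam + 1 / μ) ≤ 1 → n + 1 ≤ M ^ 2 → 1 ≤ n →
      ∑ y, (TM (z - lam) V ^ n) x y * tds x y ≤ C * Real.sqrt (n * (1 + Real.log n))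

/-- SRC: the local part and the source. Proof: (1) for every `f`,
`aop ω h lam f y = ω y ((z - lam - V y) (ω f) y - ∑_i ((ω f) (y + ev i) + (ω f) (y - ev i)))`, because
`(z - V) ω - Δ ω = h`; `AM (z - lam) V = 8 d (1 - T)`, so `AM` applied to `1/(8 d) ∑_{j<n} T^j δ_x` is
`δ_x - T^n δ_x`. (2)-(4) `HkeStmt` for all `j ≤ n`, `|ω - 1| ≤ ε`; in (3) the norm of the sum is at
most `C ∑_{j < n} (j + 1)^{-d/4}`. (5) `|ec p (y - x) - 1| ≤ ∑_i |2 sin (π p_i (y - x)_i / M)| ≤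
∑_i |(y - x)_i| |2 sin (π p_i / M)| ≤ √d √(ds p) tds x y`, and `FmoStmt`; the mass is `HkeStmt`. -/
def SrcStmt : Prop :=
  ∀ d : ℕ, 3 ≤ d → ∃ C : ℝ, 1 ≤ C ∧ ∀ (M : ℕ) [NeZero M] (z μ ε lam : ℝ) (V : Tor d M → ℝ)
    (n : ℕ) (x : Tor d M), z ≤ 2 * d + 1 → 0 < μ → 0 < ε → ε ≤ 1 / 50 → FlatE ε z μ V →
    0 ≤ lam → n * (lam + 1 / μ) ≤ 1 → n + 1 ≤ M ^ 2 → 1 ≤ n →
      (∀ y, aop (om z μ V) (1 / μ) lam (fun u => sfn z μ lam V n x u) y =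
        (if y = x then (om z μ V x : ℂ) else 0) - Sfn z μ lam V n x y) ∧
      (∀ p, ‖ft (sfn z μ lam V n x) p‖ ≤ C * n) ∧
      ∑ y, ‖sfn z μ lam V n x y‖ ^ 2 ≤ C * growth d n * (1 + Real.log n) ∧
      (∀ p, ‖ft (Sfn z μ lam V n x) p‖ ≤ C) ∧
      ∑ y, ‖Sfn z μ lam V n x y‖ ^ 2 ≤ C * (1 / (n : ℝ)) ^ ((d : ℝ) / 2) ∧
      ∀ p, ‖ft (Sfn z μ lam V n x) p - (starRingEnd ℂ) (ec p x)‖ ≤
        C * (ε + n * (lam + 1 / μ) + Real.sqrt (ds p * (n * (1 + Real.log n))))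

/-! ### C. The cluster lemma -/

/-- HSE: the Hilbert-Schmidt bound. Proof: `N = |C|`, `g_k = lnt C g (v k)`, `s_k`, `S_k`, `F_k`, `e_k`
similarly, `r_k = g_k - s_k`, `X = ds - l`. For every family `ψ` of functions and `BesT`:
`∑_k |ψ̂_k(p)|² ≤ ∑_{x ∈ C} |ψ̂_x(p)|²` and `∑_k |ψ_k|² ≤ ∑_x |ψ_x|²`. Equation:
`w² X r̂_k = Ŝ_k + F̂_k + ê_k - (W r_k)^`. For `ds > κ ≥ 4 l`: `m ≥ (3/4) ds ≥ (3/4) κ`. Write
`a² = ∑_k |g_k|²`, `Y² = ∑_k pm (m |r̂_k|²)`. (1) `∑_k pm (m⁻¹ |Ŝ_k|²) ≤ A² N A b₀ + (4/3 κ) N A κ^{d/2}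
≤ C N b₀`, and `∑_k pm (m⁻² |Ŝ_k|²) ≤ C N D₀ / η` (`h1`, `h2`, `hκ`). (2) `m ≤ X²/m + η`:
`Y² ≤ 7 (C N b₀ + (φ² a² + N e0) / η + τ² Y²) + 2 η (a² + N Γ)` (`FBd`: `pm (m⁻¹ |(W r)^|²) ≤ τ² pm (m
|r̂|²)`). (3) the hypothesis and `η² / m² ≤ 2 η²/κ² ≤ 1/4` for `ds > κ` give
`|g_k|² ≤ 4 pm (X²/m² |ĝ_k|²) ≤ 8 |s_k|² + 8 pm (X²/m² |r̂_k|²)`, so
`a² ≤ 8 N Γ + C (N D₀ / η + (φ² a² + N e0) / η² + τ² Y² / η)`. For small `c` (note `τ² ≤ c`, `N Γ ≤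
N D₀ / η`) the two inequalities give the claim. -/
def HseStmt : Prop :=
  ∀ (d : ℕ) (A : ℝ), 3 ≤ d → 1 ≤ A → ∃ c C₂ : ℝ, 0 < c ∧ 1 ≤ C₂ ∧
    ∀ (M : ℕ) [NeZero M] (ω : Tor d M → ℝ) (h lam w l η τ φ e0 κ Γ β D₀ b₀ : ℝ)
    (C C' : Finset (Tor d M)) (g s S F e : Tor d M → Tor d M → ℂ) (v : C → C → ℂ),
    NumT d M A c w l η τ φ e0 κ Γ β D₀ b₀ →
    SysT ω h lam w l η τ φ e0 A κ Γ β C C' g s S F e → BesT C v →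
    (∀ k, pm (fun p => if ds p ≤ κ then η ^ 2 / mt l η p ^ 2 * ‖ft (lnt C g (v k)) p‖ ^ 2 else 0) ≤
      1 / 2 * ∑ y, ‖lnt C g (v k) y‖ ^ 2) →
      ∑ k, ∑ y, ‖lnt C g (v k) y‖ ^ 2 ≤ C₂ * C.card * D₀ / η ∧
      ∑ k, pm (fun p => mt l η p * ‖ft (fun y => lnt C g (v k) y - lnt C s (v k) y) p‖ ^ 2) ≤
        C₂ * C.card * b₀

/-- PAE: the pairing. Proof: with the names of `HseStmt`, `v_k = vx C (v k)`: multiply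
`w² X r̂_k = Ŝ_k + F̂_k + ê_k - (W r_k)^` by `q conj (v̂_k)`, take `pm` and sum over `k`. `∑_k |v̂_k(p)|² ≤ N`,
and `∑_k |Ŝ_k(p) - v̂_k(p)|² ≤ N β²` on the support of `q` (`hβ`; `v̂_k = ∑_x v_k(x) conj (ec p x)`).
Right side: at least `|∑_k pm (q |v̂_k|²)|` minus: `A D₀ N β`; `(N A T D₀)^{1/2} (c η a + (N e0)^{1/2})`,
`a² ≤ C₂ N D₀ / η`; `(N pm (q² m))^{1/2} τ Y ≤ (2 N A D₀ (1 + A c₁))^{1/2} (c C₂ N D₀)^{1/2}`. Left side: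
`∑_k pm (q X ŝ_k conj v̂_k)` is at most `pm |q X| N A / κ ≤ A² N D₀ (1 + log T) / (T κ) ≤ C (c / c₁) N D₀`;
and `∑_k pm (q X ĝ_k conj v̂_k) = ∑_k ∑_{y ∈ C'} g_k(y) conj (h_k(y))`, `h_k(y) = ∑_{x ∈ C} v_k(x) Q(y - x)`,
`Q` the kernel of `q X`, `∑_k |h_k(y)|² ≤ N Kq²`: at most `(C₂ N D₀ / η)^{1/2} (|C'| N Kq²)^{1/2}`. So
for small `c`: `N D₀ / (8 A) ≤ (C₂ N D₀ / η)^{1/2} (|C'| N Kq²)^{1/2}`. -/
def PaeStmt : Prop :=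
  ∀ (d : ℕ) (A C₂ c₁ : ℝ), 3 ≤ d → 1 ≤ A → 1 ≤ C₂ → 0 < c₁ → c₁ ≤ 1 / A → ∃ c c₂ : ℝ, 0 < c ∧
    0 < c₂ ∧ ∀ (M Rb : ℕ) [NeZero M] (ω : Tor d M → ℝ) (h lam w l η τ φ e0 κ Γ β D₀ b₀ T Kq : ℝ)
    (C C' : Finset (Tor d M)) (g s S F e : Tor d M → Tor d M → ℂ) (q : Tor d M → ℝ)
    (v : C → C → ℂ),
    NumT d M A c w l η τ φ e0 κ Γ β D₀ b₀ →
    SysT ω h lam w l η τ φ e0 A κ Γ β C C' g s S F e → BesT C v →
    c₁ / η ≤ T → T ≤ A * (c₁ / η) → 1 ≤ T → 0 ≤ Kq → TstT A D₀ l T Kq Rb q →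
    (∀ x ∈ C', ∀ y ∈ C', tds x y ≤ Rb) →
    ∑ k, ∑ y, ‖lnt C g (v k) y‖ ^ 2 ≤ C₂ * C.card * D₀ / η →
    ∑ k, pm (fun p => mt l η p * ‖ft (fun y => lnt C g (v k) y - lnt C s (v k) y) p‖ ^ 2) ≤
      C₂ * C.card * b₀ →
    D₀ / (2 * A) * C.card ≤ |∑ k, pm (fun p => q p * ‖ft (vx C (v k)) p‖ ^ 2)| →
      c₂ * D₀ * η ≤ C'.card * Kq ^ 2

/-- BLE: the cluster lemma on the torus. Proof: `A y y' = pm (1_{ds ≤ κ} η² / m² ec p (y - y'))` or its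
conjugate on `C'`, positive semidefinite, with the trace `|C'| η² pm (1_{ds ≤ κ} m⁻²) ≤ 2 N A η D₀`
(`h2`); `Q` from `LaqStmt` with `Ψ y x = g x y`, `v k x = Q x k`; `BesT`: `Q` is a contraction.
`∑_k pm (q |v̂_k|²) = tr (Q Mq)`, `Mq x x' = pm (q ec p (x - x'))`, `tr Mq = N pm q`, `|pm q| ≥ D₀ / A`,
and `|tr ((1 - Q) Mq)| ≤ tr (1 - Q) sup |q| ≤ 4 N A η D₀ A T ≤ 4 A³ c₁ N D₀ ≤ N D₀ / (2 A)` for
`c₁ = 1 / (8 A⁴)`. `HseStmt` and `PaeStmt`. -/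
def BleStmt : Prop :=
  ∀ (d : ℕ) (A : ℝ), 3 ≤ d → 1 ≤ A → ∃ c₁ c c₂ : ℝ, 0 < c₁ ∧ c₁ ≤ 1 / A ∧ 0 < c ∧ c ≤ 1 ∧
    0 < c₂ ∧ ∀ (M Rb : ℕ) [NeZero M] (ω : Tor d M → ℝ)
    (h lam w l η τ φ e0 κ Γ β D₀ b₀ T Kq : ℝ) (C C' : Finset (Tor d M))
    (g s S F e : Tor d M → Tor d M → ℂ) (q : Tor d M → ℝ),
    NumT d M A c w l η τ φ e0 κ Γ β D₀ b₀ →
    SysT ω h lam w l η τ φ e0 A κ Γ β C C' g s S F e →
    c₁ / η ≤ T → T ≤ A * (c₁ / η) → 1 ≤ T → 0 ≤ Kq → TstT A D₀ l T Kq Rb q →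
    (∀ x ∈ C', ∀ y ∈ C', tds x y ≤ Rb) →
      c₂ * D₀ * η ≤ C'.card * Kq ^ 2
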