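import Pool.Agent.LE.StmtsZ
import Pool.Agent.Helper54_LEW.VTR
import Pool.Agent.Helper17_Anderson.Site

/-!
# The mean of the Lyapunov exponent: kinetic scale in the bulk, sharp rate at the band edge

Statements of the modules, with proofs. Let `γ(E)` be the Lyapunov exponent at the disorder `σ`.

(M) For `0 < |σ| ≤ c(δ)` and every interval `J ⊆ [-2d + δ, 2d - δ]`, `|J| ≥ σ² log⁴ (1 / |σ|)`, the
mean of `γ` over `J` is at most `C σ² log⁵ (1 / |σ|)`: the inverse mean free path.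
(W) `∫_{|E - z| ≤ lam} γ ≤ C lam^{3/2} log t` near the effective band edge `z`.

MAIN IDEA. Let `G_N(z)` be the Green function of the cube `box 0 N` and `F(z) = - log max_{u ∈ S}
|G_N(0, u; z)|`, `S` at the distance at least `M` from `0`. All the poles of `G_N(0, u; z)` are real,
so Jensen's formula in the upper half plane gives: the mean of `F(E)` over real `E`, with respect to
the harmonic measure seen from `z₀ = E₀ + i η`, is at most `F(z₀)` (JEN). For real `E` the mean of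
`F(E)` is at least about `γ(E) M` (LYR), so if `E F(z₀) ≤ c M`, the harmonic mean of `γ` is at most
`c` (AVG). At the complex energy `z₀` one has perturbation theory: conduction over the distance `L`
from each point of the cube `S_k = box (k L e_i) R` to some point of `S_{k+1}`, at the price
`C log (1 / |σ|)`, with overwhelming probability, for `L = c / η`, `η = C σ² log⁴ (1 / |σ|)` (DLK,
PRB), and the one site inequality for the maximum over `S` (VTZ) allows a chain of such links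
(CHN, LNK), so `c = C log (1 / |σ|) / L`.
-/

set_option autoImplicit false

open MeasureTheory ProbabilityTheory Function Filter

open scoped ENNReal BigOperators Topology NNReal

noncomputable section

namespace Pool.Agent.LE.MN

open Pool.Agent.Anderson hiding box mem_box card_box
open Pool.Agent.Loc Pool.Agent.Mob Pool.Agent.Helper54.Bal
  Pool.Agent.Helper96.EXP Pool.Agent.BED

/-- The circle carries its Haar probability measure, as in `Helper17_Anderson`. -/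
scoped instance haarMS : MeasureSpace UnitAddCircle := ⟨AddCircle.haarAddCircle⟩

scoped instance haarAH : Measure.IsAddHaarMeasure (volume : Measure UnitAddCircle) :=
  inferInstanceAs (Measure.IsAddHaarMeasure AddCircle.haarAddCircle)

scoped instance haarPM : IsProbabilityMeasure (volume : Measure UnitAddCircle) :=
  inferInstanceAs (IsProbabilityMeasure AddCircle.haarAddCircle)

/-! ### definitions -/

/-- `E + i η` -/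
def zc (E η : ℝ) : ℂ := (E : ℂ) + η * Complex.I

/-- `-log |G_Λ(x, y; z)|` at a complex energy -/
def DZ {d : ℕ} (Λ : Finset (Site d)) (z : ℂ) (V : Site d → ℝ) (x y : Site d) : ℝ :=
  -Real.log ‖gz V Λ z x y‖

/-- `max_{u ∈ S} |G(u, y; z)|` -/
def gmz {d : ℕ} (V : Site d → ℝ) (Λ : Finset (Site d)) (z : ℂ) (S : Finset (Site d))
    (y : Site d) : ℝ :=
  ((S.sup fun u => ‖gz V Λ z u y‖₊ : NNReal) : ℝ)

/-- `-log max_{u ∈ S} |G(u, y; z)|` -/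
def FZ {d : ℕ} (V : Site d → ℝ) (Λ : Finset (Site d)) (z : ℂ) (S : Finset (Site d))
    (y : Site d) : ℝ :=
  -Real.log (gmz V Λ z S y)

/-- the real energy seen from `E₀ + i η` under the angle `θ` -/
def cE (E₀ η θ : ℝ) : ℝ := E₀ - η * (Real.cos (θ / 2) / Real.sin (θ / 2))

/-- the cost of a link from every point of `S` to some point of `S'` -/
def LC {d : ℕ} (V : Site d → ℝ) (Λ : Finset (Site d)) (z : ℂ) (S S' : Finset (Site d)) : ℝ≥0∞ :=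
  S.sup fun x => S'.inf fun y => ENNReal.ofReal (DZ Λ z V x y)

/-- the base points of the chain -/
def pt {d : ℕ} (i : Fin d) (k : ℕ) : Site d := Pi.single i (k : ℤ)

/-! ### A. averaging over the energy -/

/-- JEN: Jensen's formula. Proof: let `z₀ = E₀ + i η` and `u ∈ S` with `|gz u y|` maximal at `z₀`
(not zero). `gz V Λ z u y = p(z) / q(z)`, `q(z) = det (z - H_Λ)` with real zeros `λ_j`, `p` a cofactor
(a polynomial, not zero), and at real `E`, `q(E) ≠ 0`, `gr V Λ E u y = p(E) / q(E)`. For every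
`ζ : ℂ`, `(1/2π) ∫ log |cE E₀ η θ - ζ| dθ = max (log |z₀ - ζ|) (log |conj z₀ - ζ|) ≥ log |z₀ - ζ|`,
with equality for real `ζ`: `cE E₀ η θ = (z₀ - conj z₀ w) / (1 - w)`, `w = e^{i θ}`, and
`circleAverage` of `log |a - b w|` is `max (log |a|) (log |b|)`
(`circleAverage_log_norm_sub_const_eq_posLog`). With `p = a ∏ (z - ζ_k)` this gives
`(1/2π) ∫ log |gr (cE θ) u y| dθ ≥ log |gz z₀ u y|`. So `∫ FD ≤ 2π FZ`, and the positive part of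
`FD` is `FD` plus the positive part of `- FD`. (Another way: `MeromorphicOn.circleAverage_log_norm`.)
-/
def JenStmt : Prop :=
  ∀ (d : ℕ) (V : Site d → ℝ) (Λ S : Finset (Site d)) (y : Site d) (E₀ η : ℝ), 0 < η →
    gmz V Λ (zc E₀ η) S y ≠ 0 →
      ∫⁻ θ in Set.Ioo 0 (2 * Real.pi), ENNReal.ofReal (FD V Λ (cE E₀ η θ) S y) ≤
        ENNReal.ofReal (2 * Real.pi * FZ V Λ (zc E₀ η) S y) +
          ∫⁻ θ in Set.Ioo 0 (2 * Real.pi), ENNReal.ofReal (-FD V Λ (cE E₀ η θ) S y)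

/-- MSJ: joint measurability. Proof: `gr` is an entry of the inverse of a matrix with entries which
are continuous in `(V, E)`: `(det)⁻¹ * adjugate`. -/
def MsjStmt : Prop :=
  ∀ (d : ℕ) (Λ S : Finset (Site d)) (y : Site d),
    Measurable fun p : (Site d → ℝ) × ℝ => FD p.1 Λ p.2 S y

/-- LYR: at a real energy the mean of `FD` is at least `(γ - ε) M`. Proof: `ε' = ε / 4`. On the event
`SG V M (g - ε') E 0` (`LyaAt`: probability `→ 1`) `|gr V (box 0 M) E 0 v| ≤ e^{-(g - ε') M}` for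
`sd 0 v = M`. The geometric resolvent identity: for `u ∈ S` (outside `box 0 (M + 1)` or on its
boundary) `gr_N(0, u) = ∑ gr_M(0, v) gr_N(v', u)` over `v ∈ box 0 M`, `v' ∉ box 0 M`, `v ~ v'`, so
`sd 0 v = M`. Outside an event of probability at most `(2 M + 3)^d s₀ (10 / |σ|) e^{-ε' M}` all
`|gr_N(v', u)| ≤ e^{ε' M}` (Wegner for one matrix element). So `gmax ≤ 2 d (2 M + 1)^d
e^{-(g - 2 ε') M} ≤ e^{-(g - 3 ε') M}` with probability `→ 1`, uniformly in `N` and `S`, and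
`gmax ≠ 0` almost surely (`UfmStmt`, second part). (If `g ≤ ε` there is nothing to prove.) -/
def LyrStmt : Prop :=
  ∀ (d s₀ : ℕ) (σ E g ε : ℝ), 1 ≤ d → σ ≠ 0 → LyaAt d σ E g → 0 < ε → ∃ M₀ : ℕ,
    ∀ (M N : ℕ) (S : Finset (Site d)), M₀ ≤ M → M + 2 ≤ N → S ⊆ box 0 N → S.Nonempty →
    S.card ≤ s₀ → (∀ u ∈ S, M + 1 ≤ sd 0 u) →
      ENNReal.ofReal ((g - ε) * M) ≤
        ∫⁻ V, ENNReal.ofReal (FD V (box 0 N) E S 0) ∂(PP d (gl σ))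

/-- LPR: the other sign. Proof: `P(|gr x y| > τ) ≤ 10 / (|σ| τ)` (`UpzStmt`, limit to real energies
as in `Helper54_LEW/VTR.lean`, or any Wegner bound for one matrix element with this constant), so
`P(log gmax > t) ≤ S.card (10 / |σ|) e^{-t}`, and `∫ min 1 (A e^{-t}) dt ≤ 1 + log (1 + A)`. -/
def LprStmt : Prop :=
  ∀ (d : ℕ) (σ E : ℝ) (N : ℕ) (S : Finset (Site d)) (y : Site d), σ ≠ 0 →
    ∫⁻ V, ENNReal.ofReal (-FD V (box 0 N) E S y) ∂(PP d (gl σ)) ≤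
      ENNReal.ofReal (1 + Real.log (1 + 10 / |σ| * S.card))

/-- NZZ: no zeros at complex energies. Proof: for neighbours `∫ |gz|^(-1/4) < ∞` (`LY.low_marg`);
along a path, `P(τ |gz x y| < |gz x u| |gz u y|) ≤ 8 / (|σ| τ)` (`LY.one_marg`), `τ → ∞`. -/
def NzzStmt : Prop :=
  ∀ (d N : ℕ) (σ : ℝ) (z : ℂ) (x y : Site d), 1 ≤ d → σ ≠ 0 → 0 < z.im →
    x ∈ box (0 : Site d) N → y ∈ box (0 : Site d) N →
      PP d (gl σ) {V | gz V (box 0 N) z x y = 0} = 0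

/-- AVG: the harmonic mean of the Lyapunov exponent. Proof: for each `k` take `M ≥ k`, `S`, `N` as in
the hypothesis and `f_k(θ) = (1/M) ∫⁻ V, ofReal (FD V (box 0 N) (cE E₀ η θ) S 0)`. By `LyrStmt`
`liminf f_k(θ) ≥ ofReal (γ (cE E₀ η θ))`. By Tonelli (`MsjStmt`), `JenStmt` (for almost every `V`,
`NzzStmt`) and `LprStmt`, `∫⁻ θ, f_k ≤ 2π c + (2π / M) (1 + log (1 + 10 / |σ| s₀))`. Fatou. (The
measurability of `γ` is not needed.) -/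
def AvgStmt : Prop :=
  ∀ (d s₀ : ℕ) (σ E₀ η c : ℝ) (γ : ℝ → ℝ), 1 ≤ d → σ ≠ 0 → 0 < η → 0 ≤ c →
    (∀ E, LyaAt d σ E (γ E)) →
    (∀ M₀ : ℕ, ∃ (M N : ℕ) (S : Finset (Site d)), M₀ ≤ M ∧ M + 2 ≤ N ∧ S ⊆ box 0 N ∧
      S.Nonempty ∧ S.card ≤ s₀ ∧ (∀ u ∈ S, M + 1 ≤ sd 0 u) ∧
      ∫⁻ V, ENNReal.ofReal (FZ V (box 0 N) (zc E₀ η) S 0) ∂(PP d (gl σ)) ≤
        ENNReal.ofReal (c * M)) →
      ∫⁻ θ in Set.Ioo 0 (2 * Real.pi), ENNReal.ofReal (γ (cE E₀ η θ)) ≤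
        ENNReal.ofReal (2 * Real.pi * c)

/-- WIN: from the harmonic mean to an interval. Proof: `dE = η / (2 sin² (θ/2)) dθ
= (η² + (E - E₀)²) / (2 η) dθ` for `E = cE E₀ η θ`, an increasing bijection of `(0, 2π)` onto `ℝ`
(`lintegral_image_eq_lintegral_abs_deriv_mul`, no measurability of `γ` needed). -/
def WinStmt : Prop :=
  ∀ (γ : ℝ → ℝ) (E₀ η D : ℝ), 0 < η → 0 ≤ D →
    ∫⁻ E in Set.Icc (E₀ - D) (E₀ + D), ENNReal.ofReal (γ E) ≤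
      ENNReal.ofReal ((η ^ 2 + D ^ 2) / (2 * η)) *
        ∫⁻ θ in Set.Ioo 0 (2 * Real.pi), ENNReal.ofReal (γ (cE E₀ η θ))

/-! ### B. the chain at a complex energy -/

/-- VTZ: the one site inequality for the maximum over `S`, at a complex energy. Proof:
`Pool.Agent.LE.H54W.ev_marg` (with `KB_eq_gz`; if `u ∉ Λ` or `y ∉ Λ` the event is empty). -/
def VtzStmt : Prop :=
  ∀ (d : ℕ) (σ τ : ℝ) (z : ℂ) (Λ S : Finset (Site d)) (u y : Site d), σ ≠ 0 → 0 < τ → 0 < z.im →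
    PP d (gl σ) {V | τ * gmz V Λ z S y < gmz V Λ z S u * ‖gz V Λ z u y‖} ≤
      ENNReal.ofReal (8 / |σ| / τ)

/-- UPZ: the tail of one matrix element at a complex energy. Proof: `LY.one_marg` with `(x, y, x)`
and the diagonal case `P(|gz x x| > τ) ≤ 2 / (|σ| τ)`, as `Pool.Agent.LE.H54.upI`. -/
def UpzStmt : Prop :=
  ∀ (d : ℕ) (σ τ : ℝ) (z : ℂ) (Λ : Finset (Site d)) (x y : Site d), σ ≠ 0 → 0 < τ → 0 < z.im →
    PP d (gl σ) {V | τ < ‖gz V Λ z x y‖} ≤ ENNReal.ofReal (10 / |σ| / τ)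

/-- CSZ: the moments of the positive part of `DZ`. Proof: as `Pool.Agent.LE.CstStmt` /
`Pool.Agent.LE.H28W.cstB`, at the complex energy (`LY.low_marg`, `LY.one_marg`, `KB_eq_gz`; the
limit to real energies is not needed). -/
def CszStmt : Prop :=
  ∀ d : ℕ, 1 ≤ d → ∃ A : ℝ, 1 ≤ A ∧ ∀ q : ℕ, 1 ≤ q → ∃ C : ℝ, 0 < C ∧ ∀ (σ : ℝ) (z : ℂ) (N : ℕ)
    (x y : Site d), σ ≠ 0 → |σ| ≤ 1 → |z.re| ≤ 2 * d + 2 → 0 < z.im → z.im ≤ 1 →
    x ∈ box (0 : Site d) N → y ∈ box (0 : Site d) N →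
      ∫⁻ V, (ENNReal.ofReal (DZ (box 0 N) z V x y)) ^ q ∂(PP d (gl σ)) ≤
        ENNReal.ofReal (C * |σ| ^ (-A) * ((sd x y : ℝ) + 1) ^ q)

/-- CHN: the chain. Proof: `S_k = box (pt i (k L)) R`, `S = S_K`, `F_k = S_k.sup (ofReal (FZ S ·))`,
`T_k` the maximum over `x ∈ S_k`, `y ∈ S_{k+1}` of the positive part of
`log (gmz S y |gz y x| / gmz S x)`. Almost surely all these numbers are not zero (`NzzStmt`), and
`FZ S x ≤ FZ S y + DZ x y + T_k`, so `F_k ≤ F_{k+1} + LC S_k S_{k+1} + T_k`. `P(T_k > t) ≤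
(2 R + 1)^{2 d} (8 / |σ|) e^{-t}` (`VtzStmt` with `u = y`, `y = x`), so `E T_k ≤ 1 + log (1 + 8
(2 R + 1)^{2 d} / |σ|)`. Finally `FZ S x ≤ DZ x x` for `x ∈ S_K`, and `0 ∈ S_0`. -/
def ChnStmt : Prop :=
  ∀ (d K L R N : ℕ) (i : Fin d) (σ : ℝ) (z : ℂ) (A₁ A₂ : ℝ), σ ≠ 0 → |σ| ≤ 1 → 0 < z.im →
    0 ≤ A₁ → 0 ≤ A₂ → (∀ k ≤ K, box (pt i (k * L)) R ⊆ box 0 N) →
    (∀ k < K, ∫⁻ V, LC V (box 0 N) z (box (pt i (k * L)) R) (box (pt i ((k + 1) * L)) R)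
      ∂(PP d (gl σ)) ≤ ENNReal.ofReal A₁) →
    ∫⁻ V, (box (pt i (K * L)) R).sup (fun x => ENNReal.ofReal (DZ (box 0 N) z V x x))
      ∂(PP d (gl σ)) ≤ ENNReal.ofReal A₂ →
      ∫⁻ V, ENNReal.ofReal (FZ V (box 0 N) z (box (pt i (K * L)) R) 0) ∂(PP d (gl σ)) ≤
        ENNReal.ofReal (K * (A₁ + 1 + Real.log (1 + 8 * (2 * R + 1 : ℝ) ^ (2 * d) / |σ|)) + A₂)

/-- LNK: from the probability of a link to its mean cost. Proof: `LC ≤ t` off the bad event and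
`LC ≤ Y = ∑_{x ∈ box a R} ofReal (DZ x (x + L e_i))` always. `∫ LC ≤ t + (∫ Y²)^{1/2} q^{1/2}`,
`∫ Y² ≤ (2 R + 1)^{2 d} C |σ|^{-A} (L + 1)²` (`CszStmt`, `q = 2`, Cauchy-Schwarz). The second part:
`CszStmt` with `q = 1`, sum over the cube. -/
def LnkStmt : Prop :=
  ∀ d : ℕ, 1 ≤ d → ∃ A C : ℝ, 1 ≤ A ∧ 1 ≤ C ∧ ∀ (σ : ℝ) (z : ℂ) (N R L : ℕ) (a : Site d)
    (i : Fin d), σ ≠ 0 → |σ| ≤ 1 → |z.re| ≤ 2 * d + 2 → 0 < z.im → z.im ≤ 1 →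
    box a R ⊆ box 0 N →
    (∀ t q : ℝ, 0 ≤ t → 0 ≤ q → box (a + pt i L) R ⊆ box 0 N →
      C * |σ| ^ (-A) * (2 * R + 1 : ℝ) ^ (2 * d) * ((L : ℝ) + 1) ^ 2 * q ≤ 1 →
      PP d (gl σ) {V | ¬ LC V (box 0 N) z (box a R) (box (a + pt i L) R) ≤ ENNReal.ofReal t} ≤
        ENNReal.ofReal q →
        ∫⁻ V, LC V (box 0 N) z (box a R) (box (a + pt i L) R) ∂(PP d (gl σ)) ≤
          ENNReal.ofReal (t + 1)) ∧
    ∫⁻ V, (box a R).sup (fun x => ENNReal.ofReal (DZ (box 0 N) z V x x)) ∂(PP d (gl σ)) ≤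
      ENNReal.ofReal (C * |σ| ^ (-A) * (2 * R + 1 : ℝ) ^ d)

/-! ### C. the free Green function -/

/-- the kernel of `(Δ - z)⁻¹` -/
def fk {d : ℕ} (z : ℂ) (v : Site d) : ℂ :=
  ∫ θ : UnitAddTorus (Fin d), ch v θ * ((sy θ : ℂ) - z)⁻¹

/-- CTG: the Combes-Thomas bound in `ℓ²`, at a complex energy. Proof: `f(v) = e^{κ ρ(v)} u(v)`,
`ρ(v) = min (sd x v) n`. Multiply the equation at `v ∈ Λ` by `e^{κ ρ(v)} conj (f v)`, sum over `Λ`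
and take the imaginary part: `η |f|² ≤ |f(x)| + ∑_{v ~ v'} |e^{κ (ρ(v) - ρ(v'))} - 1| |f(v)| |f(v')|
≤ |f| + 2 d (e^κ - 1) |f|²` (the hopping and the potential are symmetric, resp. real), so
`(η / 2) |f| ≤ 1`; `n → ∞`. The sums converge: `u ∈ ℓ²` and `V` is bounded on `Λ`. -/
def CtgStmt : Prop :=
  ∀ (d : ℕ) (V : Site d → ℝ) (Λ : Set (Site d)) (E η κ B : ℝ) (u : Site d → ℂ) (x : Site d),
    0 < η → 0 ≤ κ → 4 * d * (Real.exp κ - 1) ≤ η → (∀ v ∈ Λ, |V v| ≤ B) →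
    (Summable fun v => ‖u v‖ ^ 2) → (∀ v, v ∉ Λ → u v = 0) →
    (∀ v ∈ Λ, ‖lap u v + (V v : ℂ) * u v - zc E η * u v‖ = if v = x then 1 else 0) →
      ∀ T : Finset (Site d),
        ∑ v ∈ T, Real.exp (2 * κ * sd x v) * ‖u v‖ ^ 2 ≤ 4 / η ^ 2

/-- FRP: Parseval for the free kernel. `f(θ) = (sy θ - z)⁻¹` is continuous and `fk z v` are its
Fourier coefficients (`ch v` = `UnitAddTorus.mFourier v`; Parseval: `hasSum_sq_mFourierCoeff`, or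
`mFourierBasis`). Translation: `∫ ch v θ f(θ + α) = ch v (-α) fk z v`, and
`|ch v (-α) - 1| = |ch v α - 1|`. -/
def FrpStmt : Prop :=
  ∀ (d : ℕ) (E η : ℝ), 0 < η →
    (Summable fun v : Site d => ‖fk (zc E η) v‖ ^ 2) ∧
    (∑' v : Site d, ‖fk (zc E η) v‖ ^ 2 =
      ∫ θ : UnitAddTorus (Fin d), ‖((sy θ : ℂ) - zc E η)⁻¹‖ ^ 2) ∧
    ∀ α : UnitAddTorus (Fin d),
      (Summable fun v : Site d => ‖ch v α - 1‖ ^ 2 * ‖fk (zc E η) v‖ ^ 2) ∧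
      ∑' v : Site d, ‖ch v α - 1‖ ^ 2 * ‖fk (zc E η) v‖ ^ 2 =
        ∫ θ : UnitAddTorus (Fin d),
          ‖((sy (θ + α) : ℂ) - zc E η)⁻¹ - ((sy θ : ℂ) - zc E η)⁻¹‖ ^ 2

/-- FRQ: the equation, and the reflections. Proof: `ch (v + e) = ch v ch e`, so `Δ` is the
multiplication by `sy`, and `∫ ch v = 1` if `v = 0`, `0` otherwise (`integral_ch`). `sy` and the Haar
measure are invariant under `θ_j → - θ_j`. -/
def FrqStmt : Prop :=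
  ∀ (d : ℕ) (E η : ℝ), 0 < η →
    (∀ v : Site d, lap (fk (zc E η)) v - zc E η * fk (zc E η) v = if v = 0 then 1 else 0) ∧
    ∀ (T : Finset (Fin d)) (v : Site d),
      fk (zc E η) (fun j => if j ∈ T then -v j else v j) = fk (zc E η) v

/-- MEA: the measure of the energy shell. Proof: `2 cos 2πφ = E / d`, `0 < φ < 1/2`. For
`|θ_j - φ| ≤ r = δ / (8 π d²)`, `j ≠ i`, the number `b = E - ∑_{j ≠ i} c2 (θ_j)` has
`|b| ≤ 2 - δ / (2 d)`; for such `b` the set of `t` with `|c2 t - b| ≤ η`, `|sn t| ≥ s₀` contains an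
interval of length `≥ c η` about `t₀`, `c2 t₀ = b` (`|sn t₀| = √(1 - b²/4)`, `|c2'| ≤ 4 π`). Fubini:
at least `(2 r)^{d - 1} c η`. -/
def MeaStmt : Prop :=
  ∀ (d : ℕ) (δ : ℝ), 1 ≤ d → 0 < δ → ∃ c s₀ : ℝ, 0 < c ∧ 0 < s₀ ∧ s₀ ≤ 1 ∧
    ∀ (E η : ℝ) (i : Fin d), |E| ≤ 2 * d - δ → 0 < η → η ≤ 1 →
      ENNReal.ofReal (c * η) ≤
        volume {θ : UnitAddTorus (Fin d) | |sy θ - E| ≤ η ∧ s₀ ≤ |sn (θ i)|}

/-- TLB: the translation by `η` moves `f(θ) = (sy θ - z)⁻¹` in `L²`. Proof: on the set of `MeaStmt`,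
`a = sy θ`, `b = sy (θ + η e_i)`, `b - a = c2 (θ_i + η) - c2 (θ_i) = - 4 sin (πη) sin (2πθ_i + πη)`:
`|b - a| ≤ 4 π η` and `|b - a| ≥ 4 s₀ η` for small `η`; `|a - z| ≤ 2 η`, `|b - z| ≤ (4 π + 2) η`. So
the integrand `|b - a|² / (|a - z|² |b - z|²)` is at least `c / η²`, on a set of measure `≥ c η`. -/
def TlbStmt : Prop :=
  ∀ (d : ℕ) (δ : ℝ), 1 ≤ d → 0 < δ → ∃ c : ℝ, 0 < c ∧
    ∀ (E η : ℝ) (i : Fin d), |E| ≤ 2 * d - δ → 0 < η → η ≤ c →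
      c / η ≤ ∫ θ : UnitAddTorus (Fin d),
        ‖((sy (θ + Pi.single i (η : UnitAddCircle)) : ℂ) - zc E η)⁻¹ -
          ((sy θ : ℂ) - zc E η)⁻¹‖ ^ 2

/-- FRM: the free kernel has mass `≥ c / η` in each orthant, at the distance `≥ L = c / η`. Proof:
`FrpStmt` with `α = η e_i`: `∑ |ch v α - 1|² |fk v|² ≥ c / η` (`TlbStmt`). `|ch v α - 1| ≤ 2 π η
|v i|`, at most `2 π c₀` for `|v i| < L`, and `∑ |fk v|² = ∫ |sy - z|⁻² ≤ C / η`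
(`integral_ker_le`, `d ≥ 3`), so for small `c₀` the sum over `|v i| ≥ L` of `|fk v|²` is at least
`c' / η`. By `CtgStmt` (`V = 0`, `Λ = univ`, `κ = η / (8 d)`) the part outside `box 0 R` is at most
`4 η⁻² e^{-2 κ R} ≤ c' / (2 η)`. By the reflections all orthants have the same mass, and their union
is everything. -/
def FrmStmt : Prop :=
  ∀ (d : ℕ) (δ : ℝ), 3 ≤ d → 0 < δ → ∃ c₀ C₁ : ℝ, 0 < c₀ ∧ c₀ ≤ 1 ∧ 1 ≤ C₁ ∧
    ∀ (E η : ℝ) (i : Fin d) (T : Finset (Fin d)) (L R : ℕ), |E| ≤ 2 * d - δ → 0 < η → η ≤ c₀ →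
    L ≤ c₀ / η → C₁ * (1 + Real.log (1 / η)) / η ≤ R →
      c₀ / η ≤ ∑ v ∈ (box (0 : Site d) R).filter fun v =>
        (L : ℤ) ≤ |v i| ∧ ∀ j, (j ∈ T → v j ≤ 0) ∧ (j ∉ T → 0 ≤ v j), ‖fk (zc E η) v‖ ^ 2

/-! ### D. perturbation theory -/

/-- DUA: from the operator bound to the form bound. Proof: the part `the matrix part` of the proof
of `Pool.Agent.Anderson.det_N2`: `a = C b`, `b = D w`, `nsq a = ⟨w, D C a⟩ ≤ |w|_* |D C a|_{dual}`,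
`|D C a|²_{dual} = nsq (XM C D a) ≤ θ² nsq a`, so `nsq a ≤ θ² |w|_*²`. -/
def DuaStmt : Prop :=
  ∀ (d : ℕ) (Λ : Finset (Site d)) (w : Λ → ℂ) (D : Site d → ℝ) (E η τ : ℝ) (C : Matrix Λ Λ ℂ),
    0 < η → 0 ≤ τ → C.IsHermitian → C * C = Kmat Λ E η →
    (∀ v : Λ → ℂ, nsq (Matrix.mulVec (XM C (fun y => D y)) v) ≤ τ ^ 2 * nsq v) →
      ∫ θ, (md E η θ)⁻¹ * ‖hatV (fun y : Λ => (D y : ℂ) * w y) θ‖ ^ 2 ≤
        τ ^ 2 * ∫ θ, md E η θ * ‖hatV w θ‖ ^ 2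

/-- PRT: comparison with the free kernel. Proof: `B = box x R`, `u(v) = gz V Λ z v x`,
`u⁰(v) = - fk z (v - x)`: `(Δ + V - z) u = - δ_x` on `Λ`, `(Δ - z) u⁰ = - δ_x`. `w = 1_B (u - u⁰)`,
`(Δ - z) w = - V w - V 1_B u⁰ + e`, `e` on the two layers at `∂B`, `(Δ - z)(1_B u⁰) = - δ_x + e⁰`.
With `|g|_*² = ∫ md |ĝ|²` and `|g|_dual² = ∫ md⁻¹ |ĝ|² ≤ η⁻¹ |g|²`, `|(Δ - z) g|_dual = |g|_*`,
`|δ_x|_dual² = kap`: `|w|_* ≤ τ |w|_* + τ |1_B u⁰|_* + |e|_dual` (`DuaStmt`),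
`|1_B u⁰|_* ≤ √kap + |e⁰|_dual`, so `|w|_* ≤ 2 τ √kap + 2 |e⁰|_dual + 2 |e|_dual`. By `CtgStmt`
(`κ = η / (8 d)`, for `u` with the finite set `Λ`, and for `u⁰`) `|e|² + |e⁰|² ≤ C e^{-2 κ R} / η²`.
Finally `∑_B |w|² = ∫ |ŵ|² ≤ η⁻¹ |w|_*²`. -/
def PrtStmt : Prop :=
  ∀ d : ℕ, 1 ≤ d → ∃ C₂ : ℝ, 1 ≤ C₂ ∧ ∀ (V : Site d → ℝ) (N R : ℕ) (x : Site d) (E η τ : ℝ)
    (hη : 0 < η), η ≤ 1 → 0 ≤ τ → τ ≤ 1 / 2 → box x (R + 1) ⊆ box 0 N →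
    (∀ v : (box x R) → ℂ, nsq (Matrix.mulVec (XM (Csq (box x R) E η hη) (fun y => V y)) v) ≤
      τ ^ 2 * nsq v) →
      ∑ v ∈ box x R, ‖gz V (box 0 N) (zc E η) v x + fk (zc E η) (v - x)‖ ^ 2 ≤
        η⁻¹ * (C₂ * τ ^ 2 * kap d E η + C₂ * Real.exp (-(η * R / (4 * d))) / η ^ 3)

/-- DLK: the deterministic link. Proof: `o = x - a`. Take `T` = the set of the `j` with `0 < o_j`. By
`FrmStmt` the kernel `fk z v` has mass `≥ c / η` on the `v ∈ box 0 R₂` with `|v i| ≥ L`, `v_j ≤ 0`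
for `j ∈ T`, `v_j ≥ 0` for `j ∉ T`. For these `v`, `y = x + v ∈ box (a + pt i L) R`: if `o_i ≤ 0`
then `o_i + v_i - L ∈ [- R, R₂ - L]`, if `o_i > 0` then `v_i ≤ - L` and `o_i + v_i - L ∈
[- R₂ - L, R - 2 L]`; for `j ≠ i` `o_j` and `v_j` have opposite signs, and `R₂ + L ≤ R`. By `PrtStmt`
and `|a|² ≥ |b|²/2 - |a + b|²` the sum of `|gz v x|²` over these `y` is at least `c / (4 η)`; there
are at most `(2 R₂ + 1)^d` of them; `gz x y = gz y x`. -/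
def DlkStmt : Prop :=
  ∀ (d : ℕ) (δ : ℝ), 3 ≤ d → 0 < δ → ∃ c₀ C₁ : ℝ, 0 < c₀ ∧ c₀ ≤ 1 / 2 ∧ 1 ≤ C₁ ∧
    ∀ (V : Site d → ℝ) (N L R R₂ : ℕ) (a : Site d) (i : Fin d) (E η τ : ℝ) (hη : 0 < η),
    |E| ≤ 2 * d - δ → η ≤ c₀ → L ≤ c₀ / η → C₁ * (1 + Real.log (1 / η)) / η ≤ R₂ →
    R₂ + L ≤ R → 0 ≤ τ → τ ≤ c₀ → τ ^ 2 * (1 + Real.log (1 / η)) ≤ c₀ →
    box a (R + R₂ + 1) ⊆ box 0 N →
    (∀ x ∈ box a R, ∀ v : (box x R₂) → ℂ,
      nsq (Matrix.mulVec (XM (Csq (box x R₂) E η hη) (fun y => V y)) v) ≤ τ ^ 2 * nsq v) →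
      ∀ x ∈ box a R, ∃ y ∈ box (a + pt i L) R,
        c₀ / (η * (2 * R₂ + 1 : ℝ) ^ d) ≤ ‖gz V (box 0 N) (zc E η) x y‖ ^ 2

/-- PRB: the probability of the operator bound. Proof: `XM C V` is linear in `V`; apply
`Pool.Agent.Anderson.prob_bad` on the space `(Site d → ℝ, PP d (gl σ))`, `ξ y V = V y / σ`, with the
coupling `σ / (2 τ)`, `s = |σ| r / (2 τ)`, `r² = 2 k l`, `l = 1 + log (1 / |σ|)`, `p = ⌈k l⌉`: the
truncation `zt` equals `V / (2 τ)` unless `|V y| > |σ| r` for some `y` (probability at most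
`(2 R + 1)^d 2 e^{- k l}`), `κ = kap ≤ (1 + 1024 π) (1 + log (1 / η))` (`kap_le`), `L = η⁻¹`
(`Kmat_le`), `(8 p s² κ / η)^p ≤ e^{-p}` by the hypothesis, `k = A d + A + 4`. -/
def PrbStmt : Prop :=
  ∀ (d : ℕ) (A : ℝ), 3 ≤ d → 1 ≤ A → ∃ C : ℝ, 1 ≤ C ∧
    ∀ (σ E η τ : ℝ) (R : ℕ) (x : Site d) (hη : 0 < η), σ ≠ 0 → |σ| ≤ 1 / 2 → η ≤ 1 → 0 < τ →
    τ ≤ 1 → C * σ ^ 2 * (1 + Real.log (1 / |σ|)) ^ 2 * (1 + Real.log (1 / η)) ≤ τ ^ 2 * η →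
    (2 * R + 1 : ℝ) ≤ |σ| ^ (-A) →
      PP d (gl σ) {V | ¬ ∀ v : (box x R) → ℂ,
        nsq (Matrix.mulVec (XM (Csq (box x R) E η hη) (fun y => V y)) v) ≤ τ ^ 2 * nsq v} ≤
          ENNReal.ofReal (|σ| ^ A)

/-- FNE: the harmonic mean in the bulk. Proof: `l = log (1 / |σ|)`, `η = K₁ σ² l⁴`, `τ² = c' / l`,
`R₂ = ⌈C₁ (1 + log (1 / η)) / η⌉`, `L = ⌊c₀ / η⌋`, `R = R₂ + L`; `1 + log (1 / η) ≤ 3 l`, and `R`, `L`
are at most `|σ|^{-3}`. `PrbStmt` (`A` large; the hypothesis is `12 C σ² l³ ≤ c' K₁ σ² l³`) and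
`DlkStmt`, union over `x ∈ box a R`: `LC ≤ t = C l` outside an event of probability at most
`(2 R + 1)^d |σ|^A`. `LnkStmt`: `∫ LC ≤ t + 1`. `ChnStmt` with `N = K L + R + R₂ + 2`: the mean of
`FZ` is at most `K X + A₂`, `X = C' l`, and this is `≤ c M` with `M = K L - R - 1`, `c = 2 X / L`,
for large `K`; `S = box (pt i (K L)) R` has `(2 R + 1)^d` points. `AvgStmt`. -/
def FneStmt : Prop :=
  ∀ (d : ℕ) (δ : ℝ), 3 ≤ d → 0 < δ → ∃ c C K₁ : ℝ, 0 < c ∧ c ≤ 1 / 4 ∧ 1 ≤ C ∧ 1 ≤ K₁ ∧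
    ∀ (σ E₀ : ℝ) (γ : ℝ → ℝ), σ ≠ 0 → |σ| ≤ c → (∀ E, LyaAt d σ E (γ E)) → |E₀| ≤ 2 * d - δ →
      ∫⁻ θ in Set.Ioo 0 (2 * Real.pi),
          ENNReal.ofReal (γ (cE E₀ (K₁ * σ ^ 2 * Real.log (1 / |σ|) ^ 4) θ)) ≤
        ENNReal.ofReal (C * σ ^ 2 * Real.log (1 / |σ|) ^ 5)

/-- FNM: the mean over an interval. Proof: `WinStmt` with `D = η = K₁ σ² l⁴`: `∫_{|E - E₀| ≤ η} γ ≤
η C σ² l⁵`. Cover `[a, b]` by at most `(b - a) / (2 η) + 1` intervals of length `2 η` with centres in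
`[a, b]`, and `η ≤ K₁ (b - a)`. -/
def FnmStmt : Prop :=
  ∀ (d : ℕ) (δ : ℝ), 3 ≤ d → 0 < δ → ∃ c C : ℝ, 0 < c ∧ c ≤ 1 / 4 ∧ 1 ≤ C ∧
    ∀ (σ a b : ℝ) (γ : ℝ → ℝ), σ ≠ 0 → |σ| ≤ c → (∀ E, LyaAt d σ E (γ E)) →
    -(2 * d - δ) ≤ a → b ≤ 2 * d - δ → σ ^ 2 * Real.log (1 / |σ|) ^ 4 ≤ b - a →
      ∫⁻ E in Set.Icc a b, ENNReal.ofReal (γ E) ≤
        ENNReal.ofReal (C * σ ^ 2 * Real.log (1 / |σ|) ^ 5 * (b - a))

/-! ### E. near the band edge -/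

/-- PSZ: the Green function at a complex energy above the spectrum. Proof: `H` = the matrix of
`Δ + V` on `B`, `s = 2 d + 2`, `H + s` has entries `h ≥ 0` (`V ≥ -1`) and, as forms,
`0 ≤ H + s ≤ E - δ + s`; `r = 1 / (E + s)`, `r' = 1 / (E + i η + s)`, `|r'| ≤ r`, `|1 - r'/r| ≤ η r`.
`(w - H)⁻¹ = ∑_{j < m} (H + s)^j / (w + s)^{j+1} + ((H + s) / (w + s))^m (w - H)⁻¹` for `w = E` and
`w = E + i η`; the entries of the last matrix are at most `(1 - δ r)^m / δ ≤ e^{- m δ r} / δ`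
(spectral theorem). The entries of `(H + s)^j` are `≥ 0` and `|r^{j+1} - r'^{j+1}| ≤ m η r r^{j+1}`.
For the second part, `|∑ h_j r'^{j+1}| ≤ ∑ h_j r^{j+1}` and `m → ∞`. -/
def PszStmt : Prop :=
  ∀ (d : ℕ) (V : Site d → ℝ) (B : Finset (Site d)) (E δ η : ℝ) (x y : Site d), 1 ≤ d →
    0 < δ → 0 < η → 0 ≤ E → (∀ v ∈ B, -1 ≤ V v) →
    (∀ u : Site d → ℝ, δ * ∑ v ∈ B, u v ^ 2 ≤ qform V B E u) →
      ‖gz V B (zc E η) x y‖ ≤ gr V B E x y ∧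
      ∀ m : ℕ, m * η ≤ E + 2 * d + 2 →
        (1 - m * η / (E + 2 * d + 2)) * gr V B E x y -
          2 / δ * Real.exp (-(m * δ / (E + 2 * d + 2))) ≤ ‖gz V B (zc E η) x y‖

/-- CDZ: conduction at a complex energy above the edge. Proof: as `CdpStmt`
(`Pool.Agent.LE.H42Z.cdp`), with `ε = 1 / 50`. On the event `FlatE` around `b`, `B = box b (n + R)`,
`E = z + lam`: `gr V B E b (b + n e_i) ≥ g₀ = exp (-(C₁ √lam n + C₂ (1 + log (1 / lam))))`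
(`CdeStmt`) and `E - H_B ≥ lam`. `PszStmt` with `m = ⌈(4 d + 4) / lam (log (8 / (lam g₀)))⌉` and
`m η ≤ (E + 2 d + 2) / 2`: `|gz V B (zc E η) b (b + n e_i)| ≥ g₀ / 4`. The comparison of `B` and
`box 0 N`: the resolvent identity, `|gz V B (zc E η) b u| ≤ gr V B E b u ≤ (2 / lam)
e^{- √lam (n + R) / 2}` for `sd b u = n + R` (`PszStmt`, `CtsStmt`) and `UpzStmt`. -/
def CdzStmt : Prop :=
  ∀ d : ℕ, 1 ≤ d → ∃ C₂ : ℝ, 1 ≤ C₂ ∧
    ∀ (M' n R N : ℕ) (v : ℝ≥0) (σ z μ lam η p : ℝ) (b : Site d) (i : Fin d), σ ≠ 0 → |σ| ≤ 1 →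
    (v : ℝ) = σ ^ 2 → 0 ≤ z → z ≤ 2 * d + 1 → 0 < lam → lam ≤ 1 / 2 → 0 < μ → 50 ≤ lam * μ →
    0 < η → (∀ h : NeZero M', gau d M' v {V | ¬ FlatE (1 / 50) z μ V} ≤ ENNReal.ofReal p) →
    2 * (n + R) + 5 ≤ M' → (C₂ * n : ℝ) ≤ R → box b (n + R + 1) ⊆ box 0 N →
    C₂ * (1 + Real.log (1 / lam) + Real.log (1 / |σ|) + Real.log R) ≤ Real.sqrt lam * R →
    C₂ * (1 + Real.log (1 / lam) + Real.sqrt lam * n) * η ≤ lam →
      PP d (gl σ) {V | ¬ DZ (box 0 N) (zc (z + lam) η) V b (b + pt i n) ≤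
        C₂ * (1 + Real.log (1 / lam) + Real.sqrt lam * n)} ≤
          ENNReal.ofReal (p + Real.exp (-(Real.sqrt lam * R / 16)))

/-- WEN: the mean near the edge. Proof: `E₀ = z + lam`, `n = ⌈log t / √lam⌉`,
`η = c' lam / log t`, `R₀ = ⌈C₃ log t / √lam⌉` in `CdzStmt` (`2 (n + R₀) + 5 ≤ t` since
`lam t ≥ C log t`), so `DZ(b, b + n e_i) ≤ C log t` outside an event of probability
`p + t^{- C'}`. `LnkStmt` and `ChnStmt` with `R = 0`, `L = n`: the mean of `FZ` is at most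
`K C log t + A₂ ≤ c M`, `M = K n - 1`, `c = C √lam`. `AvgStmt`, then `WinStmt` with `D = 2 lam`:
`(η² + 4 lam²) / (2 η) ≤ C lam log t`. -/
def WenStmt : Prop :=
  ∀ d : ℕ, 3 ≤ d → ∃ c C : ℝ, 0 < c ∧ 1 ≤ C ∧
    ∀ (M' : ℕ) (v : ℝ≥0) (σ t z μ lam p : ℝ) (γ : ℝ → ℝ), σ ≠ 0 → |σ| ≤ 1 →
    (v : ℝ) = σ ^ 2 → 1 ≤ z → z ≤ 2 * d + 1 → 1 / |σ| ≤ t → C ≤ t → 9 * t ≤ μ → t ≤ M' →
    (∀ h : NeZero M', gau d M' v {V | ¬ FlatE (1 / 50) z μ V} ≤ ENNReal.ofReal p) →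
    p ≤ t ^ (-C) → (∀ E, LyaAt d σ E (γ E)) → C * Real.log t ≤ lam * t → lam ≤ c →
      ∫⁻ E in Set.Icc (z - lam) (z + lam), ENNReal.ofReal (γ E) ≤
        ENNReal.ofReal (C * lam ^ (3 / 2 : ℝ) * Real.log t)

end Pool.Agent.LE.MN
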