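import Pool.Agent.LE.DefsQD

/-!
# Beyond the mean free path: `γ(σ, E) ≤ C |σ|^{2 + 1/32}` in the bulk, pointwise in the energy

Part 1: free estimates, the resolvent, concentration, linear algebra. Part 2 is `StmtsQE.lean`
(ladder equation, growth of the clusters, numbers); the final theorem is `QdfStmt`: for `d ≥ 3`,
`|E| ≤ 2 d - δ`, `0 < |σ| ≤ c` the Lyapunov exponent is at most `C |σ|^{2 + 1/32}`.

MAIN IDEA. `v = σ²`, `κ = 1/15`, `η = |σ|^{2 + κ}`, `z = E + i η`, `G = rs V z` the resolvent on the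
torus of side `M`, `|σ|^{-10} ≤ M ≤ |σ|^{-20}`, `l = log (1 / |σ|)`, `η₁ = K₁ v l³`.

(1) The potential is small relative to `m = √((es - E)² + η₁²)` as a quadratic form (`FbpStmt`), and
`|f|₄² ≤ A pm (m |f̂|²)`, `A = C η₁^{-1/3} l²` (`SobStmt`). So `V ↦ G(x, x)` is Lipschitz with the
constant `C A l (η₁ / η)²` on a set of large measure, and by Gaussian concentration
`|G(x, x) - g| ≤ δ₀ = |σ|^{1/3 - 2 κ} l^C`, `g = E G(0, 0)` (`DiaStmt`).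

(2) Gaussian integration by parts: with `ζ = z + v g`, `G₀ = rs 0 ζ` (the free resolvent),
`k(x) = |G₀(0, x)|²`, the mean of `|G(x, y)|²` is `k (1 - v k)⁻¹` up to a relative error
`|σ|^{1/3 - 4 κ} l^C` after averaging over cubes of side `≥ C / v` (`TeqStmt`, `TerStmt`). The kernel
`v k` is a random walk with steps of length `1 / v` which dies at the rate `η / v`.

(3) `∑_{x, y ∈ C} |G(x, y)|²` concentrates about its mean (`MasStmt`), and if `C` is a union of at most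
`N` cubes of side `L = l^C / v`, the mean is at most `ε |C| / η` as long as `N ≤ |σ|^{-d κ / 2 +}`
(`RwsStmt`, `TomStmt`).

(4) Clusters in a large cube `Λ` at the real energy `E`: start with `b`, add alternately the kinetic
clusters (`ClqStmt`) of all points and the points with one cheap link at distance `≤ C l² / η`. If the
number of coarse cubes which are met by the cluster does not double (`GroStmt`), then
`ψ_x = χ G_Λ(x, ·)` solves `(E - H) ψ_x = δ_x + small` and lives in the union `C''` of these cubes,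
`|C''| ≤ l^C |C|`, so `∑_{x ∈ C} Im G(x, x) ≤ 200 ε |C''| + small` (`HscStmt`): impossible. So the
cluster has at least `N |σ|^{-2 d} / l^C` points, `CrgStmt`.
-/

set_option autoImplicit false

open MeasureTheory ProbabilityTheory Function Filter

open scoped ENNReal BigOperators Topology NNReal ComplexOrder Matrix

noncomputable section

namespace Pool.Agent.LE.QD

open Pool.Agent.Anderson hiding box mem_box card_box
open Pool.Agent.Loc Pool.Agent.Mob Pool.Agent.Helper54.Bal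
  Pool.Agent.Helper96.EXP Pool.Agent.BED
open Pool.Agent.LE.MN Pool.Agent.LE.CL Pool.Agent.LE.IR

/-! ### A. Free estimates -/

/-- BES. Proof: `t ≥ 1` (for `t < 0`: `jb (-t) n = conj (jb t (-n))`), `r = t^{-1/3}`. The phase
`φ = n θ + 2 t cos θ` has `φ'' = - 2 t cos θ`. Remove from `[0, 2 π]` the intervals `|θ - π/2| ≤ r`,
`|θ - 3 π/2| ≤ r`; on the three remaining intervals (where they are nonempty) `|cos θ| ≥ 2 r / π`, so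
`|φ''| ≥ t r`, and by the second derivative test (`vdc2`, `vdc2n` in `Helper28_LSP/VDC.lean`) each
integral is at most `C (t r)^{-1/2} = C t^{-1/3}`. -/
def BesStmt : Prop :=
  ∃ C : ℝ, 1 ≤ C ∧ ∀ (t : ℝ) (n : ℤ), 1 ≤ |t| → ‖jb t n‖ ≤ C * |t| ^ (-(1 / 3 : ℝ))

/-- BE2. Proof: `a = 1 / (2 T)`. On `[T, 2 T]` `e^{- a t} ≥ e⁻¹`, so the integral is at most
`e ∫_ℝ e^{- a |t|} |jb t n|² dt = (e / 4 π²) ∫∫ e^{i n (θ - θ')} 2 a / (a² + 4 (cos θ - cos θ')²)`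
(Fubini; `∫ e^{- a |t|} e^{i t u} dt = 2 a / (a² + u²)`). Take absolute values. `θ' = θ - u`, then
`θ → θ + u / 2` (periodicity): `cos θ - cos θ'` becomes `- 2 sin θ sin (u / 2)`, so the double integral
is `∫∫_{[0, 2π]²} 2 a / (a² + 16 sin² θ sin² (u/2)) dθ du ≤ C ∫∫_{[0, π/2]²} a / (a² + c α² β²)`, and for
fixed `α` the integral over `β` is at most `C min (1 / α, 1 / a)`. -/
def Be2Stmt : Prop :=
  ∃ C : ℝ, 1 ≤ C ∧ ∀ (T : ℝ) (n : ℤ), 1 ≤ T →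
    ∫ t in T..2 * T, (‖jb t n‖ ^ 2 + ‖jb (-t) n‖ ^ 2) ≤ C * (1 + Real.log T)

/-- TOR: from the cyclic group to `ℤ`. Proof: `n' = n.valMinAbs`, `|n'| ≤ M / 2`. Expand
`e^{2 i t cos θ} = ∑_m (i t)^m / m! (e^{iθ} + e^{-iθ})^m`. In both kernels the coefficient of
`(i t)^m / m!` is at most `2^m` in absolute value, and it is the same for `m + |n'| < M` (the integral
of `e^{i n' θ} e^{i (2k - m) θ}` is `2 π` if `n' + 2 k - m = 0`, `0` otherwise, the sum over `p` is `M` if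
`n' + 2 k - m = 0` mod `M`, `0` otherwise). So with `m₀ = ⌈M / 2⌉` the difference is at most
`2 ∑_{m ≥ m₀} (2 |t|)^m / m! ≤ 4 (2 e |t| / m₀)^{m₀} ≤ 4 (e / 10)^{m₀}`. -/
def TorStmt : Prop :=
  ∀ (M : ℕ) [NeZero M] (t : ℝ) (n : ZMod M), |t| ≤ M / 40 →
    ‖jt M t n - jb t n.valMinAbs‖ ≤ 8 * Real.exp (-((M : ℝ) / 4))

/-- BKT: the kernel of `e^{i t Δ}` on the torus, integrated over a dyadic block. Proof: the kernel is
`∏_i jt M t (y i)` (`ec p y = ∏ stdAddChar`, `es p = ∑ 2 cos`). `|jt| ≤ 1`, so it is at most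
`∏_{i < 3} |jt M t (y i)| ≤ (1/3) ∑_{i < 3} |jt M t (y i)|³`; by `TorStmt`, `BesStmt`
`|jt| ≤ C T^{-1/3} + 8 e^{-M/4} ≤ C T^{-1/3}`, and `∫ |jt|² ≤ 2 ∫ |jb|² + 2 T 64 e^{-M/2} ≤
C (1 + log T)` (`Be2Stmt`, `T ≤ M / 80`). Similarly for `- t`. -/
def BktStmt : Prop :=
  ∀ d : ℕ, 3 ≤ d → ∃ C : ℝ, 1 ≤ C ∧ ∀ (M : ℕ) [NeZero M] (T : ℝ) (y : Tor d M), 1 ≤ T →
    2 * T ≤ M / 40 →
      ∫ t in T..2 * T,
        (‖(∑ p, ec p y * Complex.exp (Complex.I * ((t * es p : ℝ) : ℂ))) / (M : ℂ) ^ d‖ +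
          ‖(∑ p, ec p y * Complex.exp (-(Complex.I * ((t * es p : ℝ) : ℂ)))) / (M : ℂ) ^ d‖) ≤
        C * T ^ (-(1 / 3 : ℝ)) * (1 + Real.log T)

/-- INT: interpolation between `ℓ¹ → ℓ^∞` and `ℓ² → ℓ²`. Proof: `A, B > 0` and, by homogeneity,
`∑ |f|^{4/3} = 1`. `f_j` = the part of `f` with `2^j ≤ |f| < 2^{j+1}` (`j ∈ ℤ`), `a_j` the number of these
points, `u_j = 2^{4 j / 3} a_j`, `∑ u_j ≤ 1`. `|⟨f_i, T f_j⟩| ≤ min (4 B 2^{-(i+j)/3} u_i u_j,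
4 A 2^{(i+j)/3} (u_i u_j)^{1/2})`. Let `2^{2 k₀ / 3} ≈ B / A`. The pairs with `i + j ≥ k₀`: at most
`4 B 2^{-k₀/3} (∑ u_i)²`; the pairs with `i + j = k < k₀`: at most `4 A 2^{k/3} ∑_i (u_i u_{k-i})^{1/2} ≤
4 A 2^{k/3}` (Cauchy-Schwarz), geometric series. -/
def IntStmt : Prop :=
  ∃ C : ℝ, 1 ≤ C ∧ ∀ (X : Type) [Fintype X] (T : X → X → ℂ) (f : X → ℂ) (A B : ℝ), 0 ≤ A → 0 ≤ B →
    (∀ x y, ‖T x y‖ ≤ B) →
    (∀ g h : X → ℂ, ‖∑ x, ∑ y, (starRingEnd ℂ) (g x) * (T x y * h y)‖ ≤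
      A * (Real.sqrt (n2 g) * Real.sqrt (n2 h))) →
      ‖∑ x, ∑ y, (starRingEnd ℂ) (f x) * (T x y * f y)‖ ≤
        C * Real.sqrt (A * B) * (∑ x, ‖f x‖ ^ (4 / 3 : ℝ)) ^ (3 / 2 : ℝ)

/-- SOB: the Sobolev inequality. Proof: duality: with `g = |f|² f`, `∑ |f|⁴ = ⟨f, g⟩ ≤
(pm (m |f̂|²))^{1/2} (pm (m⁻¹ |ĝ|²))^{1/2}`, and `|g|_{4/3} = |f|₄³`, so it is enough that
`pm (m⁻¹ |ĝ|²) ≤ A |g|_{4/3}²`. By `inv_sqrt_le` (`Helper17_Anderson/Kappa.lean`)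
`m⁻¹ ≤ 1 + 4 ∑_{j ≤ n} η_j / (X² + η_j²)`, `X = es - E`, `η_j = 2^j η`, `n ≤ C (1 + log M)`;
`pm |ĝ|² = |g|₂² ≤ |g|_{4/3}²`. `η_j / (X² + η_j²) = (1/2) ∫ e^{- η_j |t|} e^{i t X} dt`. The part
`|t| ≤ 1` of the integral is at most `1`; the part `|t| ≥ M / 160` is at most `e^{-η M / 160} / η ≤ 1`.
For the block `T = 2^k ≤ |t| ≤ 2 T`, `2 T ≤ M / 40`: the operator has the norm at most
`2^k e^{-η_j 2^k}` and the kernel is at most `C e^{- η_j 2^k} 2^{-k/3} (1 + k)` (`BktStmt`), so by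
`IntStmt` its form at `g` is at most `C e^{- η_j 2^k} 2^{k/3} (1 + k) |g|_{4/3}²`. The sum over `k` with
`2^k ≤ M` is at most `C η_j^{-1/3} (1 + log M)`, the sum over `j` at most `C η^{-1/3} (1 + log M)`. -/
def SobStmt : Prop :=
  ∀ d : ℕ, 3 ≤ d → ∃ C : ℝ, 1 ≤ C ∧ ∀ (M : ℕ) [NeZero M] (E η : ℝ), 0 < η → η ≤ 1 →
    C / η ^ 2 ≤ M → Sob d M E η (C * η ^ (-(1 / 3 : ℝ)) * (1 + Real.log M) ^ 2)

/-- DSU: the density of states on the torus. Proof: for `θ` in the cell of side `1 / M` at `p / M` one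
has `|sy θ - es p| ≤ 4 π d / M ≤ η / 2`, so the value of `ker η` at `es p - E` is at most `4` times the
value at `sy θ - E`; sum over the cells and `integral_ker_le` (`Helper17_Anderson/Kappa.lean`). The
second part: `inv_sqrt_le` and the first part for `2^j η ≤ 2` (as in `kap_le`). -/
def DsuStmt : Prop :=
  ∀ d : ℕ, 3 ≤ d → ∃ C : ℝ, 1 ≤ C ∧ ∀ (M : ℕ) [NeZero M] (E η : ℝ), 0 < η → η ≤ 1 → C / η ≤ M →
    pm (fun p : Tor d M => η / ((es p - E) ^ 2 + η ^ 2)) ≤ C ∧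
    pm (fun p : Tor d M => (Real.sqrt ((es p - E) ^ 2 + η ^ 2))⁻¹) ≤ C * (1 + Real.log (1 / η))

/-- DSL: lower bound for the density of states with a weight. Proof: let `2 d cos θ₀ = E`,
`0 < θ₀ < π`, `sin θ₀ ≥ c_δ`. Let `r` be small (depending on `d`, `δ`). For at least `c r M` values of
the coordinate `p i` the angle `θ_i = 2 π p_i / M` satisfies `|θ_i - θ₀| ≤ r` and `|sin (θ_i - a)| ≥
r / 8`. Choose the coordinates other than `i` and some `j ≠ i` such that `|θ_k - θ₀| ≤ r`: at least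
`c r M` values each. Then there is `θ*` with `|θ* - θ₀| ≤ C r` and `2 cos θ* = E - ∑_{k ≠ j} 2 cos θ_k`,
and all `θ_j` with `|θ_j - θ*| ≤ η / 2` are admissible: at least `c η M` values if `M ≥ C / η`. -/
def DslStmt : Prop :=
  ∀ (d : ℕ) (δ : ℝ), 3 ≤ d → 0 < δ → ∃ c C : ℝ, 0 < c ∧ c ≤ 1 ∧ 1 ≤ C ∧
    ∀ (M : ℕ) [NeZero M] (E η a : ℝ) (i : Fin d), |E| ≤ 2 * d - δ → 0 < η → η ≤ c → C / η ≤ M →
      c * η ≤ pm (fun p : Tor d M => if |es p - E| ≤ η then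
        Real.sin (2 * Real.pi * ((p i).valMinAbs : ℝ) / M - a) ^ 2 else 0)

/-! ### B. The resolvent -/

/-- RAL: algebra of the resolvent. Proof: `H` is real symmetric, so `|(H - z) u| ≥ z.im |u|`. (5):
`G - G^* = (z - conj z) G G^*`. (6): resolvent identity. (7): `adj` is translation invariant. (8): for
`u = G(z₁) δ_x`, `z₁ = E + i η₁`: `G(z) δ_x = (1 - i (η₁ - η) G(z)) u`, so `η |G(z) δ_x| ≤ η₁ |u|`, and
(5). (9): derivative of the inverse. (11): `ec p` is an eigenvector of `adj` with the eigenvalue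
`es p`. -/
def RalStmt : Prop :=
  ∀ (d M : ℕ) [NeZero M] (V : Tor d M → ℝ) (z : ℂ), 0 < z.im →
    (hz V z * rs V z = 1 ∧ rs V z * hz V z = 1) ∧
    (∀ x y, rs V z x y = rs V z y x) ∧
    (∀ x y, rs V ((starRingEnd ℂ) z) x y = (starRingEnd ℂ) (rs V z x y)) ∧
    (∀ w : Tor d M → ℂ, n2 (rs V z *ᵥ w) ≤ n2 w / z.im ^ 2 ∧
      n2 ((rs V z)ᴴ *ᵥ w) ≤ n2 w / z.im ^ 2) ∧
    (∀ x, ∑ y, ‖rs V z x y‖ ^ 2 = (rs V z x x).im / z.im) ∧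
    (∀ V' : Tor d M → ℝ, rs V z - rs V' z =
      -(rs V z * (Matrix.diagonal fun x => ((V x - V' x : ℝ) : ℂ)) * rs V' z)) ∧
    (∀ a x y : Tor d M, rs (tr a V) z x y = rs V z (a + x) (a + y)) ∧
    (∀ (E η η₁ : ℝ) (x : Tor d M), 0 < η → η ≤ η₁ →
      (rs V ⟨E, η⟩ x x).im ≤ η₁ / η * (rs V ⟨E, η₁⟩ x x).im) ∧
    (∀ x a b : Tor d M, HasDerivAt (fun t : ℝ => rs (Function.update V x t) z a b)
      (-(rs V z a x * rs V z x b)) (V x)) ∧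
    (∀ a b : Tor d M, Continuous fun W : Tor d M → ℝ => rs W z a b) ∧
    (∀ x y : Tor d M, rs (0 : Tor d M → ℝ) z x y =
      (∑ p, ec p (x - y) / ((es p : ℂ) - z)) / (M : ℂ) ^ d) ∧
    (∀ x y : Tor d M, ‖rs V z x y‖ ≤ 1 / z.im)

/-- FBP: probability of the form bound. Proof: on the momenta, `f̂ = m^{-1/2} a`, `ĝ = m^{-1/2} b`: the
left side of `FBq` is `|⟨b, X a⟩|²`, `X = ∑_y V y X_y`, `X_y = |φ_y⟩⟨φ_y|`,
`φ_y(p) = m(p)^{-1/2} M^{-d/2} conj (ec p y)` (in the norms of `ℓ²` of the momenta), `|φ_y|² ≤ B`,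
`∑_y X_y² ≤ B ∑_y X_y = B diag (1 / m) ≤ B / η`. `NckStmt` (`H64R.nck`) with `Θ = B / η`. -/
def FbpStmt : Prop :=
  ∀ (d M : ℕ) [NeZero M] (v : ℝ≥0) (E η τ r B : ℝ) (k : ℕ), 0 < η → 0 < τ → 0 ≤ r → 1 ≤ k →
    pm (fun p : Tor d M => (mt (2 * d - E) η p)⁻¹) ≤ B →
      gau d M v {V | ¬ FBq E η τ V} ≤
        ENNReal.ofReal (2 * (M : ℝ) ^ d * Real.exp (-(r ^ 2 / 2)) +
          (M : ℝ) ^ d * (2 * k * r ^ 2 * v * (B / η) / τ ^ 2) ^ k)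

/-- RES: consequences of the form bound. Proof: `z = E + i η`, `X = es - E`, `m = √(X² + η₁²)`,
`u = G w`, `(X - i η) û = ŵ - (V u)^`. (a) `Y² = pm (m |û|²)`, `W² = pm (m⁻¹ |ŵ|²)`. Take the inner
product with `(X / m) û`: the term with `i η` is imaginary, so `pm (X² / m |û|²) ≤ Y W + Y² / 4`
(`|X / m| ≤ 1`, `FBq`), `X² / m ≥ m - η₁`, so `Y² ≤ 2 W² + 2 η₁ |u|²`. (b) For `z₁ = E + i η₁`,
`u = G(z₁) δ_x`: `|X - i η₁| = m`, so `Y ≤ W + Y / 4` (the dual form of `FBq`: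
`pm (m⁻¹ |(V u)^|²) ≤ pm (m |û|²) / 16`), `Y ≤ (4/3) W`, and `Im G(z₁)(x, x) ≤ |⟨δ_x, u⟩| ≤ W Y ≤
(4/3) W² ≤ (4/3) B`. By `RalStmt` (8) `Im G(z)(x, x) ≤ (4/3) B η₁ / η`, and (5). (c) `w = δ_x`:
`n4 (G δ_x) ≤ A Y² ≤ A (2 B + 2 η₁ (4/3) B η₁ / η²) ≤ 10 A B (η₁ / η)²`. (d) general `w`:
`W² ≤ |w|² / η₁`, `|u| ≤ |w| / η`. For `G^*`: `G` is symmetric, so `G^* w = conj (G conj w)`. -/
def ResStmt : Prop :=
  ∀ (d M : ℕ) [NeZero M] (V : Tor d M → ℝ) (E η η₁ A B : ℝ), 0 < η → η ≤ η₁ → 0 ≤ A →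
    Sob d M E η₁ A → pm (fun p : Tor d M => (mt (2 * d - E) η₁ p)⁻¹) ≤ B → FBq E η₁ (1 / 4) V →
      (∀ x, (rs V ⟨E, η⟩ x x).im ≤ 4 / 3 * B * (η₁ / η)) ∧
      (∀ x, ∑ y, ‖rs V ⟨E, η⟩ x y‖ ^ 2 ≤ 4 / 3 * B * (η₁ / η ^ 2)) ∧
      (∀ x, Real.sqrt (∑ y, ‖rs V ⟨E, η⟩ x y‖ ^ 4) ≤ 10 * A * B * (η₁ / η) ^ 2) ∧
      (∀ w : Tor d M → ℂ, n4 (rs V ⟨E, η⟩ *ᵥ w) ≤ 8 * A * (η₁ / η ^ 2) * n2 w) ∧
      ∀ w : Tor d M → ℂ, n4 ((rs V ⟨E, η⟩)ᴴ *ᵥ w) ≤ 8 * A * (η₁ / η ^ 2) * n2 w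

/-! ### C. Concentration -/

/-- LCC: concentration for a function which is Lipschitz on a set `S` of large measure. Proof: extend
`F` from `S` to a Lipschitz function (`LipschitzOnWith.extend_real` or the infimum formula) with the
constant `ℓ`, cut it at `± B`: `F₁`. `F₁ = F` on `S`, so `|∫ F - ∫ F₁| ≤ 2 B p`, and `GCStmt` (`BED`) for
`F₁`. (`S` need not be measurable: `{F ≠ F₁} ⊆ Sᶜ`.) -/
def LccStmt : Prop :=
  ∀ (ι : Type) [Fintype ι] (v : ℝ≥0) (S : Set (ι → ℝ)) (F : (ι → ℝ) → ℝ) (B ℓ p r : ℝ),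
    Measurable F → (∀ V, |F V| ≤ B) → 0 < ℓ →
    (∀ V ∈ S, ∀ V' ∈ S, |F V - F V'| ≤ ℓ * Real.sqrt (∑ i, (V i - V' i) ^ 2)) →
    (Measure.pi fun _ : ι => gaussianReal 0 v) Sᶜ ≤ ENNReal.ofReal p → 0 ≤ p → 0 ≤ r →
      (Measure.pi fun _ : ι => gaussianReal 0 v)
        {V | V ∈ S ∧ r + 2 * B * p <
          |F V - ∫ W, F W ∂(Measure.pi fun _ : ι => gaussianReal 0 v)|} ≤
        ENNReal.ofReal (2 * Real.exp (-(r ^ 2 / (5 * ℓ ^ 2 * v))))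

/-- DIA: the diagonal of the resolvent is nearly constant. Proof: `S = {FBq}`. For `V, V' ∈ S` by the
resolvent identity `|G(x, x) - G'(x, x)| = |∑_y G(x, y) (V y - V' y) G'(y, x)| ≤ |V - V'|
(∑_y |G(x, y)|⁴)^{1/4} (∑_y |G'(y, x)|⁴)^{1/4}`, so `ℓ = 10 A B (η₁ / η)²` (`ResStmt`). `LccStmt` for
the real and the imaginary part of `G(x, x)`, bounded by `1 / η`, for all `x` (union of `M^d` events,
but the event outside of `S` is the same). The mean of `G(x, x)` is `gb` (`RalStmt` (7) and the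
invariance of the measure, `CovStmt`). -/
def DiaStmt : Prop :=
  ∀ (d M : ℕ) [NeZero M] (v : ℝ≥0) (E η η₁ A B p r : ℝ), 0 < η → η ≤ η₁ → 0 < A → 0 < B →
    Sob d M E η₁ A → pm (fun p : Tor d M => (mt (2 * d - E) η₁ p)⁻¹) ≤ B →
    gau d M v {V | ¬ FBq E η₁ (1 / 4) V} ≤ ENNReal.ofReal p → 0 ≤ p → 0 ≤ r →
      gau d M v {V | ¬ ∀ x, ‖rs V ⟨E, η⟩ x x - gb d M v ⟨E, η⟩‖ ≤ 2 * r + 4 * p / η} ≤
        ENNReal.ofReal (p + (M : ℝ) ^ d * (4 * Real.exp (-(r ^ 2 /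
          (5 * (10 * A * B * (η₁ / η) ^ 2) ^ 2 * v)))))

/-- OFF: concentration of `(G^* f G₀)(x, x)`. Proof: `S = {FBq}`. For `V, V' ∈ S`, with
`h = f G₀(·, x)`: `od V - od V' = - ∑_y conj (G'(y, x)) (V y - V' y) (G^* h)(y)` (resolvent identity and
symmetry), at most `|V - V'| (∑_y |G'(y, x)|⁴)^{1/4} (n4 (G^* h))^{1/2}`, `n2 h ≤ Φ² K₀`, so by `ResStmt`
`ℓ² = 10 A B (η₁ / η)² 8 A (η₁ / η²) Φ² K₀`. `|od| ≤ Φ |G δ_x| |G₀ δ_x| ≤ Φ / η²`. `LccStmt` for the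
real and the imaginary part and all `x`. -/
def OffStmt : Prop :=
  ∀ (d M : ℕ) [NeZero M] (v : ℝ≥0) (E η η₁ A B p r Φ K₀ : ℝ) (ζ : ℂ) (f : Tor d M → ℝ), 0 < η →
    η ≤ η₁ → 0 < A → 0 < B → 0 < Φ → 0 < K₀ → η ≤ ζ.im → (∀ x, |f x| ≤ Φ) →
    ∑ x : Tor d M, kk ζ x ≤ K₀ →
    Sob d M E η₁ A → pm (fun p : Tor d M => (mt (2 * d - E) η₁ p)⁻¹) ≤ B →
    gau d M v {V | ¬ FBq E η₁ (1 / 4) V} ≤ ENNReal.ofReal p → 0 ≤ p → 0 ≤ r →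
      gau d M v {V | ¬ ∀ x, ‖od V ⟨E, η⟩ ζ f x - ∫ W, od W ⟨E, η⟩ ζ f x ∂(gau d M v)‖ ≤
          2 * r + 4 * p * Φ / η ^ 2} ≤
        ENNReal.ofReal (p + (M : ℝ) ^ d * (4 * Real.exp (-(r ^ 2 /
          (5 * (80 * A ^ 2 * B * (η₁ ^ 3 / η ^ 4) * Φ ^ 2 * K₀) * v)))))

/-- MAS: concentration of the mass. Proof: `S = {FBq}`, `φ` = the indicator of `C`. For `V, V' ∈ S`:
`mss V - mss V' = tr (φ (G - G') φ G^*) + tr (φ G' φ (G - G')^*)`, `D = V - V'`. The first trace is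
`- ∑_y D y (G' φ G^* φ G)(y, y)`, and `|(G' φ G^* φ G)(y, y)|² ≤ ∑_{b ∈ C} |G'(y, b)|²
∑_{b ∈ C} |(G^* φ G)(b, y)|²`; the first factor is at most `s² = (4/3) B η₁ / η²` (`ResStmt`), the second
one summed over `y` is `∑_{b ∈ C} |G^* φ G δ_b|² ≤ |C| s² / η²`. The second trace
(`G - G' = - G' D G`) is `- ∑_y D y (G^* φ G' φ G'^*)(y, y)`, same bound. So `ℓ² = 4 |C| s⁴ / η² ≤
8 B² η₁² |C| / η⁶`. `0 ≤ mss ≤ |C| / η²`. `LccStmt` with `r |C|`, for all `C ∈ 𝒞`. -/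
def MasStmt : Prop :=
  ∀ (d M : ℕ) [NeZero M] (v : ℝ≥0) (E η η₁ A B p r : ℝ) (𝒞 : Finset (Finset (Tor d M))), 0 < η →
    η ≤ η₁ → 0 < A → 0 < B → Sob d M E η₁ A →
    pm (fun p : Tor d M => (mt (2 * d - E) η₁ p)⁻¹) ≤ B →
    gau d M v {V | ¬ FBq E η₁ (1 / 4) V} ≤ ENNReal.ofReal p → 0 ≤ p → 0 ≤ r →
    (∀ C ∈ 𝒞, C.Nonempty) →
      gau d M v {V | ¬ ∀ C ∈ 𝒞, mss V ⟨E, η⟩ C ≤
          (∫ W, mss W ⟨E, η⟩ C ∂(gau d M v)) + (r + 2 * p / η ^ 2) * C.card} ≤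
        ENNReal.ofReal (p + ∑ C ∈ 𝒞, 2 * Real.exp (-(r ^ 2 * C.card * η ^ 6 /
          (40 * B ^ 2 * η₁ ^ 2 * v))))

/-- STE: Gaussian integration by parts. Proof: Fubini in the coordinate `x`
(`MeasureTheory.measurePreserving_piFinSuccAbove` or the invariance under updating one coordinate with
an independent copy); in dimension one, with `φ` the density, `φ' = - (t / v) φ`:
`∫ t F φ = v ∫ F' φ` (`integral_mul_deriv_eq_deriv_mul_of_integrable`). For `v = 0` both sides are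
zero. -/
def SteStmt : Prop :=
  ∀ (ι : Type) [Fintype ι] [DecidableEq ι] (v : ℝ≥0) (x : ι) (F F' : (ι → ℝ) → ℂ) (B : ℝ),
    Continuous F → Continuous F' → (∀ V, ‖F V‖ ≤ B) → (∀ V, ‖F' V‖ ≤ B) →
    (∀ V, HasDerivAt (fun t : ℝ => F (Function.update V x t)) (F' V) (V x)) →
      ∫ V, (V x : ℂ) * F V ∂(Measure.pi fun _ : ι => gaussianReal 0 v) =
        v * ∫ V, F' V ∂(Measure.pi fun _ : ι => gaussianReal 0 v)

/-! ### D. Linear algebra of the cluster -/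

/-- HSC: the Hilbert-Schmidt bound. Proof: `z = E + i η`, `G = (H - z)⁻¹`, `|G| ≤ 1 / η`, `φ` the
indicator of `C'`. For `v ∈ ℓ²(C)`, `ψ_v = ∑ v_x ψ_x` (`lnt`), `F_v`, `e_v` similarly:
`(H - z) ψ_v = - (v + F_v + e_v + i η ψ_v)`, so `ψ_v = - G (v + F_v + e_v + i η ψ_v)`. Let
`T = η φ G φ`, `|T|_{HS}² ≤ ε η |C'|`. By `LaqStmt` (`A = 2 T^* T`) there is an orthogonal projection
`Q` on `ℓ²(C)` with `tr (1 - Q) ≤ 4 ε η |C'|` and `|T ψ_v| ≤ |ψ_v| / 2` for `v` in the range of `Q`. For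
these `v`, since
`ψ_v = φ ψ_v`: `|ψ_v| ≤ |φ G v| + |ψ_v| / 8 + |e_v| / η + |ψ_v| / 2`, so
`|ψ_v| ≤ (8/3) (|φ G v| + |e_v| / η)`. Sum over `v_k = Q δ_k`, `k ∈ C` (`∑_k |B v_k|² ≤ ∑_{x ∈ C} |B δ_x|²`
for every linear `B`): `∑ |ψ_{v_k}|² ≤ (128/9) (∑_{x ∈ C} |φ G δ_x|² + |C| e₀ / η²) ≤
(128/9) (ε |C'| / η + |C| e₀ / η²)`. Also `|G v| ≤ (17/8) |ψ_v| + |e_v| / η`, so
`η ∑_k |G v_k|² ≤ (289/32) η ∑ |ψ_{v_k}|² + 2 |C| e₀ / η ≤ 129 ε |C'| + 131 |C| e₀ / η`. Finally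
`∑_{x ∈ C} Im G(x, x) = η ∑_{x ∈ C} |G δ_x|² = η ∑_k |G v_k|² + η ∑_k |G (1 - Q) δ_k|²` (`Q` is an
orthogonal projection), and the last term is at most `tr (1 - Q) / η ≤ 4 ε |C'|`. -/
def HscStmt : Prop :=
  ∀ (X : Type) [Fintype X] [DecidableEq X] (H G : Matrix X X ℂ) (E η ε e₀ : ℝ) (C C' : Finset X)
    (ψ F e : X → X → ℂ), H.IsHermitian → 0 < η → 0 ≤ ε → C ⊆ C' →
    (H - Matrix.diagonal fun _ => (⟨E, η⟩ : ℂ)) * G = 1 →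
    (∀ x ∈ C, ∀ y, y ∉ C' → ψ x y = 0) →
    (∀ x ∈ C, ∀ y, (E : ℂ) * ψ x y - (H *ᵥ ψ x) y = (if y = x then 1 else 0) + F x y + e x y) →
    (∀ v : C → ℂ, ∑ y, ‖lnt C F v y‖ ^ 2 ≤ (η / 8) ^ 2 * ∑ y, ‖lnt C ψ v y‖ ^ 2) →
    (∀ x ∈ C, ∑ y, ‖e x y‖ ^ 2 ≤ e₀) →
    ∑ x ∈ C', ∑ y ∈ C', ‖G x y‖ ^ 2 ≤ ε * C'.card / η →
      ∑ x ∈ C, (G x x).im ≤ 200 * (ε * C'.card + e₀ * C.card / η)

end Pool.Agent.LE.QD
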