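import Pool.Agent.LE.StmtsQG

/-!
# Diffusion down to the scale `η = |σ|^{2 d - ε}`, part 3: initial values, numbers, final theorem

See `StmtsQF.lean`.
-/

set_option autoImplicit false

open MeasureTheory ProbabilityTheory Function Filter

open scoped ENNReal BigOperators Topology NNReal ComplexOrder Matrix

noncomputable section

namespace Pool.Agent.LE.QF

open Pool.Agent.Anderson hiding box mem_box card_box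
open Pool.Agent.Loc Pool.Agent.Mob Pool.Agent.Helper54.Bal
  Pool.Agent.Helper96.EXP Pool.Agent.BED
open Pool.Agent.LE.MN Pool.Agent.LE.CL Pool.Agent.LE.IR Pool.Agent.LE.QD

/-! ### F. Fourier analysis, the free resolvent -/

/-- FMU: Fourier multipliers. Proof: `FtbStmt`; `(mlt s f)^ = s f̂` for even real `s`
(`∑_y ec p (x - y) f y` summed over `p`); the imaginary parts cancel because `s (-p) = s p`. -/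
def FmuStmt : Prop :=
  ∀ (d M : ℕ) [NeZero M] (s s' : Tor d M → ℝ), (∀ p, s (-p) = s p) → (∀ p, s' (-p) = s' p) →
    (∀ f : Tor d M → ℝ, qf (mlt s) f = pm fun p => s p * ‖ft (fun x => (f x : ℂ)) p‖ ^ 2) ∧
    (∀ x y, mlt s x y = mlt s y x) ∧
    mlt s * mlt s' = mlt (fun p => s p * s' p) ∧
    mlt (fun p => s p + s' p) = mlt s + mlt s' ∧
    (∀ t : ℝ, mlt (fun p => t * s p) = t • mlt s) ∧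
    mlt (fun _ : Tor d M => 1) = 1 ∧
    (∀ x, ∑ y, mlt s x y = s 0) ∧
    (∀ x, mlt s x x = pm s) ∧
    P0 (Tor d M) = mlt (fun p => if p = 0 then 1 else 0) ∧
    ((∀ p, 0 < s p) → (mlt s)⁻¹ = mlt fun p => (s p)⁻¹) ∧
    ∀ (k : Tor d M → ℝ) (x y : Tor d M), (∀ z, k (-z) = k z) →
      k (x - y) = mlt (fun p => ∑ z, k z * (ec p z).re) x y

/-- KFT: the Fourier transforms of the squares of the free resolvent. Proof: `RalStmt` (11), (5),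
`∑_x ec p x = M^d` or `0`. (3): `n2 (B u) = pm |bh|² |û|²`. (4): `FmuStmt`. -/
def KftStmt : Prop :=
  ∀ (d M : ℕ) [NeZero M] (z : ℂ), 0 < z.im →
    (∀ p : Tor d M, kf z p = (kh z p).re) ∧
    (∀ p : Tor d M, ∑ x : Tor d M, rs (0 : Tor d M → ℝ) z 0 x ^ 2 * ec p x = bh z p) ∧
    (∀ (β : ℝ) (u : Tor d M → ℂ), (∀ p : Tor d M, ‖bh z p‖ ≤ β) →
      n2 (BB (rs (0 : Tor d M → ℝ) z) *ᵥ u) ≤ β ^ 2 * n2 u) ∧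
    KK (rs (0 : Tor d M → ℝ) z) = mlt (kf z) ∧
    (∀ p : Tor d M, kf z (-p) = kf z p) ∧
    kf z (0 : Tor d M) = (rs (0 : Tor d M → ℝ) z 0 0).im / z.im

/-- LOW: low momenta. Proof: `(4/π²) x² ≤ 2 (1 - cos x) ≤ x²` for `|x| ≤ π`; `low` has at most
`(2 J + 1)^d` elements; `∑_{0 < |k| ≤ J} |k|^{-2} ≤ C J^{d-2}` (shells `|k|_∞ = j`: at most `C j^{d-1}` points). -/
def LowStmt : Prop :=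
  ∀ d : ℕ, 3 ≤ d → ∃ C : ℝ, 1 ≤ C ∧ ∀ (M : ℕ) [NeZero M],
    (∀ p : Tor d M, 16 / (M : ℝ) ^ 2 * ∑ i, ((p i).valMinAbs : ℝ) ^ 2 ≤ ds p ∧
      ds p ≤ (2 * Real.pi / M) ^ 2 * ∑ i, ((p i).valMinAbs : ℝ) ^ 2) ∧
    ∀ J : ℕ, 1 ≤ J → ((low d M J).card : ℝ) ≤ C * (J : ℝ) ^ d ∧
      ∑ p ∈ (low d M J).filter (fun p => p ≠ 0), 1 / ds p ≤ C * (M : ℝ) ^ 2 * (J : ℝ) ^ (d - 2)

/-- JCB: the Bessel function `J₀(2 |a|)`. Proof: expand `exp (i (a u + conj a conj u))` in powers; the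
mean of `u^n` over the `M`-th roots of unity is `0` for `0 < |n| < M`, `1` for `n = 0`, so the terms of
degree `m < M` give the same as the mean over the circle, the others at most `(2|a|)^m / m!` each,
in total at most `4 (2 e |a| / M)^M ≤ 4 e^{-M/4}` (`‖a‖ ≤ M/40`). The mean over the circle is
`jb |a| 0`. For `t ≥ 1` it is at most `C t^{-1/2}`: the phase `2 t cos θ`; on the intervals with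
`|cos θ| ≥ 1/√2` the second derivative test (`vdc2`, `vdc2n` in `Helper28_LSP/VDC.lean`), on the others
`|sin θ| ≥ 1/√2` the first derivative is monotone or of size `≥ t` (first derivative test, or
integration by parts: at most `C / t`). -/
def JcbStmt : Prop :=
  ∃ C : ℝ, 1 ≤ C ∧ ∀ (M : ℕ) [NeZero M] (a : ℂ), ‖a‖ ≤ M / 40 →
    ‖jc M a‖ ≤ C * (1 + ‖a‖) ^ (-(1 / 2 : ℝ))

/-- KHB: the ladders for large momenta. Proof: `(e - z)⁻¹ = i ∫_0^∞ e^{-i t (e - z)} dt`. So `|kh z p|` is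
at most `∫∫_{t, s ≥ 0} e^{-w (t+s)} ∏_j |jc M (- t + s e^{i p_j})| dt ds` (`es = ∑ 2 cos`, the sum over `k`
factorizes; the angle `p_j` is `2 π p_j / M`), `w = z.im`, and `|bh z p|` the same with
`t + s e^{-i p_j}`. `ρ_j = |t - s e^{i p_j}|`, `ρ_j² = (t - s)² + 4 t s sin² (p_j / 2)`; for `bh`
`ρ_j² = (t - s)² + 4 t s cos² (p_j / 2)`. `JcbStmt` for `t + s ≤ M / 40`: the product is at most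
`C (1 + |t - s|)^{-1} (1 + max (|t - s|, 2 s_i √(t s)))^{-1/2}`, `s_i` = the sine (cosine) of the
coordinate `i`; `|jc| ≤ 1` for the other coordinates. `u = t + s`. Region `|t - s| ≤ u/2`: `√(t s) ≥ u/4`,
the integral is at most `C ∫ e^{-w u} (1 + log (1 + u)) (1 + s_i u / 2)^{-1/2} du ≤ C (1 + log (1/w)) w⁻¹
(w / (w + s_i))^{1/2}`. Region `|t - s| > u/2`: `C ∫ e^{-w u} u (1 + u)^{-3/2} du ≤ C w^{-1/2}`. The part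
`t + s > M/40`: at most `(M / w + 1 / w²) e^{-w M / 40} ≤ 1`. -/
def KhbStmt : Prop :=
  ∀ d : ℕ, 3 ≤ d → ∃ C : ℝ, 1 ≤ C ∧ ∀ (M : ℕ) [NeZero M] (z : ℂ) (p : Tor d M) (i : Fin d),
    0 < z.im → z.im ≤ 1 / 2 → C / z.im ^ 2 ≤ M →
      ‖kh z p‖ ≤ C * (1 + Real.log (1 / z.im)) / z.im *
        Real.sqrt (z.im / (z.im + |Real.sin (Real.pi * ((p i).valMinAbs : ℝ) / M)|)) ∧
      ‖bh z p‖ ≤ C * (1 + Real.log (1 / z.im)) / z.im *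
        Real.sqrt (z.im / (z.im + |Real.cos (Real.pi * ((p i).valMinAbs : ℝ) / M)|))

/-- BQB: `B` for all momenta. Proof: if `|cos (π p_i / M)| ≥ r` for some `i`: `KhbStmt`. If not:
`es k + es (p - k) = ∑ 4 cos (π p_i / M) cos (…)`, at most `4 d r ≤ |Re z|` in absolute value, so
`(es k - z) + (es (p - k) - z)` has the absolute value at least `2 |Re z| - |Re z|`, and
`1 / (x y) = (1/x + 1/y) / (x + y)`: `|bh| ≤ (2 / |Re z|) pm (1 / |es - z|)` (`DsuStmt`). -/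
def BqbStmt : Prop :=
  ∀ d : ℕ, 3 ≤ d → ∃ C : ℝ, 1 ≤ C ∧ ∀ (M : ℕ) [NeZero M] (z : ℂ) (r : ℝ) (p : Tor d M),
    0 < z.im → z.im ≤ 1 / 2 → C / z.im ^ 2 ≤ M → 0 < r → r ≤ 1 → 4 * d * r ≤ |z.re| →
      ‖bh z p‖ ≤ C * (1 + Real.log (1 / z.im)) * (Real.sqrt (z.im / r) / z.im + 1 / |z.re|)

/-- GAL: the gap for the momenta with `|p_i| ≤ M / 8`. Proof: `w = ζ.im`. If `2 π |p_i| ≤ c w M` for all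
`i`: `GapStmt` (`ds p ≤ (2π/M)² ∑ p_i²`). If `2 π |p_i| > c w M`: as in the proof of `GapStmt`, `kf p ≤
∑ kk |cos a_i| ≤ ∑ kk (1 - (1 - cos 2 a_i)/4)`, and with `t = 4 π p_i / M`, `2 c w ≤ |t| ≤ π/2`:
`∑ kk(x) (1 - cos (t x_i)) = (1/2) pm |1/(es k - ζ) - 1/(es k' - ζ)|²`, `k'` = `k` shifted by `2 p_i` in the
coordinate `i`, `|es k - es k'| = 4 |sin (t/2) sin (k_i + t/2)|`. By `DslStmt`, `DsuStmt` the set of the `k`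
with `|es k - Re ζ| ≤ w` and `|sin (k_i + t/2)| ≥ c` has the measure at least `c w`, there
`|es k - es k'| ≥ c' w` and the difference is at least `|es k - es k'| / (2 w (|es k - es k'| + 2 w)) ≥
c''/w`. So the sum is at least `c / w ≥ c' kf 0`. -/
def GalStmt : Prop :=
  ∀ (d : ℕ) (a : ℝ), 3 ≤ d → 0 < a → ∃ c C : ℝ, 0 < c ∧ c ≤ 1 / 2 ∧ 1 ≤ C ∧
    ∀ (M : ℕ) [NeZero M] (ζ : ℂ) (p : Tor d M), |ζ.re| ≤ 2 * d - a → 0 < ζ.im → ζ.im ≤ c →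
      C / ζ.im ≤ M → (∀ i, 8 * |((p i).valMinAbs : ℝ)| ≤ M) →
        kf ζ p ≤ (1 - c * min 1 (ds p / ζ.im ^ 2)) * kf ζ (0 : Tor d M)

/-- FRB: the free resolvent. Proof: (1) `RalStmt` (11), `(e - z)⁻¹ = i ∫_0^∞ e^{-i t (e - z)} dt`, dyadic
blocks `1 ≤ 2^k`, `2^{k+1} ≤ M/40`: `BktStmt`; the sum over `k` of `2^{-k/3} (1 + k)` is bounded; `t ≤ 1`: `1`;
`t ≥ M/160`: `e^{-w M/160} / w ≤ 1`. (2) `SobStmt` at `(Re z, w)` for the function `f = G₀ δ_x`: `f̂ =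
conj-character / (es - z)`, `|f̂| = 1 / mt`, `qn = pm (1 / mt) ≤ C (1 + log (1/w))` (`DsuStmt`), so
`(∑ |f|⁴)^{1/2} ≤ C w^{-1/3} (1 + log M)² (1 + log (1/w))`. -/
def FrbStmt : Prop :=
  ∀ d : ℕ, 3 ≤ d → ∃ C : ℝ, 1 ≤ C ∧ ∀ (M : ℕ) [NeZero M] (z : ℂ), 0 < z.im → z.im ≤ 1 →
    C / z.im ^ 2 ≤ M → ∀ x : Tor d M, (∀ y, ‖rs (0 : Tor d M → ℝ) z x y‖ ≤ C) ∧
      ∑ y, ‖rs (0 : Tor d M → ℝ) z x y‖ ^ 4 ≤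
        C * z.im ^ (-(2 / 3 : ℝ)) * (1 + Real.log M) ^ 6

/-- MBR: the self-energy. Proof: `F(ζ) = rs 0 ζ 0 0 = pm 1 / (es - ζ)`. For `|Re ζ| ≤ 2 d - a/2`,
`0 < Im ζ ≤ c`, `C / Im ζ ≤ M`: `c₁ ≤ Im F ≤ C₁` (`DslStmt`, `DsuStmt`) and `|F| ≤ C₁ (1 + log (1 / Im ζ))`. The
set of the `m` with `c₁ ≤ Im m ≤ C₁`, `|m| ≤ 2 C₁ (1 + log (1/(c₁ T)))` is convex, complete, and
`Φ(m) = F(E + i η + T m)` maps it into itself (`T |m|` is small, `Im (E + i η + T m) ≥ c₁ T`). `Φ' =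
T F' = T bh (·) 0`, and by `KhbStmt` (cosine of `0` is `1`) `|bh ζ 0| ≤ C (1 + log (1/w)) w^{-1/2}`, so
`|Φ'| ≤ C T^{1/2} log (1/T) ≤ 1/2`: Banach's fixed point theorem. -/
def MbrStmt : Prop :=
  ∀ (d : ℕ) (a : ℝ), 3 ≤ d → 0 < a → ∃ c₁ C₁ : ℝ, 0 < c₁ ∧ c₁ ≤ 1 ∧ 1 ≤ C₁ ∧
    ∀ (M : ℕ) [NeZero M] (E η T : ℝ), |E| ≤ 2 * d - a → 0 < η → η ≤ T → T ≤ c₁ → C₁ / T ^ 2 ≤ M →
      ∃ m : ℂ, rs (0 : Tor d M → ℝ) (⟨E, η⟩ + (T : ℂ) * m) 0 0 = m ∧ c₁ ≤ m.im ∧ m.im ≤ C₁ ∧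
        ‖m‖ ≤ C₁ * (1 + Real.log (1 / T))

/-- INM: the matrices `S`, `Pl`. Proof: `FmuStmt`, `LowStmt`, `ds > 0` for `p ≠ 0`, `ds p ≥ 16 / M²`. -/
def InmStmt : Prop :=
  ∀ d : ℕ, 3 ≤ d → ∃ C : ℝ, 1 ≤ C ∧ ∀ (M : ℕ) [NeZero M] (J : ℕ) (cs w : ℝ)
    (S Pl : Matrix (Tor d M) (Tor d M) ℝ), 1 ≤ J → 1 ≤ cs → 0 < w → w ≤ 1 →
    S = mlt (sy0 cs w J) → Pl = mlt (fun p => if p ∈ low d M J then 1 else 0) →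
      ((∀ a b, S a b = S b a) ∧ (∀ f, 0 ≤ qf S f) ∧ (∀ a, ∑ b, S a b = 0) ∧
        ∀ a, w * S a a ≤ C * cs * (((J : ℝ) / M) ^ d + w ^ 2 * ((J : ℝ) / M) ^ (d - 2))) ∧
      ((∀ a b, Pl a b = Pl b a) ∧ Pl * Pl = Pl ∧ (∀ a, Pl a a ≤ C * ((J : ℝ) / M) ^ d) ∧
        (∀ a, ∑ b, Pl a b = 1) ∧ S * Pl = S) ∧
      ∀ f, qf S f ≤ 2 * cs / w * (M : ℝ) ^ 2 * ∑ a, f a ^ 2

/-- INW: the initial form bound. Proof: `KftStmt`, `FmuStmt`: with `τ kf 0 = 1` the matrix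
`τ Dl K + P0` has the symbol `1 - τ kf p` for `p ≠ 0`, `1` for `p = 0` (`∑_b K a b = kf 0`), and `A⁻¹` has the
symbol `1 / (e₀ + τ sy0 p)`. `p = 0`: `e₁ ≤ e₀`. `p ∉ low`: `e₁ / e₀ ≤ 1 - β`. `p ∈ low`, `p ≠ 0`:
`(e₀ + τ cs (1/w + w/ds)) c min (1, ds/w²) ≥ (τ cs / w) c (1 + w²/ds) min (1, ds/w²) ≥ c cs τ / w ≥ 2 ≥ e₁`. -/
def InwStmt : Prop :=
  ∀ (d M : ℕ) [NeZero M] (ζ : ℂ) (J : ℕ) (cs e₀ e₁ β c τ : ℝ), 0 < ζ.im → 0 < τ →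
    τ * kf ζ (0 : Tor d M) = 1 → 0 < c → 0 < cs → 0 ≤ β → e₁ ≤ e₀ * (1 - β) → 0 < e₀ → e₁ ≤ 2 →
    0 < e₁ → 2 * ζ.im ≤ c * cs * τ →
    (∀ p : Tor d M, p ∉ low d M J → |kf ζ p| ≤ β * kf ζ (0 : Tor d M)) →
    (∀ p : Tor d M, p ∈ low d M J →
      kf ζ p ≤ (1 - c * min 1 (ds p / ζ.im ^ 2)) * kf ζ (0 : Tor d M)) →
      ∀ f : Tor d M → ℝ, e₁ * qf (e₀ • (1 : Matrix (Tor d M) (Tor d M) ℝ) +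
          τ • mlt (sy0 cs ζ.im J))⁻¹ f ≤
        qf (τ • Dl (KK (rs (0 : Tor d M → ℝ) ζ)) + P0 (Tor d M)) f

/-- MSS: the mass of `S`. Proof: the sum is `qf S` of the indicator `f` of `C'`, `= pm (sy0 |f̂|²)`
(`FmuStmt`). The momenta outside of `low J₁`: `sy0 ≤ cs (1/w + w M²/(16 J₁²))` (`LowStmt`),
`pm |f̂|² = |C'|`. Inside: `|f̂| ≤ |C'|` and `LowStmt`. -/
def MssStmt : Prop :=
  ∀ d : ℕ, 3 ≤ d → ∃ C : ℝ, 1 ≤ C ∧ ∀ (M : ℕ) [NeZero M] (J J₁ : ℕ) (cs w : ℝ)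
    (C' : Finset (Tor d M)), 1 ≤ J₁ → 0 < cs → 0 < w →
      ∑ x ∈ C', ∑ y ∈ C', mlt (sy0 cs w J) x y ≤
        C * cs * ((1 / w + w * (M : ℝ) ^ 2 / (J₁ : ℝ) ^ 2) * C'.card +
          (((J₁ : ℝ) / M) ^ d / w + w * ((J₁ : ℝ) / M) ^ (d - 2)) * (C'.card : ℝ) ^ 2)

/-! ### G. Numbers, the torus, the final theorem -/

/-- INI: the parameters. Proof: `s = |σ|`, `θ = ε / (24 d)`, `T = σ²`, `m` from `MbrStmt`, `w = η + T Im m`,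
`c σ² ≤ w ≤ C σ²`; `ζ = zt 0`, `|Re ζ| ≤ 2 d - a/2` and `|Re ζ| ≥ |E| / 2` (`T |m| ≤ C σ² l ≤ s^{2-ε} / 2`,
`l = log (1/s)`). `δ = s^{5θ}`, `ε₁ = s^{3θ}`, `e₀ = 1 + s^{3θ}`, `e₁ = 1 + s^{3θ}/2`, `L₀ = s^{-6θ}`,
`j = ⌈s^{-θ}⌉`, `p = ⌈s^{-4θ}⌉`, `J = ⌈M s^{2 - ε/(2d)}⌉` (so `J/M ≤ 2 s^{2-ε/(2d)} ≤ 1/8`), `S`, `Pl` from
`InmStmt`, `π₀ = C (J/M)^d` (`w² (J/M)^{d-2} ≤ (J/M)^d`), so `π₀/η ≤ C s^{ε/2}`;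
`N = δ^{-4} C w^{-2/3} (1 + log M)^6` (`FrbStmt`; `nr` has at most `δ^{-4} ∑ |G₀|⁴` points), so
`N w ≤ s^{2/3 - 20θ} l^C ≤ s^{20θ}`; `La(0) = ∑ |G₀|⁴ ≤ N`, `Ls(0) ≥ L₀ N`.
`cs` large. `ϖ = δ w / (C M²)`. `k₀` with `M^d ε₁^{2 k₀} ≤ 1/4`: `6 θ k₀ > d (4 d + 6)`.
`hY`: `|Y(0)| ≤ τ sup |bh|`, `BqbStmt` with `r = s^{2-ε/(2d)}`: `C l ((w/r)^{1/2} + w/|Re ζ|) ≤
C l (s^{ε/(4d)} + s^ε) ≤ s^{3θ}/2` (`3 θ = ε/(8d)`). `hW`: `InwStmt`, `GalStmt`, and `KhbStmt` for `p ∉ low`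
(`|sin (π p_i / M)| ≥ 2 J/M` for some `i`): `β = C l (w/r)^{1/2} ≤ s^{3θ}/8`.
`ch ≤ 3 s^{14θ}`; `aN ≤ C s^θ`: `j ch^{1/2}/δ ≤ C s^{(-1+7-5)θ}`, `j δ/ε₁ ≤ C s^θ`, `j² ch/δ² ≤ C s^{2θ}`,
`j² (N w + δ²)/ε₁² ≤ C s^{2θ}`, `j² L₀^{-1/2}`, `j² ε₁`, `j² (e₀ - 1)`, `p δ ≤ C s^θ`, `p² (…) ≤ C s^{2θ}`.
`(1/e₁)^p ≤ exp (- s^{-θ}/4)`, `4^{-j} ≤ exp (- s^{-θ})`.
The last part: `MssStmt` with `J₁ = ⌈M s^{-ε/4} (η w)^{1/2}⌉`: `η (1/w + w M²/J₁²) ≤ C s^{ε/2}`;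
`η |C'| w (J₁/M)^{d-2} (1 + (J₁/M)²/w²) ≤ C |C'| (J₁/M)^d s^{ε/2}`, and `|C'| (J₁/M)^d ≤
C s^{-d(d+1-ε) + d(d+1-ε/2) - dε/4} ≤ C`. -/
def IniStmt : Prop :=
  ∀ (d : ℕ) (a ε : ℝ), 3 ≤ d → 0 < a → 0 < ε → ε ≤ 1 → ∃ (θ c₁ C₁ : ℝ) (k₀ : ℕ), 0 < θ ∧
    θ ≤ 1 / 10 ∧ 0 < c₁ ∧ 1 ≤ C₁ ∧ ∀ c₀ : ℝ, 0 < c₀ → ∃ c C : ℝ, 0 < c ∧ c ≤ 1 / 4 ∧ 1 ≤ C ∧
      ∀ (M : ℕ) [NeZero M] (σ E η : ℝ), σ ≠ 0 → |σ| ≤ c → |σ| ^ (2 - ε) ≤ |E| →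
        |E| ≤ 2 * d - a → η = |σ| ^ (2 * (d : ℝ) - ε) → |σ| ^ (-(4 * (d : ℝ) + 4)) ≤ M →
        (M : ℝ) ≤ |σ| ^ (-(4 * (d : ℝ) + 6)) →
          ∃ D : Dat d M, Adm D c₁ C₁ c₀ k₀ ∧ D.E = E ∧ D.η = η ∧ D.T = σ ^ 2 ∧
            D.aN ≤ C * |σ| ^ θ ∧ (D.p : ℝ) ≤ |σ| ^ (-1 : ℝ) ∧ D.δ ≤ |σ| ^ θ ∧
            D.e₀ - 1 ≤ |σ| ^ θ ∧ D.w ≤ 1 ∧
            (1 / 4 : ℝ) ^ D.j + (1 / D.e₁) ^ D.p ≤ Real.exp (-(|σ| ^ (-θ) / 8)) ∧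
            ∀ C' : Finset (Tor d M), (C'.card : ℝ) ≤ |σ| ^ (-((d : ℝ) * (d + 1 - ε))) →
              ∑ x ∈ C', ∑ y ∈ C', D.S x y ≤ |σ| ^ θ * C'.card / η

/-- TOF: the torus. Proof: `IniStmt`, `UprStmt`, `OutStmt` (`c₀` = the minimum of the two). `C aN
(1 + log (w/η)) ≤ 1` for small `σ`; the probability is at most `|σ|^{-C} exp (- |σ|^{-θ}/8) ≤ |σ|^{A'}`.
`|C'| / M^d ≤ |σ|^{-d(d+1)} |σ|^{d(4d+4)}`. -/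
def TofStmt : Prop :=
  ∀ (d : ℕ) (a ε A' : ℝ), 3 ≤ d → 0 < a → 0 < ε → ε ≤ 1 → 1 ≤ A' → ∃ θ c : ℝ, 0 < θ ∧ 0 < c ∧
    c ≤ 1 / 4 ∧ ∀ (M : ℕ) [NeZero M] (v : ℝ≥0) (σ E η : ℝ), (v : ℝ) = σ ^ 2 → σ ≠ 0 → |σ| ≤ c →
      |σ| ^ (2 - ε) ≤ |E| → |E| ≤ 2 * d - a → η = |σ| ^ (2 * (d : ℝ) - ε) →
      |σ| ^ (-(4 * (d : ℝ) + 4)) ≤ M → (M : ℝ) ≤ |σ| ^ (-(4 * (d : ℝ) + 6)) →
        gau d M v {V | ¬ ((∀ x, c ≤ (rs V ⟨E, η⟩ x x).im) ∧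
          ∀ C' : Finset (Tor d M), (C'.card : ℝ) ≤ |σ| ^ (-((d : ℝ) * (d + 1 - ε))) →
            mss V ⟨E, η⟩ C' ≤ |σ| ^ θ * C'.card / η)} ≤ ENNReal.ofReal (|σ| ^ A')

/-- CPY: the probability of the large clusters. Proof: as `CpxStmt` (`Helper54_LQD/CPX.lean`), with
`TofStmt` in place of `TomStmt`: `η = |σ|^{2d - ε}`, `L = ⌈K' / σ²⌉`, `N₀ = ⌊|σ|^{-d(d+1-ε)} / (4 L^d)⌋`,
`R₁ = ⌈C l / η⌉`, `J₂ = ⌈C l⌉`, `R = J₂ (R₁ + ρ₁) + ρ₁ ≤ |σ|^{-2d}`, `M = ⌈|σ|^{-(4d+5)}⌉`,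
`n = ⌊n₁ N₀ / 2^d⌋`. In the second alternative of `GroStmt` `2 N₀ L^d ≤ |σ|^{-d(d+1-ε)}`, so `ClsStmt` gives
`c ≤ K (|σ|^θ L^d / n₁ + η)`, `L^d / n₁ ≤ l^C`: impossible for small `σ`. -/
def CpyStmt : Prop :=
  ∀ (d : ℕ) (a ε A : ℝ), 3 ≤ d → 0 < a → 0 < ε → ε ≤ 1 → 1 ≤ A → ∃ c K : ℝ, 0 < c ∧ c ≤ 1 / 4 ∧
    1 ≤ K ∧ ∀ σ E : ℝ, σ ≠ 0 → |σ| ≤ c → |σ| ^ (2 - ε) ≤ |E| → |E| ≤ 2 * d - a →
      ∃ (n ρ J : ℕ) (s : ℝ), 1 ≤ s ∧ s ≤ K * Real.log (1 / |σ|) ∧ 1 ≤ ρ ∧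
        (ρ : ℝ) ≤ |σ| ^ (-(2 * (d : ℝ) + 1)) ∧ 1 ≤ J ∧ (J : ℝ) ≤ K * Real.log (1 / |σ|) ^ 2 ∧
        1 ≤ n ∧ (n : ℝ) ≤ |σ| ^ (-((d : ℝ) * (d + 1))) ∧
        |σ| ^ (-((d : ℝ) * (d + 1 - ε))) ≤ K * Real.log (1 / |σ|) ^ (4 * d) * n ∧
        ∀ (N : ℕ) (b : Site d), box b ρ ⊆ box 0 N →
          PP d (gl σ) {V | ¬ n ≤ (rch V (box 0 N) E s b ρ J).card} ≤ ENNReal.ofReal (|σ| ^ A)

/-- QFF: the final bound. Proof: `CpyStmt` with `ε/2` and `A = d (d + 1)`, `CrgStmt` with `q = |σ|^A`,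
`q n ≤ 1`: `γ ≤ C J (s + l + log ρ) n^{-1/d} ≤ C l^8 |σ|^{d + 1 - ε/2}`. -/
def QffStmt : Prop :=
  ∀ (d : ℕ) (a ε : ℝ), 3 ≤ d → 0 < a → 0 < ε → ε ≤ 1 → ∃ c C : ℝ, 0 < c ∧ c ≤ 1 / 4 ∧ 1 ≤ C ∧
    ∀ σ E g : ℝ, σ ≠ 0 → |σ| ≤ c → |σ| ^ (2 - ε) ≤ |E| → |E| ≤ 2 * d - a → LyaAt d σ E g →
      g ≤ C * |σ| ^ ((d : ℝ) + 1 - ε)

end Pool.Agent.LE.QF
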