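import Pool.Agent.LE.DefsQZ

/-!
# The flow for all energies of the bulk, with the second moment

`QY.TorStmt` (the result on the torus, for all `|E| ≤ 2 d - a`, all `M`, with the local law and the second
moment) and `QzfStmt`: `γ(σ, E) ≤ exp (- |σ|^{-θ})` for all `|E| ≤ 2 d - a`.

The general rows of `StmtsQF.lean` and `StmtsQG.lean` (parts A - D, F) are used again. Here: part C' (new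
general rows), part E (the functional; the rows have the same names and nearly the same proofs as in
`QX`: copy the file `Pool/Agent/HelperNN_LQX/...`, change the namespace to `Pool.Agent.LE.QZ.HXX`, open
`Pool.Agent.LE.QF`), part G (numbers), part H (the Lyapunov exponent).

THE NEW IDEA for `E` near `0`: `LL Y = - (1/τ) Y (1 - Y) + …`, and for `E = 0` the free `Y` has the norm `1`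
(the momentum `(π, …, π)`: `y = - 1`). But `Ξ = (1 - Y)⁻¹ - 1` satisfies `LL Ξ = - Ξ/τ + …`, its initial norm
is `sup |y/(1 - y)|`, and `|y| ≤ 1`, `Re y ≤ 0.47` for all momenta give `|y/(1 - y)|² ≤ 0.944`.
-/

set_option autoImplicit false

open MeasureTheory ProbabilityTheory Function Filter

open scoped ENNReal BigOperators Topology NNReal ComplexOrder Matrix

noncomputable section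

namespace Pool.Agent.LE.QZ

open Pool.Agent.Anderson hiding box mem_box card_box
open Pool.Agent.Loc Pool.Agent.Mob Pool.Agent.Helper54.Bal
  Pool.Agent.Helper96.EXP Pool.Agent.BED
open Pool.Agent.LE.MN Pool.Agent.LE.CL Pool.Agent.LE.IR Pool.Agent.LE.QD Pool.Agent.LE.QF

/-! ### C'. General rows -/

/-- LMB: drift and gradient of `Λ(a)`, without a bound for `B`. Proof: as `QX.LmbStmt`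
(`Helper22_LQX/LMB.lean`): `x = K e_a`, `Λ = |x|²`, `∑ x ≤ 2/τ`; `K³(a, a) = qf K x ≤ (1/τ) (ε₃ Λ + τ qf S x +
qf P0 x)`, `qf S x ≤ (∑ x)² max S b b`, `qf P0 x = (∑ x)² / |X|`; so `K³(a, a) ≤ (C/κ) (ε₃ Λ + π₀/κ)`. New:
`|∑ conj (B a b) B a c B c b| ≤ ∑ K a b K a c K c b = K³(a, a)`. `|(K E_K) a a| ≤ Λ^{1/2} (∑_b (E_K a b)²)^{1/2}`,
`∑_b (E_K a b)² ≤ 4 ∑_b K a b |(G μ G) a b|² ≤ C δ² κ^{-2} (N + δ²/κ)`. The gradient is at most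
`16 Λ K³(a, a)`. -/
def LmbStmt : Prop :=
  ∀ C₀ : ℝ, 1 ≤ C₀ → ∃ C : ℝ, 1 ≤ C ∧ ∀ (X : Type) [Fintype X] [DecidableEq X]
    (G : Matrix X X ℂ) (μ : X → ℂ) (𝒩 : X → Finset X) (S : Matrix X X ℝ)
    (κ τ δ N π₀ ε₃ : ℝ) (a : X), GdM G μ 𝒩 κ τ δ N C₀ → 0 ≤ ε₃ →
    (∀ a b, S a b = S b a) → (∀ f, 0 ≤ qf S f) →
    (∀ a, S a a + 1 / (κ * (Fintype.card X : ℝ)) ≤ π₀) →
    (∀ f : X → ℝ, τ * qf (KK G) f ≤ ε₃ * ∑ b, f b ^ 2 + τ * qf S f + qf (P0 X) f) →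
      lLa G μ a ≤ C / κ * (π₀ / κ + ε₃ * ∑ b, KK G a b ^ 2 +
        Real.sqrt ((∑ b, KK G a b ^ 2) * (δ ^ 2 * (N + δ ^ 2 / κ)))) ∧
      ∑ c, (2 * ∑ b, KK G a b * dK G c a b) ^ 2 ≤
        (∑ b, KK G a b ^ 2) * (C / κ * (π₀ / κ + ε₃ * ∑ b, KK G a b ^ 2))

/-- XTU: the part of `Ξ`. Proof: as `YtuStmt` (`YtjStmt`; simpler: the drift part is `- (2 n/τ) tr P^n ≤ 0`,
so no bound for the norm of `v` is needed). -/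
def XtuStmt : Prop :=
  ∀ (ι : Type) [Fintype ι] [DecidableEq ι]
    (q : ℝ × (ι → ℝ)) (X : Type) [Fintype X] [DecidableEq X]
    (F : ℝ × (ι → ℝ) → Matrix X X ℂ) (v e : Matrix X X ℂ) (g : ι → Matrix X X ℂ)
    (τ ε ε₁ ν : ℝ) (n : ℕ), 0 < τ → 0 ≤ ε → 0 < ε₁ → 0 ≤ ν → 1 ≤ n →
    HM F q v g (-(((1 / τ : ℝ) : ℂ) • v) + e) →
    (∀ u : X → ℂ, n2 (e *ᵥ u) ≤ ε ^ 2 * n2 u) →
    (∀ u : X → ℂ, ∑ c, n2 (g c *ᵥ u) ≤ ν * n2 u) →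
    (∀ u : X → ℂ, ∑ c, n2 ((g c)ᴴ *ᵥ u) ≤ ν * n2 u) →
      ∃ (g' : ι → ℝ) (l' : ℝ),
        HJ (fun r => (Matrix.trace ((F r * (F r)ᴴ) ^ n)).re / ε₁ ^ (2 * n)) q
          ((Matrix.trace ((v * vᴴ) ^ n)).re / ε₁ ^ (2 * n)) g' l' ∧
        l' ≤ (4 * n * ε / ε₁ + 8 * n ^ 2 * ν / ε₁ ^ 2) *
          ((Matrix.trace ((v * vᴴ) ^ n)).re / ε₁ ^ (2 * n) + Fintype.card X * (1 / 4) ^ n)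

/-- XJT: the jet of `Ξ = (1 - τ B)⁻¹ - 1`. Proof: `JtbStmt` (the jet of `τ B`), `JmaStmt` (inverse):
`∂_c Θ = Θ (∂_c Y) Θ`, `LL Θ = Θ (LL Y) Θ + ∑_c Θ (∂_c Y) Θ (∂_c Y) Θ`, `LL Y = - B + τ (B² + E_B) =
- (1/τ) Y (1 - Y) + τ E_B`, and `Θ Y (1 - Y) Θ = Θ Y = Θ - 1`. -/
def XjtStmt : Prop :=
  ∀ (X : Type) [Fintype X] [DecidableEq X] (q : ℝ × (X → ℝ))
    (Gm : ℝ × (X → ℝ) → Matrix X X ℂ) (ta : ℝ → ℝ) (G Θ : Matrix X X ℂ) (m : ℂ) (τ : ℝ)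
    (μ : X → ℂ), 0 < τ → JHyp q Gm ta G m τ → (μ = fun a => G a a - m) →
    IsUnit (1 - (τ : ℂ) • BB G).det → Θ = (1 - (τ : ℂ) • BB G)⁻¹ →
      HM (fun r => (1 - (ta r.1 : ℂ) • BB (Gm r))⁻¹ - 1) q (Θ - 1)
        (fun c => Θ * ((τ : ℂ) • dB G c) * Θ)
        (-(((1 / τ : ℝ) : ℂ) • (Θ - 1)) + (Θ * ((τ : ℂ) • EB G μ) * Θ +
          ∑ c, Θ * ((τ : ℂ) • dB G c) * Θ * ((τ : ℂ) • dB G c) * Θ))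

/-- XNB: norms. Proof: `|Θ| ≤ 1 + |Θ - 1| ≤ 2`, the same for `Θ^*` (the norm of the adjoint).
`|⟨x, ∑ Θ g_c Θ g_c Θ u⟩| ≤ ∑ |g_c^* Θ^* x| |Θ g_c Θ u| ≤ (4 ν)^{1/2} |x| · 2 (4 ν)^{1/2} |u|`. -/
def XnbStmt : Prop :=
  ∀ (X ι : Type) [Fintype X] [DecidableEq X] [Fintype ι] (Θ A : Matrix X X ℂ)
    (g : ι → Matrix X X ℂ) (ε ν : ℝ), 0 ≤ ε → 0 ≤ ν → (∀ u : X → ℂ, n2 ((Θ - 1) *ᵥ u) ≤ n2 u) →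
    (∀ u : X → ℂ, n2 (A *ᵥ u) ≤ ε ^ 2 * n2 u) → (∀ u : X → ℂ, ∑ c, n2 (g c *ᵥ u) ≤ ν * n2 u) →
    (∀ u : X → ℂ, ∑ c, n2 ((g c)ᴴ *ᵥ u) ≤ ν * n2 u) →
      (∀ u : X → ℂ, n2 (Θ *ᵥ u) ≤ 4 * n2 u ∧ n2 (Θᴴ *ᵥ u) ≤ 4 * n2 u) ∧
      (∀ u : X → ℂ, n2 ((Θ * A * Θ + ∑ c, Θ * g c * Θ * g c * Θ) *ᵥ u) ≤
        (4 * ε + 8 * ν) ^ 2 * n2 u) ∧
      (∀ u : X → ℂ, ∑ c, n2 ((Θ * g c * Θ) *ᵥ u) ≤ 16 * ν * n2 u) ∧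
      ∀ u : X → ℂ, ∑ c, n2 ((Θ * g c * Θ)ᴴ *ᵥ u) ≤ 16 * ν * n2 u

/-- THC: the inverse `Θ = (1 - Y)⁻¹` in the sup norm. Proof: `Θ - 1 = Y Θ`, so with `u = (1 - Y) v` the bound
`|Y v| ≤ |(1 - Y) v|`, i.e. `2 Re ⟨v, Y v⟩ ≤ |v|²`. `|Y v| ≤ (1 + s) |v|` (Schur, `Y` symmetric). So
`Z = (1 + Y)/2` has `|Z v|² ≤ (1/4) (2 + (1 + s)²) |v|² ≤ (9/10)² |v|²`. `1 - Z = (1 - Y)/2`, so `Θ = (1/2)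
∑_{k < k₀} Z^k + Z^{k₀} Θ`. The rows of `Z^k` have the `ℓ¹` norm at most `(1 + s/2)^k ≤ 2`. The row `a` of
`Z^{k₀} Θ` has the `ℓ²` norm at most `2 (9/10)^{k₀}` (`|Θ| ≤ 2`; the norm of the transpose is the same), so
the `ℓ¹` norm at most `2 (9/10)^{k₀} |X|^{1/2} ≤ 1`. (See `Helper41_LQF/THB.lean`.) -/
def ThcStmt : Prop :=
  ∀ (X : Type) [Fintype X] [DecidableEq X] (Y : Matrix X X ℂ) (s : ℝ) (k₀ : ℕ), 0 ≤ s →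
    s ≤ 1 / 10 → (1 + s) ^ k₀ ≤ 2 → (Fintype.card X : ℝ) * (9 / 10) ^ (2 * k₀) ≤ 1 / 4 →
    (∀ a b, Y a b = Y b a) → IsUnit (1 - Y).det →
    (∀ u : X → ℂ, n2 (((1 - Y)⁻¹ - 1) *ᵥ u) ≤ n2 u) → (∀ a, ∑ b, ‖Y a b‖ ≤ 1 + s) →
      ∀ a, ∑ b, ‖(1 - Y)⁻¹ a b‖ ≤ 2 * k₀ + 1

/-- WFU: the upper Riccati inequality. Proof: as `WfbStmt` (a) (`Helper62_LQF/WFB*.lean`):
`qf (Dl (K K)) f = ∑_{a,c} k_c K a c (f a - f c)² - |Δ f|² ≤ (2 (1 + C₀ δ)/τ) qf Δ f`, and the part of `E_K` is at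
most `(C δ/κ) qf Δ f` in absolute value. -/
def WfuStmt : Prop :=
  ∀ C₀ : ℝ, 1 ≤ C₀ → ∃ C : ℝ, 1 ≤ C ∧ ∀ (X : Type) [Fintype X] [DecidableEq X]
    (G : Matrix X X ℂ) (μ : X → ℂ) (𝒩 : X → Finset X) (κ τ δ N : ℝ), GdM G μ 𝒩 κ τ δ N C₀ →
    ∀ f : X → ℝ, qf (τ • Dl (KK G * KK G + EK G μ) - Dl (KK G)) f ≤
      (1 + C * δ) * qf (τ • Dl (KK G)) f / τ

/-- IMM: the self-energy at `2 w`. Proof: `rs 0 z 0 0 = pm 1 / (es - z)` (`RalStmt` (11)), its derivative is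
`bh z 0`, and `KhbStmt` (the cosine of `0` is `1`): at most `C (1 + log (1/w)) w^{-1/2}` on the segment. -/
def ImmStmt : Prop :=
  ∀ d : ℕ, 3 ≤ d → ∃ C : ℝ, 1 ≤ C ∧ ∀ (M : ℕ) [NeZero M] (z : ℂ), 0 < z.im → z.im ≤ 1 / 4 →
    C / z.im ^ 2 ≤ M →
      ‖rs (0 : Tor d M → ℝ) ⟨z.re, 2 * z.im⟩ 0 0 - rs (0 : Tor d M → ℝ) z 0 0‖ ≤
        C * (1 + Real.log (1 / z.im)) * Real.sqrt z.im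

/-- IXI: the initial `Ξ`. Proof: `y(p) = τ bh ζ p` is the symbol of `Y` (`KftStmt` and its proof,
`Helper49_LQF/KFT.lean`): `(Y u)^ = y û`. `w = ζ.im`, `α = es k - Re ζ`, `β = Re ζ - es (p - k)`. `|y| ≤ τ kf 0 = 1`
(Cauchy-Schwarz). `Re y = - 1 + (τ/2) pm ((α - β)² / ((α² + w²)(β² + w²)))`
(`Re (1/((α - i w)(- β - i w))) = (- α β - w²) / ((α² + w²)(β² + w²))`, `- α β - w² =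
((α - β)² - (α² + w²) - (β² + w²)) / 2`, `τ pm (1/(α² + w²)) = τ kf 0 = 1`). With `x = α/w`, `y = β/w`:
`(x - y)² / ((1 + x²)(1 + y²)) ≤ φ(x) + φ(y)`, `φ(x) = (3/5)/(1 + x²) + (43/25)/(4 + x²)`; this is the inequality
`(x-y)²(4+x²)(4+y²) ≤ (3/5)(2+x²+y²)(4+x²)(4+y²) + (43/25)(1+x²)(1+y²)(8+x²+y²)`, PROVED in
`Helper93_LQZ/POI.lean` (`poi`). `pm (1/(α² + 4 w²)) = Im rs 0 ⟨Re ζ, 2 w⟩ 0 0 / (2 w)`. So `Re y ≤ - 1 + 3/5 +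
(43/25)(101/200) ≤ 0.47`, and `|y|²/|1 - y|² = |y|²/(1 - 2 Re y + |y|²) ≤ 1/(2 - 0.94) ≤ 118/125`. So
`n2 (Y v) ≤ (118/125) n2 ((1 - Y) v)` (Parseval), `1 - Y` is injective, and `Ξ u = Y v` for `u = (1 - Y) v`. -/
def IxiStmt : Prop :=
  ∀ (d M : ℕ) [NeZero M] (ζ : ℂ) (τ : ℝ), 0 < ζ.im → 0 < τ → τ * kf ζ (0 : Tor d M) = 1 →
    τ * (rs (0 : Tor d M → ℝ) ⟨ζ.re, 2 * ζ.im⟩ 0 0).im ≤ 101 / 100 * ζ.im →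
      IsUnit (1 - (τ : ℂ) • BB (rs (0 : Tor d M → ℝ) ζ)).det ∧
      ∀ u : Tor d M → ℂ, n2 (((1 - (τ : ℂ) • BB (rs (0 : Tor d M → ℝ) ζ))⁻¹ - 1) *ᵥ u) ≤
        118 / 125 * n2 u

/-- IXU: the smallest momentum, initially. Proof: `qf (Dl K) f₁ + qf (Dl K) f₂ = (1/2) ∑ K x y |ec x - ec y|²
= M^d (kf 0 - kf p)`, `p = Pi.single i 1`, and `kf 0 - kf p = (1/2) pm |1/(es k - ζ) - 1/(es (k + p) - ζ)|² ≤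
(1/2) (4 π/M)² w^{-2} kf 0` (`|es k - es (k + p)| ≤ 4 π / M`, `|es (k + p) - ζ| ≥ w`); `8 π² ≤ 100`. -/
def IxuStmt : Prop :=
  ∀ (d M : ℕ) [NeZero M] (ζ : ℂ) (τ : ℝ) (i : Fin d), 0 < ζ.im → 0 < τ →
    τ * kf ζ (0 : Tor d M) = 1 →
      qf (τ • Dl (KK (rs (0 : Tor d M → ℝ) ζ))) (fun x => (ec (Pi.single i 1) x).re) +
        qf (τ • Dl (KK (rs (0 : Tor d M → ℝ) ζ))) (fun x => (ec (Pi.single i 1) x).im) ≤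
          100 * (M : ℝ) ^ d / (M * ζ.im) ^ 2

/-- MOM: the smallest momentum and the second moment. Proof: the right side is
`(1/2) ∑ K x y |ec x - ec y|²`, and `|ec x - ec y|² = 2 - 2 cos (2 π v / M) ≥ 16 v² / M²`, `v` = the
`valMinAbs` of `(x - y) i`, `|v| ≤ M/2` (`1 - cos t = 2 sin² (t/2) ≥ 2 t²/π²` for `|t| ≤ π`). -/
def MomStmt : Prop :=
  ∀ (d M : ℕ) [NeZero M] (K : Matrix (Tor d M) (Tor d M) ℝ) (i : Fin d),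
    (∀ a b, K a b = K b a) → (∀ a b, 0 ≤ K a b) →
      8 / (M : ℝ) ^ 2 * ∑ x, ∑ y, K x y * (((x - y) i).valMinAbs : ℝ) ^ 2 ≤
        qf (Dl K) (fun x => (ec (Pi.single i 1) x).re) +
          qf (Dl K) (fun x => (ec (Pi.single i 1) x).im)

/-! ### E. The functional on the torus -/

/-- the state of the flow at a point with `U < 1` -/
structure Goo {d M : ℕ} [NeZero M] (D : Dat d M) (q : ℝ × (Tor d M → ℝ)) (κ τ C₀ : ℝ) : Prop where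
  hκ : κ = D.kp q.1 ∧ τ = D.ta q.1 ∧ D.η ≤ κ ∧ κ ≤ D.w ∧ 0 < τ ∧ τ ≤ C₀ * κ ∧ κ ≤ C₀ * τ
  hG : GdM (D.G q) (D.mu q) D.nr κ τ D.δ D.N C₀
  hu : IsUnit (1 - D.Y q).det
  hT : ∀ a, ∑ b, ‖D.Th q a b‖ ≤ D.h
  hX : ∀ u : Tor d M → ℂ, n2 (D.Xi q *ᵥ u) ≤ n2 u
  hφ : ∀ a, ‖D.ph q a‖ ≤ D.δ
  hμ : ∀ a, D.mu q a = D.ph q a - τ * (BB (D.G q) *ᵥ D.ph q) a
  hL : ∀ a, D.La q a ≤ D.Ls q.1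
  hA : ∀ f, qf (D.A q.1)⁻¹ f ≤ qf (D.X q + P0 (Tor d M) + D.ϖ • (1 : Matrix (Tor d M) (Tor d M) ℝ)) f
  h5 : D.U5 q ≤ 1
  hK : ∀ f : Tor d M → ℝ, τ * qf (KK (D.G q)) f ≤
    (C₀ * D.δ + (D.e₀ - 1)) * ∑ b, f b ^ 2 + τ * qf D.S f + qf (P0 (Tor d M)) f

/-- NNU: the parts are nonnegative. Proof: as `QX.NnuStmt`; `U6`: `lam ≥ 0`, `ta > 0`, `X = τ Dl K ≥ 0`. -/
def NnuStmt : Prop :=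
  ∀ (d M : ℕ) [NeZero M] (D : Dat d M) (c₁ C₁ c₀ : ℝ) (q : ℝ × (Tor d M → ℝ)),
    0 < c₁ → Adm D c₁ C₁ c₀ → 0 < D.kp q.1 →
      0 ≤ D.U1 q ∧ 0 ≤ D.U2 q ∧ 0 ≤ D.U3 q ∧ 0 ≤ D.U4 q ∧ 0 ≤ D.U5 q ∧ 0 ≤ D.U6 q

/-- RSJ: the resolvent. Proof: as `QX.RsjStmt`. -/
def RsjStmt : Prop :=
  ∀ (d M : ℕ) [NeZero M] (D : Dat d M) (c₁ C₁ c₀ : ℝ)
    (q : ℝ × (Tor d M → ℝ)), 0 < c₁ → Adm D c₁ C₁ c₀ → 0 < D.kp q.1 →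
      JHyp q D.G D.ta (D.G q) D.m (D.ta q.1) ∧
      (∀ a b, ((D.kp q.1 : ℝ) : ℂ) * ∑ c, D.G q a c * (starRingEnd ℂ) (D.G q b c) =
        ((D.G q a b).im : ℂ)) ∧
      (∀ a b, D.G0 a b = D.G0 b a) ∧ D.kp q.1 = D.ta q.1 * D.m.im ∧
      (0 ≤ q.1 → q.1 ≤ D.T → D.η ≤ D.kp q.1 ∧ D.kp q.1 ≤ D.w) ∧
      ContDiffAt ℝ 2 D.Ls q.1 ∧ 0 ≤ deriv D.Ls q.1

/-- GOD: a point with `U < 1` is good. Proof: as `QX.GodStmt`. `U3 < 1`: `tr (Ξ Ξ^*)^j ≥ |Ξ|^{2j}`, so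
`|Ξ| < 99/100`; if `1 - Y` were not invertible, then `Ξ = - 1` (the inverse is `0`), a contradiction. So
`1 - Y` is invertible, `μ = (1 - Y) φ`. `GdcStmt` first (it does not use `Θ`), then `ThcStmt` with `k₀ = k`,
`s = C₀ δ` (`Y` is symmetric, its rows: `τ ∑ |G a b|² ≤ 1 + C₀ δ`; `(1 + s)^k ≤ exp (C₀ k δ) ≤ 2`).
The rest as in `QX`. -/
def GodStmt : Prop :=
  ∀ (c₁ C₁ : ℝ), 0 < c₁ → 1 ≤ C₁ → ∃ c₀ C₀ : ℝ, 0 < c₀ ∧ c₀ ≤ 1 / 2 ∧ 1 ≤ C₀ ∧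
      ∀ (d M : ℕ) [NeZero M] (D : Dat d M) (q : ℝ × (Tor d M → ℝ)), Adm D c₁ C₁ c₀ → 0 ≤ q.1 →
        q.1 ≤ D.T → D.U q < 1 → Goo D q (D.kp q.1) (D.ta q.1) C₀

/-- UPA: the parts of `φ` and `Xh`. Proof: as `QX.UpaStmt`. -/
def UpaStmt : Prop :=
  ∀ (c₁ C₁ C₀ : ℝ), 0 < c₁ → 1 ≤ C₁ → 1 ≤ C₀ → ∃ C : ℝ, 1 ≤ C ∧
      ∀ (d M : ℕ) [NeZero M] (D : Dat d M) (c₀ κ τ : ℝ) (q : ℝ × (Tor d M → ℝ)),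
        Adm D c₁ C₁ c₀ → 0 ≤ q.1 → q.1 ≤ D.T → Goo D q κ τ C₀ →
          ContDiffAt ℝ 2 D.U1 q ∧ ContDiffAt ℝ 2 D.U2 q ∧
          LL D.U1 q ≤ C * D.aN / κ * (D.U1 q + ((M : ℝ) ^ d) ^ 2 * (1 / 4) ^ D.j) ∧
          LL D.U2 q ≤ C * D.aN / κ * (D.U2 q + ((M : ℝ) ^ d) ^ 2 * (1 / 4) ^ D.j)

/-- UPB: the part of `Ξ`. Proof: `XjtStmt`, `NrbStmt`: `|τ E_B| ≤ C δ / κ`, the noise of `Y` is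
`τ² C (N/κ² + δ²/κ³) ≤ C (N w + δ²) / κ`; `XnbStmt`: `e` is at most `(C/κ) (δ + N w + δ²)`, the noise of `Ξ` at
most `(C/κ) (N w + δ²)`; `XtuStmt` with `ε₁ = 99/100`: the rate is at most `(C/κ) (j (δ + N w) +
j² (N w + δ²)) ≤ C aN / κ`. -/
def UpbStmt : Prop :=
  ∀ (c₁ C₁ C₀ : ℝ), 0 < c₁ → 1 ≤ C₁ → 1 ≤ C₀ → ∃ C : ℝ, 1 ≤ C ∧
      ∀ (d M : ℕ) [NeZero M] (D : Dat d M) (c₀ κ τ : ℝ) (q : ℝ × (Tor d M → ℝ)), c₀ ≤ 1 / 2 →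
        Adm D c₁ C₁ c₀ → 0 ≤ q.1 → q.1 ≤ D.T → Goo D q κ τ C₀ →
          ContDiffAt ℝ 2 D.U3 q ∧
          LL D.U3 q ≤ C * D.aN / κ * (D.U3 q + ((M : ℝ) ^ d) ^ 2 * (1 / 4) ^ D.j)

/-- UPC: the part of `Λ`. Proof: `JtlStmt`, `LmbStmt` with `ε₃ = C₀ δ + (e₀ - 1)` (`η ≤ κ`); `π₀/κ ≤ Ls/L₀`,
`δ² (N + δ²/κ) ≤ Ls/L₀` (`δ ≤ c₀ ≤ 1/2`), so `l ≤ (C/κ) (Ls/L₀ + (Ls Λ/L₀)^{1/2} + ε₃ Λ)`; `LmuStmt` with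
`ϵ = ε₃`: the rate is at most `(C/κ) j² (L₀^{-1/2} + δ + (e₀ - 1))`. -/
def UpcStmt : Prop :=
  ∀ (c₁ C₁ C₀ : ℝ), 0 < c₁ → 1 ≤ C₁ → 1 ≤ C₀ → ∃ C : ℝ, 1 ≤ C ∧
      ∀ (d M : ℕ) [NeZero M] (D : Dat d M) (c₀ κ τ : ℝ) (q : ℝ × (Tor d M → ℝ)), c₀ ≤ 1 / 2 →
        Adm D c₁ C₁ c₀ → 0 ≤ q.1 → q.1 ≤ D.T → Goo D q κ τ C₀ →
          ContDiffAt ℝ 2 D.U4 q ∧
          LL D.U4 q ≤ C * D.aN / κ * (D.U4 q + ((M : ℝ) ^ d) ^ 2 * (1 / 4) ^ D.j)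

/-- UPD: the part of `W`. Proof: as `QX.UpdStmt`. -/
def UpdStmt : Prop :=
  ∀ (c₁ C₁ C₀ : ℝ), 0 < c₁ → 1 ≤ C₁ → 1 ≤ C₀ → ∃ c₂ C : ℝ, 0 < c₂ ∧ 1 ≤ C ∧
      ∀ (d M : ℕ) [NeZero M] (D : Dat d M) (c₀ κ τ : ℝ) (q : ℝ × (Tor d M → ℝ)), c₀ ≤ c₂ →
        Adm D c₁ C₁ c₀ → 0 ≤ q.1 → q.1 ≤ D.T → Goo D q κ τ C₀ →
          ContDiffAt ℝ 2 D.U5 q ∧
          LL D.U5 q ≤ C * D.aN / κ * (D.U5 q + (M : ℝ) ^ d * (1 / D.e₀) ^ D.p) +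
            C * D.p / κ * ((M : ℝ) ^ d * (1 / D.e₀) ^ D.p)

/-- UPE: the part of the second moment. Proof: `U6 = lam τ (qf X f₁ + qf X f₂)`, `JtbStmt` (the jet of `X`),
`JalStmt`: `LL U6 = lam ∑_f (- qf X f + τ qf (τ Dl (K² + E_K) - Dl K) f) ≤ lam ∑_f C δ qf X f = (C δ / τ) U6`
(`WfuStmt`); `δ ≤ p δ ≤ aN`. -/
def UpeStmt : Prop :=
  ∀ (c₁ C₁ C₀ : ℝ), 0 < c₁ → 1 ≤ C₁ → 1 ≤ C₀ → ∃ C : ℝ, 1 ≤ C ∧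
      ∀ (d M : ℕ) [NeZero M] (D : Dat d M) (c₀ κ τ : ℝ) (q : ℝ × (Tor d M → ℝ)),
        Adm D c₁ C₁ c₀ → 0 ≤ q.1 → q.1 ≤ D.T → Goo D q κ τ C₀ →
          ContDiffAt ℝ 2 D.U6 q ∧ LL D.U6 q ≤ C * D.aN / κ * D.U6 q

/-- USM: smoothness. Proof: if `1 - Y q` is invertible then all parts are `C²` at `q` (as in `QX`; `XjtStmt`
or `JmaStmt` for `Ξ`; `U6`: products). If not: some `u ≠ 0` has `Y(q) u = u`, `|u| = 1`. For `r` near `q`: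
`|(1 - Y(r)) u| ≤ 1/2` and `kp r.1 > 0`. If `1 - Y(r)` is not invertible, then `Ξ(r) = - 1` and `tr (Ξ Ξ^*)^j =
M^d ≥ 1`; if it is invertible: `v = (1 - Y(r)) u`, `Ξ(r) v = u - v`, `|Ξ v| ≥ 1/2 ≥ |v| > 0`, so
`tr (Ξ Ξ^*)^j ≥ |Ξ|^{2j} ≥ 1`. So `U3 r ≥ 1`, the other parts are nonnegative (`NnuStmt`). -/
def UsmStmt : Prop :=
  ∀ (d M : ℕ) [NeZero M]
    (D : Dat d M) (c₁ C₁ c₀ : ℝ) (q : ℝ × (Tor d M → ℝ)), 0 < c₁ → c₀ ≤ 1 / 2 →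
    Adm D c₁ C₁ c₀ → 0 ≤ q.1 → q.1 ≤ D.T →
      (∀ᶠ r in 𝓝 q, 1 ≤ D.U r) ∨ ContDiffAt ℝ 2 D.U q

/-- UPR: the probability. Proof: as `QX.UprStmt`: `UflStmt` with `a(t) = C aN / κ`, `b(t) = C (aN + p) bN / κ`
(`(1/4)^j ≤ (97/100)^j`). `U(0)`: `φ = 0`, `Xh = 0` (`hfix`), `U3 ≤ M^d (118/125)^j / (99/100)^{2j} ≤
M^d (97/100)^j` (`hY`), `U4 ≤ M^d 4^{-j}` (`hL`), `U5 ≤ M^d e₁^{-p}` (`hW`, `WabStmt`), `U6 ≤ zt0` (`h6`), so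
`U(0) ≤ bN + zt0`. -/
def UprStmt : Prop :=
  ∀ (c₁ C₁ : ℝ), 0 < c₁ → 1 ≤ C₁ → ∃ c₀ C : ℝ, 0 < c₀ ∧ c₀ ≤ 1 / 2 ∧ 1 ≤ C ∧
      ∀ (d M : ℕ) [NeZero M] (D : Dat d M) (v : ℝ≥0), Adm D c₁ C₁ c₀ → (v : ℝ) = D.T →
        gau d M v {V | 1 ≤ D.U (D.T, V)} ≤
          ENNReal.ofReal (Real.exp (C * D.aN * (1 + Real.log (D.w / D.η))) *
            (C * (1 + D.aN + D.p) * (1 + Real.log (D.w / D.η)) * D.bN + 3 * D.zt0))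

/-- OUT: the result at the final time. Proof: as `QX.OutStmt`; `|G - G₀| ≤ |Xh| + τ |G φ G| ≤
δ + δ (1 + C δ)`; the last part is `U6 ≤ 1` (`τ = η / Im m`). -/
def OutStmt : Prop :=
  ∀ (c₁ C₁ : ℝ), 0 < c₁ → 1 ≤ C₁ → ∃ c₀ C : ℝ, 0 < c₀ ∧ c₀ ≤ 1 / 2 ∧ 1 ≤ C ∧
      ∀ (d M : ℕ) [NeZero M] (D : Dat d M) (V : Tor d M → ℝ), Adm D c₁ C₁ c₀ →
        D.U (D.T, V) < 1 →
          (∀ x, c₁ / 2 ≤ (rs V ⟨D.E, D.η⟩ x x).im) ∧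
          (∀ x y, ‖rs V ⟨D.E, D.η⟩ x y - D.G0 x y‖ ≤ 4 * D.δ) ∧
          (∀ C' : Finset (Tor d M), mss V ⟨D.E, D.η⟩ C' ≤
            C / D.η * (D.δ + (D.e₀ - 1) + C'.card / (M : ℝ) ^ d) * C'.card +
              ∑ x ∈ C', ∑ y ∈ C', D.S x y) ∧
          D.lam * (D.η / D.m.im) ^ 2 * (qf (Dl (KK (rs V ⟨D.E, D.η⟩))) D.f₁ +
            qf (Dl (KK (rs V ⟨D.E, D.η⟩))) D.f₂) ≤ 1

/-! ### G. Numbers, the torus -/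

/-- INI: the parameters. Proof: as `QX.IniStmt` (`Helper68_LQX/INI*.lean`), `BqbStmt` is not needed.
`s = |σ|`, `θ₀ = ε / (24 d)`, `θ = θ₀ / 8`, `T = σ²`, `m` from `MbrStmt` (`|m| ≤ C₁`: `FrbStmt`, `m = G₀(x, x)`),
`w = η + T Im m`, `c σ² ≤ w ≤ C σ²`; `ζ = zt 0`, `|Re ζ| ≤ 2 d - a/2`. `log M ≤ s^{-θ}`, `C / w² ≤ M` from
`s^{-5} ≤ M`. `k = ⌈s^{-2θ}⌉`, so `h ≤ 5 s^{-2θ}`, `M^d (9/10)^{2k} ≤ exp (d s^{-θ} - s^{-2θ}/5) ≤ 1/4`.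
`δ = s^{5θ₀}`, `e₀ = 1 + s^{3θ₀}`, `e₁ = 1 + s^{3θ₀}/2`, `L₀ = s^{-6θ₀}`, `j = ⌈s^{-θ₀}⌉`, `p = ⌈s^{-4θ₀}⌉`,
`J = ⌈M s^{2 - ε/(2d)}⌉` (so `J/M ≤ 2 s^{2-ε/(2d)} ≤ 1/8`), `S = mlt (sy0 cs w J)` (`InmStmt`), `cs` large,
`π₀ = C s³ + s^ε`: `S a a ≤ (C/w) ((J/M)^d + w² (J/M)^{d-2}) ≤ C s^{2d-2-ε/2}`, `1/(η M^d) ≤ s^ε`; so
`π₀ ≤ C s^{24 d θ₀}`. `N = δ^{-4} C w^{-2/3} (1 + log M)^6` (`FrbStmt`), `N w ≤ C s^{2/3 - 21θ₀} ≤ s^{20θ₀}`.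
`ϖ = δ w / (C M²)`. `hY`: `IxiStmt`, `ImmStmt`. `hW`: `InwStmt`, `GalStmt`, `KhbStmt` for `p ∉ low`:
`β = C l (w/r)^{1/2} ≤ s^{3θ₀}/8`, `r = s^{2-ε/(2d)}`. `ch ≤ 3 s^{14θ₀}`; `aN ≤ C s^{θ₀/2} = C s^{4θ}`
(`j² δ ≤ C s^{3θ₀}`, the others as in `QX`). `bN ≤ 4 exp (2 d s^{-θ} - s^{-8θ}/40) ≤ exp (- s^{-4θ})`.
`lam = c₁ w M² / (100 M^d ξ)`, `IxuStmt`: `U6 0 ≤ lam (w / Im m) 100 M^d / (M w)² ≤ 1/ξ`; `w ≥ c₁ σ²`.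
The last part: `MssStmt` with `J₁ = max (1, ⌈M s^{-ε/4} (η w)^{1/2}⌉)`. If `M s^{-ε/4} (η w)^{1/2} ≥ 1`:
`J₁/M ≤ 2 s^{-ε/4} (η w)^{1/2}`, `η (1/w + w M²/J₁²) ≤ C s + s^{ε/2}`, `|C'| (J₁/M)^d ≤ (C s^{3ε/4})^d ≤ 1`, so
`η |C'| ((J₁/M)^d/w + w (J₁/M)^{d-2}) ≤ η/w + η w (J₁/M)^{-2} ≤ C s + s^{ε/2}`. If it is `< 1`: `J₁ = 1`,
`η w M² ≤ s^{ε/2}`, `|C'| M^{-d} ≤ s^ε`, the same bounds. -/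
def IniStmt : Prop :=
  ∀ (d : ℕ) (a ε : ℝ), 3 ≤ d → 0 < a → 0 < ε → ε ≤ 1 → ∃ (θ c₁ C₁ : ℝ), 0 < θ ∧
    θ ≤ ε / 100 ∧ 0 < c₁ ∧ 1 ≤ C₁ ∧ ∀ c₀ : ℝ, 0 < c₀ → ∃ c C : ℝ, 0 < c ∧ c ≤ 1 / 4 ∧ 1 ≤ C ∧
      ∀ (M : ℕ) [NeZero M] (σ E η : ℝ), σ ≠ 0 → |σ| ≤ c → |E| ≤ 2 * d - a →
        |σ| ^ (-5 : ℝ) ≤ M → (M : ℝ) ≤ Real.exp (|σ| ^ (-θ)) → |σ| ^ (-ε) ≤ η * (M : ℝ) ^ d →
        η ≤ |σ| ^ 3 →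
          ∃ m : ℂ, c₁ ≤ m.im ∧ ‖m‖ ≤ C₁ ∧
            (∀ x, rs (0 : Tor d M → ℝ) (⟨E, η⟩ + (σ : ℂ) ^ 2 * m) x x = m) ∧
            ∀ (i : Fin d) (ξ : ℝ), 1 ≤ ξ →
              ∃ D : Dat d M, Adm D c₁ C₁ c₀ ∧ D.E = E ∧ D.η = η ∧ D.T = σ ^ 2 ∧ D.m = m ∧
                D.f₁ = (fun x => (ec (Pi.single i 1) x).re) ∧
                D.f₂ = (fun x => (ec (Pi.single i 1) x).im) ∧
                D.zt0 = 1 / ξ ∧ 0 < D.lam ∧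
                (M : ℝ) ^ 2 ≤ C * ξ * (M : ℝ) ^ d / σ ^ 2 * D.lam ∧
                D.aN ≤ C * |σ| ^ (4 * θ) ∧ (D.p : ℝ) ≤ |σ| ^ (-1 : ℝ) ∧ D.δ ≤ |σ| ^ (4 * θ) ∧
                D.e₀ - 1 ≤ |σ| ^ (4 * θ) ∧ D.bN ≤ Real.exp (-(|σ| ^ (-(4 * θ)))) ∧
                ∀ C' : Finset (Tor d M), (C'.card : ℝ) ≤ (|σ| ^ (ε - 1) / Real.sqrt η) ^ d →
                  (C'.card : ℝ) ≤ |σ| ^ ε * (M : ℝ) ^ d →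
                  ∑ x ∈ C', ∑ y ∈ C', D.S x y ≤ |σ| ^ (4 * θ) * C'.card / η

/-- TOF: the torus; the statement is `QY.TorStmt`. Proof: `IniStmt`, `UprStmt`, `OutStmt` (`c₀` = the
minimum of the two). `log (w/η) ≤ log (1/η) ≤ d log M ≤ d |σ|^{-θ}` (`η M^d ≥ 1`), so
`C aN (1 + log (w/η)) ≤ 1` for small `σ`; the probability is at most `3 (C |σ|^{-2} exp (- |σ|^{-4θ}) + 3/ξ) ≤
9/ξ + exp (- |σ|^{-2θ})`. `4 δ ≤ |σ|^θ`; `|C'| / M^d ≤ |σ|^ε ≤ |σ|^{4θ}`. The second moment: `MomStmt` (`K = KK (rs V z)`, symmetric: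
`RalStmt`): `lam (η/C₁)² (8/M²) ∑ ∑ ≤ 1`, so the sum is at most `C₁² M² / (8 lam η²) ≤ C ξ M^d / (σ² η²)`. -/
def TofStmt : Prop := QY.TorStmt

/-! ### H. The Lyapunov exponent -/

/-- CPZ: the probability of the large clusters. Proof: as `QX.CpzStmt` (`Helper54_LQX/CPZ.lean`), from
`QY.TorStmt` with `ε = 1`, `ξ = exp (|σ|^{-2 θ₀})` (the probability is at most `(C + 1) exp (- |σ|^{-2 θ₀})`), `η = exp (- |σ|^{-θ₀/4})`,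
`M` = the smallest natural number with `1 ≤ |σ|⁴ η² M`, so `|σ|^{-5} ≤ M ≤ 2 |σ|^{-4} η^{-2} ≤ exp (|σ|^{-θ₀})`;
`|C'| ≤ η^{-d/2} ≤ |σ| M^d`. -/
def CpzStmt : Prop :=
  ∀ (d : ℕ) (a : ℝ), 3 ≤ d → 0 < a → ∃ θ c : ℝ, 0 < θ ∧ θ ≤ 1 / 100 ∧ 0 < c ∧
    c ≤ 1 / 4 ∧ ∀ σ E : ℝ, σ ≠ 0 → |σ| ≤ c → |E| ≤ 2 * d - a →
      ∃ (n ρ J : ℕ) (s q : ℝ), 1 ≤ s ∧ s ≤ |σ| ^ (-1 : ℝ) ∧ 1 ≤ ρ ∧
        Real.log ρ ≤ |σ| ^ (-1 : ℝ) ∧ 1 ≤ J ∧ (J : ℝ) ≤ |σ| ^ (-1 : ℝ) ∧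
        1 ≤ n ∧ Real.exp (|σ| ^ (-θ)) ≤ n ∧ 0 ≤ q ∧ q * n ≤ 1 ∧
        ∀ (N : ℕ) (b : Site d), box b ρ ⊆ box 0 N →
          PP d (gl σ) {V | ¬ n ≤ (rch V (box 0 N) E s b ρ J).card} ≤ ENNReal.ofReal q

/-- QZF: the final bound. Proof: as `QX.QxfStmt` (`Helper13_LQX/QXF.lean`). -/
def QzfStmt : Prop :=
  ∀ (d : ℕ) (a : ℝ), 3 ≤ d → 0 < a → ∃ θ c : ℝ, 0 < θ ∧ 0 < c ∧ c ≤ 1 / 4 ∧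
    ∀ σ E g : ℝ, σ ≠ 0 → |σ| ≤ c → |E| ≤ 2 * d - a → LyaAt d σ E g →
      g ≤ Real.exp (-(|σ| ^ (-θ)))

end Pool.Agent.LE.QZ
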