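import Pool.Agent.LE.StmtsC

/-!
# The Lyapunov exponent at weak disorder: `γ(σ, E) ≤ C |σ| ^ (1 / (d (d + 4)))` for `|E| ≤ 2 d`

Statements of the modules, with proofs. `G` is the Green function of the cube `box 0 N`.

MAIN IDEA. Fix `σ` and `E`, `|E| ≤ 2 d`, and suppose `κ < γ(σ, E)`. Then large cubes insulate:
`D(x, y) = - log |G(x, y)| ≥ κ L / 2` for `|x - y| ≥ L + 1` (INF). On the other hand the cubes of
radius `|σ| ^ (-c)` conduct, deterministically if `|V|` is small there (CDD). Let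
`F_i(x) = - log max_{z ∈ face i} |G(z, x)|`. Because the maximizer does not depend on `V_u` in
`G(z, u) = g_z / (V_u - α)`, one has `|F_i(x) - F_i(y)| ≤ D(x, y) + t` outside an event of
probability `16 / |σ| e^{-t}` for each pair `x`, `y`, whatever the size of the face (VTR, TRF). The
Besicovitch counting (CNT2) for the map `F`, on the mesh of width `s`, `s` fixed and `L → ∞`, gives
a contradiction (CRT).
-/

set_option autoImplicit false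

open MeasureTheory ProbabilityTheory Function Filter

open scoped ENNReal BigOperators Topology

noncomputable section

namespace Pool.Agent.LE

open Pool.Agent.Anderson Pool.Agent.Loc Pool.Agent.Mob Pool.Agent.Helper54.Bal
  Pool.Agent.Helper96.EXP

/-- `max_{z ∈ S} |G(z, x)|` -/
def gmax {d : ℕ} (V : Site d → ℝ) (Λ : Finset (Site d)) (E : ℝ) (S : Finset (Site d))
    (x : Site d) : ℝ :=
  ((S.sup fun z => ‖gr V Λ E z x‖₊ : NNReal) : ℝ)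

/-- `- log max_{z ∈ S} |G(z, x)|` -/
def FD {d : ℕ} (V : Site d → ℝ) (Λ : Finset (Site d)) (E : ℝ) (S : Finset (Site d))
    (x : Site d) : ℝ :=
  -Real.log (gmax V Λ E S x)

/-- the oscillation of `FD` in the cube of radius `s` about `c` -/
def osc {d : ℕ} (V : Site d → ℝ) (N : ℕ) (E : ℝ) (S : Finset (Site d)) (c : Site d) (s : ℕ) :
    ℝ≥0∞ :=
  (box c s).sup fun x => ENNReal.ofReal |FD V (box 0 N) E S x - FD V (box 0 N) E S c|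

/-- CDD: deterministic conduction. Proof: let `ψ` be `G_Λ(b, ·)` cut off outside `box b r`; then
`(Δ + V - E) ψ = ± δ_b + f` with `f` on the two layers `r`, `r + 1`, `|f|_1 ≤ 2 d (2r+3)^d max`.
For every finitely supported `ψ` in the cube of radius `r` and every real `E` one has
`|ψ|_2 ≤ 4 (r+1)^2 |(Δ - E) ψ|_2` (with `g = (Δ - E) ψ`, `ψ± = ψ(· ± e_1)`:
`|ψ+ - ψ-|^2 / 2 = - ⟨ψ+, g⟩ - ∑ x_1 (ψ+ - ψ-) g` and `|ψ| ≤ (r+1) |ψ+ - ψ-|`).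
Hence `|ψ|_2 ≤ 2 (2r+3)^2 (1 + |f|)`. Test with the plane wave `u(x) = ∏ cos (k (x_i - b_i))`,
`2 d cos k = E`: `1 ≤ |f|_1 + v |ψ|_1 ≤ |f|_1 + (1 + |f|_1) / 32`. -/
def CddStmt : Prop :=
  ∀ (d : ℕ) (E v : ℝ) (V : Site d → ℝ) (Λ : Finset (Site d)) (b : Site d) (r : ℕ), 1 ≤ d →
    |E| ≤ 2 * d → 0 ≤ v → (64 * v) ^ 2 * (2 * r + 3 : ℝ) ^ (d + 4) ≤ 1 →
    (∀ x ∈ box b r, |V x| ≤ v) → box b (r + 1) ⊆ Λ → (RM V Λ E).det ≠ 0 →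
      ∃ y : Site d, (sd b y = r ∨ sd b y = r + 1) ∧
        1 ≤ 16 * d * (2 * r + 3 : ℝ) ^ d * |gr V Λ E b y|

/-- CPR: the probability of conduction. Proof: `CddStmt` for `r = 4 j s` on the event
`|V| ≤ v` on `box c (4 M s)`; `P(|σ ξ| > v) ≤ 2 e^{1/2} e^{-v/|σ|} ≤ 4 e^{-v/|σ|}` (exponential
Chebyshev, `E e^ξ = e^{1/2}`); `det ≠ 0` almost surely; `D ≤ log (16 d (8 M s + 3)^d) ≤ s / 2`. -/
def CprStmt : Prop :=
  ∀ (d s M N : ℕ) (σ E v : ℝ) (c : Site d), 1 ≤ d → σ ≠ 0 → |E| ≤ 2 * d → 0 ≤ v →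
    (64 * v) ^ 2 * (8 * (M * s) + 3 : ℝ) ^ (d + 4) ≤ 1 →
    Real.log (16 * d * (8 * (M * s) + 3 : ℝ) ^ d) ≤ s / 2 → box c (4 * (M * s) + 2) ⊆ box 0 N →
      PP d (gl σ) {V | ¬ ∀ j : ℕ, 1 ≤ j → j ≤ M → ∃ y : Site d,
        (sd c y = 4 * j * s ∨ sd c y = 4 * j * s + 1) ∧ DL (box 0 N) E V c y ≤ s / 2} ≤
          ENNReal.ofReal ((8 * (M * s) + 3 : ℝ) ^ d * (4 * Real.exp (-(v / |σ|))))

/-- VTR: the one site inequality for the maximum over `S`. Proof: as `Pool.Agent.LY.one` (the same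
integral over `V_u`, all other potentials fixed), for the `z ∈ S` which maximizes `|K z u|`; this
`z` does not depend on `V_u`, because `G(z, u)` depends on `V_u` by a factor which does not depend
on `z`. No union over `z`. -/
def VtrStmt : Prop :=
  ∀ (d : ℕ) (σ E τ : ℝ) (Λ S : Finset (Site d)) (u y : Site d), σ ≠ 0 → 0 < τ →
    PP d (gl σ) {V | τ * gmax V Λ E S y < gmax V Λ E S u * |gr V Λ E u y|} ≤
      ENNReal.ofReal (8 / |σ| / τ)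

/-- TRF: triangle inequality for `FD`. Proof: `VtrStmt` for `(x, y)` and `(y, x)`, `τ = e^t`, the
symmetry of `gr`, and `gr ≠ 0` almost surely (`UfmStmt`, second part). -/
def TrfStmt : Prop :=
  ∀ (d N : ℕ) (σ E t : ℝ) (S : Finset (Site d)) (x y : Site d), 1 ≤ d → σ ≠ 0 → S.Nonempty →
    S ⊆ box 0 N → x ∈ box (0 : Site d) N → y ∈ box (0 : Site d) N →
    PP d (gl σ) {V | ¬ |FD V (box 0 N) E S x - FD V (box 0 N) E S y| ≤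
      DL (box 0 N) E V x y + t} ≤ ENNReal.ofReal (16 / |σ| * Real.exp (-t))

/-- CST: the moments of the positive part of `D`, with a power of `1 / |σ|` which does not depend
on the order `q` of the moment. Proof: as `Pool.Agent.LE.H26U.ufm`, `p = q`:
`path_in` (`Pool.Agent.LE.H54`) gives `‖D^+(x, y)‖_q ≤ (l1 x y + 1) (C1 + C2)` with
`C1 = ((4 q)^q Clow)^(1/q)`, `C2 = ((2 q)^q (1 + 8 / |σ|))^(1/q)` (`ratioC`), and
`Clow d (gl σ) (1 / |σ|) M ≤ K |σ|^(-A)` (see `Pool.Agent.LE.H26U.CC_le`), so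
`C1 + C2 ≤ 6 q (K |σ|^(-A))^(1/q)`. -/
def CstStmt : Prop :=
  ∀ d : ℕ, 1 ≤ d → ∃ A : ℝ, 1 ≤ A ∧ ∀ q : ℕ, 1 ≤ q → ∃ C : ℝ, 0 < C ∧ ∀ (σ E : ℝ) (N : ℕ)
    (x y : Site d), σ ≠ 0 → |σ| ≤ 1 → |E| ≤ 2 * d → x ∈ box (0 : Site d) N →
    y ∈ box (0 : Site d) N →
      ∫⁻ V, (ENNReal.ofReal (DL (box 0 N) E V x y)) ^ q ∂(PP d (gl σ)) ≤
        ENNReal.ofReal (C * |σ| ^ (-A) * ((sd x y : ℝ) + 1) ^ q)

/-- OSC: the moments of the oscillation. Proof: for `x ∈ box c s`, with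
`T = max 0 (|F(x) - F(c)| - D(c, x))`, `|F(x) - F(c)|^q ≤ 2^q (D^+(c, x)^q + T^q)`;
`P(T > t) ≤ 16 / |σ| e^{-t}` (`TrfStmt`), so `E T^q ≤ 16 q! / |σ|`; `CstStmt` for `D^+`; sum over
the `(2 s + 1)^d` points `x`. (`q = 0` is trivial.) -/
def OscStmt : Prop :=
  ∀ d : ℕ, 1 ≤ d → ∃ A : ℝ, 1 ≤ A ∧ ∀ q : ℕ, ∃ C : ℝ, 0 < C ∧ ∀ (σ E : ℝ) (N s : ℕ)
    (S : Finset (Site d)) (c : Site d), σ ≠ 0 → |σ| ≤ 1 → |E| ≤ 2 * d → 1 ≤ s → S.Nonempty →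
    S ⊆ box 0 N → box c s ⊆ box 0 N →
      ∫⁻ V, (osc V N E S c s) ^ q ∂(PP d (gl σ)) ≤
        ENNReal.ofReal (C * |σ| ^ (-A) * (s : ℝ) ^ (q + d + 1))

/-- CNT2: the counting lemma for a map `F` (deterministic). Proof: second half of
`Pool.Agent.LE.H96C.cnt` (with `f := F`, targets `t + w κ_i`, `κ_i = 1, …, m`, `w = 8 cs s`). -/
def Cnt2Stmt : Prop :=
  ∀ (d : ℕ) (F : Site d → Fin d → ℝ) (a : Site d) (s n M m q : ℕ) (t h cs : ℝ)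
    (c : Site d → ℝ) (G : Finset (Site d)), 1 ≤ d → 1 ≤ s → 1 ≤ n → 1 ≤ M → d ≤ q → 1 ≤ cs →
    t + 8 * cs * s * m ≤ h →
    (∀ k ∈ box (0 : Site d) n, ∀ i, k i = -(n : ℤ) → F (a + sm s k) i ≤ t) →
    (∀ k ∈ box (0 : Site d) n, ∀ i, k i = (n : ℤ) → h ≤ F (a + sm s k) i) →
    (∀ k, 0 ≤ c k) →
    (∀ k ∈ box (0 : Site d) (n + 4 * M + 3), ∀ x ∈ box (a + sm s k) s, ∀ i,
      |F x i - F (a + sm s k) i| ≤ c k * s) →
    (∀ k ∈ G, ∀ j : ℕ, 1 ≤ j → j ≤ M → ∃ v : Site d,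
      (sd (a + sm s k) v = 4 * j * s ∨ sd (a + sm s k) v = 4 * j * s + 1) ∧
        ∀ i, |F v i - F (a + sm s k) i| ≤ s) →
      (m : ℝ) ^ d ≤ ((box (0 : Site d) n) \ G).card +
        2 * (2 * (n + 4 * M + 3) + 1) ^ d / M +
        (2 ^ d + 2 * (8 * M + 9) ^ d / M) * ∑ k ∈ box (0 : Site d) (n + 4 * M + 3), (c k / cs) ^ q

/-- INF: large cubes insulate at a rate below the Lyapunov exponent. Proof: `GvuStmt` with
`B = |E| + |σ| + 1 / |σ|`, `η = κ / 48`, `θ = 1 / 8`, `Q = Q₀`, `ℓ₀` large; `LyaAt` gives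
`P(¬ SG V (Q ℓ) κ E a) ≤ 1 / 8` for large `ℓ` (`κ < g`, stationarity); `InsStmt2` with `K = 1`,
`Q₁ = Q`, `L = Q ℓ`. -/
def InfStmt : Prop :=
  ∀ (d : ℕ) (σ E g κ : ℝ), 1 ≤ d → σ ≠ 0 → LyaAt d σ E g → 0 < κ → κ < g → ∀ L₀ : ℕ,
    ∃ (L N : ℕ) (a : Site d), L₀ ≤ L ∧ box a (4 * L) ⊆ box 0 N ∧
      PP d (gl σ) {V | ¬ ∀ x ∈ box a (2 * L), ∀ y ∈ box a (2 * L), L + 1 ≤ sd x y →
        κ / 2 * L ≤ DL (box 0 N) E V x y} ≤ ENNReal.ofReal (1 / 4)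

/-- CRT: the criterion. If the cubes of radius `4 M s` conduct, a large cube does not insulate at
the rate `κ`. Proof: `n = ⌊L / s⌋`, `S_i` = the mesh points of the face `k_i = - n`,
`F x i = FD V (box 0 N) E S_i x`, `c k = max_i osc / s`; `RegStmt` (`R = 4`, `τ = κ / 4`) for the
face `k_i = -n`, insulation for the face `k_i = n`, `TrfStmt` and the hypothesis `hcond` for the
good sites, Markov, `Cnt2Stmt`, `L → ∞`. -/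
def CrtStmt : Prop :=
  ∀ (d s M q : ℕ) (σ E κ cs p y : ℝ), 1 ≤ d → σ ≠ 0 → 1 ≤ s → 1 ≤ M → d ≤ q → 1 ≤ cs → 0 < κ →
    0 < p → 0 < y →
    4 * (p + d * (8 * (M * s) + 5) ^ d * (16 / |σ| * Real.exp (-(s / 2 : ℝ)))) * 3 ^ d +
      2 * 3 ^ d / M + (2 ^ d + 2 * (8 * M + 9) ^ d / M) * (4 * 3 ^ d * (d * y)) <
        (κ / (17 * cs)) ^ d →
    (∀ (N : ℕ) (S : Finset (Site d)) (c : Site d), S.Nonempty → S ⊆ box 0 N → box c s ⊆ box 0 N →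
      ∫⁻ V, (osc V N E S c s) ^ q ∂(PP d (gl σ)) ≤ ENNReal.ofReal (y * (cs * s) ^ q)) →
    (∀ (N : ℕ) (c : Site d), box c (4 * (M * s) + 2) ⊆ box 0 N →
      PP d (gl σ) {V | ¬ ∀ j : ℕ, 1 ≤ j → j ≤ M → ∃ y : Site d,
        (sd c y = 4 * j * s ∨ sd c y = 4 * j * s + 1) ∧ DL (box 0 N) E V c y ≤ s / 2} ≤
          ENNReal.ofReal p) →
      ∃ L₀ : ℕ, ∀ (L N : ℕ) (a : Site d), L₀ ≤ L → box a (4 * L) ⊆ box 0 N →
        PP d (gl σ) {V | ¬ ∀ x ∈ box a (2 * L), ∀ y ∈ box a (2 * L), L + 1 ≤ sd x y →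
          κ * L ≤ DL (box 0 N) E V x y} ≤ ENNReal.ofReal (1 / 4) → False

/-- NUM: the numbers. Proof: `Λ = 1 / |σ|`, `c₁ = 5 / (4 (d + 4))`, `c₂ = 1 / (4 d (d + 4))`,
`M = ⌊Λ ^ c₁⌋`, `s = ⌈K₀ Λ ^ c₂⌉`, `cs = Λ ^ c₂`, `v` with equality, `q` with
`c₂ q ≥ A + c₂ (d + 1) + d c₁ + 1`, `c₁ / d - c₂ = 1 / (d (d + 4))`. All terms on the left are at
most `K Λ ^ (- c₁)`. -/
def NumStmt : Prop :=
  ∀ (d : ℕ) (A : ℝ), 1 ≤ d → 1 ≤ A → ∃ q : ℕ, d ≤ q ∧ ∀ C' : ℝ, 0 < C' → ∃ C : ℝ, 1 ≤ C ∧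
    ∀ σ κ : ℝ, σ ≠ 0 → |σ| ≤ 1 → C * |σ| ^ (1 / ((d : ℝ) * (d + 4))) ≤ κ →
      ∃ (s M : ℕ) (cs v : ℝ), 1 ≤ s ∧ 1 ≤ M ∧ 1 ≤ cs ∧ 0 ≤ v ∧
        (64 * v) ^ 2 * (8 * (M * s) + 3 : ℝ) ^ (d + 4) ≤ 1 ∧
        Real.log (16 * d * (8 * (M * s) + 3 : ℝ) ^ d) ≤ s / 2 ∧
        4 * ((8 * (M * s) + 3 : ℝ) ^ d * (4 * Real.exp (-(v / |σ|))) +
            d * (8 * (M * s) + 5) ^ d * (16 / |σ| * Real.exp (-(s / 2 : ℝ)))) * 3 ^ d +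
          2 * 3 ^ d / M + (2 ^ d + 2 * (8 * M + 9) ^ d / M) *
            (4 * 3 ^ d * (d * (C' * |σ| ^ (-A) * (s : ℝ) ^ (q + d + 1) / (cs * s) ^ q))) <
            (κ / (17 * cs)) ^ d

/-- WKD: the Lyapunov exponent at weak disorder. Proof: `CrtStmt`, `OscStmt`, `CprStmt`, `NumStmt`
and `InfStmt`. -/
def WkdStmt : Prop :=
  ∀ d : ℕ, 1 ≤ d → ∃ C : ℝ, 0 < C ∧ ∀ σ E g : ℝ, σ ≠ 0 → |σ| ≤ 1 → |E| ≤ 2 * d →
    LyaAt d σ E g → g ≤ C * |σ| ^ (1 / ((d : ℝ) * (d + 4)))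

end Pool.Agent.LE
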