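import Pool.Agent.LE.StmtsW
import Pool.Agent.Helper54_BED.Stmt

/-!
# Exponentially large localization length near the band edge

Statements of the modules, with proofs. In dimensions `d ≥ 5`, at weak disorder, there is an energy
`Es`, `|Es - 2 d| ≤ C σ²`, with `γ(σ, E) ≤ C (|E - Es| + e^{-c/σ²})^c` for `|E - Es| ≤ |σ|`: the
localization length `1 / γ` is at least `e^{c'/σ²}` at `Es`. The conduction up to the scale `t ^ c`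
comes from the flat landscape function of the band edge (`Pool.Agent.BED`); the criterion `CrtStmt`
does the rest.
-/

set_option autoImplicit false

open MeasureTheory ProbabilityTheory Function Filter

open scoped ENNReal BigOperators Topology

noncomputable section

namespace Pool.Agent.LE

open Pool.Agent.Anderson Pool.Agent.Loc Pool.Agent.Mob Pool.Agent.Helper54.Bal
  Pool.Agent.Helper96.EXP Pool.Agent.BED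

/-- OSC for `|E| ≤ B`. -/
def OscBStmt : Prop :=
  ∀ (d : ℕ) (B : ℝ), 1 ≤ d → 0 < B → ∃ A : ℝ, 1 ≤ A ∧ ∀ q : ℕ, ∃ C : ℝ, 0 < C ∧
    ∀ (σ E : ℝ) (N s : ℕ) (S : Finset (Site d)) (c : Site d), σ ≠ 0 → |σ| ≤ 1 → |E| ≤ B →
    1 ≤ s → S.Nonempty → S ⊆ box 0 N → box c s ⊆ box 0 N →
      ∫⁻ V, (osc V N E S c s) ^ q ∂(PP d (gl σ)) ≤
        ENNReal.ofReal (C * |σ| ^ (-A) * (s : ℝ) ^ (q + d + 1))

/-- CDF: conduction from a flat landscape function (deterministic). Proof: let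
`g = gr V Λ E b ·` (`(E - V - Δ) g = δ_b` on `Λ`) and `φ` = `g` cut off outside `box b r`, seen on the
torus. Then `AM z U φ = δ_0 + f'`, `f' = f + (z - E) φ`, `f` on the two layers `r`, `r + 1`,
`|f|_1 ≤ 2 d (2r+3)^d max_{layers} |g|`. So `φ = GM δ_0 + GM f'`. `GM ≥ 0` (`HeatStmt`: `TM ≥ 0`),
`GM x y ≤ C1` (positive definite). First `|φ|_∞ ≤ C1 (1 + |f|_1 + lam (2r+1)^d |φ|_∞)`, so
`|φ|_∞ ≤ 2 C1 (1 + |f|_1)` and `|(z - E) φ|_1 ≤ (1 + |f|_1) / 8`. Now sum `φ = GM δ_0 + GM f'` over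
the points outside the box of radius `r`, where `φ = 0`:
`∑_out GM x 0 ≥ DD 0 - (2r+1)^d C1 ≥ 0.98 μ - μ / 4`, and `|∑_out GM f'| ≤ 1.02 μ |f'|_1`
(row sums `DD`). So `|f'|_1 ≥ 0.7`, `|f|_1 ≥ 1 / 2`. -/
def CdfStmt : Prop :=
  ∀ (d M : ℕ) [NeZero M] (z μ E C1 lam : ℝ) (V : Site d → ℝ) (Λ : Finset (Site d)) (b : Site d)
    (r : ℕ), 1 ≤ d → 2 * r + 5 ≤ M → z ≤ 2 * d + 1 → 0 < μ → 0 < C1 →
    Flat z μ (fun x : Tor d M => V (b + rep x)) →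
    (∀ x, GM z (fun x : Tor d M => V (b + rep x)) x x ≤ C1) → |E - z| ≤ lam →
    16 * C1 * lam * (2 * r + 1 : ℝ) ^ d ≤ 1 → 4 * C1 * (2 * r + 1 : ℝ) ^ d ≤ μ →
    box b (r + 1) ⊆ Λ → (RM V Λ E).det ≠ 0 →
      ∃ y : Site d, (sd b y = r ∨ sd b y = r + 1) ∧
        1 ≤ 16 * d * (2 * r + 3 : ℝ) ^ d * |gr V Λ E b y|

/-- CPF: the probability of conduction near the band edge. Proof: `FlatStmt` (with
`σ' = |σ|`) gives `z`, `μ`, `10 t ≤ μ ≤ 12 t`; `LawStmt` (law of the potential on the torus, with the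
shift by `c`: the coordinates of `PP d (gl σ)` are independent with the law `gl σ`); `SumStmt`
(`a = 0.98 μ`) gives `GM x x ≤ C`; then `CdfStmt` for `r = 4 j s`, as in `CprStmt`. -/
def CpfStmt : Prop :=
  ∀ d : ℕ, 3 ≤ d → ∃ c0 C0 C1 : ℝ, 0 < c0 ∧ 0 < C0 ∧ 1 ≤ C1 ∧
    ∀ (M' : ℕ) (σ t p : ℝ), σ ≠ 0 → |σ| ≤ 1 → 3 ≤ M' → 1 ≤ t → t ≤ M' →
    p = C0 * (1 + Real.log t) * (M' : ℝ) ^ d * Real.exp (-c0 / (σ ^ 2 * growth d t)) →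
    p ≤ 1 / 2 → ∃ z : ℝ, |z - 2 * d| ≤ C0 * (σ ^ 2 + 1 / t + Real.sqrt p) ∧
      ∀ (s M N : ℕ) (E lam : ℝ) (c : Site d), |E - z| ≤ lam →
        C1 * lam * (8 * (M * s) + 3 : ℝ) ^ d ≤ 1 → C1 * (8 * (M * s) + 3 : ℝ) ^ d ≤ t →
        8 * (M * s) + 5 ≤ M' → Real.log (16 * d * (8 * (M * s) + 3 : ℝ) ^ d) ≤ s / 2 →
        box c (4 * (M * s) + 2) ⊆ box 0 N →
          PP d (gl σ) {V | ¬ ∀ j : ℕ, 1 ≤ j → j ≤ M → ∃ y : Site d,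
            (sd c y = 4 * j * s ∨ sd c y = 4 * j * s + 1) ∧ DL (box 0 N) E V c y ≤ s / 2} ≤
              ENNReal.ofReal p

/-- NUX: the numbers. Proof: `c₂ = 1 / (16 d²)`, `c₁ = 1 / (4 d)`, `c = c₁ / d - c₂`,
`M = ⌊X ^ c₁⌋`, `s = ⌈K₀ X ^ c₂⌉`, `cs = X ^ c₂`, `q` with `c₂ q ≥ A + c₂ (d + 1) + d c₁ + 1`;
`1 / |σ| ≤ 2 X`. All terms on the left are at most `K' X ^ (- c₁)`. -/
def NuxStmt : Prop :=
  ∀ (d : ℕ) (A K : ℝ), 1 ≤ d → 1 ≤ A → 1 ≤ K → ∃ (q : ℕ) (c : ℝ), d ≤ q ∧ 0 < c ∧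
    ∀ C' : ℝ, 0 < C' → ∃ C : ℝ, 1 ≤ C ∧
      ∀ σ κ X p : ℝ, σ ≠ 0 → |σ| ≤ 1 → C ≤ X → 1 / |σ| ≤ 2 * X → 0 < p → p ≤ 1 / X →
      C * X ^ (-c) ≤ κ →
      ∃ (s M : ℕ) (cs : ℝ), 1 ≤ s ∧ 1 ≤ M ∧ 1 ≤ cs ∧
        K * (8 * (M * s) + 3 : ℝ) ^ d ≤ X ∧ (8 * (M * s) + 3 : ℝ) ≤ X ∧
        Real.log (16 * d * (8 * (M * s) + 3 : ℝ) ^ d) ≤ s / 2 ∧
        4 * (p + d * (8 * (M * s) + 5) ^ d * (16 / |σ| * Real.exp (-(s / 2 : ℝ)))) * 3 ^ d +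
          2 * 3 ^ d / M + (2 ^ d + 2 * (8 * M + 9) ^ d / M) *
            (4 * 3 ^ d * (d * (C' * |σ| ^ (-A) * (s : ℝ) ^ (q + d + 1) / (cs * s) ^ q))) <
            (κ / (17 * cs)) ^ d

/-- WBE: the Lyapunov exponent near the band edge. Proof: `CrtStmt`, `OscBStmt` (`B = 2 d + 2`),
`CpfStmt`, `NuxStmt` (`X = 1 / (|E - Es| + 1 / t)`), `InfStmt`. -/
def WbeStmt : Prop :=
  ∀ d : ℕ, 3 ≤ d → ∃ c C : ℝ, 0 < c ∧ 0 < C ∧ ∀ σ t : ℝ, σ ≠ 0 → |σ| ≤ c → 1 / |σ| ≤ t →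
    σ ^ 2 * growth d t * Real.log t ≤ c → ∃ Es : ℝ, |Es - 2 * d| ≤ C * (σ ^ 2 + 1 / t) ∧
      ∀ E g : ℝ, |E - Es| ≤ |σ| → LyaAt d σ E g → g ≤ C * (|E - Es| + 1 / t) ^ c

end Pool.Agent.LE
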