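import Pool.Agent.LE.StmtsX
import Pool.Agent.LE.StmtsR

/-!
# The effective band edge: localization above, exponentially large localization length below

Statements of the modules, with proofs. For `d ≥ 3`, weak disorder, `t ≥ 1 / |σ|` with
`σ² growth(d, t) log t ≤ c` (`t = e^{c/σ²}` for `d ≥ 5`), there is `Es`, `|Es - 2 d| ≤ C (σ² + 1/t)`:

* `γ(σ, E) ≥ c √(min (E - Es) 1)` for `E ≥ Es + 1 / t`;
* `γ(σ, E) ≤ C (|E - Es| + 1 / t)^c` for `|E - Es| ≤ |σ|`.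
-/

set_option autoImplicit false

open MeasureTheory ProbabilityTheory Function Filter

open scoped ENNReal BigOperators Topology NNReal

noncomputable section

namespace Pool.Agent.LE

open Pool.Agent.Anderson Pool.Agent.Loc Pool.Agent.Mob Pool.Agent.Helper54.Bal
  Pool.Agent.Helper96.EXP Pool.Agent.BED

/-- SGE: above the edge all the sites are good. Proof: on the event
`Flat z μ (fun x => V (rep x))` all eigenvalues of `H` in the boxes `box s L`, `s ∈ box 0 L`, are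
`< z` (`EdgeStmt`, `r = 2 L`, `4 r + 3 ≤ M'`), so `E - H ≥ δ` there and `det ≠ 0`; the Combes-Thomas
bound (`Pool.Agent.Helper48_Loc.CT`, or: conjugation of `E - H` by `e^{κ |x - s|}`,
`κ = √δ / (2 d)`, keeps `≥ δ - 2 d (cosh κ - 1) ≥ δ / 2`) gives `|gr s u| ≤ (2/δ) e^{-κ L}`. -/
def SgeStmt : Prop :=
  ∀ (d M' L : ℕ) [NeZero M'] (v : ℝ≥0) (σ z μ E δ p : ℝ), 1 ≤ d → σ ≠ 0 → (v : ℝ) = σ ^ 2 →
    0 < μ → z ≤ 2 * d + 1 → gau d M' v {V | ¬ Flat z μ V} ≤ ENNReal.ofReal p →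
    0 < δ → δ ≤ 1 → z + δ ≤ E → 1 ≤ L → 8 * L + 3 ≤ M' →
    8 * d * Real.log (8 / δ) ≤ Real.sqrt δ * L →
      PP d (gl σ) {V | ¬ AllGoodC V 0 L (Real.sqrt δ / (8 * d)) E} ≤ ENNReal.ofReal p

/-- SMX: the multiscale induction with explicit constants. Proof: `SmpStmt` with `ρ = 1 / |σ|` and
the steps `Pool.Agent.LE.H15.stepN_of`: `N_k = N_0 2 ^ k`, `ℓ_{k+1} = N_k ^ 3 ℓ_k`,
`p_k = c N_k ^ (-6 d)`, `c = 56 ^ (-2 d)`, `p₀ = p_0`; the loss in the rate at the step `k` is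
`C log (ℓ_k) / ℓ_k + m (48 / N_k + 1 / ℓ_k)`, in total at most `m / 2`; the conditions at the step
`k` are `m ℓ_k / 8 ≥ C (1 + log (1 / |σ|) + log ℓ_k + log N_k)`. For a general scale `M`, one step
from `ℓ_k`, `ℓ_{k+1} ≤ M ≤ ℓ_{k+2}`. -/
def SmxStmt : Prop :=
  ∀ d : ℕ, 1 ≤ d → ∃ A p₀ : ℝ, 1 ≤ A ∧ 0 < p₀ ∧ ∀ (σ E m : ℝ) (L : ℕ), σ ≠ 0 → |σ| ≤ 1 →
    0 < m → m ≤ 1 → 1 ≤ L → A * (1 + Real.log (L / (|σ| * m))) ≤ m * L →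
    PP d (gl σ) {V | ¬ AllGoodC V 0 L m E} ≤ ENNReal.ofReal p₀ →
      Tendsto (fun M : ℕ => PP d (gl σ) {V | ¬ AllGoodC V 0 M (m / 2) E}) atTop (𝓝 0)

/-- FPX: the flat landscape function gives both the conduction and the edge. Proof: `CpfStmt` with
its proof (`Pool.Agent.LE.H54W.cpf_core`): the same `z`. -/
def FpxStmt : Prop :=
  ∀ d : ℕ, 3 ≤ d → ∃ c0 C0 C1 : ℝ, 0 < c0 ∧ 0 < C0 ∧ 1 ≤ C1 ∧
    ∀ (M' : ℕ) (v : ℝ≥0) (σ t p : ℝ), σ ≠ 0 → |σ| ≤ 1 → (v : ℝ) = σ ^ 2 → 3 ≤ M' → 1 ≤ t →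
    t ≤ M' → p = C0 * (1 + Real.log t) * (M' : ℝ) ^ d * Real.exp (-c0 / (σ ^ 2 * growth d t)) →
    p ≤ 1 / 2 → ∃ z μ : ℝ, |z - 2 * d| ≤ C0 * (σ ^ 2 + 1 / t + Real.sqrt p) ∧ z ≤ 2 * d + 1 ∧
      0 < μ ∧ (∀ h : NeZero M', gau d M' v {V | ¬ Flat z μ V} ≤ ENNReal.ofReal p) ∧
      ∀ (s M N : ℕ) (E lam : ℝ) (c : Site d), |E - z| ≤ lam →
        C1 * lam * (8 * (M * s) + 3 : ℝ) ^ d ≤ 1 → C1 * (8 * (M * s) + 3 : ℝ) ^ d ≤ t →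
        8 * (M * s) + 5 ≤ M' → Real.log (16 * d * (8 * (M * s) + 3 : ℝ) ^ d) ≤ s / 2 →
        box c (4 * (M * s) + 2) ⊆ box 0 N →
          PP d (gl σ) {V | ¬ ∀ j : ℕ, 1 ≤ j → j ≤ M → ∃ y : Site d,
            (sd c y = 4 * j * s ∨ sd c y = 4 * j * s + 1) ∧ DL (box 0 N) E V c y ≤ s / 2} ≤
              ENNReal.ofReal p

/-- QME: the effective band edge. Proof: `wbeZ` for the upper bound; for the lower bound `SgeStmt`,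
`SmxStmt` with `L = ⌊t / 8⌋`, `δ = min (E - z) 1 ≥ 1 / t`, `m = √δ / (8 d)`. -/
def QmeStmt : Prop :=
  ∀ d : ℕ, 3 ≤ d → ∃ c C : ℝ, 0 < c ∧ 0 < C ∧ ∀ σ t : ℝ, σ ≠ 0 → |σ| ≤ c → 1 / |σ| ≤ t →
    σ ^ 2 * growth d t * Real.log t ≤ c → ∃ Es : ℝ, |Es - 2 * d| ≤ C * (σ ^ 2 + 1 / t) ∧
      (∀ E g : ℝ, Es + 1 / t ≤ E → LyaAt d σ E g → c * Real.sqrt (min (E - Es) 1) ≤ g) ∧
      ∀ E g : ℝ, |E - Es| ≤ |σ| → LyaAt d σ E g → g ≤ C * (|E - Es| + 1 / t) ^ c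

end Pool.Agent.LE
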