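import Pool.Agent.LE.StmtsY
import Pool.Agent.Helper3_LEW.CTX

/-!
# Exact asymptotics of the Lyapunov exponent above the effective band edge

Statements of the modules, with proofs. For `d ≥ 3` and every `ε > 0` there is `c > 0` such that for
weak disorder and `t` with `σ² growth(d, t) log t ≤ c` (`t = e^{c/σ²}` for `d ≥ 5`) there is `Es` with

  `(1 - ε) √(E - Es) ≤ γ(σ, E) ≤ (1 + ε) √(E - Es)` for `Es + 1 / t ≤ E ≤ Es + c`.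

The lower bound is the Combes-Thomas bound with the sharp constant and the multiscale induction with
a small loss. The upper bound: `u = G_B(b, ·)` is a positive supersolution in a cube `B` of radius
`R ~ t / 10` and `w`, the flat landscape function, solves `(z - V - Δ) w = 1`. For `h = log (u / w)`
the log Caccioppoli inequality with the sharp constant (SLC) says that the mean of `(h(x + e_i) -
h(x))²` over a cube of side `≥ C_ε / √(E - z)` is at most `(1 + C ε) (E - z)`. By Cauchy-Schwarz the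
means of `h` over such cubes change by at most `(1 + C ε) √(E - z) n` over the distance `n`. So
`G_B(b, b + n e_i) ≥ exp (-(1 + C ε) √(E - z) n - C_ε log (1 / (E - z)))`.
-/

set_option autoImplicit false

open MeasureTheory ProbabilityTheory Function Filter

open scoped ENNReal BigOperators Topology NNReal

noncomputable section

namespace Pool.Agent.LE

open Pool.Agent.Anderson Pool.Agent.Loc Pool.Agent.Mob Pool.Agent.Helper54.Bal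
  Pool.Agent.Helper96.EXP Pool.Agent.BED

/-! ### A. Deterministic: the logarithm of a positive supersolution -/

/-- the energy of `h` in the cube of radius `s` about `p` -/
def eg {d : ℕ} (h : Site d → ℝ) (p : Site d) (s : ℕ) : ℝ :=
  ∑ x ∈ box p s, ∑ i : Fin d,
    if x + Pi.single i 1 ∈ box p s then (h (x + Pi.single i 1) - h x) ^ 2 else 0

/-- the mean of `h` over the cube of radius `s` about `p` -/
def av {d : ℕ} (h : Site d → ℝ) (p : Site d) (s : ℕ) : ℝ :=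
  (∑ x ∈ box p s, h x) / (2 * (s : ℝ) + 1) ^ d

/-- `h` is the logarithm of a positive supersolution, on the cube of radius `R` about `b`, for the
conductances `ω(x) ω(y)`, `|ω - 1| ≤ ε`, and a killing rate at most `k` -/
def LS {d : ℕ} (ω h : Site d → ℝ) (ε k : ℝ) (b : Site d) (R : ℕ) : Prop :=
  (∀ x ∈ box b (R + 1), |ω x - 1| ≤ ε) ∧
  ∀ x ∈ box b R, ω x * ∑ i : Fin d,
    (ω (x + Pi.single i 1) * (Real.exp (h (x + Pi.single i 1) - h x) - 1) +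
      ω (x - Pi.single i 1) * (Real.exp (h (x - Pi.single i 1) - h x) - 1)) ≤ k

/-- ELE: elementary inequalities. First: let `A ≤ B`, `δ = B - A`, `r = e^s`; then
`A² (r - 1) + B² (1/r - 1) = A² (r + 1/r - 2) + (2 A δ + δ²) (1/r - 1)`; for `r ≤ 1` the second term
is `≥ 0`; for `r > 1` it is `≥ - 2 A δ (1 - 1/r) - δ² ≥ - A² (1 - 1/r)² / 2 - 3 δ²` and
`(1 - 1/r)² ≤ (r - 1)²/r = r + 1/r - 2`; finally `r + 1/r - 2 ≥ s²`. The case `A > B` follows with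
`s → -s`. Second: `m = min A B`; `A (e^s - 1) + B (e^{-s} - 1) = m (2 cosh s - 2) + (A - m) (e^s - 1)
+ (B - m) (e^{-s} - 1)` and `e^x - 1 ≥ - |x|`. -/
def EleStmt : Prop :=
  (∀ A B s : ℝ, 0 ≤ A → 0 ≤ B → 1 / 2 * (min A B) ^ 2 * s ^ 2 - 3 * (A - B) ^ 2 ≤
    A ^ 2 * (Real.exp s - 1) + B ^ 2 * (Real.exp (-s) - 1)) ∧
  ∀ A B s : ℝ, 0 ≤ A → 0 ≤ B → min A B * s ^ 2 - |A - B| * |s| ≤
    A * (Real.exp s - 1) + B * (Real.exp (-s) - 1)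

/-- LCI: log Caccioppoli inequality. Proof: `φ(x) = min 1 (2 - |x - p|_∞ / s)`, `0` outside
`box p (2 s)`. Multiply the inequality in `LS` at `x` by `φ(x)²` and sum over `x ∈ box p (2 s)`. The
edge `{x, x + e_i}` contributes `ω(x) ω(x + e_i) (φ(x)² (e^s - 1) + φ(x + e_i)² (e^{-s} - 1))`,
`s = h(x + e_i) - h(x)` (also when one end is not in `box p (2 s)`: there `φ = 0` at both ends), which
is at least `0.81 / 2 min(φ)² s² - 3.63 (φ(x) - φ(x + e_i))²` (`EleStmt`). `|φ(x) - φ(x + e_i)| ≤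
1 / s` and there are at most `d (4 s + 1)^d` edges with `φ(x) ≠ φ(x + e_i)`, and
`(4 s + 1)^d ≤ 2^d (2 s + 1)^d`. -/
def LciStmt : Prop :=
  ∀ (d : ℕ) (ω h : Site d → ℝ) (ε k : ℝ) (p : Site d) (s : ℕ), 1 ≤ d → 0 ≤ ε → ε ≤ 1 / 10 →
    0 ≤ k → 1 ≤ s → LS ω h ε k p (2 * s) →
      eg h p s ≤ 10 * d * 2 ^ d * (1 / (s : ℝ) ^ 2 + k) * (2 * (s : ℝ) + 1) ^ d

/-- PCR: the Poincare inequality on cubes. Proof: `∑_x (f x - av)² = 1/(2 n^d) ∑_{x,y} (f x - f y)²`,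
`n = 2 s + 1`. Change the coordinates of `x` into those of `y` one at a time: `v_i = (y_1, …, y_i,
x_{i+1}, …, x_d)`; `(f x - f y)² ≤ d ∑_i (f v_i - f v_{i-1})²`, and, with `n - 1` edges on a line,
`(f v_i - f v_{i-1})² ≤ n ∑_{edges of the line} (∇f)²`. For fixed `i` each line is used by
`n^{d-1} n²` pairs `(x, y)`: the total is at most `1/(2 n^d) d n^{d-1} n² n eg = d n² eg / 2`.
(Another way: induction on `d` / the inequality of Efron and Stein.) -/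
def PcrStmt : Prop :=
  ∀ (d : ℕ) (f : Site d → ℝ) (p : Site d) (s : ℕ), 1 ≤ d →
    ∑ x ∈ box p s, (f x - av f p s) ^ 2 ≤ d * (2 * (s : ℝ) + 1) ^ 2 * eg f p s

/-- SLC: log Caccioppoli inequality with the sharp constant. Proof: `r = ⌈ε s⌉`, `φ = 1` on
`box p (s + 1)`, `φ = 0` outside `box p (s + 1 + r)`, linear in `|x - p|_∞` between. Multiply the
inequality in `LS` by `φ(x)` (not squared) and sum. By the second part of `EleStmt`, with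
`δ = |φ(x) - φ(x + e_i)| ≤ 1 / r`, `a = ω(x) ω(x + e_i) ∈ [(1 - ε)², (1 + ε)²]`,
`(1 - ε)² ∑_{x ∈ box p s} (h(x + e_i) - h(x))² ≤ k ∑ φ + 1.21 ∑_{edges} δ |∇h|`. Here
`∑ φ ≤ (2 (s + 1 + r) + 1)^d ≤ (1 + 2 ε)^d (2 s + 1)^d` (`s ≥ 1/ε²`), and the edges with `δ ≠ 0` are
in `box p (2 s)`, so the last sum is at most `(1/r) (d (4 s + 1)^d)^{1/2} (eg h p (2 s))^{1/2} ≤
(1/(ε s)) C √k (2 s + 1)^d ≤ C ε k (2 s + 1)^d` (`LciStmt` for `2 s`; `1/s² ≤ k`; `1/s ≤ ε² √k`). -/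
def SlcStmt : Prop :=
  ∀ d : ℕ, 1 ≤ d → ∃ C : ℝ, 1 ≤ C ∧ ∀ (ω h : Site d → ℝ) (ε k : ℝ) (p : Site d) (s : ℕ)
    (i : Fin d), 0 < ε → ε ≤ 1 / 10 → 0 < k → k ≤ 1 → 1 / ε ^ 2 ≤ Real.sqrt k * s →
    LS ω h ε k p (4 * s) →
      ∑ x ∈ box p s, (h (x + Pi.single i 1) - h x) ^ 2 ≤
        (1 + C * ε) * k * (2 * (s : ℝ) + 1) ^ d

/-- LCP: the value at the centre and the mean. Proof: for `1 ≤ r ≤ s` and `r' = ⌊r / 2⌋`,
`(av h p r' - av h p r)² ≤ (2 r' + 1)^{-d} ∑_{box p r} (h - av h p r)² ≤ C (2 r + 1)² (1/r² + k)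
≤ C' (1 + k r²)` (`PcrStmt`, `LciStmt` for `r`; `2 r + 1 ≤ 3 (2 r' + 1)`). Halve `s` until `r' = 0`
(at most `2 + 2 log s` steps, `av h p 0 = h p`), the sum of the radii is at most `2 s`. -/
def LcpStmt : Prop :=
  ∀ d : ℕ, 1 ≤ d → ∃ C : ℝ, 1 ≤ C ∧ ∀ (ω h : Site d → ℝ) (ε k : ℝ) (p : Site d) (s : ℕ),
    0 ≤ ε → ε ≤ 1 / 10 → 0 ≤ k → 1 ≤ s → LS ω h ε k p (4 * s) →
      |h p - av h p s| ≤ C * (1 + Real.log s + Real.sqrt k * s)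

/-- LCS: the logarithm of a positive supersolution decreases at most at the rate `√k`. Proof:
`s = ⌈1 / (ε² √k)⌉`, `4 s ≤ R` for `C₂ ≥ 8 / ε²`. `box (p + e_i) s = e_i + box p s`, so
`av h (p + e_i) s - av h p s` is the mean of `h(x + e_i) - h(x)` over `box p s`, in absolute value at
most `√((1 + C ε) k) ≤ (1 + C ε) √k` (Cauchy-Schwarz, `SlcStmt`). Sum over the `n` steps, and use
`LcpStmt` at both ends: `log s ≤ log (2 / (ε² √k))`, `√k s ≤ 2 / ε²`. -/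
def LcsStmt : Prop :=
  ∀ d : ℕ, 1 ≤ d → ∃ C₁ : ℝ, 1 ≤ C₁ ∧ ∀ ε : ℝ, 0 < ε → ε ≤ 1 / 10 → ∃ C₂ : ℝ, 1 ≤ C₂ ∧
    ∀ (ω h : Site d → ℝ) (k : ℝ) (b : Site d) (n R : ℕ) (i : Fin d), 0 < k → k ≤ 1 →
    C₂ / Real.sqrt k ≤ R → LS ω h ε k b (n + R) →
      |h (b + Pi.single i (n : ℤ)) - h b| ≤
        (1 + C₁ * ε) * Real.sqrt k * n + C₂ * (1 + Real.log (1 / k))

/-! ### B. Above the edge -/

/-- the landscape function is within the factors `1 ± ε` of `μ` -/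
def FlatE {d M : ℕ} [NeZero M] (ε z μ : ℝ) (V : Tor d M → ℝ) : Prop :=
  (∀ x, -1 ≤ V x) ∧ (AM z V).PosDef ∧ ∀ x, |DD z V x - μ| ≤ ε * μ

/-- FLE: flatness with the precision `ε`, and conduction at the same energy. Proof: in
`Pool.Agent.BED.flat` the stage `hS` has a Lipschitz extension `F` of `DD z · 0` with the constant
`m (C + √(C growth))`, `m ≤ 2 μ`; once more Gaussian concentration, now with the precision `ε μ / 4`,
around `μ' = ∫ F`, at all sites (`CovStmt`): probability at most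
`2 M^d exp (-c ε² / (σ² growth))`; `|μ' - μ| ≤ μ / 20`. `FlatE ε z μ'` implies `Flat z μ'`. The
conduction is `Pool.Agent.LE.H54W.cpf_core` (`cdf : CdfStmt` is `Pool.Agent.LE.H59W.cdf`). -/
def FleStmt : Prop :=
  ∀ (d : ℕ) (ε : ℝ), 3 ≤ d → 0 < ε → ε ≤ 1 / 50 → ∃ c0 C0 C1 : ℝ, 0 < c0 ∧ 0 < C0 ∧ 1 ≤ C1 ∧
    ∀ (M' : ℕ) (v : ℝ≥0) (σ t p : ℝ), σ ≠ 0 → |σ| ≤ 1 → (v : ℝ) = σ ^ 2 → 3 ≤ M' → 1 ≤ t →
    t ≤ M' → p = C0 * (1 + Real.log t) * (M' : ℝ) ^ d * Real.exp (-c0 / (σ ^ 2 * growth d t)) →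
    p ≤ 1 / 2 → ∃ z μ : ℝ, |z - 2 * d| ≤ C0 * (σ ^ 2 + 1 / t + Real.sqrt p) ∧ z ≤ 2 * d + 1 ∧
      9 * t ≤ μ ∧
      (∀ h : NeZero M', gau d M' v {V | ¬ FlatE ε z μ V} ≤ ENNReal.ofReal p) ∧
      ∀ (s M N : ℕ) (E lam : ℝ) (c : Site d), |E - z| ≤ lam →
        C1 * lam * (8 * (M * s) + 3 : ℝ) ^ d ≤ 1 → C1 * (8 * (M * s) + 3 : ℝ) ^ d ≤ t →
        8 * (M * s) + 5 ≤ M' → Real.log (16 * d * (8 * (M * s) + 3 : ℝ) ^ d) ≤ s / 2 →
        box c (4 * (M * s) + 2) ⊆ box 0 N →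
          PP d (gl σ) {V | ¬ ∀ j : ℕ, 1 ≤ j → j ≤ M → ∃ y : Site d,
            (sd c y = 4 * j * s ∨ sd c y = 4 * j * s + 1) ∧ DL (box 0 N) E V c y ≤ s / 2} ≤
              ENNReal.ofReal p

/-- CDE: lower bound for the Green function of a cube above the edge (deterministic). Proof:
`B = box b (n + R)`, `E = z + lam`, `u = gr W B E b ·`. `E - H_B ≥ lam` (`H28W.qform_flat` shifted by
`b`), so the matrix is positive definite with nonpositive entries off the diagonal, `u ≥ 0`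
(`Pool.Agent.BED`, `Helper54_BED/LA.lean`), and `u > 0` on `B` (`u(x) = 0` would imply `u = 0` at all
the neighbours of `x` in `B`, hence at `b`; but `(E - W b) u(b) ≥ 1`, `E - W b ≤ 2 d + 3`). Let
`ω(x) = DD z (…) (x - b) / μ` (the landscape function seen on `ℤ^d`), `(z - W) ω - Δ ω = 1 / μ` on
`box b (n + R)`, and `h = log (u / ω)`. On `box b (n + R - 1)` one has `(E - W) u - Δ u ≥ 0`, i.e.
`∑_y ω(y) e^{h(y) - h(x)} ≤ (E - W(x)) ω(x) = lam ω(x) + 1 / μ + ∑_y ω(y)`: so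
`LS ω h ε k b (n + R - 1)` with `k = (1 + 4 ε) lam` (`1 / μ ≤ ε lam`). `LcsStmt` (with `R - 1`) gives
`h(b + n e_i) ≥ h(b) - …`, and `u = ω e^h`, `√k ≤ (1 + 2 ε) √lam`. -/
def CdeStmt : Prop :=
  ∀ d : ℕ, 1 ≤ d → ∃ C₁ : ℝ, 1 ≤ C₁ ∧ ∀ ε : ℝ, 0 < ε → ε ≤ 1 / 50 → ∃ C₂ : ℝ, 1 ≤ C₂ ∧
    ∀ (M : ℕ) [NeZero M] (z μ lam : ℝ) (W : Site d → ℝ) (b : Site d) (n R : ℕ) (i : Fin d),
    z ≤ 2 * d + 1 → 0 < lam → lam ≤ 1 / 2 → 0 < μ → 1 ≤ ε * lam * μ → 2 * (n + R) + 5 ≤ M →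
    FlatE ε z μ (fun x : Tor d M => W (b + rep x)) → C₂ / Real.sqrt lam ≤ R →
      Real.exp (-((1 + C₁ * ε) * Real.sqrt lam * n + C₂ * (1 + Real.log (1 / lam)))) ≤
        gr W (box b (n + R)) (z + lam) b (b + Pi.single i (n : ℤ))

/-- CTS: the Combes-Thomas bound with the sharp constant, in the sup distance. Proof: let
`|x_i - y_i| = sd x y`. Conjugate `E - H_Λ` by `e^{± κ x_i}`: the quadratic form changes by
`- 2 (cosh κ - 1) ∑_x f(x) f(x + e_i)` (both sites in `Λ`), at most `2 (cosh κ - 1) ∑ f²` in absolute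
value, so the conjugated matrix `M` has `⟨f, M f⟩ ≥ g |f|²`, `|M⁻¹| ≤ 1 / g`, and
`|(E - H_Λ)⁻¹(x, y)| e^{κ |x_i - y_i|} ≤ 1 / g` for the right choice of the sign. (As
`H3Y.combes_thomas_cosh`.) -/
def CtsStmt : Prop :=
  ∀ (d : ℕ) (V : Site d → ℝ) (Λ : Finset (Site d)) (E δ κ g : ℝ), 1 ≤ d → 0 < g → 0 ≤ κ →
    2 * (Real.cosh κ - 1) + g ≤ δ →
    (∀ u : Site d → ℝ, δ * ∑ y ∈ Λ, u y ^ 2 ≤ qform V Λ E u) →
      (RM V Λ E).det ≠ 0 ∧ ∀ x y, |gr V Λ E x y| ≤ 1 / g * Real.exp (-κ * sd x y)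

/-- SGX: above the edge all the sites are good, with the sharp rate. Proof: as `H28W.sge`, with
`CtsStmt`, `κ = (1 - ε) √δ`, `g = ε δ`: `2 (cosh κ - 1) ≤ κ² (1 + κ² / 6) ≤ δ (1 - 2 ε + ε²)
(1 + ε / 6) ≤ δ (1 - ε)`. -/
def SgxStmt : Prop :=
  ∀ (d M' L : ℕ) [NeZero M'] (v : ℝ≥0) (σ z μ E δ ε p : ℝ), 1 ≤ d → σ ≠ 0 → (v : ℝ) = σ ^ 2 →
    0 < μ → z ≤ 2 * d + 1 → gau d M' v {V | ¬ Flat z μ V} ≤ ENNReal.ofReal p →
    0 < ε → ε ≤ 1 / 2 → 0 < δ → δ ≤ ε → z + δ ≤ E → 1 ≤ L → 8 * L + 3 ≤ M' →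
    Real.log (2 / (ε * δ)) ≤ ε * Real.sqrt δ * L →
      PP d (gl σ) {V | ¬ AllGoodC V 0 L ((1 - 2 * ε) * Real.sqrt δ) E} ≤ ENNReal.ofReal p

/-- SMS: the multiscale induction with a small loss in the rate. Proof: as `H15X.smx`, with the
parameter `ε` of `H15X.smn_core` equal to `ε m` and `N0 ≥ 400 / ε`. -/
def SmsStmt : Prop :=
  ∀ (d : ℕ) (ε : ℝ), 1 ≤ d → 0 < ε → ε < 1 → ∃ A p₀ : ℝ, 1 ≤ A ∧ 0 < p₀ ∧
    ∀ (σ E m : ℝ) (L : ℕ), σ ≠ 0 → |σ| ≤ 1 →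
    0 < m → m ≤ 1 → 1 ≤ L → A * (1 + Real.log (L / (|σ| * m))) ≤ m * L →
    PP d (gl σ) {V | ¬ AllGoodC V 0 L m E} ≤ ENNReal.ofReal p₀ →
      Tendsto (fun M : ℕ => PP d (gl σ) {V | ¬ AllGoodC V 0 M ((1 - ε) * m) E}) atTop (𝓝 0)

/-! ### C. The upper bound -/

/-- MTR: triangle inequality for the means. Proof: `Pool.Agent.LE.VtrStmt` (`H54W.vtr`) with
`S = {x}` gives `P(D(x, y) > D(x, u) + D(u, y) + T) ≤ 8 / |σ| e^{-T}` (`gr ≠ 0` almost surely,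
`UfmStmt` or `FmnStmt`, second part), so `E (D(x, y) - D(x, u) - D(u, y))^+ ≤ 1 + log⁺ (8 / |σ|)`.
The integrability of `D` is in `FamN` (`FmnStmt`). -/
def MtrStmt : Prop :=
  ∀ (d N : ℕ) (σ E : ℝ) (x u y : Site d), 1 ≤ d → σ ≠ 0 → |σ| ≤ 1 → x ∈ box (0 : Site d) N →
    u ∈ box (0 : Site d) N → y ∈ box (0 : Site d) N →
    Integrable (fun V => DL (box 0 N) E V x y) (PP d (gl σ)) ∧
    ∫ V, DL (box 0 N) E V x y ∂(PP d (gl σ)) ≤ ∫ V, DL (box 0 N) E V x u ∂(PP d (gl σ)) +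
      ∫ V, DL (box 0 N) E V u y ∂(PP d (gl σ)) + (10 + Real.log (1 / |σ|))

/-- CDP: conduction in a large cube, with probability. Proof: `Λ = box 0 N`, `B = box b (n + R)`,
`x = b + n e_i`; `FlatE` on the torus around `b` has probability `≥ 1 - p` (`H73.lawT`, as in
`H28W.sge`). On it `G_Λ(b, x) = G_B(b, x) + ∑ G_B(b, u) G_Λ(y, x)` over `u ∈ B`, `y ∉ B`, `y ~ u`
(resolvent identity; `sd b u = n + R`); `|G_B(b, u)| ≤ (2 / lam) e^{-√lam (n + R) / 2}` (`CtsStmt`,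
`κ = √lam / 2`, `g = lam / 2`); `|G_Λ(y, x)| ≤ e^{√lam R / 8}` for all `y`, outside an event of
probability at most `K (2 (n + R) + 3)^d / |σ| e^{-√lam R / 8} ≤ e^{-√lam R / 16}` (Wegner for one
matrix element); `G_B(b, x) ≥ exp (-(1 + C₁ ε) √lam n - …)` (`CdeStmt`), `n ≤ R / 8`,
`1 + C₁ ε ≤ 2`: the sum is at most half of `G_B(b, x)` if `C₂` in the last condition is large. -/
def CdpStmt : Prop :=
  ∀ d : ℕ, 1 ≤ d → ∃ C₁ : ℝ, 1 ≤ C₁ ∧ ∀ ε : ℝ, 0 < ε → ε ≤ 1 / 50 → C₁ * ε ≤ 1 →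
    ∃ C₂ : ℝ, 1 ≤ C₂ ∧
    ∀ (M' n R N : ℕ) (v : ℝ≥0) (σ z μ lam p : ℝ) (b : Site d) (i : Fin d), σ ≠ 0 → |σ| ≤ 1 →
    (v : ℝ) = σ ^ 2 → z ≤ 2 * d + 1 → 0 < lam → lam ≤ 1 / 2 → 0 < μ → 1 ≤ ε * lam * μ →
    (∀ h : NeZero M', gau d M' v {V | ¬ FlatE ε z μ V} ≤ ENNReal.ofReal p) →
    2 * (n + R) + 5 ≤ M' → 8 * n ≤ R → box b (n + R + 1) ⊆ box 0 N →
    C₂ * (1 + Real.log (1 / lam) + Real.log (1 / |σ|) + Real.log R) ≤ Real.sqrt lam * R →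
      PP d (gl σ) {V | ¬ DL (box 0 N) (z + lam) V b (b + Pi.single i (n : ℤ)) ≤
        (1 + C₁ * ε) * Real.sqrt lam * n + C₂ * (1 + Real.log (1 / lam))} ≤
          ENNReal.ofReal (p + Real.exp (-(Real.sqrt lam * R / 16)))

/-- UPX: from conduction with probability to the Lyapunov exponent. Proof: `cstB` (`H28W.cstB`,
second moment of `D⁺`, `|E| ≤ 2 d + 2`): on the bad event `E (D⁺ 1_bad) ≤ (C |σ|^{-A} (n + 1)²)^{1/2}
P(bad)^{1/2} ≤ 1` by the hypothesis on `q`, so the mean of `D(b, b + n e_i)` is at most `a n + 1` for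
all `b` with `box b (n + R + 1) ⊆ box 0 N`; `MtrStmt` along `0, n e_i, 2 n e_i, …, m n e_i` gives
`E D(0, m n e_i) ≤ m (a n + 11 + log (1 / |σ|)) ≤ m (a (1 + ε) n)`; `UpeStmt` with `Q₁ = 1`, `ℓ = n`,
`y = e_i`, `M₀ = 2 R + 3`. -/
def UpxStmt : Prop :=
  ∀ d : ℕ, 1 ≤ d → ∃ A C : ℝ, 1 ≤ A ∧ 1 ≤ C ∧
    ∀ (n R : ℕ) (σ E g a ε q : ℝ) (i : Fin d), σ ≠ 0 → |σ| ≤ 1 → |E| ≤ 2 * d + 2 → 1 ≤ n →
    0 < ε → 0 < a → 0 ≤ q → C * |σ| ^ (-A) * (n : ℝ) ^ 2 * q ≤ 1 →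
    12 + Real.log (1 / |σ|) ≤ ε * a * n →
    (∀ (N : ℕ) (b : Site d), box b (n + R + 1) ⊆ box 0 N →
      PP d (gl σ) {V | ¬ DL (box 0 N) E V b (b + Pi.single i (n : ℤ)) ≤ a * n} ≤
        ENNReal.ofReal q) →
    LyaAt d σ E g → g ≤ (1 + ε) * a

/-- QMS: exact asymptotics above the effective band edge. Proof: as `H93W.qme`, with `FleStmt` at the
scale `T = K t`; `n = ⌊T / 20⌋`, `R = 8 n`, `L = ⌊T / 10⌋`. -/
def QmsStmt : Prop :=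
  ∀ (d : ℕ) (ε : ℝ), 3 ≤ d → 0 < ε → ε < 1 → ∃ c C : ℝ, 0 < c ∧ 0 < C ∧
    ∀ σ t : ℝ, σ ≠ 0 → |σ| ≤ c → 1 / |σ| ≤ t → σ ^ 2 * growth d t * Real.log t ≤ c →
    ∃ Es : ℝ, |Es - 2 * d| ≤ C * (σ ^ 2 + 1 / t) ∧
      (∀ E g : ℝ, Es + 1 / t ≤ E → LyaAt d σ E g → c * Real.sqrt (min (E - Es) 1) ≤ g) ∧
      (∀ E g : ℝ, Es + 1 / t ≤ E → E ≤ Es + c → LyaAt d σ E g →
        (1 - ε) * Real.sqrt (E - Es) ≤ g ∧ g ≤ (1 + ε) * Real.sqrt (E - Es)) ∧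
      ∀ E g : ℝ, |E - Es| ≤ |σ| → LyaAt d σ E g → g ≤ C * (|E - Es| + 1 / t) ^ c

end Pool.Agent.LE
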